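import Pool.Agent.Lib.MP_1a91b9_ntM.E.XDef
import Pool.Agent.Lib.MP_1a91b9_ntQ.DW.UBf
import Pool.Agent.Lib.MP_1a91b9_ntQ.R.NonV4

/-!
# Quadratic twists over the abelian extensions of exponent dividing `4`, part D: sums of the
multiplicative functions which depend on the vector `D.a q` and are not always `1`

The indicator of `D.a q = φ₀` is the mean of the signed quadratic characters of the class vectors `c`,
and the Euler products of the nontrivial ones, with both signs, are bounded.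
-/

set_option autoImplicit false

namespace Pool.Agent.Lib.MP_1a91b9_ntM.E

open Finset Pool.Agent.Lib.MP_1a91b9_ntH Pool.Agent.Lib.MP_1a91b9_ntQ

noncomputable section

variable {ι : Type} [DecidableEq ι] {κ : Type} [Fintype κ] [DecidableEq κ]

private theorem bx_two (x : ZMod 2) : x = 0 ∨ x = 1 := by
  revert x
  decide

private theorem bx_sg_add (x y : ZMod 2) : sg (x + y) = sg x * sg y := by
  rcases bx_two x with rfl | rfl <;> rcases bx_two y with rfl | rfl
  · simp [sg]
  · simp [sg]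
  · simp [sg]
  · have h : (1 + 1 : ZMod 2) = 0 := by decide
    rw [h]
    simp [sg]

private theorem bx_sg_sum {α : Type} (s : Finset α) (f : α → ZMod 2) :
    sg (∑ j ∈ s, f j) = ∏ j ∈ s, sg (f j) := by
  classical
  induction s using Finset.induction_on with
  | empty => simp [sg]
  | insert a s ha ih => rw [sum_insert ha, prod_insert ha, bx_sg_add, ih]

/-- Orthogonality of the characters of `κ → ZMod 2`. -/
theorem bx_orth (x : κ → ZMod 2) :
    ∑ c : κ → ZMod 2, sg (∑ j, c j * x j) = if x = 0 then (2 : ℝ) ^ Fintype.card κ else 0 := by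
  have h1 : ∀ c : κ → ZMod 2, sg (∑ j, c j * x j) = ∏ j, sg (c j * x j) := fun c =>
    bx_sg_sum univ fun j => c j * x j
  rw [sum_congr rfl fun c _ => h1 c,
    ← Fintype.piFinset_univ,
    ← prod_univ_sum (fun _ : κ => (univ : Finset (ZMod 2))) fun j t => sg (t * x j)]
  have h2 : ∀ j, ∑ t : ZMod 2, sg (t * x j) = if x j = 0 then (2 : ℝ) else 0 := by
    intro j
    have h3 : (univ : Finset (ZMod 2)) = {0, 1} := by decide
    rw [h3, sum_pair (by decide), zero_mul, one_mul]
    rcases bx_two (x j) with h4 | h4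
    · rw [h4]
      simp [sg]
      norm_num
    · rw [h4]
      simp [sg]
  simp only [h2]
  split_ifs with h
  · subst h
    simp
  · obtain ⟨j, hj⟩ := Function.ne_iff.1 h
    exact prod_eq_zero (mem_univ j) (if_neg hj)

/-- **The bound for the multiplicative functions of the vector `D.a q`.** -/
theorem badX [PS ι] {D : Dat2 ι κ} (hD : D.OK) (hN : D.NV1) : BadX D := by
  intro η h0 h1 ⟨φ₀, hφ⟩ ε hε
  obtain ⟨C1, hC1⟩ := hD.cheb
  obtain ⟨C2, hC2⟩ := hD.zt
  obtain ⟨C3, hC3⟩ := hD.cb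
  -- the number `m`
  obtain ⟨n, hn⟩ : ∃ n : ℝ, n = (2 : ℝ) ^ Fintype.card κ := ⟨_, rfl⟩
  have hn0 : 0 < n := by rw [hn]; positivity
  obtain ⟨m, hm⟩ := exists_nat_ge (n / (1 - η φ₀) + 1)
  have hδ : 0 < 1 - η φ₀ := by linarith
  have hm1 : (1 : ℝ) ≤ m := by
    have : 0 < n / (1 - η φ₀) := by positivity
    linarith
  have hm0 : (0 : ℝ) < m := by linarith
  have hm1' : 1 ≤ m := by exact_mod_cast hm1
  have hnm : n / m ≤ 1 - η φ₀ := by
    rw [div_le_iff₀ hm0]
    have h2 : n / (1 - η φ₀) ≤ m := by linarith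
    rw [div_le_iff₀ hδ] at h2
    linarith
  -- the characters
  obtain ⟨χ, hχ⟩ : ∃ χ : {c : κ → ZMod 2 // c ≠ 0} → ι → ℝ,
      χ = fun c q => -(sg (∑ j, c.1 j * φ₀ j) * sg (∑ j, c.1 j * D.a q j)) := ⟨_, rfl⟩
  have hch : ∀ (c : κ → ZMod 2) (q : ι), D.ch ∅ c q = sg (∑ j, c j * D.a q j) := by
    intro c q
    unfold Dat2.ch Dat2.ex1
    rw [if_neg (notMem_empty q), sum_empty, add_zero]
  have hB : ∀ c : {c : κ → ZMod 2 // c ≠ 0}, ∃ B, CharB (χ c) B := by
    intro c
    rcases bx_two (∑ j, c.1 j * φ₀ j) with h2 | h2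
    · obtain ⟨B, hB⟩ := hN ∅ c.1 (Or.inr c.2)
      refine ⟨B, ?_⟩
      have h3 : χ c = fun q => -(D.ch ∅ c.1 q) := by
        rw [hχ]
        funext q
        simp only [h2, hch, sg, if_true, one_mul]
      rw [h3]
      exact hB
    · refine ⟨C3 * (1 + Real.log (nm (∅ : Finset ι))), ?_⟩
      have h3 : χ c = D.ch ∅ c.1 := by
        rw [hχ]
        funext q
        have h4 : (1 : ZMod 2) ≠ 0 := by decide
        simp only [h2, hch, sg, if_neg h4, neg_mul, one_mul, neg_neg]
      rw [h3]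
      exact hC3 ∅ c.1 (Or.inr c.2)
  choose B hB using hB
  obtain ⟨K, hK, hub⟩ := Pool.Agent.Lib.MP_1a91b9_ntQ.DW.ubf
    (τ := {c : κ → ZMod 2 // c ≠ 0}) hC1 hC2 m hm1'
  have hw : ∀ q, 0 ≤ η (D.a q) ∧ η (D.a q) ≤ 1 ∧
      η (D.a q) ≤ ((m - 1 : ℝ) + ∑ c, χ c q) / m := by
    intro q
    refine ⟨h0 _, h1 _, ?_⟩
    have e1 : ∑ c : {c : κ → ZMod 2 // c ≠ 0}, χ c q =
        1 - if D.a q = φ₀ then n else 0 := by
      have e2 := bx_orth (fun j => φ₀ j + D.a q j)
      have e3 : (∑ c : κ → ZMod 2, sg (∑ j, c j * (φ₀ j + D.a q j))) =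
          1 - ∑ c : {c : κ → ZMod 2 // c ≠ 0}, χ c q := by
        rw [Fintype.sum_eq_add_sum_subtype_ne
          (fun c : κ → ZMod 2 => sg (∑ j, c j * (φ₀ j + D.a q j))) 0]
        have e4 : sg (∑ j, (0 : κ → ZMod 2) j * (φ₀ j + D.a q j)) = 1 := by
          simp [sg]
        rw [e4, sub_eq_add_neg, ← sum_neg_distrib]
        congr 1
        refine sum_congr rfl fun c _ => ?_
        rw [hχ]
        simp only [neg_neg]
        rw [← bx_sg_add, ← sum_add_distrib]
        congr 1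
        refine sum_congr rfl fun j _ => ?_
        ring
      have e5 : ((fun j => φ₀ j + D.a q j) = 0) ↔ D.a q = φ₀ := by
        have h2 : ∀ x y : ZMod 2, x + y = 0 ↔ y = x := by decide
        constructor
        · intro h
          funext j
          exact (h2 _ _).1 (congrFun h j)
        · intro h
          funext j
          exact (h2 _ _).2 (congrFun h j)
      rw [e3] at e2
      rw [if_congr e5 rfl rfl, ← hn] at e2
      linarith
    rw [e1, le_div_iff₀ hm0]
    split_ifs with h2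
    · rw [h2]
      rw [div_le_iff₀ hm0] at hnm
      linarith
    · have h3 := h1 (D.a q)
      have h4 : η (D.a q) * m ≤ 1 * m := mul_le_mul_of_nonneg_right h3 hm0.le
      linarith
  have hmain := hub χ B hB (fun q => η (D.a q)) hw
  -- the limit
  obtain ⟨A, hA⟩ : ∃ A : ℝ, A = K * (∏ i, B i) ^ (1 / (m : ℝ)) := ⟨_, rfl⟩
  have hlim : Filter.Tendsto (fun X : ℕ => A * Real.log X ^ (-(1 / (m : ℝ)))) Filter.atTop
      (nhds (A * 0)) := by
    refine Filter.Tendsto.const_mul A ?_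
    have h2 : Filter.Tendsto (fun X : ℕ => Real.log (X : ℝ)) Filter.atTop Filter.atTop :=
      Real.tendsto_log_atTop.comp tendsto_natCast_atTop_atTop
    exact (tendsto_rpow_neg_atTop (by positivity)).comp h2
  rw [mul_zero] at hlim
  obtain ⟨X₁, hX₁⟩ := Filter.eventually_atTop.1 (hlim.eventually (ge_mem_nhds hε))
  refine ⟨max X₁ 2, fun X hX => ?_⟩
  have hX1 : X₁ ≤ X := (le_max_left _ _).trans hX
  have hX2 : 2 ≤ X := (le_max_right _ _).trans hX
  have h5 := hmain X hX2
  have h6 := hX₁ X hX1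
  have hX0 : (0 : ℝ) ≤ X := Nat.cast_nonneg X
  calc ∑ S ∈ Sx ι X, ∏ q ∈ S, η (D.a q)
      ≤ K * X * Real.log X ^ (-(1 / (m : ℝ))) * (∏ i, B i) ^ (1 / (m : ℝ)) := h5
    _ = (A * Real.log X ^ (-(1 / (m : ℝ)))) * X := by rw [hA]; ring
    _ ≤ ε * X := mul_le_mul_of_nonneg_right h6 hX0

end

end Pool.Agent.Lib.MP_1a91b9_ntM.E
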