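import Pool.Agent.Lib.MP_1a91b9_ntM.E.XDef
import Pool.Agent.Lib.MP_1a91b9_ntQ.M.Red

/-!
# Quadratic twists over the abelian extensions of exponent dividing `4`, part D: expansion of the joint
moments
-/

set_option autoImplicit false
set_option linter.unusedSectionVars false

namespace Pool.Agent.Lib.MP_1a91b9_ntM.E

open Finset Pool.Agent.Lib.MP_1a91b9_ntH Pool.Agent.Lib.MP_1a91b9_ntQ Pool.Agent.Lib.MP_1a91b9_ntQ.Da
  Pool.Agent.Lib.MP_1a91b9_ntQ.M Pool.Agent.Lib.MP_1a91b9_ntM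

noncomputable section

section One

variable {ι : Type} [DecidableEq ι] {κ : Type} [Fintype κ] [DecidableEq κ] {k : ℕ} {E : Type}
  [Fintype E] [DecidableEq E]

theorem ex1_empty (D : Dat2 ι κ) (c : κ → ZMod 2) (q : ι) :
    D.ex1 ∅ c q = ∑ j, c j * D.a q j := by
  unfold Dat2.ex1
  rw [sum_empty, add_zero]

theorem Va_zero (D : Dat2 ι κ) (B : Finset ι) : Va D 0 ∅ B = B := by
  unfold Va
  refine filter_true_of_mem fun b _ => ?_
  rw [ex1_empty]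
  exact sum_eq_zero fun j _ => by rw [Pi.zero_apply, zero_mul]

/-- The trivial activity character. -/
theorem kW_zero (D : Dat2 ι κ) (σ : κ → ZMod 2) (P : κ → E → ZMod 2) (R : Matrix E E (ZMod 2))
    (B : Finset ι) : kW D 0 P R (rho D 0 σ) ∅ B = D.kB σ P R B := by
  have hV := Va_zero D B
  set φ : B ⊕ E → (∅ : Finset ι) ⊕ (Va D 0 ∅ B ⊕ E) :=
    Sum.elim (fun b => Sum.inr (Sum.inl ⟨b.1, hV.symm ▸ b.2⟩)) fun e => Sum.inr (Sum.inr e) with hφ
  have hbij : Function.Bijective φ := by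
    constructor
    · rintro (b | e) (b' | e') h
      · simp only [hφ, Sum.elim_inl, Sum.inr.injEq, Sum.inl.injEq, Subtype.mk.injEq] at h
        exact congrArg Sum.inl (Subtype.ext h)
      · simp [hφ] at h
      · simp [hφ] at h
      · simp only [hφ, Sum.elim_inr, Sum.inr.injEq] at h
        rw [h]
    · rintro (x | (v | e))
      · exact absurd x.2 (notMem_empty _)
      · exact ⟨Sum.inl ⟨v.1, Va_subset D 0 ∅ B v.2⟩, rfl⟩
      · exact ⟨Sum.inr e, rfl⟩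
  have h1 : (D.NV 0 P R (Va D 0 ∅ B) (ta D (rho D 0 σ) B) ∅).submatrix φ φ = D.NB σ P R B := by
    funext x y
    rcases x with b | e <;> rcases y with b' | e'
    · show (if (⟨b.1, _⟩ : Va D 0 ∅ B) = ⟨b'.1, _⟩ then ta D (rho D 0 σ) B b.1 else D.s b.1 b'.1) =
        D.N σ B b b'
      by_cases h : b = b'
      · subst h
        rw [if_pos rfl]
        have h2 : D.N σ B b b = D.dg σ b + ∑ k ∈ B.erase b, D.s b k := by
          simp [Dat2.N]
        rw [h2, ta, rho, Pi.zero_apply, zero_add]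
      · have h3 : ¬ ((⟨b.1, hV.symm ▸ b.2⟩ : Va D 0 ∅ B) = ⟨b'.1, hV.symm ▸ b'.2⟩) := fun h4 =>
          h (Subtype.ext (congrArg (fun z : Va D 0 ∅ B => z.1) h4))
        rw [if_neg h3]
        simp [Dat2.N, h]
    · rfl
    · rfl
    · rfl
  unfold kW
  rw [← kcd_bij _ hbij, h1]
  rfl

/-- The power of the size of the kernel of one matrix. -/
theorem kW_pow_w {D : Dat2 ι κ} (hs : D.Sym) (c0 : κ → ZMod 2) (ρ : ι → ZMod 2)
    (σ : κ → ZMod 2) (P : κ → E → ZMod 2) (R : Matrix E E (ZMod 2)) (B : Finset ι) (k : ℕ) :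
    (kW D c0 P R (rho D ρ σ) ∅ B : ℂ) ^ k * (2 ^ k) ^ Fintype.card E =
      ∑ m : E → Lab2 k, e2 (RF R m) * ∑ f : B → Lab2 k,
        (∏ j : B, ww D ∅ c0 (2 ^ k) 0 (f j) j) *
          e2 (D.eS (LSE ι k σ P m) B f + ∑ j : B, Q2 (f j) * ρ j) := by
  have h1 := kW_pow_mul (k := k) hs c0 ρ σ P R B
  have h2 : ∀ m : E → Lab2 k, ∑ f : B → Lab2 k, (∏ j : B, ww D ∅ c0 (2 ^ k) 0 (f j) j) *
      e2 (D.eS (LSE ι k σ P m) B f + ∑ j : B, Q2 (f j) * ρ j) =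
      (((2 ^ k : ℕ) : ℂ)⁻¹) ^ (Va D c0 ∅ B).card * ∑ f : Va D c0 ∅ B → Lab2 k,
        e2 (D.eS (LSE ι k σ P m) B (fun j : B => exz (Va D c0 ∅ B) f j) +
          ∑ j : B, Q2 (exz (Va D c0 ∅ B) f j) * ρ j) := fun m =>
    sum_labL D c0 ∅ B (2 ^ k) fun f =>
      e2 (D.eS (LSE ι k σ P m) B f + ∑ j : B, Q2 (f j) * ρ j)
  have h3 : ∑ m : E → Lab2 k, e2 (RF R m) * ∑ f : B → Lab2 k,
        (∏ j : B, ww D ∅ c0 (2 ^ k) 0 (f j) j) *
          e2 (D.eS (LSE ι k σ P m) B f + ∑ j : B, Q2 (f j) * ρ j) =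
      (((2 ^ k : ℕ) : ℂ)⁻¹) ^ (Va D c0 ∅ B).card *
        ((kW D c0 P R (rho D ρ σ) ∅ B : ℂ) ^ k *
          (2 ^ k) ^ ((Va D c0 ∅ B).card + Fintype.card E)) := by
    rw [h1, mul_sum]
    refine sum_congr rfl fun m _ => ?_
    rw [h2 m]
    ring
  rw [h3, pow_add]
  have h4 : (((2 ^ k : ℕ) : ℂ)⁻¹) ^ (Va D c0 ∅ B).card * (2 ^ k) ^ (Va D c0 ∅ B).card = 1 := by
    rw [← mul_pow]
    push_cast
    rw [inv_mul_cancel₀ (pow_ne_zero _ (by norm_num)), one_pow]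
  linear_combination (-(kW D c0 P R (rho D ρ σ) ∅ B : ℂ) ^ k * (2 ^ k) ^ Fintype.card E) * h4

end One

variable {A : Type} [Fintype A] [DecidableEq A] {k : A → ℕ} {ι : Type} [DecidableEq ι]
  {κ : Type} [Fintype κ] [DecidableEq κ] {E : A → Type} [∀ a, Fintype (E a)]
  [∀ a, DecidableEq (E a)]

/-- The quartic part of the exponent. -/
def qX (ρ : (κ → ZMod 2) → ι → ZMod 2) (cA : A → κ → ZMod 2) (l : LabP k) (q : ι) : ZMod 2 :=
  ∑ a, Q2 (l a) * ρ (cA a) q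

theorem wX_eq (D : Dat2 ι κ) (cA : A → κ → ZMod 2) (l : LabP k) (q : ι) :
    ((wX k cA l (D.a q) : ℝ) : ℂ) = ∏ a, ww D ∅ (cA a) (2 ^ k a) (0 : Lab2 (k a)) (l a) q := by
  unfold wX ww
  rw [Complex.ofReal_prod]
  refine prod_congr rfl fun a _ => ?_
  rw [ex1_empty]
  split_ifs
  · push_cast
    rfl
  · rfl
  · rfl

/-- The product of the powers of the sizes of the kernels. -/
theorem kX_prod {D : Dat2 ι κ} (hs : D.Sym) (ρ : (κ → ZMod 2) → ι → ZMod 2)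
    (cA σ : A → κ → ZMod 2) (P : ∀ a, κ → E a → ZMod 2) (R : ∀ a, Matrix (E a) (E a) (ZMod 2))
    (B : Finset ι) :
    (∏ a, (kX D ρ cA σ P R a B : ℂ) ^ k a) * ∏ a, ((2 : ℂ) ^ k a) ^ Fintype.card (E a) =
      ∑ m : (∀ a, E a → Lab2 (k a)), (∏ a, e2 (RF (R a) (m a))) *
        ∑ f : B → LabP k, (∏ j : B, ((wX k cA (f j) (D.a j) : ℝ) : ℂ)) *
          e2 (D.eS (LSP ι k σ P m) B f + ∑ j : B, qX ρ cA (f j) j) := by
  classical
  rw [← prod_mul_distrib]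
  have h1 : ∀ a, (kX D ρ cA σ P R a B : ℂ) ^ k a * ((2 : ℂ) ^ k a) ^ Fintype.card (E a) =
      ∑ m : E a → Lab2 (k a), e2 (RF (R a) m) * ∑ f : B → Lab2 (k a),
        (∏ j : B, ww D ∅ (cA a) (2 ^ k a) 0 (f j) j) *
          e2 (D.eS (LSE ι (k a) (σ a) (P a) m) B f + ∑ j : B, Q2 (f j) * ρ (cA a) j) := fun a =>
    kW_pow_w hs (cA a) (ρ (cA a)) (σ a) (P a) (R a) B (k a)
  rw [prod_congr rfl fun a _ => h1 a, Finset.prod_univ_sum, Fintype.piFinset_univ]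
  refine sum_congr rfl fun m _ => ?_
  rw [prod_mul_distrib]
  congr 1
  rw [Finset.prod_univ_sum, Fintype.piFinset_univ,
    ← Equiv.sum_comp (Equiv.piComm fun (_ : B) (a : A) => Lab2 (k a))]
  refine sum_congr rfl fun f _ => ?_
  rw [prod_mul_distrib, eS_LSP]
  congr 1
  · rw [prod_comm]
    refine prod_congr rfl fun j _ => ?_
    rw [wX_eq]
    rfl
  · have h2 : ∑ j : B, qX ρ cA (f j) j = ∑ a, ∑ j : B, Q2 (f j a) * ρ (cA a) j := by
      rw [sum_comm]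
      rfl
    rw [h2, ← sum_add_distrib, e2_sum]
    rfl

/-! ### The normalised size -/

theorem tX_cases (cA σ : A → κ → ZMod 2) (P : ∀ a, κ → E a → ZMod 2)
    (R : ∀ a, Matrix (E a) (E a) (ZMod 2)) (α : κ → ZMod 2) (a : A) :
    tX cA σ P R α a = 1 ∨ tX cA σ P R α a = 2 := by
  classical
  unfold tX
  split_ifs
  · exact Or.inr rfl
  · exact Or.inl rfl

theorem kX_pow (D : Dat2 ι κ) (ρ : (κ → ZMod 2) → ι → ZMod 2) (cA σ : A → κ → ZMod 2)
    (P : ∀ a, κ → E a → ZMod 2) (R : ∀ a, Matrix (E a) (E a) (ZMod 2)) (a : A) (B : Finset ι) :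
    ∃ r, kX D ρ cA σ P R a B = 2 ^ r := kcd_two_pow _

theorem nX_pow (D : Dat2 ι κ) (ρ : (κ → ZMod 2) → ι → ZMod 2) (cA σ : A → κ → ZMod 2)
    (P : ∀ a, κ → E a → ZMod 2) (R : ∀ a, Matrix (E a) (E a) (ZMod 2)) (α : κ → ZMod 2) (a : A)
    (B : Finset ι) : ∃ r, nX D ρ cA σ P R α a B = 2 ^ r := by
  obtain ⟨r, hr⟩ := kX_pow D ρ cA σ P R a B
  unfold nX
  split_ifs with h
  · exact ⟨0, rfl⟩
  · rcases tX_cases cA σ P R α a with ht | ht
    · exact ⟨r, by rw [ht, Nat.div_one, hr]⟩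
    · rcases r with _ | r
      · exact absurd hr h
      · refine ⟨r, ?_⟩
        rw [ht, hr, pow_succ, Nat.mul_div_cancel _ (by norm_num)]

theorem kX_mul {D : Dat2 ι κ} {ρ : (κ → ZMod 2) → ι → ZMod 2} (h0 : ρ 0 = 0)
    (cA σ : A → κ → ZMod 2) (P : ∀ a, κ → E a → ZMod 2) (R : ∀ a, Matrix (E a) (E a) (ZMod 2))
    {α : κ → ZMod 2} (a : A) {B : Finset ι} (hB : B ≠ ∅) (hα : ∀ j, ∑ q ∈ B, D.a q j = α j) :
    kX D ρ cA σ P R a B = tX cA σ P R α a * nX D ρ cA σ P R α a B := by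
  classical
  by_cases h : cA a = 0 ∧ Triv (σ a) (P a) (R a) α
  · have ht : tX cA σ P R α a = 2 := if_pos h
    obtain ⟨hc, γ, h1, h2⟩ := h
    have h3 : kX D ρ cA σ P R a B = D.kB (σ a) (P a) (R a) B := by
      unfold kX
      rw [hc, h0]
      exact kW_zero D (σ a) (P a) (R a) B
    have h4 := kz_mul D (R := R a) hB h1 (fun e => by
      simp only [hα]
      exact h2 e)
    have h5 : kX D ρ cA σ P R a B ≠ 1 := by
      rw [h3, h4]
      omega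
    unfold nX
    rw [if_neg h5, ht, h3, h4]
    omega
  · have ht : tX cA σ P R α a = 1 := if_neg h
    unfold nX
    rw [ht, one_mul, Nat.div_one]
    split_ifs with h5
    · exact h5
    · rfl

end

end Pool.Agent.Lib.MP_1a91b9_ntM.E
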