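import Pool.Agent.Lib.MP_1a91b9_ntM.E.XTr
import Pool.Agent.Lib.MP_1a91b9_ntM.E.XExp
import Pool.Agent.Lib.MP_1a91b9_ntM.DJ.Gd

/-!
# Quadratic twists over the abelian extensions of exponent dividing `4`, part D: the translation for the
squares
-/

set_option autoImplicit false
set_option linter.unusedSectionVars false

namespace Pool.Agent.Lib.MP_1a91b9_ntM.E

open Finset NumberField Pool.Agent.Lib.MP_1a91b9_ntH Pool.Agent.Lib.MP_1a91b9_ntQ
  Pool.Agent.Lib.MP_1a91b9_ntQ.Da Pool.Agent.Lib.MP_1a91b9_ntQ.M Pool.Agent.Lib.MP_1a91b9_ntM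

noncomputable section

section One

variable {ι : Type} [DecidableEq ι] {κ : Type} [Fintype κ] [DecidableEq κ] {E : Type} [Fintype E]
  [DecidableEq E] {G : Type} [AddCommGroup G] [Fintype G]

theorem sum_a_eq {D : Dat2 ι κ} (C : Cl2 D G) {g : G} {S : Finset ι} (hS : ∑ q ∈ S, C.cl q = g)
    (j : κ) : ∑ q ∈ S, D.a q j = C.A j g := by
  rw [← hS, map_sum]
  exact sum_congr rfl fun q _ => C.ha q j

open Classical in
/-- The matrix over all the primes, from the size of the kernel of the matrix over the primes outside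
`B`. -/
theorem okv_one {D : Dat2 ι κ} (hs : D.Sym) {B T V : Finset ι} (hT : T ⊆ B) (hV : V ⊆ B)
    (hTV : Disjoint T V) (C : Cl2 (D.off B) G) {c : κ → ZMod 2} {P : κ → E → ZMod 2}
    {R : Matrix E E (ZMod 2)} (hP : ∀ x : E → ZMod 2, (∀ j, ∑ e, P j e * x e = 0) → x = 0)
    (τ : ι → ZMod 2) (g : G) {αB : ι → ZMod 2} (hα : ∀ b : B, αB b = C.A (Sum.inr b) g)
    {S : Finset (Off B)} (hne : S ≠ ∅) (hSg : ∑ q ∈ S, C.cl q = g)
    (hk : (D.off B).kB (coB B T c) (PoB B T V P) (RoB D T V c P R τ αB) S =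
      if Triv (coB B T c) (PoB B T V P) (RoB D T V c P R τ αB) (fun j => C.A j g) then 2 else 1) :
    ((∀ γ, ¬ TrivV D c P R T V αB (fun j => C.A (Sum.inl j) g) γ) →
      (D.NV c P R V τ (up S ∪ T)).det ≠ 0) ∧
    ∀ γ, TrivV D c P R T V αB (fun j => C.A (Sum.inl j) g) γ →
      ∀ w, (D.NV c P R V τ (up S ∪ T)).mulVec w = 0 →
        w = 0 ∨ w = Sum.elim (fun _ => 1) (Sum.elim (fun _ => 0) γ) := by
  have hαS : ∀ t ∈ T, αB t = ∑ q ∈ up S, D.s q t := by
    intro t ht
    rw [hα ⟨t, hT ht⟩, ← sum_a_eq C hSg, sum_up]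
    rfl
  have htr := triv_iff (D := D) (c := c) (P := P) (R := R) (αB := αB)
    (α := fun j => C.A j g) hT hV hTV τ hα
  constructor
  · intro hn
    rw [if_neg (fun h => by
      obtain ⟨γ, hγ⟩ := htr.1 h
      exact hn γ hγ)] at hk
    intro h
    obtain ⟨w, hw, hw0⟩ := Matrix.exists_mulVec_eq_zero_iff.2 h
    obtain ⟨x, y, z, rfl⟩ := exists_vec3 w
    have h4 := (NV_iff hs hT hV c P R τ αB S hαS x y z).1 hw0
    have h5 := ker_one hk _ h4
    apply hw
    have h6 : vecO B T V S x y z = vecO B T V S 0 0 0 := by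
      rw [h5]
      funext i
      rcases i with i | t | v | e <;> rfl
    have h7 := vecO_eq h6
    show vec3 (up S ∪ T) V x y z = 0
    rw [h7]
    funext i
    rcases i with i | v | e <;> rfl
  · intro γ hγ
    have hTr := htr.2 ⟨γ, hγ⟩
    rw [if_pos hTr] at hk
    have h2 : ∀ e, ∑ j, PoB B T V P j e * C.A j g +
        ∑ f, RoB D T V c P R τ αB e f * goB T V γ f = 0 := by
      obtain ⟨γ', h5, h6⟩ := hTr
      have h7 : γ' = goB T V γ := by
        have h8 : γ' - goB T V γ = 0 :=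
          PoB_inj hT hV hTV hP _ fun j => by
            simp only [Pi.sub_apply, mul_sub, sum_sub_distrib]
            rw [h5, goB_fst hγ.1, sub_self]
        exact sub_eq_zero.1 h8
      rw [← h7]
      exact h6
    have h9 : ((D.off B).NB (coB B T c) (PoB B T V P) (RoB D T V c P R τ αB) S).mulVec
          (Sum.elim (fun _ => 1) (goB T V γ)) = 0 := by
      refine triv_mulVec (D.off B) (goB_fst hγ.1) fun e => ?_
      simp only [sum_a_eq C hSg]
      exact h2 e
    have hne0 : (Sum.elim (fun _ => 1) (goB T V γ) : S ⊕ (T ⊕ (V ⊕ E)) → ZMod 2) ≠ 0 := by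
      intro h4
      obtain ⟨q, hq⟩ := nonempty_iff_ne_empty.2 hne
      exact one_ne_zero (congrFun h4 (Sum.inl ⟨q, hq⟩))
    intro w hw
    obtain ⟨x, y, z, rfl⟩ := exists_vec3 w
    have h4 := (NV_iff hs hT hV c P R τ αB S hαS x y z).1 hw
    rcases ker_two hk hne0 h9 _ h4 with h5 | h5
    · left
      have h6 : vecO B T V S x y z = vecO B T V S 0 0 0 := by
        rw [h5]
        funext i
        rcases i with i | t | v | e <;> rfl
      have h7 := vecO_eq h6
      show vec3 (up S ∪ T) V x y z = 0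
      rw [h7]
      funext i
      rcases i with i | v | e <;> rfl
    · right
      have h6 : vecO B T V S x y z = vecO B T V S (fun _ => 1) 0 γ := by
        rw [h5]
        funext i
        rcases i with i | t | v | e <;> rfl
      have h7 := vecO_eq h6
      show vec3 (up S ∪ T) V x y z = _
      rw [h7]
      rfl

end One

/-- The border of the matrix of the label with the classes `k`, `j` and the primes `T`. -/
def pS (m : ℕ) {P : Finset Pg} (k : ZMod 4) (j : Fin 2) (T : Finset Pg) (g : GB m P) : Prop :=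
  md k = 0 ∧ j = 0 ∧ A4 m 0 g.1 + ∑ q ∈ T, aa q.1 = 0

instance (m : ℕ) {P : Finset Pg} (k : ZMod 4) (j : Fin 2) (T : Finset Pg) (g : GB m P) :
    Decidable (pS m k j T g) := by
  unfold pS
  infer_instance

/-- **The sets which are good for one label**, from the size of the kernel. -/
theorem gd5_of_okv {m : ℕ} {P T : Finset Pg} (hT : T ⊆ P) (k : ZMod 4) (j : Fin 2) (g : GB m P)
    {S : Finset Pg} (hSB : Disjoint S P) (hSg : ∑ q ∈ S, clB m P q = g) (hSn : S ≠ ∅)
    {τ αB : Pg → ZMod 2}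
    (hS : ((∀ γ, ¬ TrivV d4 (cv (md k) (jj j)) (fun i (_ : {_u : Unit // pS m k j T g}) =>
          P1 (0 : Fin 2) i ()) (fun _ _ => A4 m 1 g.1 + ∑ q ∈ T, bb q.1) T ∅ αB
          (fun j => (CclB m P).A (Sum.inl j) g) γ) →
        (d4.NV (cv (md k) (jj j)) (fun i (_ : {_u : Unit // pS m k j T g}) => P1 (0 : Fin 2) i ())
          (fun _ _ => A4 m 1 g.1 + ∑ q ∈ T, bb q.1) ∅ τ (S ∪ T)).det ≠ 0) ∧
      ∀ γ, TrivV d4 (cv (md k) (jj j)) (fun i (_ : {_u : Unit // pS m k j T g}) =>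
          P1 (0 : Fin 2) i ()) (fun _ _ => A4 m 1 g.1 + ∑ q ∈ T, bb q.1) T ∅ αB
          (fun j => (CclB m P).A (Sum.inl j) g) γ →
        ∀ w, (d4.NV (cv (md k) (jj j)) (fun i (_ : {_u : Unit // pS m k j T g}) =>
          P1 (0 : Fin 2) i ()) (fun _ _ => A4 m 1 g.1 + ∑ q ∈ T, bb q.1) ∅ τ (S ∪ T)).mulVec w = 0 →
        w = 0 ∨ w = Sum.elim (fun _ => 1) (Sum.elim (fun _ => 0) γ)) :
    Gd5 k j (S ∪ T) := by
  classical
  obtain ⟨hS1, hS2⟩ := hS
  have hdisj : Disjoint S T := disjoint_of_subset_right hT hSB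
  have hg1 : ∑ q ∈ S, clq m q = g.1 := by
    rw [← hSg, Prod.fst_sum]
    rfl
  have hsa : ∑ q ∈ S ∪ T, aa q.1 = A4 m 0 g.1 + ∑ q ∈ T, aa q.1 := by
    rw [sum_union hdisj, ← hg1, A4_zero_sum]
  have hsb : ∑ q ∈ S ∪ T, bb q.1 = A4 m 1 g.1 + ∑ q ∈ T, bb q.1 := by
    rw [sum_union hdisj, ← hg1, A4_one_sum]
  obtain ⟨q0, hq0⟩ := nonempty_iff_ne_empty.2 hSn
  refine ⟨fun hkj => ?_, fun hk0 hj0 hsum => ?_, fun hk0 hj0 hsum => ?_⟩
  · -- the class is not `(0, 0)`
    have hpa : ¬ pS m k j T g := by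
      rintro ⟨h3, h4, _⟩
      rcases hkj with h5 | h5
      · rw [h3] at h5
        exact zero_ne_one h5
      · rw [h4] at h5
        exact absurd h5 (by decide)
    have hE : IsEmpty {_u : Unit // pS m k j T g} := ⟨fun u => hpa u.2⟩
    have hc0 : cv (md k) (jj j) ≠ 0 := by
      intro h3
      rcases hkj with h5 | h5
      · have h6 : md k = 0 := congrFun h3 0
        rw [h6] at h5
        exact zero_ne_one h5
      · have h6 : jj j = 0 := congrFun h3 1
        rw [h5] at h6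
        exact absurd h6 (by decide)
    have h3 := hS1 fun γ hγ => hc0 (funext fun i => by
      rw [← hγ.1 i, sum_eq_zero fun e _ => (hE.elim e)]
      rfl)
    intro h4
    apply h3
    obtain ⟨v, hv, hv0⟩ := Matrix.exists_mulVec_eq_zero_iff.2 h4
    have e : kc (cv (md k) (jj j)) = fun q => md k * aa q.1 + jj j * bb q.1 :=
      funext fun q => kc_cv _ _ q
    refine Matrix.exists_mulVec_eq_zero_iff.1 ⟨vec3 (S ∪ T) ∅ (ext0 v) 0 0, fun h5 => hv ?_,
      NV_of_N d4 (cv (md k) (jj j)) _ _ _ (S ∪ T) hE v ?_⟩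
    · funext q
      have h6 := congrFun h5 (Sum.inl q)
      rw [← ext0_coe v q]
      exact h6
    · rw [N4_d4, e]
      exact hv0
  · -- the kernel of the Laplacian
    have hpa : ¬ pS m k j T g := by
      rintro ⟨_, _, h5⟩
      rw [hsa, h5] at hsum
      exact zero_ne_one hsum
    have hE : IsEmpty {_u : Unit // pS m k j T g} := ⟨fun u => hpa u.2⟩
    have hc0 : cv (md k) (jj j) = 0 := by
      rw [hk0, hj0]
      funext i
      have h3 : ∀ i, cv 0 (jj 0) i = 0 := by decide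
      exact h3 i
    have h4 := hS2 0 ⟨fun i => by
        rw [hc0, sum_eq_zero fun e _ => (hE.elim e)]
        rfl, fun v hv => absurd hv (notMem_empty _), fun e => hE.elim e⟩
    refine ⟨⟨q0, mem_union_left _ hq0⟩, fun v hv => ?_⟩
    have h5 := NV_of_N d4 (cv (md k) (jj j)) (fun i (_ : {_u : Unit // pS m k j T g}) =>
      P1 (0 : Fin 2) i ()) (fun _ _ => A4 m 1 g.1 + ∑ q ∈ T, bb q.1) τ (S ∪ T) hE v (by
      rw [N4_d4, hc0, kc_zero]
      exact hv)
    rcases h4 _ h5 with h6 | h6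
    · refine ⟨0, fun q => ?_⟩
      rw [← ext0_coe v q]
      exact congrFun h6 (Sum.inl q)
    · refine ⟨1, fun q => ?_⟩
      rw [← ext0_coe v q]
      exact congrFun h6 (Sum.inl q)
  · -- the kernel of the bordered Laplacian
    have hpa : pS m k j T g := ⟨hk0, hj0, by rw [← hsa, hsum]⟩
    have hc0 : cv (md k) (jj j) = 0 := by
      rw [hk0, hj0]
      funext i
      have h3 : ∀ i, cv 0 (jj 0) i = 0 := by decide
      exact h3 i
    have hE : ∀ e : {_u : Unit // pS m k j T g}, e = ⟨(), hpa⟩ := fun e =>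
      Subtype.ext (Subsingleton.elim _ _)
    have h4 := hS2 0 ⟨fun i => by
        rw [hc0]
        simp only [Pi.zero_apply, mul_zero, sum_const_zero],
      fun v hv => absurd hv (notMem_empty _), fun e => by
        simp only [Pi.zero_apply, mul_zero, sum_const_zero, add_zero, P1, ite_mul, one_mul,
          zero_mul, sum_ite_eq', mem_univ, if_true]
        exact hpa.2.2⟩
    refine ⟨⟨q0, mem_union_left _ hq0⟩, fun v hv => ?_⟩
    have h5 := NV_of_NU d4 (cv (md k) (jj j)) 0 (A4 m 1 g.1 + ∑ q ∈ T, bb q.1) τ (S ∪ T)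
      (⟨(), hpa⟩ : {_u : Unit // pS m k j T g}) hE v (by
        rw [B4_d4, hc0, kc_zero, ← hsb]
        exact hv)
    rcases h4 _ h5 with h6 | h6
    · refine ⟨0, fun q => ?_, congrFun h6 (Sum.inr (Sum.inr ⟨(), hpa⟩))⟩
      have h7 := congrFun h6 (Sum.inl q)
      rw [← ext0_coe (fun i => v (Sum.inl i)) q]
      exact h7
    · refine ⟨1, fun q => ?_, congrFun h6 (Sum.inr (Sum.inr ⟨(), hpa⟩))⟩
      have h7 := congrFun h6 (Sum.inl q)
      rw [← ext0_coe (fun i => v (Sum.inl i)) q]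
      exact h7

/-- The class vector of the square root. -/
theorem sX_sq {x : DD8} (P : Finset Pg) (hx : x.Sq) :
    sX P x = coB P x.B (cv (md x.sk) (jj x.sj)) := by
  obtain ⟨h1, h2, h3⟩ := hx
  have hT : x.T = ∅ := (union_eq_empty.1 h3).2
  unfold sX
  rw [hT, empty_union]
  congr 1
  have hk : ∀ k : ZMod 4, md k = 0 → hk k = md (if k = 0 then (0 : ZMod 4) else 1) := by decide
  have hj : ∀ j : Fin 4, ((j.val : ℕ) : ZMod 2) = 0 →
      hj j = jj (if j = 0 then (0 : Fin 2) else 1) := by decide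
  funext i
  fin_cases i
  · exact hk x.k h1
  · exact hj x.j h2

/-- **The translation for the squares.** -/
theorem trSq : TrSq := by
  classical
  refine ⟨0, fun m _ x P hx hP hsq g => ?_⟩
  obtain ⟨hSP, hTP, hBP⟩ := hP
  set k := x.sk with hk
  set j := x.sj with hj
  set T := x.B with hT
  set αB : Pg → ZMod 2 := fun b => if h : b ∈ P then (CclB m P).A (Sum.inr ⟨b, h⟩) g else 0
    with hαB
  set E := {_u : Unit // pS m k j T g} with hE
  set P0 : Fin 2 → E → ZMod 2 := fun i _ => P1 (0 : Fin 2) i () with hP0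
  set R0 : Matrix E E (ZMod 2) := fun _ _ => A4 m 1 g.1 + ∑ q ∈ T, bb q.1 with hR0
  have hinj : ∀ x : E → ZMod 2, (∀ j, ∑ e, P0 j e * x e = 0) → x = 0 := by
    intro x h
    funext e
    have h3 := h 0
    rw [sum_eq_single e (fun e' _ he => absurd (Subtype.ext (Subsingleton.elim _ _)) he)
      fun h' => absurd (mem_univ _) h'] at h3
    simp only [hP0, P1, if_true, one_mul] at h3
    exact h3
  refine ⟨T ⊕ ((∅ : Finset Pg) ⊕ E), inferInstance, inferInstance,
    PoB P T ∅ P0, RoB d4 T ∅ (cv (md k) (jj j)) P0 R0 (fun _ => 0) αB,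
    PoB_inj hBP (empty_subset _) (disjoint_empty_right _) hinj,
    RoB_symm d4_OK.sym T ∅ (cv (md k) (jj j)) P0 (fun e f => rfl) (fun _ => 0) αB,
    fun X hX hXg hkW => ?_⟩
  rw [sX_sq P hsq, kW_zero] at hkW
  have h1 := okv_one (D := d4) d4_OK.sym hBP (empty_subset P) (disjoint_empty_right T) (CclB m P)
    (P := P0) (R := R0) hinj (fun _ => 0) g (αB := αB) (fun b => by
      simp only [hαB]
      rw [dif_pos b.2]) hX hXg hkW
  have h2 := gd5_of_okv (m := m) hBP k j g (S := up X) (disj_up X) (by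
    rw [← hXg]
    exact sum_up X (clB m P)) (fun h => hX (by
      rw [← dn_up X, h]
      rfl)) h1
  rw [union_comm]
  exact h2

end

end Pool.Agent.Lib.MP_1a91b9_ntM.E
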