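import Pool.Agent.Lib.MP_1a91b9_ntM.E.Tr1

/-!
# Quadratic twists over the abelian extensions of exponent dividing `4`, part D: the class vectors

`sX_inj`, `sX_inv`: the class vectors `cX`, `sX` determine the element, and `sX` of the inverse is
`sX + cX`. `DSB_of_le`: the lower densities in larger classes from those in smaller classes.
-/

set_option autoImplicit false
set_option linter.unusedSectionVars false

namespace Pool.Agent.Lib.MP_1a91b9_ntM.E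

open Finset NumberField Pool.Agent.Lib.MP_1a91b9_ntH Pool.Agent.Lib.MP_1a91b9_ntQ
  Pool.Agent.Lib.MP_1a91b9_ntQ.Da Pool.Agent.Lib.MP_1a91b9_ntQ.M Pool.Agent.Lib.MP_1a91b9_ntM

noncomputable section

section

variable {P : Finset Pg} {x y : DD8}

theorem ind_mem {P A : Finset Pg} {c : Fin 2 → ZMod 2} {q : Pg} (hq : q ∈ P) :
    coB P A c (Sum.inr ⟨q, hq⟩) = if q ∈ A then 1 else 0 := rfl

theorem mem_of_coB {P A B : Finset Pg} {c c' : Fin 2 → ZMod 2} {q : Pg} (hq : q ∈ P)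
    (h : coB P A c = coB P B c') : q ∈ A ↔ q ∈ B := by
  have h1 := congrFun h (Sum.inr ⟨q, hq⟩)
  rw [ind_mem, ind_mem] at h1
  by_cases hA : q ∈ A
  · rw [if_pos hA] at h1
    by_cases hB : q ∈ B
    · exact ⟨fun _ => hB, fun _ => hA⟩
    · rw [if_neg hB] at h1
      exact absurd h1 one_ne_zero
  · rw [if_neg hA] at h1
    by_cases hB : q ∈ B
    · rw [if_pos hB] at h1
      exact absurd h1.symm one_ne_zero
    · exact ⟨fun h => absurd h hA, fun h => absurd h hB⟩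

theorem k_of_hk : ∀ k k' : ZMod 4, (ZMod.castHom (show 2 ∣ 4 by norm_num) (ZMod 2)) k =
    (ZMod.castHom (show 2 ∣ 4 by norm_num) (ZMod 2)) k' →
    (if 2 ≤ k.val then (1 : ZMod 2) else 0) = (if 2 ≤ k'.val then 1 else 0) → k = k' := by
  decide

theorem k_of_hk' : ∀ k k' : ZMod 4, (ZMod.castHom (show 2 ∣ 4 by norm_num) (ZMod 2)) k =
    (ZMod.castHom (show 2 ∣ 4 by norm_num) (ZMod 2)) k' →
    (if 2 ≤ k.val then (1 : ZMod 2) else 0) + (if 2 ≤ k'.val then 1 else 0) =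
      (ZMod.castHom (show 2 ∣ 4 by norm_num) (ZMod 2)) k → k = -k' := by
  decide

theorem j_of_hj : ∀ j j' : Fin 4, ((j.val : ℕ) : ZMod 2) = ((j'.val : ℕ) : ZMod 2) →
    (if 2 ≤ j.val then (1 : ZMod 2) else 0) = (if 2 ≤ j'.val then 1 else 0) → j = j' := by
  decide

theorem j_of_hj' : ∀ j j' : Fin 4, ((j.val : ℕ) : ZMod 2) = ((j'.val : ℕ) : ZMod 2) →
    (if 2 ≤ j.val then (1 : ZMod 2) else 0) + (if 2 ≤ j'.val then 1 else 0) =
      ((j.val : ℕ) : ZMod 2) → j = -j' := by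
  decide

/-- **The class vectors determine the element.** -/
theorem sX_inj (hx : Dj x.S x.T x.B) (hxP : x.S ⊆ P ∧ x.T ⊆ P ∧ x.B ⊆ P)
    (hy : Dj y.S y.T y.B) (hyP : y.S ⊆ P ∧ y.T ⊆ P ∧ y.B ⊆ P) (h1 : cX P x = cX P y)
    (h2 : sX P x = sX P y) : x = y := by
  have a1 : ∀ q ∈ P, (q ∈ x.S ∪ x.T ↔ q ∈ y.S ∪ y.T) := fun q hq => mem_of_coB hq h1
  have a2 : ∀ q ∈ P, (q ∈ x.T ∪ x.B ↔ q ∈ y.T ∪ y.B) := fun q hq => mem_of_coB hq h2
  have a3 : x.k = y.k := k_of_hk _ _ (congrFun h1 (Sum.inl 0)) (congrFun h2 (Sum.inl 0))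
  have a4 : x.j = y.j := j_of_hj _ _ (congrFun h1 (Sum.inl 1)) (congrFun h2 (Sum.inl 1))
  obtain ⟨k, j, S, T, B⟩ := x
  obtain ⟨k', j', S', T', B'⟩ := y
  dsimp only at *
  obtain ⟨p1, p2, p3⟩ := hxP
  obtain ⟨p4, p5, p6⟩ := hyP
  have e1 := hx.st
  have e2 := hx.sb
  have e3 := hx.tb
  have e4 := hy.st
  have e5 := hy.sb
  have e6 := hy.tb
  rw [disjoint_left] at e1 e2 e3 e4 e5 e6
  have key : ∀ q ∈ P, (q ∈ S ↔ q ∈ S') ∧ (q ∈ T ↔ q ∈ T') ∧ (q ∈ B ↔ q ∈ B') := by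
    intro q hq
    have b1 := a1 q hq
    have b2 := a2 q hq
    rw [mem_union, mem_union] at b1 b2
    have := @e1 q
    have := @e2 q
    have := @e3 q
    have := @e4 q
    have := @e5 q
    have := @e6 q
    tauto
  have f1 : S = S' := by
    ext q
    exact ⟨fun h => (key q (p1 h)).1.1 h, fun h => (key q (p4 h)).1.2 h⟩
  have f2 : T = T' := by
    ext q
    exact ⟨fun h => (key q (p2 h)).2.1.1 h, fun h => (key q (p5 h)).2.1.2 h⟩
  have f3 : B = B' := by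
    ext q
    exact ⟨fun h => (key q (p3 h)).2.2.1 h, fun h => (key q (p6 h)).2.2.2 h⟩
  rw [a3, a4, f1, f2, f3]

theorem mem_of_coB' {P A B C : Finset Pg} {c c' c'' : Fin 2 → ZMod 2} {q : Pg} (hq : q ∈ P)
    (h : coB P A c + coB P B c' = coB P C c'') : (q ∈ C ↔ ¬ (q ∈ A ↔ q ∈ B)) := by
  have h1 := congrFun h (Sum.inr ⟨q, hq⟩)
  rw [Pi.add_apply, ind_mem, ind_mem, ind_mem] at h1
  have z1 : (1 : ZMod 2) + 1 = 0 := by decide
  by_cases hA : q ∈ A <;> by_cases hB : q ∈ B <;> by_cases hC : q ∈ C <;>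
    simp [hA, hB, hC, z1] at h1 ⊢

/-- **The inverse.** -/
theorem sX_inv (hx : Dj x.S x.T x.B) (hxP : x.S ⊆ P ∧ x.T ⊆ P ∧ x.B ⊆ P)
    (hy : Dj y.S y.T y.B) (hyP : y.S ⊆ P ∧ y.T ⊆ P ∧ y.B ⊆ P) (h1 : cX P x = cX P y)
    (h2 : sX P x + sX P y = cX P x) : x = y.inv := by
  have a1 : ∀ q ∈ P, (q ∈ x.S ∪ x.T ↔ q ∈ y.S ∪ y.T) := fun q hq => mem_of_coB hq h1
  have a2 : ∀ q ∈ P, (q ∈ x.S ∪ x.T ↔ ¬ (q ∈ x.T ∪ x.B ↔ q ∈ y.T ∪ y.B)) := fun q hq =>
    mem_of_coB' hq h2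
  have a3 : x.k = -y.k := k_of_hk' _ _ (congrFun h1 (Sum.inl 0)) (congrFun h2 (Sum.inl 0))
  have a4 : x.j = -y.j := j_of_hj' _ _ (congrFun h1 (Sum.inl 1)) (congrFun h2 (Sum.inl 1))
  obtain ⟨k, j, S, T, B⟩ := x
  obtain ⟨k', j', S', T', B'⟩ := y
  dsimp only [DD8.inv] at *
  obtain ⟨p1, p2, p3⟩ := hxP
  obtain ⟨p4, p5, p6⟩ := hyP
  have e1 := hx.st
  have e2 := hx.sb
  have e3 := hx.tb
  have e4 := hy.st
  have e5 := hy.sb
  have e6 := hy.tb
  rw [disjoint_left] at e1 e2 e3 e4 e5 e6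
  have key : ∀ q ∈ P, (q ∈ S ↔ q ∈ T') ∧ (q ∈ T ↔ q ∈ S') ∧ (q ∈ B ↔ q ∈ B') := by
    intro q hq
    have b1 := a1 q hq
    have b2 := a2 q hq
    rw [mem_union, mem_union] at b1
    rw [mem_union, mem_union, mem_union] at b2
    have := @e1 q
    have := @e2 q
    have := @e3 q
    have := @e4 q
    have := @e5 q
    have := @e6 q
    tauto
  have f1 : S = T' := by
    ext q
    exact ⟨fun h => (key q (p1 h)).1.1 h, fun h => (key q (p5 h)).1.2 h⟩
  have f2 : T = S' := by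
    ext q
    exact ⟨fun h => (key q (p2 h)).2.1.1 h, fun h => (key q (p4 h)).2.1.2 h⟩
  have f3 : B = B' := by
    ext q
    exact ⟨fun h => (key q (p3 h)).2.2.1 h, fun h => (key q (p6 h)).2.2.2 h⟩
  rw [a3, a4, f1, f2, f3]

end

/-! ### The classes -/

/-- Two sets in the same class of the finer level. -/
theorem cl_le {m m' : ℕ} (hm : m ≤ m') {B S S' : Finset Pg} (hS : Disjoint S B)
    (hS' : Disjoint S' B) (h : ∑ q ∈ S, clB m' B q = ∑ q ∈ S', clB m' B q) :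
    ∑ q ∈ S, clB m B q = ∑ q ∈ S', clB m B q := by
  have h1 : Sm m' B S S' := ⟨hS, hS', h⟩
  rw [gclB_DDq m hS, gclB_DDq m hS']
  refine Prod.ext ?_ (funext fun b => ?_)
  · exact (gcl_eq_iff m (DDq_in4 S) (DDq_in4 S')).2
      ((pow_dvd_pow lam (by omega)).trans h1.dvd)
  · exact h1.c4_eq b.2

/-- **Larger classes.** -/
theorem DSB_of_le {m m' : ℕ} (hm : m ≤ m') {B : Finset Pg} {g : GB m B} {κ₀ : ℝ}
    {Q : Finset Pg → Prop} (H : ∀ g' : GB m' B, DSB m' B g' κ₀ Q) : DSB m B g κ₀ Q := by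
  classical
  obtain ⟨good, hgood⟩ : ∃ s : Finset (GB m' B), s = univ.filter fun g' => ∃ S, Disjoint S B ∧
    ∑ q ∈ S, clB m' B q = g' ∧ ∑ q ∈ S, clB m B q = g := ⟨_, rfl⟩
  have key : ∀ S, Disjoint S B → (∑ q ∈ S, clB m B q = g ↔ ∑ q ∈ S, clB m' B q ∈ good) := by
    intro S hS
    rw [hgood, mem_filter]
    constructor
    · intro h
      exact ⟨mem_univ _, S, hS, rfl, h⟩
    · rintro ⟨-, S', hS', h1, h2⟩
      rw [← h2]
      exact cl_le hm hS hS' h1.symm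
  have cnt : ∀ (X : ℕ) (R : Finset Pg → Prop),
      ((Sx Pg X).filter fun S => Disjoint S B ∧ ∑ q ∈ S, clB m B q = g ∧ R S).card =
      ∑ g' ∈ good, ((Sx Pg X).filter fun S => Disjoint S B ∧ ∑ q ∈ S, clB m' B q = g' ∧
        R S).card := by
    intro X R
    rw [card_eq_sum_card_fiberwise (f := fun S => ∑ q ∈ S, clB m' B q) (t := good)]
    · refine sum_congr rfl fun g' hg' => ?_
      congr 1
      ext S
      simp only [mem_filter]
      constructor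
      · rintro ⟨⟨h1, h2, h3, h4⟩, h5⟩
        exact ⟨h1, h2, h5, h4⟩
      · rintro ⟨h1, h2, h3, h4⟩
        refine ⟨⟨h1, h2, (key S h2).2 ?_, h4⟩, h3⟩
        rw [h3]
        exact hg'
    · intro S hS
      rw [mem_coe, mem_filter] at hS
      exact (key S hS.2.1).1 hS.2.2.1
  intro ε hε
  have hn : (0 : ℝ) < good.card + 1 := by positivity
  choose X0 h0 using fun g' => H g' (ε / (good.card + 1)) (by positivity)
  refine ⟨∑ g', X0 g', fun X hX => ?_⟩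
  have hX0 : ∀ g', X0 g' ≤ X := fun g' =>
    (single_le_sum (fun _ _ => Nat.zero_le _) (mem_univ g')).trans hX
  have e1 : ((Sx Pg X).filter fun S => Disjoint S B ∧ ∑ q ∈ S, clB m B q = g).card =
      ∑ g' ∈ good, ((Sx Pg X).filter fun S => Disjoint S B ∧
        ∑ q ∈ S, clB m' B q = g').card := by
    have h := cnt X fun _ => True
    simp only [and_true] at h
    exact h
  have e2 := cnt X Q
  have hcast : ((((Sx Pg X).filter fun S => Disjoint S B ∧ ∑ q ∈ S, clB m B q = g ∧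
      Q S).card : ℕ) : ℝ) = ∑ g' ∈ good, (((Sx Pg X).filter fun S => Disjoint S B ∧
        ∑ q ∈ S, clB m' B q = g' ∧ Q S).card : ℝ) := by
    rw [e2]
    push_cast
    rfl
  rw [hcast, e1]
  push_cast
  rw [mul_sum]
  have h3 : ∑ g' ∈ good, (κ₀ * (((Sx Pg X).filter fun S => Disjoint S B ∧
      ∑ q ∈ S, clB m' B q = g').card : ℝ) - ε / (good.card + 1) * X) ≤
      ∑ g' ∈ good, (((Sx Pg X).filter fun S => Disjoint S B ∧
        ∑ q ∈ S, clB m' B q = g' ∧ Q S).card : ℝ) :=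
    sum_le_sum fun g' _ => h0 g' X (hX0 g')
  rw [sum_sub_distrib, sum_const, nsmul_eq_mul] at h3
  have h4 : (good.card : ℝ) * (ε / (good.card + 1) * X) ≤ ε * X := by
    have h5 : (good.card : ℝ) * (ε / (good.card + 1)) ≤ ε := by
      rw [mul_div_assoc', div_le_iff₀ hn]
      nlinarith
    calc (good.card : ℝ) * (ε / (good.card + 1) * X) =
        ((good.card : ℝ) * (ε / (good.card + 1))) * X := by ring
      _ ≤ ε * X := mul_le_mul_of_nonneg_right h5 (Nat.cast_nonneg X)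
  linarith

end

end Pool.Agent.Lib.MP_1a91b9_ntM.E
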