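import Pool.Agent.Lib.MP_1a91b9_ntM.E.XDef

/-!
# Quadratic twists over the abelian extensions of exponent dividing `4`, part D: the statement of the
densities
-/

set_option autoImplicit false
set_option linter.unusedSectionVars false

namespace Pool.Agent.Lib.MP_1a91b9_ntM.E

open Finset Pool.Agent.Lib.MP_1a91b9_ntH Pool.Agent.Lib.MP_1a91b9_ntQ Pool.Agent.Lib.MP_1a91b9_ntQ.Da
  Pool.Agent.Lib.MP_1a91b9_ntQ.M Pool.Agent.Lib.MP_1a91b9_ntM

noncomputable section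

variable {A : Type} [Fintype A] [DecidableEq A] {ι : Type} [DecidableEq ι]
  {κ : Type} [Fintype κ] [DecidableEq κ] {E : A → Type} [∀ a, Fintype (E a)]
  [∀ a, DecidableEq (E a)]

/-- The size of the kernel of the second matrix: the corner is changed at the place `e`, or the place
`e` is removed. -/
def k2X (D : Dat2 ι κ) (ρ : (κ → ZMod 2) → ι → ZMod 2) (cA σ : A → κ → ZMod 2)
    (P : ∀ a, κ → E a → ZMod 2) (R : ∀ a, Matrix (E a) (E a) (ZMod 2)) (b : A → Bool) (a : A)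
    (e : E a) (B : Finset ι) : ℕ :=
  if b a = true then kW D (cA a) (P a) (R a + Matrix.single e e 1) (rho D (ρ (cA a)) (σ a)) ∅ B
  else kW D (cA a) (fun j (e' : {e' : E a // e' ≠ e}) => P a j e'.1)
    ((R a).submatrix Subtype.val Subtype.val) (rho D (ρ (cA a)) (σ a)) ∅ B

/-- **The joint densities.** -/
def DensX [PS ι] (D : Dat2 ι κ) (ρ : (κ → ZMod 2) → ι → ZMod 2) : Prop :=
  ∀ (A : Type) [Fintype A] [DecidableEq A] [Nonempty A] (E : A → Type) [∀ a, Fintype (E a)]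
    [∀ a, DecidableEq (E a)] (cA σ : A → κ → ZMod 2) (P : ∀ a, κ → E a → ZMod 2)
    (R : ∀ a, Matrix (E a) (E a) (ZMod 2)), FamX cA σ P R →
    ∀ (z : ∀ a, Option (E a)) (b : A → Bool), (∀ a, (z a).isSome = true → cA a ≠ 0) →
    ∀ (G : Type) [AddCommGroup G] [Fintype G] (C : Cl2 D G) (γ : G) (κ₀ : ℝ),
    κ₀ < ∏ a, (if (z a).isSome = true then cinf2 / 2 else cinf2) →
    ∀ ε : ℝ, 0 < ε → ∃ X₀ : ℕ, ∀ X : ℕ, X₀ ≤ X →
      κ₀ * ((SB ∅ C.cl γ X).card : ℝ) - ε * X ≤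
        (((SB ∅ C.cl γ X).filter fun B => ∀ a,
          nX D ρ cA σ P R (fun j => C.A j γ) a B = 1 ∧
          ∀ e, z a = some e → k2X D ρ cA σ P R b a e B = 1).card : ℝ)

end

end Pool.Agent.Lib.MP_1a91b9_ntM.E
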