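import Pool.Agent.Lib.MP_1a91b9_ntM.E.Tr2
import Pool.Agent.Lib.MP_1a91b9_ntM.E.Sig
import Pool.Agent.Lib.MP_1a91b9_ntM.E.XDen0
import Pool.Agent.Lib.MP_1a91b9_ntM.E.XExp

/-!
# Quadratic twists over the abelian extensions of exponent dividing `4`, part D: the joint density of the
good sets of primes
-/

set_option autoImplicit false
set_option linter.unusedSectionVars false

namespace Pool.Agent.Lib.MP_1a91b9_ntM.E

open Finset NumberField Pool.Agent.Lib.MP_1a91b9_ntH Pool.Agent.Lib.MP_1a91b9_ntQ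
  Pool.Agent.Lib.MP_1a91b9_ntQ.Da Pool.Agent.Lib.MP_1a91b9_ntQ.M Pool.Agent.Lib.MP_1a91b9_ntM

noncomputable section

/-! ### The class vectors -/

section

variable {P : Finset Pg} {x y : DD8}

theorem cX_Sq (h : x.Sq) : cX P x = 0 := by
  obtain ⟨h1, h2, h3⟩ := h
  unfold cX
  rw [h3]
  funext j
  rcases j with j | b
  · fin_cases j
    · exact h1
    · exact h2
  · simp [coB]

theorem cX_ne0 (hxP : x.S ⊆ P ∧ x.T ⊆ P ∧ x.B ⊆ P) (h : ¬ x.Sq) : cX P x ≠ 0 := by
  intro h0
  apply h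
  refine ⟨congrFun h0 (Sum.inl 0), congrFun h0 (Sum.inl 1), ?_⟩
  rw [eq_empty_iff_forall_notMem]
  intro p hp
  have h1 := congrFun h0 (Sum.inr ⟨p, union_subset hxP.1 hxP.2.1 hp⟩)
  simp only [cX, coB, Sum.elim_inr, if_pos hp, Pi.zero_apply] at h1
  exact one_ne_zero h1

end

/-! ### The assembly -/

theorem mem_flt {α : Type} (s : Finset α) (p : α → Prop) (i : DecidablePred p) (a : α) :
    a ∈ @Finset.filter α p i s ↔ a ∈ s ∧ p a := Finset.mem_filter

theorem cinf2_posX : 0 < cinf2 := by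
  by_contra h
  rw [cinf2_eq] at h
  push Not at h
  have h1 : (1 : ℝ) ≤ 0 := le_of_tendsto' tendsto_prod2 fun n =>
    mul_nonpos_of_nonneg_of_nonpos (prod_nonneg fun i _ => by positivity) h
  linarith

theorem SG_eq {ι κ : Type} [DecidableEq ι] [Fintype κ] [DecidableEq κ] {D : Dat2 ι κ}
    {G : Type} [AddCommGroup G] [Fintype G] [PS ι]
    (C : Cl2 D G) (g : G) (X : ℕ) : SG C g X = SB ∅ C.cl g X := by
  ext S
  rw [mem_SG, mem_SB]
  exact ⟨fun h => ⟨h.1, disjoint_empty_right S, h.2⟩, fun h => ⟨h.1, h.2.2⟩⟩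

/-- What is used about one element: a matrix, possibly a second matrix, and the criteria. -/
def OneX (m : ℕ) (P : Finset Pg) (x : DD8) (f : Bool) (g : GB m P) : Prop :=
  ∃ (E : Type) (_ : Fintype E) (_ : DecidableEq E) (Pm : Fin 2 ⊕ P → E → ZMod 2)
    (R : Matrix E E (ZMod 2)) (z : Option E) (b : Bool),
    (∀ (y : E → ZMod 2) (t : ZMod 2), (∀ j, ∑ e, Pm j e * y e = t * cX P x j) → y = 0) ∧
    (∀ e e', R e e' = R e' e) ∧ (z.isSome = true → cX P x ≠ 0) ∧ (z.isSome = true → f = true) ∧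
    ∀ X : Finset (Off P), X ≠ ∅ → ∑ q ∈ X, (CclB m P).cl q = g →
      (∀ (t : ℕ), (t = 2 → cX P x = 0 ∧ Triv (sX P x) Pm R fun j => (CclB m P).A j g) →
        (t ≠ 2 → t = 1 ∧ ¬ (cX P x = 0 ∧ Triv (sX P x) Pm R fun j => (CclB m P).A j g)) →
        KX P x Pm R X = t →
        (∀ e, z = some e → (if b = true then KX P x Pm (R + Matrix.single e e 1) X
          else KX P x (fun j (e' : {e' : E // e' ≠ e}) => Pm j e'.1)
            (R.submatrix Subtype.val Subtype.val) X) = 1) →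
        GdX x (up X) ∧ (f = true → GdX x.inv (up X)))

theorem sq_inv {x : DD8} (h : x.inv.Sq) : x.Sq := by
  obtain ⟨h1, h2, h3⟩ := h
  refine ⟨?_, ?_, ?_⟩
  · have h4 : md (-x.k) = 0 := h1
    rw [map_neg, neg_eq_zero] at h4
    exact h4
  · have h4 : (((-x.j).val : ℕ) : ZMod 2) = 0 := h2
    have key : ∀ j : Fin 4, (((-j).val : ℕ) : ZMod 2) = 0 → ((j.val : ℕ) : ZMod 2) = 0 := by decide
    exact key _ h4
  · have h4 : x.T ∪ x.S = ∅ := h3
    rw [union_comm]
    exact h4

theorem GdX_of {x : DD8} (h : ¬ x.Sq) {X : Finset Pg} (hG : GX x X) : GdX x X :=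
  ⟨fun h' => absurd h' h, fun _ => hG⟩

theorem oneX (h1 : TrX1) (h2 : TrX2) (h3 : TrSq) : ∃ m0 : ℕ, ∀ m : ℕ, m0 ≤ m →
    ∀ (P : Finset Pg) (x : DD8) (f : Bool), Dj x.S x.T x.B → (x.S ⊆ P ∧ x.T ⊆ P ∧ x.B ⊆ P) →
      (f = true → ¬ x.Sq) → ∀ g : GB m P, OneX m P x f g := by
  classical
  obtain ⟨m1, h1⟩ := h1
  obtain ⟨m2, h2⟩ := h2
  obtain ⟨m3, h3⟩ := h3
  refine ⟨max m1 (max m2 m3), fun m hm P x f hx hP hf g => ?_⟩
  have hm1 : m1 ≤ m := (le_max_left _ _).trans hm
  have hm2 : m2 ≤ m := ((le_max_left _ _).trans (le_max_right _ _)).trans hm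
  have hm3 : m3 ≤ m := ((le_max_right _ _).trans (le_max_right _ _)).trans hm
  by_cases hs : x.Sq
  · -- squares
    have hf0 : f = false := by
      by_contra h
      exact hf (Bool.eq_true_of_not_eq_false h) hs
    obtain ⟨E, i1, i2, Pm, R, hb, hR, hX⟩ := h3 m hm3 x P hx hP hs g
    have hc0 : cX P x = 0 := cX_Sq hs
    refine ⟨E, i1, i2, Pm, R, none, false, fun y t hy => ?_, hR, fun h => by simp at h,
      fun h => by simp at h, fun X hne hg t ht2 ht1 hK _ => ?_⟩
    · refine hb y fun j => ?_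
      rw [hy j, hc0, Pi.zero_apply, mul_zero]
    · refine ⟨⟨fun _ => hX X hne hg ?_, fun h => absurd hs h⟩, fun h => by
        rw [hf0] at h
        exact absurd h (by decide)⟩
      have hK' : kW (d4.off P) 0 Pm R (rho (d4.off P) 0 (sX P x)) ∅ X = t := by
        have h4 : ρX P (cX P x) = 0 := by
          funext q
          unfold ρX
          rw [if_pos hc0]
          rfl
        unfold KX at hK
        rw [h4, hc0] at hK
        exact hK
      rw [hK']
      by_cases h5 : t = 2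
      · rw [if_pos (ht2 h5).2, h5]
      · obtain ⟨h6, h7⟩ := ht1 h5
        rw [if_neg fun h8 => h7 ⟨hc0, h8⟩, h6]
  · have hcn : cX P x ≠ 0 := cX_ne0 hP hs
    have hsi : ¬ x.inv.Sq := fun h => hs (sq_inv h)
    have ht : ∀ (E : Type) (_ : Fintype E) (_ : DecidableEq E) (Pm : Fin 2 ⊕ P → E → ZMod 2)
        (R : Matrix E E (ZMod 2)) (t : ℕ),
        (t = 2 → cX P x = 0 ∧ Triv (sX P x) Pm R fun j => (CclB m P).A j g) →
        (t ≠ 2 → t = 1 ∧ ¬ (cX P x = 0 ∧ Triv (sX P x) Pm R fun j => (CclB m P).A j g)) →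
        t = 1 := by
      intro E _ _ Pm R t ht2 ht1
      by_cases h5 : t = 2
      · exact absurd (ht2 h5).1 hcn
      · exact (ht1 h5).1
    rcases Bool.eq_false_or_eq_true f with hft | hff
    · obtain ⟨E, i1, i2, Pm, R, hb, hR, hX⟩ := h2 m hm2 x P hx hP hs g
      rcases hX with hX | ⟨z, hX⟩ | ⟨z, hX⟩
      · refine ⟨E, i1, i2, Pm, R, none, false, hb, hR, fun h => by simp at h,
          fun h => by simp at h, fun X hne hg t ht2 ht1 hK _ => ?_⟩
        rw [ht E i1 i2 Pm R t ht2 ht1] at hK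
        obtain ⟨h5, h6⟩ := hX X hg hK
        exact ⟨GdX_of hs h5, fun _ => GdX_of hsi h6⟩
      · refine ⟨E, i1, i2, Pm, R, some z, true, hb, hR, fun _ => hcn, fun _ => hft,
          fun X hne hg t ht2 ht1 hK hK2 => ?_⟩
        rw [ht E i1 i2 Pm R t ht2 ht1] at hK
        have h7 := hK2 z rfl
        rw [if_pos rfl] at h7
        obtain ⟨h5, h6⟩ := hX X hg hK h7
        exact ⟨GdX_of hs h5, fun _ => GdX_of hsi h6⟩
      · refine ⟨E, i1, i2, Pm, R, some z, false, hb, hR, fun _ => hcn, fun _ => hft,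
          fun X hne hg t ht2 ht1 hK hK2 => ?_⟩
        rw [ht E i1 i2 Pm R t ht2 ht1] at hK
        have h7 := hK2 z rfl
        rw [if_neg (by decide)] at h7
        obtain ⟨h5, h6⟩ := hX X hg hK h7
        exact ⟨GdX_of hs h5, fun _ => GdX_of hsi h6⟩
    · obtain ⟨E, i1, i2, Pm, R, hb, hR, hX⟩ := h1 m hm1 x P hx hP hs g
      refine ⟨E, i1, i2, Pm, R, none, false, hb, hR, fun h => by simp at h,
        fun h => by simp at h, fun X hne hg t ht2 ht1 hK _ => ?_⟩
      rw [ht E i1 i2 Pm R t ht2 ht1] at hK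
      refine ⟨GdX_of hs ((hX X hg).1 hK), fun h => ?_⟩
      rw [hff] at h
      exact absurd h (by decide)

/-- **The joint density of the good sets.** -/
theorem dsjX_of (h3 : TrSq) (hD : ∀ P : Finset Pg, DensX (d4.off P) (ρX P)) : DSJX := by
  classical
  obtain ⟨m0, h0⟩ := oneX trX1 trX2 h3
  intro N hN x f P hdj hP hf hpw m g κ₀ hκ
  refine DSB_of_le (le_max_left m m0) fun g => ?_
  have hm : m0 ≤ max m m0 := le_max_right _ _
  generalize max m m0 = m at hm g
  have : Nonempty (Fin N) := ⟨⟨0, hN⟩⟩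
  choose E i1 i2 Pm R z b hb hR hz hzf hX using fun i : Fin N =>
    h0 m hm P (x i) (f i) (hdj i) (hP i) (hf i) g
  have hF : FamX (fun i => cX P (x i)) (fun i => sX P (x i)) Pm R := by
    refine ⟨fun i i' hii hc => ⟨fun hs => ?_, fun hs => ?_⟩, hb, hR⟩
    · refine (hpw i i' hii).1 (sX_inj (hdj i) (hP i) (hdj i') (hP i') hc ?_)
      funext j
      have h4 := congrFun hs j
      simp only [Pi.add_apply, Pi.zero_apply] at h4
      have h5 := eq_neg_of_add_eq_zero_left h4
      rw [z2_neg] at h5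
      exact h5
    · exact (hpw i i' hii).2 (sX_inv (hdj i) (hP i) (hdj i') (hP i') hc hs)
  have hκ' : κ₀ < ∏ i, (if (z i).isSome = true then cinf2 / 2 else cinf2) := by
    refine lt_of_lt_of_le hκ (prod_le_prod (fun i _ => ?_) fun i _ => ?_)
    · have := cinf2_posX
      split_ifs <;> linarith
    · have := cinf2_posX
      by_cases h5 : (z i).isSome = true
      · rw [if_pos h5, if_pos (hzf i h5)]
      · rw [if_neg h5]
        split_ifs <;> linarith
  have key := hD P (Fin N) E (fun i => cX P (x i)) (fun i => sX P (x i)) Pm R hF z b hz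
    (GB m P) (CclB m P) g κ₀ hκ'
  refine glueB (P := fun S => ∃ X : Finset (Off P), S = up X ∧ X ≠ ∅ ∧
    ∑ q ∈ X, (CclB m P).cl q = g ∧ ∀ i,
      nX (d4.off P) (ρX P) (fun i => cX P (x i)) (fun i => sX P (x i)) Pm R
        (fun j => (CclB m P).A j g) i X = 1 ∧
      ∀ e, z i = some e → k2X (d4.off P) (ρX P) (fun i => cX P (x i)) (fun i => sX P (x i))
        Pm R b i e X = 1) (fun ε hε => ?_) fun S hS hSg hSX i => ?_
  · obtain ⟨X0, hX0⟩ := key (ε / 2) (by positivity)
    obtain ⟨X1, hX1⟩ := exists_nat_gt (2 / ε)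
    refine ⟨X0 + X1, fun Y hY => ?_⟩
    have h4 := hX0 Y ((Nat.le_add_right _ _).trans hY)
    have h5 : (1 : ℝ) ≤ ε / 2 * Y := by
      have h6 : (X1 : ℝ) ≤ Y := by exact_mod_cast (Nat.le_add_left _ _).trans hY
      have h7 := hX1.le.trans h6
      rw [div_le_iff₀ hε] at h7
      linarith
    rw [SB_eq (CclB m P) (cl := clB m P) (fun q => rfl), SG_eq, card_map]
    have h6 : ∀ (T1 : Finset (Finset (Off P))) (T2 : Finset (Finset Pg)),
        (∀ B ∈ T1, B ∈ SB ∅ (CclB m P).cl g Y ∧ ∀ i,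
          nX (d4.off P) (ρX P) (fun i => cX P (x i)) (fun i => sX P (x i)) Pm R
            (fun j => (CclB m P).A j g) i B = 1 ∧
          ∀ e, z i = some e → k2X (d4.off P) (ρX P) (fun i => cX P (x i))
            (fun i => sX P (x i)) Pm R b i e B = 1) →
        (∀ X : Finset (Off P), X ∈ SB ∅ (CclB m P).cl g Y → X ≠ ∅ → (∀ i,
          nX (d4.off P) (ρX P) (fun i => cX P (x i)) (fun i => sX P (x i)) Pm R
            (fun j => (CclB m P).A j g) i X = 1 ∧
          ∀ e, z i = some e → k2X (d4.off P) (ρX P) (fun i => cX P (x i))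
            (fun i => sX P (x i)) Pm R b i e X = 1) → up X ∈ T2) →
        (T1.card : ℝ) ≤ T2.card + 1 := by
      intro T1 T2 hT1 hT2
      rw [← Nat.cast_succ, Nat.cast_le, ← card_map ⟨up, up_injective⟩]
      refine (card_le_card (t := insert ∅ T2) fun S hS => ?_).trans (card_insert_le _ _)
      obtain ⟨X, hX5, rfl⟩ := mem_map.1 hS
      obtain ⟨hX6, hX7⟩ := hT1 X hX5
      rw [mem_insert]
      by_cases hXe : X = ∅
      · left
        rw [hXe]
        rfl
      · exact Or.inr (hT2 X hX6 hXe hX7)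
    refine le_of_add_le_add_right (a := (1 : ℝ)) (le_trans ?_ (h4.trans (h6 _ _
      (fun B hB => (mem_flt _ _ _ _).1 hB) fun X hX6 hXe hX7 => mem_filter.2
        ⟨mem_map_of_mem _ hX6, X, rfl, hXe, (mem_SB.1 hX6).2.2, hX7⟩)))
    linarith
  · obtain ⟨X, rfl, hXe, hXg, hXX⟩ := hSX
    obtain ⟨h4, h5⟩ := hXX i
    have hα : ∀ j, ∑ q ∈ X, (d4.off P).a q j = (fun j => (CclB m P).A j g) j := by
      intro j
      show _ = (CclB m P).A j g
      rw [← hXg, map_sum]
      exact sum_congr rfl fun q _ => (CclB m P).ha q j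
    have h6 := kX_mul (D := d4.off P) (ρ := ρX P) (by
        funext q
        unfold ρX
        rw [if_pos rfl]
        rfl) (fun i => cX P (x i)) (fun i => sX P (x i)) Pm R (α := fun j => (CclB m P).A j g) i
      hXe hα
    rw [h4, mul_one] at h6
    refine hX i X hXe hXg (tX (fun i => cX P (x i)) (fun i => sX P (x i)) Pm R
      (fun j => (CclB m P).A j g) i) (fun h7 => ?_) (fun h7 => ?_) h6 fun e he => ?_
    · by_contra h8
      unfold tX at h7
      rw [if_neg h8] at h7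
      exact absurd h7 (by decide)
    · have h8 := (tX_cases (fun i => cX P (x i)) (fun i => sX P (x i)) Pm R
        (fun j => (CclB m P).A j g) i).resolve_right h7
      refine ⟨h8, fun h9 => ?_⟩
      unfold tX at h7
      exact h7 (if_pos h9)
    · have h7 := h5 e he
      unfold k2X at h7
      exact h7

end

end Pool.Agent.Lib.MP_1a91b9_ntM.E
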