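import Pool.Agent.Lib.MP_1a91b9_ntM.E.XLab
import Pool.Agent.Lib.MP_1a91b9_ntQ.D.DAlgQ

/-!
# Quadratic twists over the abelian extensions of exponent dividing `4`, part D: the number of the main
terms
-/

set_option autoImplicit false
set_option linter.unusedSectionVars false

namespace Pool.Agent.Lib.MP_1a91b9_ntM.E

open Finset Pool.Agent.Lib.MP_1a91b9_ntH Pool.Agent.Lib.MP_1a91b9_ntQ Pool.Agent.Lib.MP_1a91b9_ntQ.Da
  Pool.Agent.Lib.MP_1a91b9_ntQ.M Pool.Agent.Lib.MP_1a91b9_ntM

noncomputable section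

/-! ### Products -/

section Prod

variable {A : Type} [Fintype A] [DecidableEq A] {k : A → ℕ}

/-- A set of functions which separates the points and preserves `W`. -/
theorem stb_ia {W : Finset (LabP k)} (h : MxP W) (hs : ∀ a b : A, a ≠ b →
    ∃ g : A → ZMod 2, Stb W g ∧ g a ≠ g b) (a : A) : Stb W (ia a) := by
  classical
  choose g hg using fun (b : A) (hb : a ≠ b) => hs a b hb
  set G : A → A → ZMod 2 := fun b =>
    if hb : a ≠ b then g b hb + fun _ => g b hb b else 1 with hG
  have h3 : ia a = ∏ b, G b := by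
    funext a'
    rw [Finset.prod_apply]
    by_cases ha : a' = a
    · subst ha
      rw [ia, Pi.single_eq_same, prod_eq_one]
      intro b _
      by_cases hb : a' ≠ b
      · have h4 := (hg b hb).2
        have h5 : ∀ u v : ZMod 2, u ≠ v → u + v = 1 := by decide
        simp only [hG, dif_pos hb]
        exact h5 _ _ h4
      · simp only [hG, dif_neg hb]
        rfl
    · rw [ia, Pi.single_eq_of_ne ha]
      refine (prod_eq_zero (mem_univ a') ?_).symm
      simp only [hG, dif_pos (show a ≠ a' from fun h => ha h.symm)]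
      exact z2_add_self _
  rw [h3]
  refine Stb.prod _ _ fun b _ => ?_
  by_cases hb : a ≠ b
  · simp only [hG, dif_pos hb]
    exact Stb.add h (hg b hb).1 (Stb.const h _)
  · simp only [hG, dif_neg hb]
    exact Stb.one

theorem prod_of_stb {U : Finset (LabP k)} {u : LabP k} (hu : u ∈ U) (hM : MxP (tW U u))
    (hfm : ∀ a, Stb (tW U u) (ia a)) :
    U = Fintype.piFinset (pj U) ∧ ∀ a, Unl2 (pj U a) ∧ (pj U a).card = 2 ^ k a := by
  classical
  have hsum : ∀ (s : Finset A) (x : A → LabP k), (∀ a ∈ s, x a ∈ tW U u) →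
      ∑ a ∈ s, x a ∈ tW U u := by
    intro s x
    induction s using Finset.induction_on with
    | empty =>
      intro _
      rw [sum_empty]
      exact hM.zero
    | insert b s hb ih =>
      intro h
      rw [sum_insert hb]
      exact hM.add_mem (h b (mem_insert_self _ _)) (ih fun a ha => h a (mem_insert_of_mem ha))
  have hmW : ∀ {l : LabP k}, l ∈ U → l + u ∈ tW U u := fun {l} hl =>
    mem_tW.2 (by rw [lp_add_add]; exact hl)
  have hprod : U = Fintype.piFinset (pj U) := by
    ext l
    rw [Fintype.mem_piFinset]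
    constructor
    · exact fun hl a => mem_pj.2 ⟨l, hl, rfl⟩
    · intro hl
      have h1 : ∀ a, ∃ v ∈ U, v a = l a := fun a => mem_pj.1 (hl a)
      choose v hv hv2 using h1
      have h2 : ∀ a, fm (ia a) (v a + u) ∈ tW U u := fun a => hfm a _ (hmW (hv a))
      have h3 : ∑ a, fm (ia a) (v a + u) = l + u := by
        funext b
        rw [Finset.sum_apply, sum_eq_single b]
        · show ia b b • (v b b + u b) = l b + u b
          rw [ia, Pi.single_eq_same, one_smul, hv2]
        · intro a _ hab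
          show ia a b • _ = (0 : Lab2 (k b))
          rw [ia, Pi.single_eq_of_ne hab.symm, zero_smul]
        · exact fun h => absurd (mem_univ _) h
      have h4 := hsum univ (fun a => fm (ia a) (v a + u)) fun a _ => h2 a
      rw [h3, mem_tW, lp_add_add] at h4
      exact h4
  have hunl : ∀ a, Unl2 (pj U a) := by
    intro a x hx y hy
    obtain ⟨l, hl, rfl⟩ := mem_pj.1 hx
    obtain ⟨l', hl', rfl⟩ := mem_pj.1 hy
    have h1 : l + l' ∈ tW U u := by
      have h4 := hM.add_mem (hmW hl) (hmW hl')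
      have e : l + u + (l' + u) = l + l' := by
        have : l + u + (l' + u) = l + l' + (u + u) := by abel
        rw [this, lp_add_self, add_zero]
      rwa [e] at h4
    have h2 := hM.Q (hfm a _ h1)
    have h3 : QP (fm (ia a) (l + l')) = Q2 (l a + l' a) := by
      rw [QP, sum_eq_single a]
      · show Q2 (ia a a • (l a + l' a)) = _
        rw [ia, Pi.single_eq_same, one_smul]
      · intro b _ hb
        show Q2 (ia a b • (l b + l' b)) = 0
        rw [ia, Pi.single_eq_of_ne hb, zero_smul, Q2_zero]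
      · exact fun h => absurd (mem_univ _) h
    rw [l2_sub, ← h3, h2]
  refine ⟨hprod, fun a => ⟨hunl a, ?_⟩⟩
  have hcd : U.card = ∏ a, 2 ^ k a := by
    have h1 := hM.card
    rwa [tW, card_image_of_injective _ (add_left_injective u)] at h1
  have hle : ∀ a, (pj U a).card ≤ 2 ^ k a := fun a => K1 (hunl a)
  have hpos : ∀ a, 0 < (pj U a).card := fun a => card_pos.2 ⟨u a, mem_pj.2 ⟨u, hu, rfl⟩⟩
  have hpr : ∏ a, (pj U a).card = ∏ a, 2 ^ k a := by
    rw [← Fintype.card_piFinset, ← hprod, hcd]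
  by_contra hcon
  have h5 : ∏ a, (pj U a).card < ∏ a, 2 ^ k a :=
    prod_lt_prod (fun a _ => hpos a) (fun a _ => hle a) ⟨a, mem_univ a, lt_of_le_of_ne (hle a) hcon⟩
  exact absurd hpr h5.ne

/-- The number of the products. -/
theorem card_pi {Y : Type} [Fintype Y] [DecidableEq Y] [AddCommMonoid Y] {L : A → Type}
    [∀ a, Fintype (L a)] [∀ a, DecidableEq (L a)] (S : ∀ a, Y → Finset (Finset (L a)))
    (hne : ∀ a y, ∀ V ∈ S a y, V.Nonempty) (hy : ∀ a y y' V, V ∈ S a y → V ∈ S a y' → y = y')
    (M : Finset (Finset (∀ a, L a))) (c : Y)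
    (hM : ∀ U, U ∈ M ↔ ∃ (V : ∀ a, Finset (L a)) (y : A → Y), U = Fintype.piFinset V ∧
      (∀ a, V a ∈ S a (y a)) ∧ ∑ a, y a = c) :
    M.card = ∑ y : A → Y, if ∑ a, y a = c then ∏ a, (S a (y a)).card else 0 := by
  classical
  have h1 : M = (univ.filter fun y : A → Y => ∑ a, y a = c).biUnion fun y =>
      (Fintype.piFinset fun a => S a (y a)).image fun V => Fintype.piFinset V := by
    ext U
    rw [hM, mem_biUnion]
    constructor
    · rintro ⟨V, y, rfl, hV, hc⟩
      exact ⟨y, mem_filter.2 ⟨mem_univ _, hc⟩, mem_image.2 ⟨V, Fintype.mem_piFinset.2 hV, rfl⟩⟩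
    · rintro ⟨y, hc, hV⟩
      rw [mem_image] at hV
      obtain ⟨V, hV, rfl⟩ := hV
      exact ⟨V, y, rfl, Fintype.mem_piFinset.1 hV, (mem_filter.1 hc).2⟩
  have hrec : ∀ (y : A → Y) (V : ∀ a, Finset (L a)),
      V ∈ (Fintype.piFinset fun a => S a (y a)) → ∀ a,
      (Fintype.piFinset V).image (fun f => f a) = V a := by
    intro y V hV a
    rw [Fintype.mem_piFinset] at hV
    ext x
    rw [mem_image]
    constructor
    · rintro ⟨f, hf, rfl⟩
      exact Fintype.mem_piFinset.1 hf a
    · intro hx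
      choose v hv using fun b => hne b _ _ (hV b)
      refine ⟨Function.update v a x, Fintype.mem_piFinset.2 fun b => ?_, Function.update_self ..⟩
      by_cases hb : b = a
      · subst hb
        rw [Function.update_self]
        exact hx
      · rw [Function.update_of_ne hb]
        exact hv b
  rw [h1, card_biUnion, sum_filter]
  · refine sum_congr rfl fun y _ => ?_
    split_ifs with hyc
    · rw [card_image_of_injOn, Fintype.card_piFinset]
      intro V hV V' hV' hVV
      funext a
      rw [← hrec y V (mem_coe.1 hV) a, ← hrec y V' (mem_coe.1 hV') a]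
      exact congrArg (fun s : Finset (∀ a, L a) => s.image fun f => f a) hVV
    · rfl
  · intro y _ y' _ hne'
    refine disjoint_left.2 fun U h2 h3 => hne' ?_
    rw [mem_image] at h2 h3
    obtain ⟨V, hV, rfl⟩ := h2
    obtain ⟨V', hV', hVV⟩ := h3
    funext a
    have h4 : V a = V' a := by
      rw [← hrec y V hV a, ← hrec y' V' hV' a, hVV]
    have h5 := Fintype.mem_piFinset.1 hV a
    have h6 := Fintype.mem_piFinset.1 hV' a
    rw [← h4] at h6
    exact hy a _ _ _ h5 h6

end Prod

/-! ### One factor -/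

section One

variable {k : ℕ} {κ : Type} [Fintype κ] [DecidableEq κ] {E : Type} [Fintype E] [DecidableEq E]

/-- The possible factors of the sets of labels of the main terms. -/
def MsX (c0 σ : κ → ZMod 2) (P : κ → E → ZMod 2) (m : E → Lab2 k) (y : κ → ZMod 2) :
    Finset (Finset (Lab2 k)) := by
  classical exact if c0 = 0 then MsE σ P m y else
    if y = 0 then (Lgs2 k).filter fun V => ∀ e, m e ∈ V else ∅

variable {c0 σ : κ → ZMod 2} {P : κ → E → ZMod 2} {m : E → Lab2 k} {y : κ → ZMod 2}
  {V : Finset (Lab2 k)}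

theorem MsX_pos (h : c0 = 0) : MsX c0 σ P m y = MsE σ P m y := by
  rw [MsX, if_pos h]

theorem mem_MsX_neg (h : c0 ≠ 0) : V ∈ MsX c0 σ P m y ↔ y = 0 ∧ Mx2 V ∧ ∀ e, m e ∈ V := by
  classical
  rw [MsX, if_neg h]
  split_ifs with hy
  · rw [mem_filter, mem_Lgs2]
    exact ⟨fun h => ⟨hy, h⟩, fun h => h.2⟩
  · exact ⟨fun h => absurd h (notMem_empty _), fun h => absurd h.1 hy⟩

theorem MsX_MsE (h : V ∈ MsX c0 σ P m y) : V ∈ MsE σ P m y := by
  by_cases hc : c0 = 0
  · rwa [MsX_pos hc] at h
  · rw [mem_MsX_neg hc] at h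
    obtain ⟨rfl, h1, h2⟩ := h
    refine mem_MsE.2 ⟨h1.unl, h1.card, fun l hl => ?_⟩
    funext j
    rw [cE, h1.unl.Q h1.zero hl, mul_zero, zero_add]
    exact sum_eq_zero fun e _ => by rw [h1.unl.B h1.zero hl (h2 e), mul_zero]

theorem MsX_unique {y' : κ → ZMod 2} (h : V ∈ MsX c0 σ P m y) (h' : V ∈ MsX c0 σ P m y') :
    y = y' := by
  have h1 := MsX_MsE h
  have h2 := MsX_MsE h'
  obtain ⟨x, hx⟩ := nonempty_MsE h1
  rw [← (mem_MsE.1 h1).2.2 x hx, (mem_MsE.1 h2).2.2 x hx]

open Classical in
/-- The sum over the labels of the border of one factor. -/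
theorem MsX_sum {R : Matrix E E (ZMod 2)} (hR : ∀ e f, R e f = R f e)
    (hP : ∀ (x : E → ZMod 2) (t : ZMod 2), (∀ j, ∑ e, P j e * x e = t * c0 j) → x = 0)
    (α : κ → ZMod 2) :
    ∑ m : E → Lab2 k, e2 (RF R m) * ∑ y, e2 (∑ j, y j * α j) * ((MsX c0 σ P m y).card : ℂ) =
      Nk2 k * ((if c0 = 0 ∧ Triv σ P R α then 2 else 1 : ℕ) : ℂ) ^ k *
        (2 ^ k) ^ Fintype.card E := by
  by_cases hc : c0 = 0
  · have h1 : ∀ m : E → Lab2 k,
        e2 (RF R m) * ∑ y, e2 (∑ j, y j * α j) * ((MsX c0 σ P m y).card : ℂ) =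
        ∑ y, e2 (∑ j, y j * α j) * (e2 (RF R m) * ((MsE σ P m y).card : ℂ)) := by
      intro m
      rw [mul_sum]
      refine sum_congr rfl fun y _ => ?_
      rw [MsX_pos hc]
      ring
    rw [sum_congr rfl fun m _ => h1 m, sum_comm]
    have h2 : ∀ y : κ → ZMod 2, ∑ m : E → Lab2 k, e2 (∑ j, y j * α j) *
        (e2 (RF R m) * ((MsE σ P m y).card : ℂ)) =
        e2 (∑ j, y j * α j) * TE k σ P R y := fun y => (mul_sum _ _ _).symm
    rw [sum_congr rfl fun y _ => h2 y, TE_sum hR (fun x hx => hP x 0 fun j => by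
      rw [hx j, zero_mul]) α]
    by_cases ht : Triv σ P R α
    · rw [if_pos ht, if_pos ⟨hc, ht⟩]
      push_cast
      ring
    · rw [if_neg ht, if_neg fun h => ht h.2]
      push_cast
      ring
  · have h1 : ∀ m : E → Lab2 k,
        e2 (RF R m) * ∑ y, e2 (∑ j, y j * α j) * ((MsX c0 σ P m y).card : ℂ) =
        e2 (RF R m) * (Nat.card {V : Finset (Lab2 k) // Mx2 V ∧ ∀ e, m e ∈ V} : ℂ) := by
      intro m
      rw [sum_eq_single (0 : κ → ZMod 2)]
      · have h2 : ∑ j, (0 : κ → ZMod 2) j * α j = 0 :=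
          sum_eq_zero fun j _ => by rw [Pi.zero_apply, zero_mul]
        rw [h2, e2_zero, one_mul, Nat.card_eq_fintype_card, Fintype.card_subtype]
        congr 3
        ext V
        rw [mem_MsX_neg hc, mem_filter]
        exact ⟨fun h => ⟨mem_univ _, h.2⟩, fun h => ⟨rfl, h.2⟩⟩
      · intro y _ hy
        have h2 : MsX c0 σ P m y = ∅ := eq_empty_iff_forall_notMem.2 fun V hV =>
          hy ((mem_MsX_neg hc).1 hV).1
        rw [h2, card_empty, Nat.cast_zero, mul_zero]
      · exact fun h => absurd (mem_univ _) h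
    rw [sum_congr rfl fun m _ => h1 m, T_one hR, if_neg fun h => hc h.1, Nat.cast_one, one_pow,
      mul_one]

/-- The vectors which are orthogonal to the orthogonal complement. -/
theorem dual_one {v c : κ → ZMod 2} (h : ∀ φ : κ → ZMod 2, ∑ j, c j * φ j = 0 →
    ∑ j, v j * φ j = 0) : ∃ t : ZMod 2, ∀ j, v j = t * c j := by
  have hs : ∀ (w : κ → ZMod 2) (j : κ) (z : ZMod 2), ∑ i, w i * (Pi.single j z : κ → ZMod 2) i =
      w j * z := by
    intro w j z
    rw [sum_eq_single j]
    · rw [Pi.single_eq_same]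
    · intro i _ hi
      rw [Pi.single_eq_of_ne hi, mul_zero]
    · exact fun h => absurd (mem_univ _) h
  by_cases hc : ∃ j, c j ≠ 0
  · obtain ⟨j0, hj0⟩ := hc
    refine ⟨v j0, fun j => ?_⟩
    have h1 := h (Pi.single j 1 + Pi.single j0 (c j)) (by
      simp only [Pi.add_apply, mul_add, sum_add_distrib, hs]
      rw [zone hj0, one_mul, mul_one]
      exact z2_add_self _)
    simp only [Pi.add_apply, mul_add, sum_add_distrib, hs] at h1
    rw [mul_one] at h1
    rw [← sub_eq_zero, sub_eq_add_neg, z2_neg]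
    exact h1
  · push Not at hc
    refine ⟨0, fun j => ?_⟩
    have h1 := h (Pi.single j 1) (by rw [hs, hc j, zero_mul])
    rw [hs, mul_one] at h1
    rw [h1, zero_mul]

end One

/-! ### The main terms -/

section Main

variable {A : Type} [Fintype A] [DecidableEq A] {k : A → ℕ} {ι : Type} [DecidableEq ι]
  {κ : Type} [Fintype κ] [DecidableEq κ] {E : A → Type} [∀ a, Fintype (E a)]
  [∀ a, DecidableEq (E a)]

variable {cA σ : A → κ → ZMod 2} {P : ∀ a, κ → E a → ZMod 2}
  {R : ∀ a, Matrix (E a) (E a) (ZMod 2)} {m : ∀ a, E a → Lab2 (k a)}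

theorem e2_inj {x y : ZMod 2} (h : e2 x = e2 y) : x = y := by
  have h1 : (1 : ℂ) ≠ -1 := by
    intro h
    have h2 : (2 : ℂ) = 0 := by linear_combination h
    exact two_ne_zero h2
  rcases z2 x with rfl | rfl <;> rcases z2 y with rfl | rfl
  · rfl
  · rw [e2_zero, e2_one] at h
    exact absurd h h1
  · rw [e2_zero, e2_one] at h
    exact absurd h.symm h1
  · rfl

theorem totX_const {U : Finset (LabP k)} (h : U ∈ FullW (LSP ι k σ P m) (wX k cA))
    {φ : κ → ZMod 2} {v : ZMod 2} (hv : ∀ l ∈ UA (fA cA φ) U, ∑ j, cP σ P m l j * φ j = v) :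
    TotW (LSP ι k σ P m) (wX k cA) U φ = e2 v := by
  rw [TotX_eq, sum_congr rfl fun l hl => by rw [hv l hl], sum_const, nsmul_eq_mul,
    ← mul_assoc, (mem_FullX.1 h).2 φ]
  have h4 : ((wA k (fA cA φ) : ℝ) : ℂ) *
      ((∏ a ∈ univ.filter (fun a => fA cA φ a = 0), 2 ^ k a : ℕ) : ℂ) = 1 := by
    exact_mod_cast congrArg (fun x : ℝ => (x : ℂ)) (wA_mul k (fA cA φ))
  rw [h4, one_mul]

theorem const_of_tot {U : Finset (LabP k)} (h : U ∈ FullW (LSP ι k σ P m) (wX k cA))
    {φ : κ → ZMod 2} {v : ZMod 2} (hv : TotW (LSP ι k σ P m) (wX k cA) U φ = e2 v)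
    {l : LabP k} (hl : l ∈ UA (fA cA φ) U) : ∑ j, cP σ P m l j * φ j = v := by
  have h1 : ∀ l' ∈ UA (fA cA φ) U, ∑ j, cP σ P m l' j * φ j = ∑ j, cP σ P m l j * φ j := by
    intro l' hl'
    by_contra hne
    have h4 := norm_sum_e2_lt (UA (fA cA φ) U) (fun l => ∑ j, cP σ P m l j * φ j) hl' hl hne
    have h5 : ‖TotW (LSP ι k σ P m) (wX k cA) U φ‖ < 1 := by
      rw [TotX_eq, norm_mul, Complex.norm_real, Real.norm_eq_abs, abs_of_pos (wA_pos k _),
        ← wA_mul k (fA cA φ), ← (mem_FullX.1 h).2 φ]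
      exact mul_lt_mul_of_pos_left h4 (wA_pos k _)
    rw [hv, norm_e2] at h5
    exact lt_irrefl _ h5
  have h2 := totX_const h h1
  rw [hv] at h2
  exact (e2_inj h2).symm

theorem cP_update (u : LabP k) (a : A) (x : Lab2 (k a)) (j : κ) :
    cP σ P m (Function.update u a x) j + cP σ P m u j =
      cE (σ a) (P a) (m a) x j + cE (σ a) (P a) (m a) (u a) j := by
  rw [cP, cP, ← add_sum_erase _ _ (mem_univ a), ← add_sum_erase _ _ (mem_univ a),
    Function.update_self]
  have h1 : ∑ b ∈ univ.erase a, cE (σ b) (P b) (m b) (Function.update u a x b) j =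
      ∑ b ∈ univ.erase a, cE (σ b) (P b) (m b) (u b) j :=
    sum_congr rfl fun b hb => by rw [Function.update_of_ne (ne_of_mem_erase hb)]
  rw [h1]
  have h2 : ∀ p q r : ZMod 2, p + r + (q + r) = p + q := by decide
  exact h2 _ _ _

/-- **The sets of labels of the main terms are products.** -/
theorem full_iff (hF : FamX cA σ P R) (U : Finset (LabP k)) (c : κ → ZMod 2) :
    (U ∈ FullW (LSP ι k σ P m) (wX k cA) ∧
      ∀ φ, TotW (LSP ι k σ P m) (wX k cA) U φ = e2 (∑ j, c j * φ j)) ↔
    ∃ (V : ∀ a, Finset (Lab2 (k a))) (y : A → κ → ZMod 2), U = Fintype.piFinset V ∧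
      (∀ a, V a ∈ MsX (cA a) (σ a) (P a) (m a) (y a)) ∧ ∑ a, y a = c := by
  classical
  constructor
  · rintro ⟨h, hT⟩
    obtain ⟨⟨h1, h2⟩, h3⟩ := mem_FullX.1 h
    have hne : U.Nonempty := by
      rw [← card_pos, h2]
      exact prod_pos fun a _ => by positivity
    obtain ⟨u0, hu0⟩ := hne
    have hF0 := fuX h hu0
    obtain ⟨u, hu, hu', hsup⟩ : ∃ u, u ∈ U ∧ (∀ φ, u ∈ UA (fA cA φ) U) ∧
        ∀ a, cA a ≠ 0 → u a = 0 :=
      ⟨ls cA u0, hF0.ls_mem, fun φ => ls_mem_UA hF0 φ, fun a ha => ls_eq_zero cA u0 ha⟩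
    have hFu := fuX h hu
    have hM := hFu.mx
    have hcst : ∀ φ, ∀ l ∈ UA (fA cA φ) U, ∑ j, cP σ P m l j * φ j = ∑ j, c j * φ j :=
      fun φ l hl => const_of_tot h (hT φ) hl
    have hadd : ∀ φ x, x ∈ tW U u → (∀ a, fA cA φ a ≠ 0 → x a = 0) → u + x ∈ UA (fA cA φ) U := by
      intro φ x hx hx0
      refine mem_UA.2 ⟨?_, fun a ha => ?_⟩
      · rw [add_comm]
        exact mem_tW.1 hx
      · show u a + x a = 0
        rw [(mem_UA.1 (hu' φ)).2 a ha, hx0 a ha, add_zero]
    have hg : ∀ φ, Stb (tW U u) ((1 + fA cA φ) * fA σ φ) := by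
      intro φ x hx
      rw [hM.mem_iff]
      intro y hy
      have hx1 : fm (1 + fA cA φ) x ∈ tW U u := Stb.add hM Stb.one (hFu.stb φ) x hx
      have hy1 : fm (1 + fA cA φ) y ∈ tW U u := Stb.add hM Stb.one (hFu.stb φ) y hy
      have hz : ∀ z : LabP k, ∀ a, fA cA φ a ≠ 0 → fm (1 + fA cA φ) z a = 0 := by
        intro z a ha
        show (1 + fA cA φ a) • z a = 0
        rw [zone ha, z2_add_self, zero_smul]
      set x' := fm (1 + fA cA φ) x with hx'
      set y' := fm (1 + fA cA φ) y with hy'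
      have e1 : BP (fm ((1 + fA cA φ) * fA σ φ) x) y = ∑ a, fA σ φ a * B2 (x' a) (y' a) := by
        rw [BP_fm]
        refine sum_congr rfl fun a _ => ?_
        show (1 + fA cA φ a) * fA σ φ a * B2 (x a) (y a) =
          fA σ φ a * B2 ((1 + fA cA φ a) • x a) ((1 + fA cA φ a) • y a)
        rcases z2 (fA cA φ a) with h4 | h4
        · rw [h4, add_zero, one_smul, one_smul, one_mul]
        · rw [h4, z2_add_self, zero_smul, zero_smul, B2_zero, zero_mul, zero_mul, mul_zero]
      have e2' : ∑ a, fA σ φ a * B2 (x' a) (y' a) =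
          ∑ j, (∑ a, σ a j * B2 (x' a) (y' a)) * φ j := by
        have h5 : ∀ a, fA σ φ a * B2 (x' a) (y' a) = ∑ j, σ a j * B2 (x' a) (y' a) * φ j := by
          intro a
          rw [fA, sum_mul]
          exact sum_congr rfl fun j _ => by ring
        rw [sum_congr rfl fun a _ => h5 a, sum_comm]
        exact sum_congr rfl fun j _ => (sum_mul _ _ _).symm
      have h4 := hcst φ (u + x' + y') (by
        rw [add_assoc]
        refine hadd φ _ (hM.add_mem hx1 hy1) fun a ha => ?_
        show x' a + y' a = 0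
        rw [hx', hy', hz x a ha, hz y a ha, add_zero])
      have h5 := hcst φ (u + x') (hadd φ _ hx1 (hz x))
      have h6 := hcst φ (u + y') (hadd φ _ hy1 (hz y))
      have h7 := hcst φ u (hu' φ)
      rw [e1, e2']
      have h8 : ∀ j, (∑ a, σ a j * B2 (x' a) (y' a)) * φ j =
          (cP σ P m (u + x' + y') j * φ j + cP σ P m (u + x') j * φ j) +
            (cP σ P m (u + y') j * φ j + cP σ P m u j * φ j) := by
        intro j
        rw [← cP_four (c := σ) (P := P) (m := m) u x' y' j]
        ring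
      rw [sum_congr rfl fun j _ => h8 j]
      simp only [sum_add_distrib]
      rw [h4, h5, h6, h7, z2_add_self]
    have hsep : ∀ a b : A, a ≠ b → ∃ g : A → ZMod 2, Stb (tW U u) g ∧ g a ≠ g b := by
      intro a b hab
      by_cases hcc : cA a = cA b
      · by_contra hcon
        push Not at hcon
        obtain ⟨t, ht⟩ := dual_one (v := σ a + σ b) (c := cA a) (by
          intro φ hφ
          have h4 := hcon _ (hg φ)
          have ha : fA cA φ a = 0 := hφ
          have hb : fA cA φ b = 0 := by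
            rw [fA, ← hcc]
            exact hφ
          have h5 : (1 + fA cA φ a) * fA σ φ a = (1 + fA cA φ b) * fA σ φ b := h4
          rw [ha, hb, add_zero, one_mul, one_mul] at h5
          have h6 : ∑ j, (σ a + σ b) j * φ j = fA σ φ a + fA σ φ b := by
            simp only [fA, Pi.add_apply, add_mul, sum_add_distrib]
          rw [h6, h5, z2_add_self])
        have h7 := hF.sg a b hab hcc
        rcases z2 t with rfl | rfl
        · exact h7.1 (funext fun j => by rw [ht j, zero_mul]; rfl)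
        · exact h7.2 (funext fun j => by rw [ht j, one_mul])
      · have h4 : ∃ j, cA a j ≠ cA b j := by
          by_contra hcon
          push Not at hcon
          exact hcc (funext hcon)
        obtain ⟨j, hj⟩ := h4
        exact ⟨fun a => cA a j, hFu.stj j, hj⟩
    obtain ⟨hpr, hpa⟩ := prod_of_stb hu hM (stb_ia hM hsep)
    have hup : ∀ a, ∀ x ∈ pj U a, Function.update u a x ∈ U := by
      intro a x hx
      rw [hpr, Fintype.mem_piFinset]
      intro b
      by_cases hb : b = a
      · subst hb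
        rw [Function.update_self]
        exact hx
      · rw [Function.update_of_ne hb]
        exact mem_pj.2 ⟨u, hu, rfl⟩
    have hdif : ∀ a, ∀ x ∈ pj U a, ∀ φ : κ → ZMod 2, ∑ j, cA a j * φ j = 0 →
        ∑ j, (cE (σ a) (P a) (m a) x j + cE (σ a) (P a) (m a) (u a) j) * φ j = 0 := by
      intro a x hx φ hφ
      have h4 : Function.update u a x ∈ UA (fA cA φ) U := by
        refine mem_UA.2 ⟨hup a x hx, fun b hb => ?_⟩
        have hba : b ≠ a := by
          rintro rfl
          exact hb hφ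
        rw [Function.update_of_ne hba]
        exact (mem_UA.1 (hu' φ)).2 b hb
      have h5 := hcst φ _ h4
      have h6 := hcst φ u (hu' φ)
      have h7 : ∀ j, (cE (σ a) (P a) (m a) x j + cE (σ a) (P a) (m a) (u a) j) * φ j =
          cP σ P m (Function.update u a x) j * φ j + cP σ P m u j * φ j := by
        intro j
        rw [← cP_update, add_mul]
      rw [sum_congr rfl fun j _ => h7 j, sum_add_distrib, h5, h6, z2_add_self]
    refine ⟨pj U, fun a => cE (σ a) (P a) (m a) (u a), hpr, fun a => ?_, ?_⟩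
    · by_cases hc0 : cA a = 0
      · rw [MsX_pos hc0, mem_MsE]
        refine ⟨(hpa a).1, (hpa a).2, fun x hx => ?_⟩
        obtain ⟨t, ht⟩ := dual_one (v := fun j => cE (σ a) (P a) (m a) x j +
          cE (σ a) (P a) (m a) (u a) j) (c := cA a) (hdif a x hx)
        funext j
        have h4 := ht j
        rw [hc0, Pi.zero_apply, mul_zero] at h4
        have h5 : ∀ p q : ZMod 2, p + q = 0 → p = q := by decide
        exact h5 _ _ h4
      · have h0 : u a = 0 := hsup a hc0
        have hMx : Mx2 (pj U a) := ⟨(hpa a).1, (hpa a).2, mem_pj.2 ⟨u, hu, h0⟩⟩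
        rw [mem_MsX_neg hc0]
        refine ⟨?_, hMx, fun e => ?_⟩
        · funext j
          show cE (σ a) (P a) (m a) (u a) j = 0
          rw [h0, cE_zero]
        · rw [hMx.mem_iff]
          intro x hx
          obtain ⟨t, ht⟩ := dual_one (v := fun j => cE (σ a) (P a) (m a) x j +
            cE (σ a) (P a) (m a) (u a) j) (c := cA a) (hdif a x hx)
          have h4 : ∀ j, ∑ e, P a j e * B2 x (m a e) = t * cA a j := by
            intro j
            rw [← ht j]
            show _ = cE (σ a) (P a) (m a) x j + cE (σ a) (P a) (m a) (u a) j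
            rw [h0, cE_zero, add_zero, cE, hMx.unl.Q hMx.zero hx, mul_zero, zero_add]
          have h5 := hF.bd a (fun e => B2 x (m a e)) t h4
          rw [B2_comm]
          exact congrFun h5 e
    · funext j
      rw [Finset.sum_apply]
      have h4 : cP σ P m u = c := by
        funext j
        have h5 := hcst (Pi.single j 1) u (hu' _)
        have hs : ∀ w : κ → ZMod 2, ∑ i, w i * (Pi.single j 1 : κ → ZMod 2) i = w j := by
          intro w
          rw [sum_eq_single j]
          · rw [Pi.single_eq_same, mul_one]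
          · intro i _ hi
            rw [Pi.single_eq_of_ne hi, mul_zero]
          · exact fun h => absurd (mem_univ _) h
        rw [hs, hs] at h5
        exact h5
      exact congrFun h4 j
  · rintro ⟨V, y, rfl, hV, hc⟩
    have hV' : ∀ a, Unl2 (V a) ∧ (V a).card = 2 ^ k a ∧
        ∀ l ∈ V a, cE (σ a) (P a) (m a) l = y a := fun a => mem_MsE.1 (MsX_MsE (hV a))
    have hfull : Fintype.piFinset V ∈ FullW (LSP ι k σ P m) (wX k cA) := by
      rw [mem_FullX]
      refine ⟨⟨?_, ?_⟩, ?_⟩
      · intro l hl l' hl'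
        rw [Fintype.mem_piFinset] at hl hl'
        exact sum_eq_zero fun a _ => (hV' a).1 _ (hl a) _ (hl' a)
      · rw [Fintype.card_piFinset]
        exact prod_congr rfl fun a _ => (hV' a).2.1
      · intro φ
        have h1 : UA (fA cA φ) (Fintype.piFinset V) =
            Fintype.piFinset fun a => if fA cA φ a = 0 then V a else {0} := by
          ext l
          rw [mem_UA, Fintype.mem_piFinset, Fintype.mem_piFinset]
          constructor
          · rintro ⟨h1, h2⟩ a
            split_ifs with ha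
            · exact h1 a
            · rw [mem_singleton]
              exact h2 a ha
          · intro h1
            refine ⟨fun a => ?_, fun a ha => ?_⟩
            · have h2 := h1 a
              split_ifs at h2 with ha
              · exact h2
              · rw [mem_singleton] at h2
                rw [h2]
                have h3 : cA a ≠ 0 := by
                  intro h0
                  refine ha ?_
                  rw [fA, h0]
                  exact sum_eq_zero fun j _ => by rw [Pi.zero_apply, zero_mul]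
                exact ((mem_MsX_neg h3).1 (hV a)).2.1.zero
            · have h2 := h1 a
              rw [if_neg ha, mem_singleton] at h2
              exact h2
        rw [h1, Fintype.card_piFinset, prod_filter]
        refine prod_congr rfl fun a _ => ?_
        split_ifs
        · exact (hV' a).2.1
        · exact card_singleton _
    refine ⟨hfull, fun φ => totX_const hfull fun l hl => ?_⟩
    have hl' := Fintype.mem_piFinset.1 (mem_UA.1 hl).1
    refine sum_congr rfl fun j _ => ?_
    have h1 : cP σ P m l j = c j := by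
      rw [← hc, Finset.sum_apply, cP]
      exact sum_congr rfl fun a _ => by rw [(hV' a).2.2 _ (hl' a)]
    rw [h1]

open Classical in
/-- The sum over the main terms, for fixed labels of the borders. -/
theorem sum_full (hF : FamX cA σ P R) (α : κ → ZMod 2) :
    ∑ U ∈ FullW (LSP ι k σ P m) (wX k cA),
      ∑ c ∈ univ.filter (fun c : κ → ZMod 2 =>
        ∀ φ, TotW (LSP ι k σ P m) (wX k cA) U φ = e2 (∑ j, c j * φ j)),
        e2 (∑ j, c j * α j) =
    ∏ a, ∑ y, e2 (∑ j, y j * α j) * ((MsX (cA a) (σ a) (P a) (m a) y).card : ℂ) := by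
  have h1 : ∀ U ∈ FullW (LSP ι k σ P m) (wX k cA),
      ∑ c ∈ univ.filter (fun c : κ → ZMod 2 =>
        ∀ φ, TotW (LSP ι k σ P m) (wX k cA) U φ = e2 (∑ j, c j * φ j)),
        e2 (∑ j, c j * α j) =
      ∑ c : κ → ZMod 2, if (∀ φ, TotW (LSP ι k σ P m) (wX k cA) U φ = e2 (∑ j, c j * φ j)) then
        e2 (∑ j, c j * α j) else 0 := fun U _ => sum_filter _ _
  rw [sum_congr rfl h1, sum_comm]
  have h2 : ∀ c : κ → ZMod 2, ∑ U ∈ FullW (LSP ι k σ P m) (wX k cA),
      (if (∀ φ, TotW (LSP ι k σ P m) (wX k cA) U φ = e2 (∑ j, c j * φ j)) then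
        e2 (∑ j, c j * α j) else 0) =
      ∑ y : A → κ → ZMod 2, if ∑ a, y a = c then
        ∏ a, (e2 (∑ j, y a j * α j) * ((MsX (cA a) (σ a) (P a) (m a) (y a)).card : ℂ)) else 0 := by
    intro c
    rw [← sum_filter, sum_const, nsmul_eq_mul]
    have h3 := card_pi (fun a y => MsX (cA a) (σ a) (P a) (m a) y)
      (fun a y V hV => nonempty_MsE (MsX_MsE hV)) (fun a y y' V hV hV' => MsX_unique hV hV')
      ((FullW (LSP ι k σ P m) (wX k cA)).filter fun U =>
        ∀ φ, TotW (LSP ι k σ P m) (wX k cA) U φ = e2 (∑ j, c j * φ j)) c (by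
      intro U
      rw [mem_filter]
      exact full_iff hF U c)
    rw [h3, Nat.cast_sum, sum_mul]
    refine sum_congr rfl fun y _ => ?_
    split_ifs with hy
    · rw [Nat.cast_prod, prod_mul_distrib, mul_comm, ← e2_sum]
      congr 2
      rw [sum_comm]
      refine sum_congr rfl fun j _ => ?_
      rw [← hy, Finset.sum_apply, sum_mul]
    · rw [Nat.cast_zero, zero_mul]
  rw [sum_congr rfl fun c _ => h2 c, sum_comm, Finset.prod_univ_sum, Fintype.piFinset_univ]
  refine sum_congr rfl fun y _ => ?_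
  rw [sum_ite_eq, if_pos (mem_univ _)]

open Classical in
/-- **(4) The number of the main terms.** -/
theorem cntX (ι : Type) [DecidableEq ι] (k : A → ℕ) (hF : FamX cA σ P R) (α : κ → ZMod 2) :
    ∑ m : (∀ a, E a → Lab2 (k a)), (∏ a, e2 (RF (R a) (m a))) *
      ∑ U ∈ FullW (LSP ι k σ P m) (wX k cA),
        ∑ c ∈ univ.filter (fun c : κ → ZMod 2 =>
          ∀ φ, TotW (LSP ι k σ P m) (wX k cA) U φ = e2 (∑ j, c j * φ j)),
          e2 (∑ j, c j * α j) =
    ∏ a, ((Nk2 (k a) : ℂ) * ((tX cA σ P R α a : ℕ) : ℂ) ^ k a *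
      ((2 : ℂ) ^ k a) ^ Fintype.card (E a)) := by
  have h1 : ∀ m : (∀ a, E a → Lab2 (k a)), (∏ a, e2 (RF (R a) (m a))) *
      ∑ U ∈ FullW (LSP ι k σ P m) (wX k cA),
        ∑ c ∈ univ.filter (fun c : κ → ZMod 2 =>
          ∀ φ, TotW (LSP ι k σ P m) (wX k cA) U φ = e2 (∑ j, c j * φ j)),
          e2 (∑ j, c j * α j) =
      ∏ a, (e2 (RF (R a) (m a)) * ∑ y, e2 (∑ j, y j * α j) *
        ((MsX (cA a) (σ a) (P a) (m a) y).card : ℂ)) := by
    intro m
    rw [sum_full hF α, prod_mul_distrib]
  rw [sum_congr rfl fun m _ => h1 m]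
  have h2 : ∀ a, ∑ m : E a → Lab2 (k a), e2 (RF (R a) m) * ∑ y, e2 (∑ j, y j * α j) *
      ((MsX (cA a) (σ a) (P a) m y).card : ℂ) =
      (Nk2 (k a) : ℂ) * ((tX cA σ P R α a : ℕ) : ℂ) ^ k a * ((2 : ℂ) ^ k a) ^ Fintype.card (E a) :=
    fun a => MsX_sum (fun e f => hF.sym a e f) (fun x t hx => hF.bd a x t hx) α
  rw [← prod_congr rfl fun a _ => h2 a, Finset.prod_univ_sum, Fintype.piFinset_univ]

end Main

end

end Pool.Agent.Lib.MP_1a91b9_ntM.E
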