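import Pool.Agent.Lib.MP_1a91b9_ntM.E.XMom
import Pool.Agent.Lib.MP_1a91b9_ntM.E.XCnt

/-!
# Quadratic twists over the abelian extensions of exponent dividing `4`, part D: the label algebra
-/

set_option autoImplicit false
set_option linter.unusedSectionVars false

namespace Pool.Agent.Lib.MP_1a91b9_ntM.E

open Finset Pool.Agent.Lib.MP_1a91b9_ntH Pool.Agent.Lib.MP_1a91b9_ntQ Pool.Agent.Lib.MP_1a91b9_ntQ.Da
  Pool.Agent.Lib.MP_1a91b9_ntQ.M Pool.Agent.Lib.MP_1a91b9_ntM

noncomputable section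

/-- **The label algebra.** -/
theorem cntXI {A : Type} [Fintype A] [DecidableEq A] (k : A → ℕ) (ι : Type) [DecidableEq ι]
    {κ : Type} [Fintype κ] [DecidableEq κ] {E : A → Type} [∀ a, Fintype (E a)]
    [∀ a, DecidableEq (E a)] {cA σ : A → κ → ZMod 2} {P : ∀ a, κ → E a → ZMod 2}
    {R : ∀ a, Matrix (E a) (E a) (ZMod 2)} (hF : FamX cA σ P R) : CntX ι k cA σ P R where
  wt := fun m => wtX cA σ P m
  q0 := fun m U hU l hl c hc => fullX_Q hU hl hc
  dich := fun m U hU => totX hU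
  cnt := fun α => by
    classical
    rw [← cntX ι k hF α]
    refine sum_congr rfl fun m _ => congrArg _ (sum_congr rfl fun U _ => ?_)
    refine sum_congr ?_ fun _ _ => rfl
    ext c
    rw [mem_GcX, mem_filter]
    exact ⟨fun h => ⟨mem_univ _, h⟩, fun h => h.2⟩

end

end Pool.Agent.Lib.MP_1a91b9_ntM.E
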