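import Pool.Agent.Lib.MP_1a91b9_ntQ.M.MatW

/-!
# Quadratic twists over the abelian extensions of exponent dividing `4`, part D: the pencil

Of the three matrices: corner `R`, corner `R` with the entry `z z` changed, and the minor without `z`,
exactly none or two are nonsingular.
-/

set_option autoImplicit false
set_option linter.unusedSectionVars false

namespace Pool.Agent.Lib.MP_1a91b9_ntM.E

open Finset Pool.Agent.Lib.MP_1a91b9_ntH Pool.Agent.Lib.MP_1a91b9_ntQ Pool.Agent.Lib.MP_1a91b9_ntQ.Da
  Pool.Agent.Lib.MP_1a91b9_ntQ.M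

noncomputable section

section Mat

variable {I : Type} [Fintype I] [DecidableEq I]

/-- The determinant after a change of a diagonal entry. -/
theorem det_add_single {R : Type} [CommRing R] (M : Matrix I I R) (z : I) :
    (M + Matrix.single z z 1).det = M.det + M.adjugate z z := by
  have h1 : M + Matrix.single z z 1 = M.updateRow z (M z + Pi.single z 1) := by
    ext i j
    by_cases hi : i = z
    · subst hi
      rw [Matrix.add_apply, Matrix.updateRow_self, Pi.add_apply]
      congr 1
      by_cases hj : j = i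
      · subst hj
        rw [Matrix.single_apply_same, Pi.single_eq_same]
      · rw [Matrix.single_apply_of_ne _ _ _ _ _ (fun h => hj h.2.symm), Pi.single_eq_of_ne hj]
    · rw [Matrix.add_apply, Matrix.updateRow_ne hi,
        Matrix.single_apply_of_ne _ _ _ _ _ (fun h => hi h.1.symm), add_zero]
  rw [h1, Matrix.det_updateRow_add, Matrix.updateRow_eq_self, Matrix.adjugate_apply]

/-- The diagonal entries of the adjugate are the principal minors. -/
theorem adj_minor {R : Type} [CommRing R] (M : Matrix I I R) (z : I) :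
    M.adjugate z z = (M.submatrix (Subtype.val : {i // i ≠ z} → I) Subtype.val).det := by
  rw [Matrix.adjugate_apply]
  let e : {i // i ≠ z} ⊕ Unit ≃ I :=
    { toFun := Sum.elim Subtype.val fun _ => z
      invFun := fun i => if h : i = z then Sum.inr () else Sum.inl ⟨i, h⟩
      left_inv := by
        rintro (i | i)
        · simp [i.2]
        · simp
      right_inv := by
        intro i
        by_cases h : i = z
        · simp [h]
        · simp [h] }
  have h1 : (M.updateRow z (Pi.single z 1)).det =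
      ((M.updateRow z (Pi.single z 1)).submatrix e e).det := (Matrix.det_submatrix_equiv_self e _).symm
  have h2 : (M.updateRow z (Pi.single z 1)).submatrix e e =
      Matrix.fromBlocks (M.submatrix (Subtype.val : {i // i ≠ z} → I) Subtype.val)
        (Matrix.of fun (i : {i // i ≠ z}) (_ : Unit) => M i z) 0 1 := by
    ext i j
    rcases i with i | i <;> rcases j with j | j
    · simp only [Matrix.submatrix_apply, Matrix.fromBlocks_apply₁₁]
      exact congrFun (Matrix.updateRow_ne (M := M) (b := Pi.single z 1) i.2) _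
    · simp only [Matrix.submatrix_apply, Matrix.fromBlocks_apply₁₂]
      exact congrFun (Matrix.updateRow_ne (M := M) (b := Pi.single z 1) i.2) _
    · simp only [Matrix.submatrix_apply, Matrix.fromBlocks_apply₂₁]
      show M.updateRow z (Pi.single z 1) z j = 0
      rw [Matrix.updateRow_self, Pi.single_eq_of_ne j.2]
    · simp only [Matrix.submatrix_apply, Matrix.fromBlocks_apply₂₂]
      show M.updateRow z (Pi.single z 1) z z = (1 : Matrix Unit Unit R) i j
      rw [Matrix.updateRow_self, Pi.single_eq_same]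
      rcases i with ⟨⟩
      rcases j with ⟨⟩
      rfl
  rw [h1, h2, Matrix.det_fromBlocks_zero₂₁, Matrix.det_one, mul_one]

/-- The kernel is trivial if and only if the determinant is not zero. -/
theorem kcd_one_iff (M : Matrix I I (ZMod 2)) : kcd M = 1 ↔ M.det = 1 := by
  have h2 : ∀ x : ZMod 2, x = 0 ∨ x = 1 := by decide
  have h3 : kcd M = 1 ↔ ∀ v : I → ZMod 2, M.mulVec v = 0 → v = 0 := by
    unfold kcd
    rw [Fintype.card_eq_one_iff]
    constructor
    · rintro ⟨x, hx⟩ v hv
      have e1 := congrArg Subtype.val (hx ⟨v, hv⟩)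
      have e2 := congrArg Subtype.val (hx ⟨0, Matrix.mulVec_zero M⟩)
      exact e1.trans e2.symm
    · intro h
      exact ⟨⟨0, Matrix.mulVec_zero M⟩, fun y => Subtype.ext (h y.1 y.2)⟩
  rw [h3]
  constructor
  · intro h
    rcases h2 M.det with h4 | h4
    · exfalso
      obtain ⟨v, hv, hv2⟩ := Matrix.exists_mulVec_eq_zero_iff.2 h4
      exact hv (h v hv2)
    · exact h4
  · intro h v hv
    by_contra hv0
    have h4 := Matrix.exists_mulVec_eq_zero_iff.1 ⟨v, hv0, hv⟩
    rw [h] at h4
    exact one_ne_zero h4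

/-- A change of the index set. -/
theorem kcd_submatrix {J : Type} [Fintype J] [DecidableEq J] (e : J ≃ I)
    (M : Matrix I I (ZMod 2)) : kcd (M.submatrix e e) = 1 ↔ kcd M = 1 := by
  rw [kcd_one_iff, kcd_one_iff, Matrix.det_submatrix_equiv_self]

/-- **The parity.** -/
theorem kcd_parity (M : Matrix I I (ZMod 2)) (z : I) :
    (if kcd M = 1 then (1 : ZMod 2) else 0) + (if kcd (M + Matrix.single z z 1) = 1 then 1 else 0) =
      if kcd (M.submatrix (Subtype.val : {i // i ≠ z} → I) Subtype.val) = 1 then 1 else 0 := by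
  have h2 : ∀ x : ZMod 2, (if x = 1 then (1 : ZMod 2) else 0) = x := by decide
  simp only [kcd_one_iff, h2]
  rw [det_add_single, adj_minor]
  have h3 : ∀ x y : ZMod 2, x + (x + y) = y := by decide
  exact h3 _ _

end Mat

/-! ### The three systems -/

section Sys

variable {ι : Type} [DecidableEq ι] {κ : Type} [Fintype κ] [DecidableEq κ] {E : Type} [Fintype E]
  [DecidableEq E]

/-- The border without `z`. -/
def Pz (P : κ → E → ZMod 2) (z : E) : κ → {e : E // e ≠ z} → ZMod 2 := fun j e => P j e

/-- The corner without `z`. -/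
def Rz (R : Matrix E E (ZMod 2)) (z : E) : Matrix {e : E // e ≠ z} {e : E // e ≠ z} (ZMod 2) :=
  R.submatrix Subtype.val Subtype.val

theorem NV_add_single (D : Dat2 ι κ) (c : κ → ZMod 2) (P : κ → E → ZMod 2)
    (R : Matrix E E (ZMod 2)) (V : Finset ι) (τ : ι → ZMod 2) (S : Finset ι) (z : E) :
    D.NV c P (R + Matrix.single z z 1) V τ S =
      D.NV c P R V τ S + Matrix.single (Sum.inr (Sum.inr z)) (Sum.inr (Sum.inr z)) 1 := by
  ext i j
  rw [Matrix.add_apply]
  rcases i with i | i | i <;> rcases j with j | j | j <;>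
    simp [Dat2.NV, Matrix.single_apply]

/-- The index set without `z`. -/
def eqz (S V : Finset ι) (z : E) : S ⊕ (V ⊕ {e : E // e ≠ z}) ≃
    {i : S ⊕ (V ⊕ E) // i ≠ Sum.inr (Sum.inr z)} where
  toFun := Sum.elim (fun s => ⟨Sum.inl s, by simp⟩) (Sum.elim (fun v => ⟨Sum.inr (Sum.inl v), by simp⟩)
    fun e => ⟨Sum.inr (Sum.inr e.1), by simp [e.2]⟩)
  invFun i := match i with
    | ⟨Sum.inl s, _⟩ => Sum.inl s
    | ⟨Sum.inr (Sum.inl v), _⟩ => Sum.inr (Sum.inl v)
    | ⟨Sum.inr (Sum.inr e), h⟩ => Sum.inr (Sum.inr ⟨e, fun h' => h (by rw [h'])⟩)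
  left_inv := by rintro (s | v | e) <;> rfl
  right_inv := by rintro ⟨s | v | e, h⟩ <;> rfl

theorem NV_minor (D : Dat2 ι κ) (c : κ → ZMod 2) (P : κ → E → ZMod 2)
    (R : Matrix E E (ZMod 2)) (V : Finset ι) (τ : ι → ZMod 2) (S : Finset ι) (z : E) :
    D.NV c (Pz P z) (Rz R z) V τ S =
      ((D.NV c P R V τ S).submatrix
        (Subtype.val : {i : S ⊕ (V ⊕ E) // i ≠ Sum.inr (Sum.inr z)} → S ⊕ (V ⊕ E))
        Subtype.val).submatrix (eqz S V z) (eqz S V z) := by
  ext i j
  rcases i with i | i | i <;> rcases j with j | j | j <;> rfl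

/-- **The parity for the systems**: of the three kernels exactly none or two are trivial. -/
theorem kW_parity (D : Dat2 ι κ) (c : κ → ZMod 2) (P : κ → E → ZMod 2) (R : Matrix E E (ZMod 2))
    (ρ : ι → ZMod 2) (F B : Finset ι) (z : E) :
    (if kW D c P R ρ F B = 1 then (1 : ZMod 2) else 0) +
      (if kW D c P (R + Matrix.single z z 1) ρ F B = 1 then 1 else 0) =
        if kW D c (Pz P z) (Rz R z) ρ F B = 1 then 1 else 0 := by
  unfold kW
  have h1 := kcd_parity (D.NV c P R (Va D c F B) (ta D ρ B) F) (Sum.inr (Sum.inr z))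
  rw [NV_add_single, NV_minor]
  simp only [kcd_submatrix]
  exact h1

/-- The border without `z` is injective modulo `c`. -/
theorem bd_Pz {c : κ → ZMod 2} {P : κ → E → ZMod 2}
    (h : ∀ (x : E → ZMod 2) (t : ZMod 2), (∀ j, ∑ e, P j e * x e = t * c j) → x = 0) (z : E)
    (x : {e : E // e ≠ z} → ZMod 2) (t : ZMod 2) (hx : ∀ j, ∑ e, Pz P z j e * x e = t * c j) :
    x = 0 := by
  have h1 := h (fun e => if he : e ≠ z then x ⟨e, he⟩ else 0) t ?_
  · funext e
    have h2 := congrFun h1 e.1
    rw [dif_pos e.2] at h2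
    exact h2
  · intro j
    rw [← hx j, ← add_sum_erase univ _ (mem_univ z), dif_neg (fun h => h rfl), mul_zero, zero_add]
    symm
    refine sum_bij (fun e _ => e.1) (fun e _ => mem_erase.2 ⟨e.2, mem_univ _⟩)
      (fun a _ b _ h => Subtype.ext h) (fun b hb => ⟨⟨b, ne_of_mem_erase hb⟩, mem_univ _, rfl⟩)
      fun e _ => ?_
    rw [dif_pos e.2]
    rfl

end Sys

end

end Pool.Agent.Lib.MP_1a91b9_ntM.E
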