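import Pool.Agent.Lib.MP_1a91b9_ntM.E.XDen0
import Pool.Agent.Lib.MP_1a91b9_ntM.E.Pen
import Pool.Agent.Lib.MP_1a91b9_ntM.E.XExp

/-!
# Quadratic twists over the abelian extensions of exponent dividing `4`, part D: the joint densities

The joint moments give the mean value of the event that all the matrices are nonsingular.  The event
that two of the three matrices of a pencil (corner, changed corner, minor) are nonsingular has the
indicator `(g₀ + g₁ - g₂) / 2`; the product over `a` is a linear combination of products of one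
indicator for each `a`.
-/

set_option autoImplicit false
set_option linter.unusedSectionVars false

namespace Pool.Agent.Lib.MP_1a91b9_ntM.E

open Finset Filter Topology Pool.Agent.Lib.MP_1a91b9_ntH Pool.Agent.Lib.MP_1a91b9_ntQ
  Pool.Agent.Lib.MP_1a91b9_ntQ.Da Pool.Agent.Lib.MP_1a91b9_ntQ.M Pool.Agent.Lib.MP_1a91b9_ntM

noncomputable section

/-! ### Mean values -/

section ML

variable {β : Type}

/-- The mean value of `f` over the finite sets `B X` is `v`. -/
def ML (B : ℕ → Finset β) (f : β → ℝ) (v : ℝ) : Prop :=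
  ∀ δ : ℝ, 0 < δ → ∀ ε : ℝ, 0 < ε → ∃ X₀ : ℕ, ∀ X : ℕ, X₀ ≤ X →
    |∑ b ∈ B X, f b - v * (B X).card| ≤ δ * (B X).card + ε * X

theorem ML.add {B : ℕ → Finset β} {f h : β → ℝ} {v w : ℝ} (hf : ML B f v) (hh : ML B h w) :
    ML B (fun x => f x + h x) (v + w) := by
  intro δ hδ ε hε
  obtain ⟨X1, h1⟩ := hf (δ / 2) (by positivity) (ε / 2) (by positivity)
  obtain ⟨X2, h2⟩ := hh (δ / 2) (by positivity) (ε / 2) (by positivity)
  refine ⟨max X1 X2, fun X hX => ?_⟩
  have h3 := h1 X (le_trans (le_max_left _ _) hX)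
  have h4 := h2 X (le_trans (le_max_right _ _) hX)
  rw [sum_add_distrib]
  calc |∑ b ∈ B X, f b + ∑ b ∈ B X, h b - (v + w) * (B X).card|
      = |(∑ b ∈ B X, f b - v * (B X).card) + (∑ b ∈ B X, h b - w * (B X).card)| := by
        congr 1
        ring
    _ ≤ _ := abs_add_le _ _
    _ ≤ (δ / 2 * (B X).card + ε / 2 * X) + (δ / 2 * (B X).card + ε / 2 * X) := add_le_add h3 h4
    _ = δ * (B X).card + ε * X := by ring

theorem ML.smul {B : ℕ → Finset β} {f : β → ℝ} {v : ℝ} (hf : ML B f v) (a : ℝ) :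
    ML B (fun x => a * f x) (a * v) := by
  intro δ hδ ε hε
  obtain ⟨X1, h1⟩ := hf (δ / (|a| + 1)) (by positivity) (ε / (|a| + 1)) (by positivity)
  refine ⟨X1, fun X hX => ?_⟩
  have h3 := h1 X hX
  rw [← mul_sum, mul_assoc, ← mul_sub, abs_mul]
  calc |a| * |∑ b ∈ B X, f b - v * (B X).card|
      ≤ (|a| + 1) * (δ / (|a| + 1) * (B X).card + ε / (|a| + 1) * X) := by
        refine mul_le_mul (by linarith) h3 (abs_nonneg _) (by positivity)
    _ = δ * (B X).card + ε * X := by field_simp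

theorem ML.congr {B : ℕ → Finset β} {f h : β → ℝ} {v w : ℝ} (hf : ML B f v)
    (h1 : ∀ x, h x = f x) (h2 : w = v) : ML B h w := by
  rw [h2, show h = f from funext h1]
  exact hf

theorem ML.zero (B : ℕ → Finset β) : ML B (fun _ => 0) 0 := by
  intro δ hδ ε hε
  refine ⟨0, fun X _ => ?_⟩
  rw [sum_const_zero, zero_mul, sub_zero, abs_zero]
  positivity

theorem ML.sum {ι : Type} {B : ℕ → Finset β} {f : ι → β → ℝ} {v : ι → ℝ} (s : Finset ι)
    (h : ∀ i ∈ s, ML B (f i) (v i)) : ML B (fun x => ∑ i ∈ s, f i x) (∑ i ∈ s, v i) := by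
  classical
  induction s using Finset.induction_on with
  | empty => exact (ML.zero B).congr (fun _ => rfl) rfl
  | insert a s ha ih =>
    exact ((h a (mem_insert_self _ _)).add (ih fun i hi => h i (mem_insert_of_mem hi))).congr
      (fun x => sum_insert ha) (sum_insert ha)

variable {A : Type} [Fintype A] [DecidableEq A]

/-- **From the joint moments to the mean value of the event.** -/
theorem ml_prod [Nonempty A] {B : ℕ → Finset β} {x : A → β → ℕ}
    (hp : ∀ a b, ∃ r, x a b = 2 ^ r)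
    (hm : ∀ k : A → ℕ, MV B (fun b => ∏ a, (x a b : ℝ) ^ k a) (∏ a, (Nk2 (k a) : ℝ))) :
    ML B (fun b => ∏ a, if x a b = 1 then (1 : ℝ) else 0) (cinf2 ^ Fintype.card A) := by
  classical
  intro δ hδ ε hε
  have hI : ∀ X, ∑ b ∈ B X, ∏ a, (if x a b = 1 then (1 : ℝ) else 0) =
      (((B X).filter fun b => ∀ a, x a b = 1).card : ℝ) := by
    intro X
    rw [card_eq_sum_ones, sum_filter]
    push_cast
    refine sum_congr rfl fun b _ => ?_
    split_ifs with h
    · exact prod_eq_one fun a _ => if_pos (h a)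
    · push Not at h
      obtain ⟨a, ha⟩ := h
      exact prod_eq_zero (mem_univ a) (if_neg ha)
  -- the lower bound
  obtain ⟨X1, h1⟩ := dens_prod hp hm (κ₀ := cinf2 ^ Fintype.card A - δ) (by linarith) ε hε
  -- the upper bound
  have h2 : Tendsto (fun N : ℕ => 2 * N) atTop atTop :=
    tendsto_atTop_mono (fun N => by show N ≤ 2 * N; omega) tendsto_id
  have h3 : Tendsto (fun N : ℕ => sK2 (2 * N) ^ Fintype.card A) atTop
      (𝓝 (cinf2 ^ Fintype.card A)) := (tendsto_sK2.comp h2).pow _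
  obtain ⟨N, hN⟩ := (h3.eventually (gt_mem_nhds (show cinf2 ^ Fintype.card A <
    cinf2 ^ Fintype.card A + δ by linarith))).exists
  have heven : Even (2 * N) := ⟨N, by ring⟩
  have hB : MV B (fun b => ∏ a, pK2 (2 * N) (x a b)) (sK2 (2 * N) ^ Fintype.card A) := by
    refine (MV_prod hm fun _ => 2 * N).congr (fun b => rfl) ?_
    rw [prod_const, card_univ]
  obtain ⟨X2, h4⟩ := hB ε hε
  refine ⟨max X1 X2, fun X hX => ?_⟩
  have e1 := h1 X (le_trans (le_max_left _ _) hX)
  have e2 := (abs_le.1 (h4 X (le_trans (le_max_right _ _) hX))).2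
  have e3 : ∑ b ∈ B X, ∏ a, (if x a b = 1 then (1 : ℝ) else 0) ≤
      ∑ b ∈ B X, ∏ a, pK2 (2 * N) (x a b) := by
    refine sum_le_sum fun b _ => prod_le_prod (fun a _ => by split_ifs <;> norm_num) fun a _ => ?_
    split_ifs with h
    · rw [h, Nat.cast_one, pK2_one]
    · obtain ⟨r, hr⟩ := hp a b
      have hr0 : r ≠ 0 := by
        intro h0
        rw [h0, pow_zero] at hr
        exact h hr
      rw [hr]
      push_cast
      exact (pK2_pow (2 * N) r hr0).2 heven
  have e4 := mul_le_mul_of_nonneg_right hN.le (Nat.cast_nonneg (α := ℝ) (B X).card)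
  rw [abs_le]
  constructor
  · rw [hI X]
    linarith
  · linarith

end ML

/-! ### One system -/

section Sys

variable {ι : Type} [DecidableEq ι] {κ : Type} [Fintype κ] [DecidableEq κ]

/-- A border with a corner. -/
structure Sy (κ : Type) where
  /-- the places -/
  W : Type
  /-- finite -/
  fW : Fintype W
  /-- decidable equality -/
  dW : DecidableEq W
  /-- the border -/
  P : κ → W → ZMod 2
  /-- the corner -/
  R : Matrix W W (ZMod 2)

instance (S : Sy κ) : Fintype S.W := S.fW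

instance (S : Sy κ) : DecidableEq S.W := S.dW

/-- The size of the kernel. -/
def Sy.kw (S : Sy κ) (D : Dat2 ι κ) (c : κ → ZMod 2) (ρ : ι → ZMod 2) (B : Finset ι) : ℕ :=
  kW D c S.P S.R ρ ∅ B

/-- The conditions. -/
structure Sy.OK (S : Sy κ) (c : κ → ZMod 2) : Prop where
  bd : ∀ (x : S.W → ZMod 2) (t : ZMod 2), (∀ j, ∑ e, S.P j e * x e = t * c j) → x = 0
  sym : ∀ e f, S.R e f = S.R f e

variable {E : Type} [Fintype E] [DecidableEq E]

/-- The three systems. -/
def sy3 (P : κ → E → ZMod 2) (R : Matrix E E (ZMod 2)) (z : Option E) (i : Fin 3) : Sy κ :=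
  match z with
  | none => ⟨E, inferInstance, inferInstance, P, R⟩
  | some e => if i = 0 then ⟨E, inferInstance, inferInstance, P, R⟩
    else if i = 1 then ⟨E, inferInstance, inferInstance, P, R + Matrix.single e e 1⟩
    else ⟨{e' : E // e' ≠ e}, inferInstance, inferInstance, Pz P e, Rz R e⟩

theorem sy3_OK {c : κ → ZMod 2} {P : κ → E → ZMod 2} {R : Matrix E E (ZMod 2)}
    (hb : ∀ (x : E → ZMod 2) (t : ZMod 2), (∀ j, ∑ e, P j e * x e = t * c j) → x = 0)
    (hs : ∀ e f, R e f = R f e) (z : Option E) (i : Fin 3) : (sy3 P R z i).OK c := by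
  have h0 : (⟨E, inferInstance, inferInstance, P, R⟩ : Sy κ).OK c := ⟨hb, hs⟩
  rcases z with _ | e
  · exact h0
  · fin_cases i
    · exact h0
    · refine ⟨hb, fun x y => ?_⟩
      show (R + Matrix.single e e 1 : Matrix E E (ZMod 2)) x y =
        (R + Matrix.single e e 1 : Matrix E E (ZMod 2)) y x
      rw [Matrix.add_apply, Matrix.add_apply, hs x y]
      congr 1
      rw [Matrix.single_apply, Matrix.single_apply]
      by_cases hx : e = x <;> by_cases hy : e = y <;> simp [hx, hy]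
    · exact ⟨fun x t hx => bd_Pz hb e x t hx, fun x y => hs _ _⟩

theorem sy3_zero (P : κ → E → ZMod 2) (R : Matrix E E (ZMod 2)) (z : Option E) :
    sy3 P R z 0 = ⟨E, inferInstance, inferInstance, P, R⟩ := by
  rcases z with _ | e <;> rfl

/-- **The identity for the indicators.** -/
theorem pencil_id (D : Dat2 ι κ) (c : κ → ZMod 2) (P : κ → E → ZMod 2) (R : Matrix E E (ZMod 2))
    (ρ : ι → ZMod 2) (B : Finset ι) (e : E) (b : Bool) :
    (if kW D c P R ρ ∅ B = 1 then (1 : ℝ) else 0) *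
        (if (if b = true then kW D c P (R + Matrix.single e e 1) ρ ∅ B
          else kW D c (Pz P e) (Rz R e) ρ ∅ B) = 1 then (1 : ℝ) else 0) =
      (1 / 2) * (if kW D c P R ρ ∅ B = 1 then (1 : ℝ) else 0) +
      (if b = true then (1 / 2 : ℝ) else -(1 / 2)) *
        (if kW D c P (R + Matrix.single e e 1) ρ ∅ B = 1 then (1 : ℝ) else 0) +
      (if b = true then -(1 / 2 : ℝ) else 1 / 2) *
        (if kW D c (Pz P e) (Rz R e) ρ ∅ B = 1 then (1 : ℝ) else 0) := by
  have h := kW_parity D c P R ρ ∅ B e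
  have hb : (if (if b = true then kW D c P (R + Matrix.single e e 1) ρ ∅ B
      else kW D c (Pz P e) (Rz R e) ρ ∅ B) = 1 then (1 : ℝ) else 0) =
      if b = true then (if kW D c P (R + Matrix.single e e 1) ρ ∅ B = 1 then (1 : ℝ) else 0)
      else (if kW D c (Pz P e) (Rz R e) ρ ∅ B = 1 then (1 : ℝ) else 0) := by
    rcases b with _ | _ <;> rfl
  rw [hb]
  by_cases h0 : kW D c P R ρ ∅ B = 1 <;>
    by_cases h1 : kW D c P (R + Matrix.single e e 1) ρ ∅ B = 1 <;>
    by_cases h2 : kW D c (Pz P e) (Rz R e) ρ ∅ B = 1 <;>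
    simp only [h0, h1, h2, if_true, if_false] at h ⊢ <;>
    first
    | (exfalso; revert h; decide)
    | (rcases b with _ | _ <;> norm_num)

end Sys

/-! ### The joint densities -/

section Dens

variable {A : Type} [Fintype A] [DecidableEq A] {ι : Type} [DecidableEq ι]
  {κ : Type} [Fintype κ] [DecidableEq κ] {E : A → Type} [∀ a, Fintype (E a)]
  [∀ a, DecidableEq (E a)]

/-- The mean value for one choice of the systems. -/
theorem ml_sy [PS ι] [Nonempty A] {D : Dat2 ι κ} {ρ : (κ → ZMod 2) → ι → ZMod 2}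
    (hM : MVX D ρ) {cA σ : A → κ → ZMod 2}
    (hsg : ∀ a b, a ≠ b → cA a = cA b → σ a + σ b ≠ 0 ∧ σ a + σ b ≠ cA a) (S : A → Sy κ)
    (hS : ∀ a, (S a).OK (cA a)) {G : Type} [AddCommGroup G] [Fintype G] (C : Cl2 D G) (γ : G) :
    ML (SB ∅ C.cl γ) (fun B => ∏ a,
      if nX D ρ cA σ (fun a => (S a).P) (fun a => (S a).R) (fun j => C.A j γ) a B = 1
      then (1 : ℝ) else 0) (cinf2 ^ Fintype.card A) :=
  ml_prod (fun a B => nX_pow D ρ cA σ (fun a => (S a).P) (fun a => (S a).R)
    (fun j => C.A j γ) a B)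
    (hM A (fun a => (S a).W) cA σ (fun a => (S a).P) (fun a => (S a).R)
      ⟨hsg, fun a => (hS a).bd, fun a => (hS a).sym⟩ G C γ)

/-- The weights. -/
def wz (zs b : Bool) (i : Fin 3) : ℝ :=
  if zs = true then
    (if i = 0 then 1 / 2 else if i = 1 then (if b = true then 1 / 2 else -(1 / 2))
      else (if b = true then -(1 / 2) else 1 / 2))
  else if i = 0 then 1 else 0

theorem sum_wz (zs b : Bool) : ∑ i, wz zs b i = if zs = true then 1 / 2 else 1 := by
  rcases zs with _ | _ <;> rcases b with _ | _ <;> simp [wz, Fin.sum_univ_three]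

theorem nX_eq_kX {D : Dat2 ι κ} {ρ : (κ → ZMod 2) → ι → ZMod 2} {cA σ : A → κ → ZMod 2}
    {P : ∀ a, κ → E a → ZMod 2} {R : ∀ a, Matrix (E a) (E a) (ZMod 2)} {α : κ → ZMod 2} {a : A}
    (h : cA a ≠ 0) (B : Finset ι) :
    nX D ρ cA σ P R α a B = kW D (cA a) (P a) (R a) (rho D (ρ (cA a)) (σ a)) ∅ B := by
  classical
  have ht : tX cA σ P R α a = 1 := if_neg fun h1 => h h1.1
  unfold nX
  rw [ht, Nat.div_one]
  unfold kX
  split_ifs with h1
  · exact h1.symm
  · rfl

/-- **The joint densities.** -/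
theorem densX [PS ι] {D : Dat2 ι κ} {ρ : (κ → ZMod 2) → ι → ZMod 2} (hM : MVX D ρ) :
    DensX D ρ := by
  classical
  intro A _ _ _ E _ _ cA σ P R hF z b hz G _ _ C γ κ₀ hκ ε hε
  set α : κ → ZMod 2 := fun j => C.A j γ with hα
  set I : (A → Fin 3) → A → Finset ι → ℝ := fun s a B =>
    if nX D ρ cA σ (fun a => (sy3 (P a) (R a) (z a) (s a)).P)
      (fun a => (sy3 (P a) (R a) (z a) (s a)).R) α a B = 1 then (1 : ℝ) else 0 with hI
  set J : (a : A) → Fin 3 → Finset ι → ℝ := fun a i B => I (fun _ => i) a B with hJ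
  have hIJ : ∀ s a B, I s a B = J a (s a) B := fun s a B => rfl
  have h1 : ∀ s : A → Fin 3, ML (SB ∅ C.cl γ) (fun B => ∏ a, J a (s a) B)
      (cinf2 ^ Fintype.card A) := fun s =>
    ml_sy hM hF.sg (fun a => sy3 (P a) (R a) (z a) (s a))
      (fun a => sy3_OK (hF.bd a) (hF.sym a) (z a) (s a)) C γ
  have h2 : ML (SB ∅ C.cl γ)
      (fun B => ∑ s : A → Fin 3, (∏ a, wz (z a).isSome (b a) (s a)) * ∏ a, J a (s a) B)
      (∑ s : A → Fin 3, (∏ a, wz (z a).isSome (b a) (s a)) * cinf2 ^ Fintype.card A) :=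
    ML.sum univ fun s _ => (h1 s).smul _
  -- the event
  have h3 : ∀ B, ∑ s : A → Fin 3, (∏ a, wz (z a).isSome (b a) (s a)) * ∏ a, J a (s a) B =
      ∏ a, ∑ i, wz (z a).isSome (b a) i * J a i B := by
    intro B
    rw [Finset.prod_univ_sum, Fintype.piFinset_univ]
    exact sum_congr rfl fun s _ => (prod_mul_distrib).symm
  have h4 : ∑ s : A → Fin 3, (∏ a, wz (z a).isSome (b a) (s a)) * cinf2 ^ Fintype.card A =
      ∏ a, (if (z a).isSome = true then cinf2 / 2 else cinf2) := by
    rw [← sum_mul]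
    have h5 : ∑ s : A → Fin 3, ∏ a, wz (z a).isSome (b a) (s a) =
        ∏ a, ∑ i, wz (z a).isSome (b a) i := by
      rw [Finset.prod_univ_sum, Fintype.piFinset_univ]
    rw [h5, ← card_univ, ← prod_const, ← prod_mul_distrib]
    refine prod_congr rfl fun a _ => ?_
    rw [sum_wz]
    split_ifs <;> ring
  have h5 : ∀ a B, ∑ i, wz (z a).isSome (b a) i * J a i B =
      if nX D ρ cA σ P R α a B = 1 ∧ ∀ e, z a = some e → k2X D ρ cA σ P R b a e B = 1
      then (1 : ℝ) else 0 := by
    intro a B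
    rcases hza : z a with _ | e
    · have e0 : J a 0 B = if nX D ρ cA σ P R α a B = 1 then (1 : ℝ) else 0 := by
        show (if nX D ρ cA σ (fun a => (sy3 (P a) (R a) (z a) 0).P)
          (fun a => (sy3 (P a) (R a) (z a) 0).R) α a B = 1 then (1 : ℝ) else 0) = _
        have e1 : nX D ρ cA σ (fun a => (sy3 (P a) (R a) (z a) 0).P)
            (fun a => (sy3 (P a) (R a) (z a) 0).R) α a B = nX D ρ cA σ P R α a B := by
          unfold nX kX tX
          beta_reduce
          rw [hza]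
          rfl
        rw [e1]
      rw [Fin.sum_univ_three, e0]
      simp [wz]
    · have hc : cA a ≠ 0 := hz a (by rw [hza]; rfl)
      have hk : ∀ i, J a i B = if (sy3 (P a) (R a) (some e) i).kw D (cA a)
          (rho D (ρ (cA a)) (σ a)) B = 1 then (1 : ℝ) else 0 := by
        intro i
        show (if nX D ρ cA σ (fun a => (sy3 (P a) (R a) (z a) i).P)
          (fun a => (sy3 (P a) (R a) (z a) i).R) α a B = 1 then (1 : ℝ) else 0) = _
        rw [nX_eq_kX hc, ← hza]
        rfl
      have e1 := pencil_id D (cA a) (P a) (R a) (rho D (ρ (cA a)) (σ a)) B e (b a)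
      have e2 : ∑ i, wz (some e).isSome (b a) i * J a i B =
          (1 / 2) * (if kW D (cA a) (P a) (R a) (rho D (ρ (cA a)) (σ a)) ∅ B = 1
            then (1 : ℝ) else 0) +
          (if b a = true then (1 / 2 : ℝ) else -(1 / 2)) *
            (if kW D (cA a) (P a) (R a + Matrix.single e e 1) (rho D (ρ (cA a)) (σ a)) ∅ B = 1
              then (1 : ℝ) else 0) +
          (if b a = true then -(1 / 2 : ℝ) else 1 / 2) *
            (if kW D (cA a) (Pz (P a) e) (Rz (R a) e) (rho D (ρ (cA a)) (σ a)) ∅ B = 1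
              then (1 : ℝ) else 0) := by
        rw [Fin.sum_univ_three, hk 0, hk 1, hk 2]
        rfl
      rw [e2, ← e1, nX_eq_kX hc]
      have e3 : (∀ e', some e = some e' → k2X D ρ cA σ P R b a e' B = 1) ↔
          k2X D ρ cA σ P R b a e B = 1 :=
        ⟨fun h => h e rfl, fun h e' he' => by
          rw [← Option.some.inj he']
          exact h⟩
      have e4 : k2X D ρ cA σ P R b a e B =
          if b a = true then kW D (cA a) (P a) (R a + Matrix.single e e 1)
            (rho D (ρ (cA a)) (σ a)) ∅ B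
          else kW D (cA a) (Pz (P a) e) (Rz (R a) e) (rho D (ρ (cA a)) (σ a)) ∅ B := rfl
      rw [← e4]
      by_cases g0 : kW D (cA a) (P a) (R a) (rho D (ρ (cA a)) (σ a)) ∅ B = 1 <;>
        by_cases g1 : k2X D ρ cA σ P R b a e B = 1
      · rw [if_pos g0, if_pos g1, if_pos ⟨g0, e3.2 g1⟩, one_mul]
      · rw [if_neg g1, mul_zero, if_neg fun h => g1 (e3.1 h.2)]
      · rw [if_neg g0, zero_mul, if_neg fun h => g0 h.1]
      · rw [if_neg g0, zero_mul, if_neg fun h => g0 h.1]
  rw [h4] at h2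
  set v := ∏ a, (if (z a).isSome = true then cinf2 / 2 else cinf2) with hv
  obtain ⟨X0, h6⟩ := h2 (v - κ₀) (by linarith) ε hε
  refine ⟨X0, fun X hX => ?_⟩
  have h7 := (abs_le.1 (h6 X hX)).1
  have h8 : ∑ B ∈ SB ∅ C.cl γ X,
      ∑ s : A → Fin 3, (∏ a, wz (z a).isSome (b a) (s a)) * ∏ a, J a (s a) B =
      (((SB ∅ C.cl γ X).filter fun B => ∀ a, nX D ρ cA σ P R α a B = 1 ∧
        ∀ e, z a = some e → k2X D ρ cA σ P R b a e B = 1).card : ℝ) := by
    rw [card_eq_sum_ones, sum_filter]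
    push_cast
    refine sum_congr rfl fun B _ => ?_
    rw [h3 B, prod_congr rfl fun a _ => h5 a B]
    split_ifs with h
    · exact prod_eq_one fun a _ => if_pos (h a)
    · push Not at h
      obtain ⟨a, ha⟩ := h
      refine prod_eq_zero (mem_univ a) (if_neg fun h9 => ?_)
      obtain ⟨e, he, he2⟩ := ha h9.1
      exact he2 (h9.2 e he)
  rw [h8] at h7
  have h9 : κ₀ * ((SB ∅ C.cl γ X).card : ℝ) - ε * X ≤
      (((SB ∅ C.cl γ X).filter fun B => ∀ a, nX D ρ cA σ P R α a B = 1 ∧
        ∀ e, z a = some e → k2X D ρ cA σ P R b a e B = 1).card : ℝ) := by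
    linarith
  refine h9.trans (le_of_eq ?_)
  congr 2

end Dens

end

end Pool.Agent.Lib.MP_1a91b9_ntM.E
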