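import Pool.Agent.Lib.MP_1a91b9_ntM.E.EngX
import Pool.Agent.Lib.MP_1a91b9_ntM.E.BadX
import Pool.Agent.Lib.MP_1a91b9_ntM.E.XCntI
import Pool.Agent.Lib.MP_1a91b9_ntM.E.XDen
import Pool.Agent.Lib.MP_1a91b9_ntM.E.TrS
import Pool.Agent.Lib.MP_1a91b9_ntM.E.XAsm

/-!
# Quadratic twists over the abelian extensions of exponent dividing `4`, part D: the joint density, end
-/

set_option autoImplicit false
set_option linter.unusedSectionVars false

namespace Pool.Agent.Lib.MP_1a91b9_ntM.E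

open Finset Pool.Agent.Lib.MP_1a91b9_ntH Pool.Agent.Lib.MP_1a91b9_ntQ Pool.Agent.Lib.MP_1a91b9_ntQ.Da
  Pool.Agent.Lib.MP_1a91b9_ntQ.M Pool.Agent.Lib.MP_1a91b9_ntM

noncomputable section

theorem ρX_zero (P : Finset Pg) : ρX P 0 = 0 := by
  funext q
  unfold ρX
  rw [if_pos rfl]
  rfl

/-- The joint moments. -/
theorem mvX4 (P : Finset Pg) : MVX (d4.off P) (ρX P) :=
  mvX (OK_off d4_OK P).sym (engX (OK_off d4_OK P) (nv_off d4_nv P))
    (badX (OK_off d4_OK P) (nv_off d4_nv P)) (ρX_zero P)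
    fun _ _ _ _ _ _ k _ _ _ _ hF _ => cntXI k _ hF

/-- **The joint density of the good sets of primes.** -/
theorem dsjX : DSJX := dsjX_of trSq fun P => densX (mvX4 P)

end

end Pool.Agent.Lib.MP_1a91b9_ntM.E
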