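import Pool.Agent.Lib.MP_1a91b9_ntM.E.XDef

/-!
# Quadratic twists over the abelian extensions of exponent dividing `4`, part R: the density of the
squarefree `d` for which all the curves `y² = x³ - a i d² x` are good
-/

set_option autoImplicit false

namespace Pool.Agent.Lib.MP_1a91b9_ntM.E

open NumberField Finset Pool.Agent.Lib.MP_1a91b9_ntQ Pool.Agent.Lib.MP_1a91b9_ntM
open Den4 (ph)

noncomputable section

namespace RX

/-! ### The elements modulo fourth powers -/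

/-- **Every element is `x.el` up to a fourth power.** -/
theorem exists_DD8 {a : 𝓞 K4} (ha : a ≠ 0) : ∃ (x : DD8) (s : 𝓞 K4), Dj x.S x.T x.B ∧ s ≠ 0 ∧
    a = x.el * s ^ 4 := by
  obtain ⟨k, j, T, s, hs, h1⟩ := exists_sf a ha
  obtain ⟨k', j', T', s', hs', h2⟩ := exists_sf s hs
  obtain ⟨x0, hx0⟩ : ∃ x0 : DD8, x0 = ⟨k, Fin.castLE (by norm_num) j, T, ∅, ∅⟩ := ⟨_, rfl⟩
  have hd : Dj x0.S x0.T x0.B := by
    rw [hx0]
    exact ⟨disjoint_empty_right _, disjoint_empty_right _, disjoint_empty_right _⟩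
  have hel : x0.el = ph k j (DDq T) := by
    rw [hx0]
    unfold DD8.el dB cB Den4.ph
    have e1 : DDq (∅ : Finset Pg) = 1 := DDq_empty
    rw [e1]
    simp
  obtain ⟨t, ht, h3⟩ := el_mul hd k' j' T'
  refine ⟨x0.mul k' j' T', t * s', dj_E hd _, mul_ne_zero ht hs', ?_⟩
  rw [h1, h2, ← hel]
  linear_combination s' ^ 4 * h3

theorem iO_inv (k : ZMod 4) : iO ^ k.val * iO ^ (-k).val = 1 := by
  rw [pow_val_mul, add_neg_cancel, ZMod.val_zero, pow_zero]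

theorem lam_inv (j : Fin 4) : ∃ t : 𝓞 K4, t ≠ 0 ∧ lam ^ j.val * lam ^ (-j).val = t ^ 4 := by
  have h4 : ∀ j : Fin 4, j.val + (-j).val = 0 ∨ j.val + (-j).val = 4 := by decide
  rw [← pow_add]
  rcases h4 j with h | h
  · exact ⟨1, one_ne_zero, by rw [h, pow_zero, one_pow]⟩
  · exact ⟨lam, lam_ne_zero, by rw [h]⟩

/-- **The element of the inverse data is the inverse modulo fourth powers.** -/
theorem el_inv (z : DD8) : ∃ t : 𝓞 K4, t ≠ 0 ∧ z.el * z.inv.el = t ^ 4 := by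
  obtain ⟨t, ht, h1⟩ := lam_inv z.j
  have h2 := iO_inv z.k
  refine ⟨t * (DDq z.S * DDq z.T * DDq z.B), mul_ne_zero ht (mul_ne_zero (mul_ne_zero
    (DDq_in4 _).ne_zero (DDq_in4 _).ne_zero) (DDq_in4 _).ne_zero), ?_⟩
  unfold DD8.el DD8.inv dB cB
  calc iO ^ z.k.val * lam ^ z.j.val * (DDq z.S * DDq z.T ^ 3 * DDq z.B ^ 2) *
        (iO ^ (-z.k).val * lam ^ (-z.j).val * (DDq z.T * DDq z.S ^ 3 * DDq z.B ^ 2))
      = (iO ^ z.k.val * iO ^ (-z.k).val) * (lam ^ z.j.val * lam ^ (-z.j).val) *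
        (DDq z.S * DDq z.T * DDq z.B) ^ 4 := by ring
    _ = _ := by
      rw [h1, h2]
      ring

theorem dj_inv {z : DD8} (h : Dj z.S z.T z.B) : Dj z.inv.S z.inv.T z.inv.B :=
  ⟨h.st.symm, h.tb, h.sb⟩

theorem DD8.inv_inv (z : DD8) : z.inv.inv = z := by
  obtain ⟨k, j, S, T, B⟩ := z
  simp only [DD8.inv, neg_neg]

/-- the element of a square is a square -/
theorem Sq_el {x : DD8} (h : x.Sq) : ∃ y : 𝓞 K4, y ^ 2 = x.el := by
  obtain ⟨h1, h2, h3⟩ := h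
  obtain ⟨y, hy⟩ := sq_iO h1
  have hj : Even x.j.val := by
    rwa [ZMod.natCast_eq_zero_iff_even] at h2
  obtain ⟨n, hn⟩ := hj
  have hS : x.S = ∅ := (union_eq_empty.1 h3).1
  have hT : x.T = ∅ := (union_eq_empty.1 h3).2
  have e1 : DDq (∅ : Finset Pg) = 1 := DDq_empty
  refine ⟨y * (lam ^ n * DDq x.B), ?_⟩
  unfold DD8.el dB cB
  rw [hS, hT, e1, mul_pow, hy, hn]
  ring

theorem Sq_mul {x : DD8} (k : ZMod 4) (j : Fin 2) (Y : Finset Pg) : (x.mul k j Y).Sq ↔ x.Sq := by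
  unfold DD8.Sq DD8.mul
  simp only [md_two, dj_par, sE_union]

/-- the square class passes through fourth powers -/
theorem Sq_of {x : DD8} {a s : 𝓞 K4} (h : a = x.el * s ^ 4) (hx : x.Sq) :
    ∃ y : K4, y ^ 2 = (a : K4) := by
  obtain ⟨y, hy⟩ := Sq_el hx
  refine ⟨((y * s ^ 2 : 𝓞 K4) : K4), ?_⟩
  have e : (y * s ^ 2) ^ 2 = a := by
    rw [h, ← hy]
    ring
  exact_mod_cast congrArg (fun z : 𝓞 K4 => (z : K4)) e

theorem coe_ne {a : 𝓞 K4} (h : a ≠ 0) : (a : K4) ≠ 0 := by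
  intro h0
  exact h (RingOfIntegers.coe_injective (h0.trans (map_zero _).symm))

/-- two elements with the same data after the multiplication by a square -/
theorem four_of_eq {x x' : DD8} {a a' s s' d : 𝓞 K4} (hd : d ≠ 0) (hs : s ≠ 0)
    (h : a = x.el * s ^ 4) (h' : a' = x'.el * s' ^ 4) {e t t' : 𝓞 K4} (ht : t ≠ 0)
    (h1 : x.el * d ^ 2 = e * t ^ 4) (h1' : x'.el * d ^ 2 = e * t' ^ 4) :
    ∃ y : K4, y ^ 4 * a = a' := by
  have e1 : (t' * s') ^ 4 * a = a' * (t * s) ^ 4 := by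
    have e2 : d ^ 2 * ((t' * s') ^ 4 * a) = d ^ 2 * (a' * (t * s) ^ 4) := by
      rw [h, h']
      linear_combination (t' * s' * s) ^ 4 * h1 - (t * s * s') ^ 4 * h1'
    exact mul_left_cancel₀ (pow_ne_zero 2 hd) e2
  have e3 : ((t' : K4) * s') ^ 4 * a = a' * ((t : K4) * s) ^ 4 := by
    exact_mod_cast congrArg (fun z : 𝓞 K4 => (z : K4)) e1
  refine ⟨((t' : K4) * s') / ((t : K4) * s), ?_⟩
  rw [div_pow, div_mul_eq_mul_div, e3]
  exact mul_div_cancel_right₀ _ (pow_ne_zero 4 (mul_ne_zero (coe_ne ht) (coe_ne hs)))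

/-- two elements with inverse data after the multiplication by a square -/
theorem four_of_inv {x x' : DD8} {a a' s s' d : 𝓞 K4} (hd : d ≠ 0)
    (h : a = x.el * s ^ 4) (h' : a' = x'.el * s' ^ 4) {e e' t t' v : 𝓞 K4}
    (h1 : x.el * d ^ 2 = e * t ^ 4) (h1' : x'.el * d ^ 2 = e' * t' ^ 4)
    (hv : e' * e = v ^ 4) : ∃ y : K4, y ^ 4 = (a : K4) * a' := by
  have e1 : (v * t * t' * s * s') ^ 4 = a * a' * d ^ 4 := by
    rw [h, h']
    linear_combination -(t * t' * s * s') ^ 4 * hv - (s * s') ^ 4 * (x'.el * d ^ 2) * h1 -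
      (s * s') ^ 4 * (e * t ^ 4) * h1'
  have e3 : ((v : K4) * t * t' * s * s') ^ 4 = (a : K4) * a' * (d : K4) ^ 4 := by
    exact_mod_cast congrArg (fun z : 𝓞 K4 => (z : K4)) e1
  refine ⟨((v : K4) * t * t' * s * s') / d, ?_⟩
  rw [div_pow, e3]
  exact mul_div_cancel_right₀ _ (pow_ne_zero 4 (coe_ne hd))

/-! ### The good sets -/

theorem GdX_add (x : DD8) (X : Finset Pg) : GdX ⟨x.k, x.j, x.S, x.T, x.B ∪ X⟩ ∅ ↔ GdX x X := by
  unfold GdX DD8.Sq DD8.sk DD8.sj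
  simp only [union_empty]

theorem GdX_add_inv (x : DD8) (X : Finset Pg) :
    GdX (DD8.inv ⟨x.k, x.j, x.S, x.T, x.B ∪ X⟩) ∅ ↔ GdX x.inv X := by
  unfold GdX DD8.inv DD8.Sq DD8.sk DD8.sj
  simp only [union_empty]

end RX

open RX

/-! ### The density -/

/-- **The density of the squarefree `d` for which all the curves `y² = x³ - a i d² x` are good.** -/
theorem den_allX (hJ : DSJX) {N : ℕ} (hN : 0 < N) (a : Fin N → 𝓞 K4) (f : Fin N → Bool)
    (h0 : ∀ i, a i ≠ 0) (hf : ∀ i, f i = true → ¬ ∃ y : K4, y ^ 2 = (a i : K4))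
    (hpw : ∀ i i', i ≠ i' → (¬ ∃ y : K4, y ^ 4 * a i = a i') ∧
      ¬ ∃ y : K4, y ^ 4 = (a i : K4) * a i')
    {n : ℕ} {M u : 𝓞 K4} (hM : M ∣ 2 ^ n) (hu : ¬ ((2 : 𝓞 K4) ∣ M ∧ (2 : 𝓞 K4) ∣ u))
    (Pr : 𝓞 K4 → Prop)
    (hPr : ∀ d : 𝓞 K4, Squarefree d → (∀ i, ∃ (z : DD8) (t : 𝓞 K4), t ≠ 0 ∧
      Dj z.S z.T z.B ∧ a i * d ^ 2 = z.el * t ^ 4 ∧ GdX z ∅ ∧ (f i = true → GdX z.inv ∅)) → Pr d)
    (ε : ℝ) (hε : 0 < ε) :
    ∀ᶠ X : ℝ in Filter.atTop,
      (∏ i, if f i = true then (∏' i : ℕ, (1 + 1 / (2 : ℝ) ^ (i + 1))⁻¹) / 2 else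
        ∏' i : ℕ, (1 + 1 / (2 : ℝ) ^ (i + 1))⁻¹) - ε ≤
      (Nat.card {x : 𝓞 K4 // Squarefree x ∧ M ∣ x - u ∧ |Algebra.norm ℤ x| ≤ X ∧ Pr x} : ℝ) /
        (Nat.card {x : 𝓞 K4 // Squarefree x ∧ M ∣ x - u ∧ |Algebra.norm ℤ x| ≤ X} : ℝ) := by
  have h1 : ∀ i, ∃ (x : DD8) (s : 𝓞 K4), Dj x.S x.T x.B ∧ s ≠ 0 ∧ a i = x.el * s ^ 4 :=
    fun i => exists_DD8 (h0 i)
  choose x s hx hs hxs using h1
  obtain ⟨P, hP⟩ : ∃ P : Finset Pg, P = univ.biUnion fun i => (x i).S ∪ (x i).T ∪ (x i).B :=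
    ⟨_, rfl⟩
  have hxP : ∀ i, (x i).S ∪ (x i).T ∪ (x i).B ⊆ P := fun i => by
    rw [hP]
    exact subset_biUnion_of_mem (fun i => (x i).S ∪ (x i).T ∪ (x i).B) (mem_univ i)
  have hSP : ∀ i, (x i).S ⊆ P := fun i =>
    (subset_union_left.trans subset_union_left).trans (hxP i)
  have hTP : ∀ i, (x i).T ⊆ P := fun i =>
    (subset_union_right.trans subset_union_left).trans (hxP i)
  have hBP : ∀ i, (x i).B ⊆ P := fun i => subset_union_right.trans (hxP i)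
  obtain ⟨u', hu', hMu⟩ := Q5.exists_rep hu
  have hc0 : (0 : ℝ) < ε / 2 := by linarith
  rw [cinf2_form]
  obtain ⟨c, hc⟩ : ∃ c : ℝ, c = ∏ i, if f i = true then Da.cinf2 / 2 else Da.cinf2 := ⟨_, rfl⟩
  rw [← hc]
  obtain ⟨Z, hZ⟩ : ∃ Z : ZMod 4 → Fin 2 → Finset Pg → Fin N → DD8, Z = fun k j Y i =>
      (x i).mul k j Y := ⟨_, rfl⟩
  have hZd : ∀ k j Y i, Dj (Z k j Y i).S (Z k j Y i).T (Z k j Y i).B := fun k j Y i => by
    rw [hZ]
    exact dj_E (hx i) _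
  have hZe : ∀ k j Y i, ∃ t : 𝓞 K4, t ≠ 0 ∧
      (x i).el * ph k j (DDq Y) ^ 2 = (Z k j Y i).el * t ^ 4 := fun k j Y i => by
    rw [hZ]
    exact el_mul (hx i) k j Y
  have hph : ∀ (k : ZMod 4) (j : Fin 2) (Y : Finset Pg), ph k j (DDq Y) ≠ 0 := fun k j Y =>
    (Den4.ph_squarefree k j Y).ne_zero
  have key := density4_cls (2 * n) (hM.trans (Q5.two_pow_dvd n)) hu' (c - ε / 2)
    (c - ε) (by linarith)
    (fun k j Y => ∀ i, GdX (Z k j Y i) ∅ ∧ (f i = true → GdX (Z k j Y i).inv ∅))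
    (fun k j g _ => DS_of_DSB P g fun B' hB' g' =>
      (hJ N hN (fun i => Z k j B' i) f P
        (fun i => hZd k j B' i)
        (fun i => by
          rw [hZ]
          exact ⟨sE_sub (hSP i) (hTP i), sE_sub (hTP i) (hSP i), bE_sub (hBP i) hB'⟩)
        (fun i hi h => by
          rw [hZ] at h
          exact hf i hi (Sq_of (hxs i) ((Sq_mul k j B').1 h)))
        (fun i i' hii => by
          obtain ⟨t, ht, e1⟩ := hZe k j B' i
          obtain ⟨t', ht', e1'⟩ := hZe k j B' i'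
          refine ⟨fun h => ?_, fun h => ?_⟩
          · have h2 : Z k j B' i = Z k j B' i' := h
            rw [h2] at e1
            exact (hpw i i' hii).1 (four_of_eq (hph k j B') (hs i) (hxs i) (hxs i') ht e1 e1')
          · have h2 : Z k j B' i = (Z k j B' i').inv := h
            rw [h2] at e1
            obtain ⟨v, _, e2⟩ := el_inv (Z k j B' i')
            exact (hpw i i' hii).2 (four_of_inv (hph k j B') (hxs i) (hxs i') e1 e1' e2))
        (2 * n) g' _ (by rw [← hc]; linarith)).mono fun Y hY _ h2 i => by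
          have h3 := h2 i
          have e1 : Z k j (B' ∪ Y) i = ⟨(Z k j B' i).k, (Z k j B' i).j, (Z k j B' i).S,
              (Z k j B' i).T, (Z k j B' i).B ∪ Y⟩ := by
            rw [hZ, union_comm B' Y]
            simp only [DD8.mul, DD8.mk.injEq, true_and]
            exact ⟨sE_out (hSP i) (hTP i) hY, sE_out (hTP i) (hSP i) hY,
              bE_out (hSP i) (hTP i) (hBP i) hY⟩
          rw [e1]
          exact ⟨(GdX_add _ _).2 h3.1, fun hi => (GdX_add_inv _ _).2 (h3.2 hi)⟩)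
    Pr (fun k j Y _ h2 => hPr _ (Den4.ph_squarefree k j Y) fun i => by
      obtain ⟨t, ht, e1⟩ := hZe k j Y i
      refine ⟨Z k j Y i, t * s i, mul_ne_zero ht (hs i), hZd k j Y i, ?_, (h2 i).1, (h2 i).2⟩
      rw [hxs i]
      linear_combination (s i) ^ 4 * e1)
  simp only [Q5.dvd_sub_iff hMu] at key
  exact key

end

end Pool.Agent.Lib.MP_1a91b9_ntM.E
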