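import Pool.Agent.Lib.MP_1a91b9_ntQ.Base

/-!
# Quadratic twists over the abelian extensions of exponent dividing `4`: the representatives

A list of elements which are different modulo fourth powers: representatives modulo fourth powers and
inversion.
-/

set_option autoImplicit false

namespace Pool.Agent.Lib.MP_1a91b9_ntM.E

open NumberField Pool.Agent.Lib.MP_1a91b9_ntQ

section Gen

variable {K : Type} [Field K]

/-- The form for a list of elements of a field. -/
theorem rep_gen : ∀ (n : ℕ) (B : List K), B.length = n → (∀ b ∈ B, b ≠ 0) →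
    B.Pairwise (fun b b' => ¬ ∃ y : K, y ^ 4 * b = b') →
    ∃ (N : ℕ) (a : Fin N → K) (f : Fin N → Bool), (B ≠ [] → 0 < N) ∧ (∀ i, a i ∈ B) ∧
      (∀ i, f i = true → ¬ ∃ y : K, y ^ 2 = a i) ∧
      (∀ i i', i ≠ i' → (¬ ∃ y : K, y ^ 4 * a i = a i') ∧ ¬ ∃ y : K, y ^ 4 = a i * a i') ∧
      (∀ b ∈ B, ∃ i, b = a i ∨ f i = true ∧ ∃ y : K, y ^ 4 = b * a i) ∧
      ∀ c : ℝ, 0 ≤ c → c ≤ 1 / 2 → c ^ B.length ≤ ∏ i, if f i = true then c / 2 else c := by
  intro n
  induction n using Nat.strong_induction_on with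
  | _ n ih =>
  intro B hn h0 hpw
  rcases B with _ | ⟨b, B⟩
  · refine ⟨0, Fin.elim0, Fin.elim0, fun h => absurd rfl h, fun i => i.elim0, fun i => i.elim0,
      fun i => i.elim0, fun b hb => absurd hb (List.not_mem_nil), fun c _ _ => ?_⟩
    simp
  have hb0 : b ≠ 0 := h0 b List.mem_cons_self
  rw [List.pairwise_cons] at hpw
  obtain ⟨hb, hpw⟩ := hpw
  -- symmetric form
  have hsym : ∀ x ∈ B, ¬ ∃ y : K, y ^ 4 * x = b := by
    rintro x hx ⟨y, hy⟩
    have hx0 : x ≠ 0 := h0 x (List.mem_cons_of_mem _ hx)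
    have hy0 : y ≠ 0 := by
      rintro rfl
      rw [zero_pow (by norm_num), zero_mul] at hy
      exact hb0 hy.symm
    refine hb x hx ⟨y⁻¹, ?_⟩
    rw [← hy]
    field_simp
  -- extension of a solution for a sublist
  have key : ∀ (C : List K) (t : Bool), C.length < n → (∀ x ∈ C, x ∈ B) →
      C.Pairwise (fun b b' => ¬ ∃ y : K, y ^ 4 * b = b') → (∀ x ∈ C, ¬ ∃ y : K, y ^ 4 = b * x) →
      (t = true → ¬ ∃ y : K, y ^ 2 = b) →
      (∀ x ∈ b :: B, x = b ∨ x ∈ C ∨ t = true ∧ ∃ y : K, y ^ 4 = x * b) →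
      (∀ c : ℝ, 0 ≤ c → c ≤ 1 / 2 → c ^ (B.length + 1) ≤ (if t = true then c / 2 else c) * c ^ C.length) →
      ∃ (N : ℕ) (a : Fin N → K) (f : Fin N → Bool), (b :: B ≠ [] → 0 < N) ∧ (∀ i, a i ∈ b :: B) ∧
      (∀ i, f i = true → ¬ ∃ y : K, y ^ 2 = a i) ∧
      (∀ i i', i ≠ i' → (¬ ∃ y : K, y ^ 4 * a i = a i') ∧ ¬ ∃ y : K, y ^ 4 = a i * a i') ∧
      (∀ x ∈ b :: B, ∃ i, x = a i ∨ f i = true ∧ ∃ y : K, y ^ 4 = x * a i) ∧
      ∀ c : ℝ, 0 ≤ c → c ≤ 1 / 2 → c ^ (b :: B).length ≤ ∏ i, if f i = true then c / 2 else c := by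
    intro C t hC hCB hCp hCb ht hcov hc
    obtain ⟨N, a, f, -, h1, h2, h3, h4, h5⟩ := ih C.length hC C rfl
      (fun x hx => h0 x (List.mem_cons_of_mem _ (hCB x hx))) hCp
    refine ⟨N + 1, Fin.cons b a, Fin.cons t f, fun _ => Nat.succ_pos _, ?_, ?_, ?_, ?_, ?_⟩
    · intro i
      refine Fin.cases ?_ (fun i => ?_) i
      · rw [Fin.cons_zero]
        exact List.mem_cons_self
      · rw [Fin.cons_succ]
        exact List.mem_cons_of_mem _ (hCB _ (h1 i))
    · intro i
      refine Fin.cases ?_ (fun i => ?_) i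
      · rw [Fin.cons_zero, Fin.cons_zero]
        exact ht
      · rw [Fin.cons_succ, Fin.cons_succ]
        exact h2 i
    · intro i i'
      refine Fin.cases ?_ (fun i => ?_) i
      · refine Fin.cases ?_ (fun i' => ?_) i'
        · exact fun h => absurd rfl h
        · intro _
          rw [Fin.cons_zero, Fin.cons_succ]
          exact ⟨hb _ (hCB _ (h1 i')), hCb _ (h1 i')⟩
      · refine Fin.cases ?_ (fun i' => ?_) i'
        · intro _
          rw [Fin.cons_zero, Fin.cons_succ]
          refine ⟨hsym _ (hCB _ (h1 i)), ?_⟩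
          rintro ⟨y, hy⟩
          exact hCb _ (h1 i) ⟨y, by rw [hy]; ring⟩
        · intro h
          rw [Fin.cons_succ, Fin.cons_succ]
          exact h3 i i' fun h' => h (by rw [h'])
    · intro x hx
      rcases hcov x hx with h | h | h
      · exact ⟨0, Or.inl (by rw [Fin.cons_zero]; exact h)⟩
      · obtain ⟨i, hi⟩ := h4 x h
        refine ⟨i.succ, ?_⟩
        rw [Fin.cons_succ, Fin.cons_succ]
        exact hi
      · refine ⟨0, Or.inr ?_⟩
        rw [Fin.cons_zero, Fin.cons_zero]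
        exact h
    · intro c hc0 hc1
      rw [Fin.prod_univ_succ, Fin.cons_zero, List.length_cons]
      refine (hc c hc0 hc1).trans ?_
      refine mul_le_mul_of_nonneg_left ?_ ?_
      · refine (h5 c hc0 hc1).trans (le_of_eq ?_)
        refine Finset.prod_congr rfl fun i _ => ?_
        rw [Fin.cons_succ]
      · split_ifs
        · linarith
        · exact hc0
  rw [List.length_cons] at hn
  by_cases hex : ∃ b' ∈ B, ∃ y : K, y ^ 4 = b * b'
  · obtain ⟨b', hb', y, hy⟩ := hex
    obtain ⟨s, t, rfl⟩ := List.append_of_mem hb'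
    have hb'0 : b' ≠ 0 := h0 b' (List.mem_cons_of_mem _ hb')
    have hy0 : y ≠ 0 := by
      rintro rfl
      rw [zero_pow (by norm_num)] at hy
      exact mul_ne_zero hb0 hb'0 hy.symm
    have hlen : (s ++ b' :: t).length = (s ++ t).length + 1 := by
      simp only [List.length_append, List.length_cons]
      omega
    rw [List.pairwise_append, List.pairwise_cons] at hpw
    obtain ⟨p1, ⟨p2, p3⟩, p4⟩ := hpw
    refine key (s ++ t) true (by omega) ?_ ?_ ?_ ?_ ?_ ?_
    · intro x hx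
      rcases List.mem_append.1 hx with h | h
      · exact List.mem_append_left _ h
      · exact List.mem_append_right _ (List.mem_cons_of_mem _ h)
    · rw [List.pairwise_append]
      exact ⟨p1, p3, fun u hu v hv => p4 u hu v (List.mem_cons_of_mem _ hv)⟩
    · -- uniqueness of `b'`
      rintro x hx ⟨z, hz⟩
      have hx0 : x ≠ 0 := h0 x (List.mem_cons_of_mem _ (by
        rcases List.mem_append.1 hx with h | h
        · exact List.mem_append_left _ h
        · exact List.mem_append_right _ (List.mem_cons_of_mem _ h)))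
      have hz0 : z ≠ 0 := by
        rintro rfl
        rw [zero_pow (by norm_num)] at hz
        exact mul_ne_zero hb0 hx0 hz.symm
      have e1 : (z / y) ^ 4 * b' = x := by
        rw [div_pow, hy, hz]
        field_simp
      have e2 : (y / z) ^ 4 * x = b' := by
        rw [div_pow, hy, hz]
        field_simp
      rcases List.mem_append.1 hx with h | h
      · exact p4 x h b' List.mem_cons_self ⟨_, e2⟩
      · exact p2 x h ⟨_, e1⟩
    · rintro - ⟨z, hz⟩
      refine hb b' hb' ⟨y / z, ?_⟩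
      have hz0 : z ≠ 0 := by
        rintro rfl
        rw [zero_pow (by norm_num)] at hz
        exact hb0 hz.symm
      have e1 : z ^ 4 = b * b := by rw [← hz]; ring
      rw [div_pow, hy, e1]
      field_simp
    · intro x hx
      rcases List.mem_cons.1 hx with h | h
      · exact Or.inl h
      · rcases List.mem_append.1 h with h | h
        · exact Or.inr (Or.inl (List.mem_append_left _ h))
        · rcases List.mem_cons.1 h with h | h
          · refine Or.inr (Or.inr ⟨rfl, y, ?_⟩)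
            rw [hy, h, mul_comm]
          · exact Or.inr (Or.inl (List.mem_append_right _ h))
    · intro c hc0 hc1
      rw [if_pos rfl, hlen, pow_succ, pow_succ]
      have h1 : 0 ≤ c ^ (s ++ t).length := pow_nonneg hc0 _
      have h2 : c * c ≤ c / 2 := by nlinarith
      calc c ^ (s ++ t).length * c * c = c * c * c ^ (s ++ t).length := by ring
        _ ≤ c / 2 * c ^ (s ++ t).length := mul_le_mul_of_nonneg_right h2 h1
  · push Not at hex
    refine key B false (by omega) (fun x hx => hx) hpw ?_ ?_ ?_ ?_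
    · rintro x hx ⟨y, hy⟩
      exact hex x hx y hy
    · intro h
      exact absurd h Bool.false_ne_true
    · intro x hx
      rcases List.mem_cons.1 hx with h | h
      · exact Or.inl h
      · exact Or.inr (Or.inl h)
    · intro c hc0 hc1
      rw [if_neg Bool.false_ne_true, pow_succ]
      exact le_of_eq (mul_comm _ _)

end Gen

/-- **The representatives** of the elements `D e`, `e ∈ A`, modulo fourth powers and inversion. -/
theorem exists_rep {A : List (𝓞 K4)} (hA : A ≠ []) (h0 : ∀ e ∈ A, e ≠ 0)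
    (hpw : A.Pairwise fun e e' : 𝓞 K4 => ¬ ∃ y : K4, y ^ 4 * e = e') {D : 𝓞 K4} (hD : D ≠ 0) :
    ∃ (N : ℕ) (a : Fin N → 𝓞 K4) (f : Fin N → Bool), 0 < N ∧ (∀ i, a i ≠ 0) ∧
      (∀ i, ∃ e ∈ A, a i = D * e) ∧
      (∀ i, f i = true → ¬ ∃ y : K4, y ^ 2 = (a i : K4)) ∧
      (∀ i i', i ≠ i' → (¬ ∃ y : K4, y ^ 4 * a i = a i') ∧ ¬ ∃ y : K4, y ^ 4 = (a i : K4) * a i') ∧
      (∀ e ∈ A, ∃ i, D * e = a i ∨
        f i = true ∧ ∃ y : K4, y ^ 4 = ((D * e : 𝓞 K4) : K4) * a i) ∧
      ∀ c : ℝ, 0 ≤ c → c ≤ 1 / 2 → c ^ A.length ≤ ∏ i, if f i = true then c / 2 else c := by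
  have hco : ∀ x : 𝓞 K4, x ≠ 0 → (x : K4) ≠ 0 := fun x hx h => hx (RingOfIntegers.ext h)
  have hDK := hco D hD
  have hmul : ∀ e : 𝓞 K4, ((D * e : 𝓞 K4) : K4) = (D : K4) * e := fun e => by push_cast; rfl
  obtain ⟨N, a, f, h1, h2, h3, h4, h5, h6⟩ := rep_gen A.length
    (A.map fun e : 𝓞 K4 => ((D * e : 𝓞 K4) : K4)) (List.length_map _) (by
      intro b hb
      obtain ⟨e, he, rfl⟩ := List.mem_map.1 hb
      rw [hmul]
      exact mul_ne_zero hDK (hco e (h0 e he))) (by
      rw [List.pairwise_map]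
      refine hpw.imp ?_
      rintro e e' h ⟨y, hy⟩
      refine h ⟨y, ?_⟩
      rw [hmul, hmul] at hy
      refine mul_left_cancel₀ hDK ?_
      rw [← hy]
      ring)
  have h7 : ∀ i, ∃ e ∈ A, ((D * e : 𝓞 K4) : K4) = a i := fun i => List.mem_map.1 (h2 i)
  choose e he hea using h7
  refine ⟨N, fun i => D * e i, f, h1 ?_, fun i => mul_ne_zero hD (h0 _ (he i)),
    fun i => ⟨e i, he i, rfl⟩, ?_, ?_, ?_, ?_⟩
  · intro h
    exact hA (List.map_eq_nil_iff.1 h)
  · intro i hi
    rw [hea i]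
    exact h3 i hi
  · intro i i' hii
    rw [hea i, hea i']
    exact h4 i i' hii
  · intro x hx
    obtain ⟨i, hi⟩ := h5 _ (List.mem_map.2 ⟨x, hx, rfl⟩)
    refine ⟨i, ?_⟩
    rw [hea i]
    rcases hi with hi | hi
    · left
      rw [← hea i] at hi
      exact RingOfIntegers.ext hi
    · exact Or.inr hi
  · intro c hc0 hc1
    have := h6 c hc0 hc1
    rwa [List.length_map] at this

end Pool.Agent.Lib.MP_1a91b9_ntM.E
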