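import Pool.Agent.Lib.MP_1a91b9_ntM.E.GoodX
import Pool.Agent.Lib.MP_1a91b9_ntM.E.Rep
import Pool.Agent.Lib.MP_1a91b9_ntM.E.DenX
import Pool.Agent.Lib.MP_1a91b9_ntY.EX4

/-!
# Quadratic twists over the abelian extensions of exponent dividing `4`: assembly

`main8X`: for `D ≠ 0` in `ℤ[i]` and `F` generated over `K = ℚ(i)` by fourth roots of elements of `K`, the
L-series of `y² = x³ - D d² x` over `F` does not vanish at `1` and the group of the points over `F` is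
finite for a proportion at least `c ^ [F : K] - ε` of the squarefree `d` in a class.
-/

set_option autoImplicit false

namespace Pool.Agent.Lib.MP_1a91b9_ntM.E

open NumberField IsDedekindDomain Finset WeierstrassCurve Pool.Agent.Lib.MP_1a91b9_ntQ
  Pool.Agent.Lib.MP_1a91b9_nt Pool.Agent.Lib.MP_1a91b9_nuT Pool.Agent.Lib.MP_1a91b9_ntM
  Pool.Agent.Lib.MP_1a91b9_ntY
open Pool.Agent.Lib.MP_1a91b9_nuX.LG (LConcl JI locPoly_iso)
open Filter Topology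

noncomputable section

theorem cinf2_le_half : Da.cinf2 ≤ 1 / 2 := by
  have hs : Summable fun i : ℕ => (1 / 2 : ℝ) ^ (2 * i + 1) := by
    have h1 : Summable fun i : ℕ => (1 / 2 : ℝ) ^ i :=
      summable_geometric_of_lt_one (by norm_num) (by norm_num)
    refine Summable.of_nonneg_of_le (fun i => by positivity) (fun i => ?_) h1
    exact pow_le_pow_of_le_one (by norm_num) (by norm_num) (by omega)
  have hm : Multipliable fun i : ℕ => (1 - (1 / 2 : ℝ) ^ (2 * i + 1)) := by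
    have := Real.multipliable_one_add_of_summable
      (f := fun i : ℕ => -(1 / 2 : ℝ) ^ (2 * i + 1)) hs.neg
    simpa [sub_eq_add_neg] using this
  have h0 : ∀ i : ℕ, 0 ≤ 1 - (1 / 2 : ℝ) ^ (2 * i + 1) := fun i => by
    have : (1 / 2 : ℝ) ^ (2 * i + 1) ≤ 1 := pow_le_one₀ (by norm_num) (by norm_num)
    linarith
  have h1 : ∀ i : ℕ, 1 - (1 / 2 : ℝ) ^ (2 * i + 1) ≤ 1 := fun i => by
    have : 0 ≤ (1 / 2 : ℝ) ^ (2 * i + 1) := by positivity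
    linarith
  unfold Da.cinf2
  refine le_of_tendsto hm.hasProd ?_
  filter_upwards [eventually_ge_atTop ({0} : Finset ℕ)] with s hs
  have hs0 : (0 : ℕ) ∈ s := hs (mem_singleton_self 0)
  rw [← mul_prod_erase s _ hs0]
  calc (1 - (1 / 2 : ℝ) ^ (2 * 0 + 1)) * ∏ x ∈ s.erase 0, (1 - (1 / 2 : ℝ) ^ (2 * x + 1))
      ≤ (1 - (1 / 2 : ℝ) ^ (2 * 0 + 1)) * 1 :=
        mul_le_mul_of_nonneg_left (prod_le_one (fun i _ => h0 i) fun i _ => h1 i) (h0 0)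
    _ = 1 / 2 := by norm_num

/-! ### Fourth powers in the field -/

theorem WD4_isoK {D D' : 𝓞 K4} {r : K4} (hr : r ≠ 0) (h : (D' : K4) = (D : K4) * r ^ 4) :
    ∃ C : VariableChange K4, C • WD4 D' = WD4 D := by
  refine ⟨⟨Units.mk0 r hr, 0, 0, 0⟩, ?_⟩
  unfold WD4
  rw [h]
  ext
  · simp [variableChange_a₁]
  · simp [variableChange_a₂]
  · simp [variableChange_a₃]
  · simp only [variableChange_a₄, Units.val_inv_eq_inv_val, Units.val_mk0]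
    field_simp
    ring
  · simp [variableChange_a₆]

theorem WD4_powK {D D' : 𝓞 K4} {r : K4} (hr : r ≠ 0) (he : (D' : K4) = (D : K4) * r ^ 4)
    (h : LConcl (WD4 D) ∧ Finite (WD4 D).toAffine.Point) :
    LConcl (WD4 D') ∧ Finite (WD4 D').toAffine.Point := by
  obtain ⟨h1, h2⟩ := h
  obtain ⟨C, hC⟩ := WD4_isoK hr he
  refine ⟨?_, ?_⟩
  · obtain ⟨g, hg, hg1, hg2⟩ := h1
    refine ⟨g, hg, fun s hs => ?_, hg2⟩
    rw [hg1 s hs, LSer_congr fun v => locPoly_iso hC v (WD4_ji D v)]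
  · rw [← hC] at h2
    exact Finite.of_surjective _ (vcFun_bijective (WD4 D') C).2

theorem oc_ne {a : 𝓞 K4} (h : a ≠ 0) : (a : K4) ≠ 0 := fun h0 => h (RingOfIntegers.ext h0)

theorem oc_mul (a b : 𝓞 K4) : ((a * b : 𝓞 K4) : K4) = (a : K4) * (b : K4) :=
  map_mul (algebraMap (𝓞 K4) K4) a b

theorem oc_pow (a : 𝓞 K4) (n : ℕ) : ((a ^ n : 𝓞 K4) : K4) = (a : K4) ^ n :=
  map_pow (algebraMap (𝓞 K4) K4) a n

theorem oc_eq {a b : 𝓞 K4} (h : a = b) : (a : K4) = (b : K4) := by rw [h]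

theorem el_ne {z : DD8} : z.el ≠ 0 := by
  obtain ⟨t, ht, h⟩ := el_inv z
  intro h0
  rw [h0, zero_mul] at h
  exact ht (pow_eq_zero_iff four_ne_zero |>.1 h.symm)

theorem dj_inv {z : DD8} (h : Dj z.S z.T z.B) : Dj z.inv.S z.inv.T z.inv.B :=
  ⟨h.st.symm, h.tb, h.sb⟩

/-- **All the twists.** -/
theorem good_rep {D e d a : 𝓞 K4} {f : Bool} (hD : D ≠ 0) (he : e ≠ 0) (hd : d ≠ 0)
    (h : ∃ (z : DD8) (t : 𝓞 K4), t ≠ 0 ∧ Dj z.S z.T z.B ∧ a * d ^ 2 = z.el * t ^ 4 ∧ GdX z ∅ ∧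
      (f = true → GdX z.inv ∅))
    (ha : D * e = a ∨ f = true ∧ ∃ y : K4, y ^ 4 = ((D * e : 𝓞 K4) : K4) * a) :
    LConcl (WD4 (D * d ^ 2 * e)) ∧ Finite (WD4 (D * d ^ 2 * e)).toAffine.Point := by
  obtain ⟨z, t, ht, hz, h1, hG, hG'⟩ := h
  have e1 : ((D * d ^ 2 * e : 𝓞 K4) : K4) = ((D * e : 𝓞 K4) : K4) * (d : K4) ^ 2 := by
    rw [oc_mul, oc_mul, oc_mul, oc_pow]
    ring
  have h1' : (a : K4) * (d : K4) ^ 2 = (z.el : K4) * (t : K4) ^ 4 := by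
    rw [← oc_pow, ← oc_pow, ← oc_mul, ← oc_mul]
    exact oc_eq h1
  rcases ha with rfl | ⟨hf, y, hy⟩
  · refine WD4_powK (oc_ne ht) ?_ (good_z hz hG)
    rw [e1, h1']
  · obtain ⟨s, hs, h3⟩ := el_inv z
    have hDe : ((D * e : 𝓞 K4) : K4) ≠ 0 := oc_ne (mul_ne_zero hD he)
    have ha0 : (a : K4) ≠ 0 := by
      intro h0
      have h4 : a = 0 := RingOfIntegers.ext h0
      rw [h4, zero_mul] at h1
      exact mul_ne_zero el_ne (pow_ne_zero 4 ht) h1.symm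
    have hy0 : y ≠ 0 := by
      intro h0
      rw [h0, zero_pow four_ne_zero] at hy
      exact mul_ne_zero hDe ha0 hy.symm
    have hd0 := oc_ne hd
    have ht0 := oc_ne ht
    have hs0 := oc_ne hs
    have hz0 : (z.el : K4) ≠ 0 := oc_ne el_ne
    have hzi : (z.inv.el : K4) ≠ 0 := oc_ne el_ne
    have h3' : (z.el : K4) * (z.inv.el : K4) = (s : K4) ^ 4 := by
      rw [← oc_pow, ← oc_mul]
      exact oc_eq h3
    refine WD4_powK (D := z.inv.el) (r := y * d / (t * s))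
      (div_ne_zero (mul_ne_zero hy0 hd0) (mul_ne_zero ht0 hs0)) ?_ (good_z (dj_inv hz) (hG' hf))
    rw [e1]
    obtain ⟨E, hE⟩ : ∃ E, E = ((D * e : 𝓞 K4) : K4) := ⟨_, rfl⟩
    obtain ⟨d', hd'⟩ : ∃ x, x = (d : K4) := ⟨_, rfl⟩
    obtain ⟨t', ht'⟩ : ∃ x, x = (t : K4) := ⟨_, rfl⟩
    obtain ⟨s', hs'⟩ : ∃ x, x = (s : K4) := ⟨_, rfl⟩
    obtain ⟨z', hz'⟩ : ∃ x, x = (z.el : K4) := ⟨_, rfl⟩
    obtain ⟨w', hw'⟩ : ∃ x, x = (z.inv.el : K4) := ⟨_, rfl⟩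
    obtain ⟨a', ha'⟩ : ∃ x, x = (a : K4) := ⟨_, rfl⟩
    rw [← hE, ← ha'] at hy
    rw [← hd'] at hd0
    rw [← ht'] at ht0
    rw [← hs'] at hs0
    rw [← hz'] at hz0
    rw [← hw'] at hzi
    rw [← hz', ← hw', ← hs'] at h3'
    rw [← ha', ← hd', ← hz', ← ht'] at h1'
    rw [← hE, ← hd', ← ht', ← hs', ← hw']
    have h5 : w' * (y * d' / (t' * s')) ^ 4 = w' * (y ^ 4 * d' ^ 4 / (t' ^ 4 * s' ^ 4)) := by
      rw [div_pow, mul_pow, mul_pow]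
    rw [h5, hy, ← h3']
    have h6 : w' * (E * a' * d' ^ 4 / (t' ^ 4 * (z' * w'))) =
        E * d' ^ 2 * ((a' * d' ^ 2) / (z' * t' ^ 4)) := by
      field_simp
    rw [h6, h1', div_self (mul_ne_zero hz0 (pow_ne_zero 4 ht0)), mul_one]

theorem WD4_mk (D : 𝓞 K4) (e : 𝓞 K4) :
    (⟨0, 0, 0, -((D : K4) * (e : K4)), 0⟩ : WeierstrassCurve K4) = WD4 (D * e) := by
  unfold WD4
  rw [oc_mul]

/-- **The rank part over an abelian extension of exponent dividing `4`.** -/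
theorem main8X (hJ : DSJX) (F : Type) [Field F] [NumberField F] [Algebra K4 F]
    (hF : IntermediateField.adjoin K4 {x : F | ∃ c : K4, x ^ 4 = algebraMap K4 F c} = ⊤)
    {D : 𝓞 K4} (hD : D ≠ 0) {n : ℕ} {m u : 𝓞 K4} (hm : m ∣ 2 ^ n)
    (hu : ¬ ((2 : 𝓞 K4) ∣ m ∧ (2 : 𝓞 K4) ∣ u)) (ε : ℝ) (hε : 0 < ε) :
    ∀ᶠ X : ℝ in Filter.atTop,
      (∏' i : ℕ, (1 + 1 / (2 : ℝ) ^ (i + 1))⁻¹) ^ Module.finrank K4 F - ε ≤
      (Nat.card {d : 𝓞 K4 // Squarefree d ∧ m ∣ d - u ∧ |Algebra.norm ℤ d| ≤ X ∧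
        ∀ W : WeierstrassCurve F,
          W = ⟨0, 0, 0, -algebraMap K4 F ((D * d ^ 2 : 𝓞 K4) : K4), 0⟩ →
          (∃ g : ℂ → ℂ, Differentiable ℂ g ∧ (∀ s : ℂ, 3 / 2 < s.re → g s = W.LSeries s) ∧
            g 1 ≠ 0) ∧ Finite W.toAffine.Point} : ℝ) /
        (Nat.card {d : 𝓞 K4 // Squarefree d ∧ m ∣ d - u ∧ |Algebra.norm ℤ d| ≤ X} : ℝ) := by
  obtain ⟨A, hA⟩ := EX4.exists_of hF
  have hA0 : A ≠ [] := by
    rintro rfl
    have h1 := hA.len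
    rw [List.length_nil] at h1
    exact absurd h1.symm (Module.finrank_pos (R := K4) (M := F)).ne'
  obtain ⟨N, a, f, hN, ha0, -, hf, hpw, hcov, hc⟩ := exists_rep hA0 hA.ne hA.pw hD
  have h1 := hc Da.cinf2 cinf2_pos5.le cinf2_le_half
  rw [hA.len, ← cinf2_form] at h1
  have key := den_allX hJ hN a f ha0 hf hpw hm hu
    (fun d => ∀ W : WeierstrassCurve F,
          W = ⟨0, 0, 0, -algebraMap K4 F ((D * d ^ 2 : 𝓞 K4) : K4), 0⟩ →
          (∃ g : ℂ → ℂ, Differentiable ℂ g ∧ (∀ s : ℂ, 3 / 2 < s.re → g s = W.LSeries s) ∧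
            g 1 ≠ 0) ∧ Finite W.toAffine.Point) (fun d hd h => ?_) ε hε
  · filter_upwards [key] with X hX
    refine le_trans ?_ hX
    linarith
  · rintro W rfl
    refine chainX hA _ (oc_ne (mul_ne_zero hD (pow_ne_zero 2 hd.ne_zero))) fun e he => ?_
    obtain ⟨i, hi⟩ := hcov e he
    rw [WD4_mk]
    exact good_rep hD (hA.ne e he) hd.ne_zero (h i) hi

end

end Pool.Agent.Lib.MP_1a91b9_ntM.E
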