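import Pool.Agent.Lib.MP_1a91b9_ntM.E.Mul
import Pool.Agent.Lib.MP_1a91b9_ntM.R.Den

/-!
# Quadratic twists of `y² = x³ - D x`, `D` not a square, part R, file Den: the density of the squarefree
`d` for which all the curves `y² = x³ - D a² d² x` are good
-/

set_option autoImplicit false

namespace Pool.Agent.Lib.MP_1a91b9_ntM.E

open NumberField Finset Pool.Agent.Lib.MP_1a91b9_ntQ
open Den4 (ph)

noncomputable section

/-- The data `(k, j, S, T, B)` of the element `dB k j S T B`. -/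
structure DD8 where
  k : ZMod 4
  j : Fin 4
  S : Finset Pg
  T : Finset Pg
  B : Finset Pg

/-- the data of the inverse modulo fourth powers -/
def DD8.inv (x : DD8) : DD8 := ⟨-x.k, -x.j, x.T, x.S, x.B⟩

/-- **The joint density of the good sets of primes** (part D): the elements of the family have the same
class modulo squares, which is not trivial, they are different, also modulo `inv`. -/
def DSJ8 : Prop := ∀ (N : ℕ), 0 < N → ∀ (x : Fin N → DD8) (P0 P : Finset Pg) (k0 j0 : ZMod 2),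
  (∀ i, Dj (x i).S (x i).T (x i).B) → (∀ i, (x i).S ∪ (x i).T = P0) → P0 ⊆ P →
  (∀ i, (x i).B ⊆ P) → (∀ i, md (x i).k = k0) → (∀ i, (((x i).j.val : ℕ) : ZMod 2) = j0) →
  ¬ (k0 = 0 ∧ j0 = 0 ∧ P0 = ∅) → (∀ i i', i ≠ i' → x i ≠ x i' ∧ x i ≠ (x i').inv) →
  ∀ (m : ℕ) (g : GB m P) (κ₀ : ℝ), κ₀ < Da.cinf2 ^ N →
    DSB m P g κ₀ fun X => ∀ i, GdB (x i).k (x i).j (x i).S (x i).T ((x i).B ∪ X)

/-- the data of `D` times the square of `ph k j (DDq Y)` -/
def DD8.mul (x : DD8) (k : ZMod 4) (j : Fin 2) (Y : Finset Pg) : DD8 :=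
  ⟨x.k + 2 * k, x.j + dj j, sE x.S x.T Y, sE x.T x.S Y, bE x.S x.T x.B Y⟩

/-- the element -/
def DD8.el (x : DD8) : 𝓞 K4 := dB x.k x.j x.S x.T x.B

theorem el_mul {x : DD8} (h : Dj x.S x.T x.B) (k : ZMod 4) (j : Fin 2) (Y : Finset Pg) :
    ∃ t : 𝓞 K4, t ≠ 0 ∧ x.el * ph k j (DDq Y) ^ 2 = (x.mul k j Y).el * t ^ 4 :=
  dB_mul_sq h k j Y

theorem md_two (k k' : ZMod 4) : md (k + 2 * k') = md k := by
  have h : ∀ k k' : ZMod 4, (ZMod.castHom (show 2 ∣ 4 by norm_num) (ZMod 2)) (k + 2 * k') =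
      (ZMod.castHom (show 2 ∣ 4 by norm_num) (ZMod 2)) k := by decide
  exact h k k'

theorem dj_par (j : Fin 4) (j' : Fin 2) : (((j + dj j').val : ℕ) : ZMod 2) = (j.val : ZMod 2) := by
  revert j j'
  decide

theorem k_cancel {k a b : ZMod 4} (h : k + 2 * a = k + 2 * b) : md a = md b := by
  have h1 : ∀ k a b : ZMod 4, k + 2 * a = k + 2 * b →
      (ZMod.castHom (show 2 ∣ 4 by norm_num) (ZMod 2)) a =
        (ZMod.castHom (show 2 ∣ 4 by norm_num) (ZMod 2)) b := by decide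
  exact h1 k a b h

theorem j_cancel {j : Fin 4} {a b : Fin 2} (h : j + dj a = j + dj b) : a = b := by
  revert j a b
  decide

theorem k_inv {k a b : ZMod 4} (h : k + 2 * a = -(k + 2 * b)) : md (k + a + b) = 0 := by
  have h1 : ∀ k a b : ZMod 4, k + 2 * a = -(k + 2 * b) →
      (ZMod.castHom (show 2 ∣ 4 by norm_num) (ZMod 2)) (k + a + b) = 0 := by decide
  exact h1 k a b h

theorem j_inv {j : Fin 4} {a b : Fin 2} (h : j + dj a = -(j + dj b)) :
    Even (j.val + a.val + b.val) := by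
  revert j a b
  decide

theorem sq_iO_pow {n : ZMod 4} (h : md n = 0) : ∃ y : 𝓞 K4, y ^ 2 = iO ^ n.val := sq_iO h

/-- `D a a'` is a square if the data are exchanged -/
theorem sq_of_inv {x : DD8} {k k' : ZMod 4} {j j' : Fin 2} {T T' : Finset Pg}
    (hk : md (x.k + k + k') = 0) (hj : Even (x.j.val + j.val + j'.val))
    (hT : symmDiff T T' = x.S ∪ x.T) (hd : Dj x.S x.T x.B) :
    ∃ y : 𝓞 K4, y ^ 2 = x.el * (ph k j (DDq T) * ph k' j' (DDq T')) := by
  obtain ⟨y, hy⟩ := sq_iO hk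
  obtain ⟨n, hn⟩ := hj
  have h1 := DDq_mul T T'
  rw [hT, DDq_union hd.st] at h1
  refine ⟨y * (lam ^ n * (DDq x.S * DDq x.T ^ 2 * DDq x.B * DDq (T ∩ T'))), ?_⟩
  have h2 : (lam ^ n) ^ 2 = lam ^ x.j.val * lam ^ j.val * lam ^ j'.val := by
    rw [← pow_mul, ← pow_add, ← pow_add, hn]
    congr 1
    ring
  have h3 : iO ^ (x.k + k + k').val = iO ^ x.k.val * iO ^ k.val * iO ^ k'.val := by
    rw [pow_val_mul, pow_val_mul]
  unfold DD8.el dB cB Den4.ph
  rw [mul_pow, hy, h3, mul_pow, h2]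
  linear_combination -(iO ^ x.k.val * iO ^ k.val * iO ^ k'.val) *
    (lam ^ x.j.val * lam ^ j.val * lam ^ j'.val) * (DDq x.S * DDq x.T ^ 3 * DDq x.B ^ 2) * h1

theorem out_sd {P B' S T : Finset Pg} (hT : T ⊆ P) (hB : B' ⊆ P) (hS : Disjoint S P) :
    symmDiff (B' ∪ S) T = S ∪ symmDiff B' T := symm_union hT hB hS

/-- **The density of the squarefree `d` for which all the curves `y² = x³ - D a² d² x`, `a ∈ A`, are
good.** -/
theorem den_all (hJ : DSJ8) {x : DD8} (hx : Dj x.S x.T x.B)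
    (hns : ¬ (md x.k = 0 ∧ ((x.j.val : ℕ) : ZMod 2) = 0 ∧ x.S ∪ x.T = ∅))
    {A : List (𝓞 K4)} (hA : A ≠ []) (hne : ∀ a ∈ A, a ≠ 0)
    (hpw : A.Pairwise fun a b : 𝓞 K4 => ¬ (∃ y : K4, y ^ 2 = (a : K4) * b) ∧
      ¬ ∃ y : K4, y ^ 2 = (x.el : K4) * (a * b))
    {n : ℕ} {M u : 𝓞 K4} (hM : M ∣ 2 ^ n) (hu : ¬ ((2 : 𝓞 K4) ∣ M ∧ (2 : 𝓞 K4) ∣ u))
    (Pr : 𝓞 K4 → Prop)
    (hPr : ∀ d : 𝓞 K4, Squarefree d → (∀ a ∈ A, ∃ (z : DD8) (t : 𝓞 K4), t ≠ 0 ∧
      Dj z.S z.T z.B ∧ ¬ (md z.k = 0 ∧ ((z.j.val : ℕ) : ZMod 2) = 0 ∧ z.S ∪ z.T = ∅) ∧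
      x.el * (a * d) ^ 2 = z.el * t ^ 4 ∧ GdB z.k z.j z.S z.T z.B) → Pr d)
    (ε : ℝ) (hε : 0 < ε) :
    ∀ᶠ X : ℝ in Filter.atTop,
      (∏' i : ℕ, (1 + 1 / (2 : ℝ) ^ (i + 1))⁻¹) ^ A.length - ε ≤
      (Nat.card {x : 𝓞 K4 // Squarefree x ∧ M ∣ x - u ∧ |Algebra.norm ℤ x| ≤ X ∧ Pr x} : ℝ) /
        (Nat.card {x : 𝓞 K4 // Squarefree x ∧ M ∣ x - u ∧ |Algebra.norm ℤ x| ≤ X} : ℝ) := by
  obtain ⟨N, hN⟩ : ∃ N, N = A.length := ⟨_, rfl⟩
  have hN0 : 0 < N := by
    rw [hN]
    exact List.length_pos_iff.2 hA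
  obtain ⟨a, ha⟩ : ∃ a : Fin N → 𝓞 K4, (∀ x, x ∈ A ↔ ∃ i, a i = x) ∧
      ∀ i i', i ≠ i' → ¬ (∃ y : K4, y ^ 2 = (a i : K4) * a i') ∧
        ¬ ∃ y : K4, y ^ 2 = (x.el : K4) * (a i * a i') := by
    subst hN
    refine ⟨A.get, fun x => ?_, fun i i' hii => ?_⟩
    · rw [List.mem_iff_get]
    · have h1 := List.pairwise_iff_get.1 hpw
      rcases lt_or_gt_of_ne hii with h2 | h2
      · exact h1 i i' h2
      · obtain ⟨h3, h4⟩ := h1 i' i h2
        refine ⟨?_, ?_⟩
        · rintro ⟨y, hy⟩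
          exact h3 ⟨y, by rw [hy, mul_comm]⟩
        · rintro ⟨y, hy⟩
          exact h4 ⟨y, by rw [hy]; ring⟩
  obtain ⟨hmem, hdis⟩ := ha
  have h1 : ∀ i, ∃ (k : ZMod 4) (j : Fin 2) (T : Finset Pg) (s : 𝓞 K4), s ≠ 0 ∧
      a i = ph k j (DDq T) * s ^ 2 := fun i => exists_sf (a i) (hne _ ((hmem _).2 ⟨i, rfl⟩))
  choose kk jk T s hs hT using h1
  obtain ⟨P, hP⟩ : ∃ P : Finset Pg, P = (x.S ∪ x.T ∪ x.B) ∪ univ.biUnion T := ⟨_, rfl⟩
  have hTP : ∀ i, T i ⊆ P := fun i => by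
    rw [hP]
    exact (subset_biUnion_of_mem T (mem_univ i)).trans subset_union_right
  have hxP : x.S ∪ x.T ∪ x.B ⊆ P := by
    rw [hP]
    exact subset_union_left
  have hSP : x.S ⊆ P := (subset_union_left.trans subset_union_left).trans hxP
  have hTP' : x.T ⊆ P := (subset_union_right.trans subset_union_left).trans hxP
  have hBP : x.B ⊆ P := subset_union_right.trans hxP
  have hinj : ∀ i i', md (kk i) = md (kk i') → jk i = jk i' → T i = T i' → i = i' := by
    intro i i' e1 e2 e3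
    by_contra hii
    apply (hdis i i' hii).1
    obtain ⟨y, hy⟩ := sq_of_eq (j := jk i) (T := T i) e1
    refine ⟨((y * (s i * s i') : 𝓞 K4) : K4), ?_⟩
    have h2 : (y * (s i * s i')) ^ 2 = a i * a i' := by
      rw [hT i, hT i', ← e2, ← e3, mul_pow, hy]
      ring
    exact_mod_cast congrArg (fun z : 𝓞 K4 => (z : K4)) h2
  have hinv : ∀ i i', i ≠ i' → md (x.k + kk i + kk i') = 0 →
      Even (x.j.val + (jk i).val + (jk i').val) → symmDiff (T i) (T i') = x.S ∪ x.T → False := by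
    intro i i' hii e1 e2 e3
    apply (hdis i i' hii).2
    obtain ⟨y, hy⟩ := sq_of_inv e1 e2 e3 hx
    refine ⟨((y * (s i * s i') : 𝓞 K4) : K4), ?_⟩
    have h2 : (y * (s i * s i')) ^ 2 = x.el * (a i * a i') := by
      rw [hT i, hT i', mul_pow, hy]
      ring
    exact_mod_cast congrArg (fun z : 𝓞 K4 => (z : K4)) h2
  obtain ⟨u', hu', hMu⟩ := Q5.exists_rep hu
  have hc0 : (0 : ℝ) < ε / 2 := by linarith
  rw [cinf2_form, ← hN]
  obtain ⟨Z, hZ⟩ : ∃ Z : ZMod 4 → Fin 2 → Finset Pg → Fin N → DD8, Z = fun k j S i =>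
      x.mul (k + kk i) (j + jk i) (symmDiff S (T i)) := ⟨_, rfl⟩
  have key := density4_cls (2 * n) (hM.trans (Q5.two_pow_dvd n)) hu' (Da.cinf2 ^ N - ε / 2)
    (Da.cinf2 ^ N - ε) (by linarith)
    (fun k j S => ∀ i, GdB (Z k j S i).k (Z k j S i).j (Z k j S i).S (Z k j S i).T (Z k j S i).B)
    (fun k j g _ => DS_of_DSB P g fun B' hB' g' =>
      (hJ N hN0 (fun i => Z k j B' i) (x.S ∪ x.T) P (md x.k) ((x.j.val : ℕ) : ZMod 2)
        (fun i => by
          rw [hZ]
          exact dj_E hx _)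
        (fun i => by
          rw [hZ]
          exact sE_union _ _ _)
        (union_subset hSP hTP')
        (fun i => by
          rw [hZ]
          refine bE_sub hBP ?_
          intro q hq
          rw [mem_symmDiff] at hq
          rcases hq with hq | hq
          · exact hB' hq.1
          · exact hTP i hq.1)
        (fun i => by
          rw [hZ]
          exact md_two _ _)
        (fun i => by
          rw [hZ]
          exact dj_par _ _)
        hns
        (fun i i' hii => by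
          rw [hZ]
          refine ⟨fun h => ?_, fun h => ?_⟩
          · simp only [DD8.mul, DD8.mk.injEq] at h
            obtain ⟨e1, e2, e3, e4, e5⟩ := h
            have e6 := k_cancel e1
            rw [map_add, map_add] at e6
            exact hii (hinj i i' (add_left_cancel e6) (fin2_add_cancel (j_cancel e2))
              (symmDiff_cancel (E_inj hx e3 e4 e5)))
          · simp only [DD8.mul, DD8.inv, DD8.mk.injEq] at h
            obtain ⟨e1, e2, e3, e4, e5⟩ := h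
            have e6 := k_inv e1
            have e7 := j_inv e2
            have e8 := E_swap hx e3 e5
            refine hinv i i' hii ?_ ?_ ?_
            · have e9 : x.k + (k + kk i) + (k + kk i') = (x.k + kk i + kk i') + 2 * k := by ring
              rw [e9, md_two] at e6
              exact e6
            · have key : ∀ (a : Fin 4) (b c d : Fin 2), Even (a.val + (b + c).val + (b + d).val) →
                  Even (a.val + c.val + d.val) := by decide
              exact key _ _ _ _ e7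
            · rw [symmDiff_symmDiff_symmDiff_comm, symmDiff_self, bot_symmDiff] at e8
              exact e8)
        (2 * n) g' _ (by linarith)).mono fun S hS _ h2 i => by
          have e := out_sd (hTP i) hB' hS
          have h3 := h2 i
          have e1 : Z k j (B' ∪ S) i = ⟨(Z k j B' i).k, (Z k j B' i).j, (Z k j B' i).S,
              (Z k j B' i).T, (Z k j B' i).B ∪ S⟩ := by
            rw [hZ]
            simp only [DD8.mul, e, DD8.mk.injEq]
            exact ⟨trivial, trivial, sE_out hSP hTP' hS, sE_out hTP' hSP hS,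
              bE_out hSP hTP' hBP hS⟩
          rw [e1]
          exact h3)
    Pr (fun k j S _ h2 => hPr _ (Den4.ph_squarefree k j S) fun b hb => by
      obtain ⟨i, rfl⟩ := (hmem b).1 hb
      obtain ⟨t, h3, h4⟩ := ph_mul k (kk i) j (jk i) S (T i)
      obtain ⟨t', h5, h6⟩ := el_mul hx (k + kk i) (j + jk i) (symmDiff S (T i))
      have e1 : Z k j S i = x.mul (k + kk i) (j + jk i) (symmDiff S (T i)) := by rw [hZ]
      refine ⟨Z k j S i, t' * (t * s i), mul_ne_zero h5 (mul_ne_zero h3 (hs i)), ?_, ?_, ?_, h2 i⟩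
      · rw [e1]
        exact dj_E hx _
      · rw [e1]
        intro h7
        refine hns ⟨?_, ?_, ?_⟩
        · rw [← md_two x.k (k + kk i)]
          exact h7.1
        · rw [← dj_par x.j (j + jk i)]
          exact h7.2.1
        · rw [← sE_union x.S x.T (symmDiff S (T i))]
          exact h7.2.2
      · rw [e1, hT i]
        linear_combination (s i) ^ 4 * t ^ 4 * h6 +
          x.el * (s i) ^ 4 * (ph k j (DDq S) * ph (kk i) (jk i) (DDq (T i)) +
            ph (k + kk i) (j + jk i) (DDq (symmDiff S (T i))) * t ^ 2) * h4)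
  simp only [Q5.dvd_sub_iff hMu] at key
  exact key

end

end Pool.Agent.Lib.MP_1a91b9_ntM.E
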