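import Pool.Agent.Lib.MP_1a91b9_ntM.E.XDef
import Pool.Agent.Lib.MP_1a91b9_ntQ.R.NonV4
import Pool.Agent.Lib.MP_1a91b9_ntQ.DW.XEng

/-!
# Quadratic twists over the abelian extensions of exponent dividing `4`, part D: the engine

`EngX` from the weighted engine with several activity characters.
-/

set_option autoImplicit false
set_option linter.unusedSectionVars false

namespace Pool.Agent.Lib.MP_1a91b9_ntM.E

open Finset Pool.Agent.Lib.MP_1a91b9_ntH Pool.Agent.Lib.MP_1a91b9_ntQ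
open Pool.Agent.Lib.MP_1a91b9_ntQ.DW Pool.Agent.Lib.MP_1a91b9_ntQ.D

noncomputable section

variable {ι : Type} [DecidableEq ι] {κ : Type} [Fintype κ] [DecidableEq κ]

private theorem ex_lin {L : Type} (D : Dat2 ι κ) (Λ : LS2 L ι κ) (hB : Λ.B = ∅) (l : L) (q : ι) :
    D.lin Λ l q = ∑ j, Λ.c l j * D.a q j := by
  unfold Dat2.lin Dat2.ex
  rw [hB, sum_empty, add_zero]

/-- **The engine with several activity characters.** -/
theorem engX [PS ι] {D : Dat2 ι κ} (hD : D.OK) (hN : D.NV1) : EngX D := by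
  intro L _ _ Λ w hΛ hB hw h hh g hg ε hε
  classical
  obtain ⟨X₀, hX₀⟩ := engineX D hD (fun c hc => hN ∅ c (Or.inr hc)) Λ hΛ hB hw.nonneg hw.le_one
    hw.at_zero h (fun U h1 h2 => hh U (mem_FullW.2 ⟨h1, h2⟩)) hg ε hε
  refine ⟨X₀, fun X hx => ?_⟩
  have h1 : EnX D Λ w h g X = ∑ d ∈ Box ι L X, FG D Λ (hX D w h g) d := by
    rw [← expandW D Λ (DW.hX D w h g) X]
    unfold EnX
    refine sum_congr rfl fun B _ => ?_
    rw [mul_sum]
    refine sum_congr rfl fun f _ => ?_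
    unfold DW.hX
    rw [prod_mul_distrib, prod_mul_distrib, ← prod_coe_sort B g, e2_add, e2_sum]
    ring
  have h2 : ∑ U ∈ FullW Λ w, ∑ B ∈ Sx ι X, ∏ q ∈ B, g q * TotW Λ w U (D.a q) =
      ∑ U ∈ univ.filter (fun U : Finset L => U ∈ Λ.Us ∧ ∀ φ, ∑ l ∈ U, w l φ = 1),
        ∑ S ∈ Sx ι X, ∏ q ∈ S, HG D Λ (DW.hX D w h g) U (fun _ => ∅) q := by
    refine sum_congr ?_ fun U hU => ?_
    · ext U
      rw [mem_FullW, mem_filter]
      exact ⟨fun h3 => ⟨mem_univ _, h3⟩, fun h3 => h3.2⟩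
    · have hU' : U ∈ FullW Λ w := by
        rw [mem_FullW]
        exact (mem_filter.1 hU).2
      refine sum_congr rfl fun S _ => prod_congr rfl fun q _ => ?_
      unfold TotW HG
      rw [mul_sum]
      refine sum_congr rfl fun l hl => ?_
      rw [xq_empty, ex_lin D Λ hB]
      unfold DW.hX
      rw [hh U hU' l hl q, e2_zero]
      ring
  rw [h1, h2]
  exact hX₀ X hx

end

end Pool.Agent.Lib.MP_1a91b9_ntM.E
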