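import Pool.Agent.Lib.MP_1a91b9_ntM.E.XDef
import Pool.Agent.Lib.MP_1a91b9_ntM.Q.Main
import Pool.Agent.Lib.MP_1a91b9_ntQ.B.FinBTF

/-!
# Quadratic twists over the abelian extensions of exponent dividing `4`, part Q: the good elements

`good_all` : if `D = z.el * t ^ 4` and `GdX z ∅` then the L-series of `y² = x³ - D x` over `ℚ(i)` does
not vanish at `1` and the group of the points is finite. `el_inv` : `z.el * z.inv.el` is a fourth power.
-/

set_option autoImplicit false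

namespace Pool.Agent.Lib.MP_1a91b9_ntM.E

open NumberField IsDedekindDomain Finset WeierstrassCurve Pool.Agent.Lib.MP_1a91b9_ntQ
  Pool.Agent.Lib.MP_1a91b9_nt Pool.Agent.Lib.MP_1a91b9_nuT Pool.Agent.Lib.MP_1a91b9_ntM
open Pool.Agent.Lib.MP_1a91b9_nuX.LG (LConcl JI locPoly_iso)
open Pool.Agent.Lib.MP_1a91b9_ntS (BSDMod)
open Den4 (ph)
open Pool.Agent.Lib.MP_1a91b9_ntT.S9 (tam)
open scoped Classical

noncomputable section

/-! ### From the formula modulo `2` -/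

theorem of_mod {W : WeierstrassCurve K4} {q : ℚ} (h : BSDMod 2 W q) (hq : ¬ (2 : ℤ) ∣ q.num)
    (hT : ∏ᶠ v : HeightOneSpectrum (𝓞 K4), tam W v ≠ 0)
    (hC : Nat.card (AddCommGroup.primaryComponent W.toAffine.Point 2) ≠ 0) :
    LConcl W ∧ Finite W.toAffine.Point := by
  obtain ⟨⟨g, h1, h2, h3⟩, h4, h5⟩ := h
  have h6 := h5.1 (by exact_mod_cast hq)
  refine ⟨⟨g, h1, h2, fun h0 => ?_⟩, h6.1⟩
  rw [h0, zero_mul, zero_div] at h3
  have hq0 : q ≠ 0 := by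
    rintro rfl
    exact hq (by norm_num)
  have h7 : (q : ℝ) * (((∏ᶠ v : HeightOneSpectrum (𝓞 K4), tam W v : ℕ) : ℝ) /
      (Nat.card (AddCommGroup.primaryComponent W.toAffine.Point 2) : ℝ) ^ 2) ≠ 0 := by
    refine mul_ne_zero (by exact_mod_cast hq0) (div_ne_zero (by exact_mod_cast hT) ?_)
    exact pow_ne_zero 2 (by exact_mod_cast hC)
  exact h7 (by exact_mod_cast h3.symm)

/-! ### The inverse -/

theorem iO_inv (k : ZMod 4) : iO ^ k.val * iO ^ (-k).val = 1 := by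
  rw [pow_val_mul, add_neg_cancel, ZMod.val_zero, pow_zero]

theorem lam_inv (j : Fin 4) : ∃ t : 𝓞 K4, t ≠ 0 ∧ lam ^ j.val * lam ^ (-j).val = t ^ 4 := by
  have h4 : ∀ j : Fin 4, j = 0 ∨ j.val + (-j).val = 4 := by decide
  rcases h4 j with rfl | h
  · refine ⟨1, one_ne_zero, ?_⟩
    have e : (-(0 : Fin 4)).val = 0 := rfl
    have e1 : (0 : Fin 4).val = 0 := rfl
    rw [e, e1, pow_zero, one_mul, one_pow]
  · exact ⟨lam, lam_ne_zero, by rw [← pow_add, h]⟩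

/-- **The element and its inverse modulo fourth powers.** -/
theorem el_inv (z : DD8) : ∃ t : 𝓞 K4, t ≠ 0 ∧ z.el * z.inv.el = t ^ 4 := by
  obtain ⟨t, ht, h1⟩ := lam_inv z.j
  have h2 := iO_inv z.k
  refine ⟨t * (DDq z.S * DDq z.T * DDq z.B), mul_ne_zero ht (mul_ne_zero (mul_ne_zero
    (DDq_in4 _).ne_zero (DDq_in4 _).ne_zero) (DDq_in4 _).ne_zero), ?_⟩
  unfold DD8.el DD8.inv dB MP_1a91b9_ntQ.cB
  dsimp only
  rw [mul_pow, ← h1]
  linear_combination (lam ^ z.j.val * lam ^ (-z.j).val * (DDq z.S * DDq z.T * DDq z.B) ^ 4) * h2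

/-! ### The squares -/

theorem el_sq {z : DD8} (h : z.Sq) : z.el = ph z.sk z.sj (DDq z.B) ^ 2 := by
  obtain ⟨k, j, S, T, B⟩ := z
  obtain ⟨hk, hj, hST⟩ := h
  dsimp only at hk hj hST
  obtain ⟨rfl, rfl⟩ : S = ∅ ∧ T = ∅ := Finset.union_eq_empty.1 hST
  have key1 : ∀ k : ZMod 4, (ZMod.castHom (show 2 ∣ 4 by norm_num) (ZMod 2)) k = 0 →
    k = 0 ∨ k = 2 := by decide
  have key2 : ∀ j : Fin 4, (j.val : ZMod 2) = 0 → j = 0 ∨ j = 2 := by decide
  have z0 : ((0 : ZMod 4)).val = 0 := rfl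
  have z1 : ((1 : ZMod 4)).val = 1 := rfl
  have z2 : ((2 : ZMod 4)).val = 2 := rfl
  have f0 : ((0 : Fin 4)).val = 0 := rfl
  have f2 : ((2 : Fin 4)).val = 2 := rfl
  have g0 : ((0 : Fin 2)).val = 0 := rfl
  have g1 : ((1 : Fin 2)).val = 1 := rfl
  have n1 : ¬ ((2 : ZMod 4) = 0) := by decide
  have n2 : ¬ ((2 : Fin 4) = 0) := by decide
  unfold DD8.el DD8.sk DD8.sj dB MP_1a91b9_ntQ.cB Den4.ph
  dsimp only
  rw [DDq_empty]
  rcases key1 k hk with rfl | rfl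
  · rcases key2 j hj with rfl | rfl
    · rw [if_pos rfl, if_pos rfl, z0, f0, g0]
      ring
    · rw [if_pos rfl, if_neg n2, z0, f2, g1]
      ring
  · rcases key2 j hj with rfl | rfl
    · rw [if_neg n1, if_pos rfl, z1, z2, f0, g0]
      ring
    · rw [if_neg n1, if_neg n2, z1, z2, f2, g1]
      ring

/-! ### The good elements -/

theorem good_sq {z : DD8} (h : z.Sq) (hG : Gd5 z.sk z.sj z.B) :
    LConcl (WD4 z.el) ∧ Finite (WD4 z.el).toAffine.Point := by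
  have e := WD4_sq (ph z.sk z.sj (DDq z.B))
  rw [el_sq h]
  refine ⟨ls5 hG, ?_⟩
  rw [e]
  exact (C.pts5_all z.sk z.sj z.B hG rfl (W := Wd K4 (ph z.sk z.sj (DDq z.B))) rfl).1

theorem good_ns {z : DD8} (hz : Dj z.S z.T z.B) (h : ¬ z.Sq) (hG : GdB z.k z.j z.S z.T z.B) :
    LConcl (WD4 z.el) ∧ Finite (WD4 z.el).toAffine.Point := by
  obtain ⟨q, h1, h2⟩ := bsdB foB
  refine of_mod (h1 z.el (C.FFr_dC hz)) ((h2 z.k z.j z.S z.T z.B hz h).2 hG) ?_ ?_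
  · change ∏ᶠ v : HeightOneSpectrum (𝓞 K4), tam (WD4 (dB z.k z.j z.S z.T z.B)) v ≠ 0
    rw [C.finprod_tamB hz]
    positivity
  · change Nat.card (AddCommGroup.primaryComponent (WD4 (dB z.k z.j z.S z.T
      z.B)).toAffine.Point 2) ≠ 0
    rw [card_primB hz h]
    norm_num

theorem good_z {z : DD8} (hz : Dj z.S z.T z.B) (hG : GdX z ∅) :
    LConcl (WD4 z.el) ∧ Finite (WD4 z.el).toAffine.Point := by
  obtain ⟨h1, h2⟩ := hG
  rw [union_empty] at h1 h2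
  by_cases h : z.Sq
  · exact good_sq h (h1 h)
  · exact good_ns hz h (h2 h)

/-! ### Fourth powers -/

theorem WD4_ji (D : 𝓞 K4) (v : HeightOneSpectrum (𝓞 K4)) : JI (WD4 D) v := by
  have h1 : (WD4 D).c₄ ^ 3 = algebraMap (𝓞 K4) K4 1728 * (WD4 D).Δ := by
    rw [map_ofNat]
    unfold WD4 WeierstrassCurve.c₄ WeierstrassCurve.Δ WeierstrassCurve.b₂ WeierstrassCurve.b₄
      WeierstrassCurve.b₆ WeierstrassCurve.b₈
    ring
  unfold JI
  rw [h1, map_mul]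
  exact mul_le_of_le_one_left' (v.valuation_le_one _)

theorem WD4_iso {D t : 𝓞 K4} (ht : t ≠ 0) :
    ∃ C : VariableChange K4, C • WD4 (D * t ^ 4) = WD4 D := by
  have ht0 : (t : K4) ≠ 0 := by exact_mod_cast ht
  refine ⟨⟨Units.mk0 (t : K4) ht0, 0, 0, 0⟩, ?_⟩
  have e : ((D * t ^ 4 : 𝓞 K4) : K4) = (D : K4) * (t : K4) ^ 4 := by
    push_cast
    rfl
  unfold WD4
  rw [e]
  ext
  · simp [variableChange_a₁]
  · simp [variableChange_a₂]
  · simp [variableChange_a₃]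
  · simp only [variableChange_a₄, Units.val_inv_eq_inv_val, Units.val_mk0]
    field_simp
    ring
  · simp [variableChange_a₆]

theorem WD4_pow4 {D t : 𝓞 K4} (ht : t ≠ 0)
    (h : LConcl (WD4 D) ∧ Finite (WD4 D).toAffine.Point) :
    LConcl (WD4 (D * t ^ 4)) ∧ Finite (WD4 (D * t ^ 4)).toAffine.Point := by
  obtain ⟨h1, h2⟩ := h
  obtain ⟨C, hC⟩ := WD4_iso (D := D) ht
  refine ⟨?_, ?_⟩
  · obtain ⟨g, hg, hg1, hg2⟩ := h1
    refine ⟨g, hg, fun s hs => ?_, hg2⟩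
    rw [hg1 s hs, LSer_congr fun v => locPoly_iso hC v (WD4_ji D v)]
  · rw [← hC] at h2
    exact Finite.of_surjective _ (vcFun_bijective (WD4 (D * t ^ 4)) C).2

/-- **The conclusion for all the elements.** -/
theorem good_all {D : 𝓞 K4} (h : ∃ (z : DD8) (t : 𝓞 K4), t ≠ 0 ∧ Dj z.S z.T z.B ∧
    D = z.el * t ^ 4 ∧ GdX z ∅) :
    LConcl (⟨0, 0, 0, -(D : K4), 0⟩ : WeierstrassCurve K4) ∧
      Finite (⟨0, 0, 0, -(D : K4), 0⟩ : WeierstrassCurve K4).toAffine.Point := by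
  obtain ⟨z, t, ht, hz, rfl, hG⟩ := h
  exact WD4_pow4 ht (good_z hz hG)

end

end Pool.Agent.Lib.MP_1a91b9_ntM.E
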