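import Pool.Agent.Lib.MP_1a91b9_ntM.E.JExp

/-!
# Quadratic twists of a fixed curve, part D: the number of main terms of the joint moments
-/

set_option autoImplicit false
set_option linter.unusedSectionVars false

namespace Pool.Agent.Lib.MP_1a91b9_ntM.E

open Finset Pool.Agent.Lib.MP_1a91b9_ntH Pool.Agent.Lib.MP_1a91b9_ntQ Pool.Agent.Lib.MP_1a91b9_ntQ.Da
  Pool.Agent.Lib.MP_1a91b9_ntQ.M Pool.Agent.Lib.MP_1a91b9_ntM

noncomputable section

variable {A : Type} [Fintype A] [DecidableEq A] {k : A → ℕ} {ι : Type} [DecidableEq ι]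
  {κ : Type} [Fintype κ] [DecidableEq κ] {E : A → Type} [∀ a, Fintype (E a)]
  [∀ a, DecidableEq (E a)]

/-- The projection along `c0`. -/
def pr0 (c0 : κ → ZMod 2) (j0 : κ) (x : κ → ZMod 2) (j : κ) : ZMod 2 := x j + c0 j * x j0

theorem pr0_zero_iff {c0 : κ → ZMod 2} {j0 : κ} (h0 : c0 j0 = 1) {x : κ → ZMod 2} :
    pr0 c0 j0 x = 0 ↔ x = 0 ∨ x = c0 := by
  constructor
  · intro h
    rcases z2 (x j0) with h1 | h1
    · left
      funext j
      have h2 := congrFun h j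
      rw [pr0, h1, mul_zero, add_zero] at h2
      exact h2
    · right
      funext j
      have h2 := congrFun h j
      rw [pr0, h1, mul_one] at h2
      rw [eq_neg_of_add_eq_zero_left h2, z2_neg]
  · rintro (rfl | rfl)
    · funext j
      simp [pr0]
    · funext j
      rw [pr0, h0, mul_one]
      exact z2_add_self _

theorem pr0_add (c0 : κ → ZMod 2) (j0 : κ) (x y : κ → ZMod 2) :
    pr0 c0 j0 (x + y) = pr0 c0 j0 x + pr0 c0 j0 y := by
  funext j
  simp only [pr0, Pi.add_apply]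
  ring

theorem cE_pr0 (c0 : κ → ZMod 2) (j0 : κ) {k : ℕ} {E : Type} [Fintype E] (σ : κ → ZMod 2)
    (P : κ → E → ZMod 2) (m : E → Lab2 k) (l : Lab2 k) :
    cE (pr0 c0 j0 σ) (fun j e => P j e + c0 j * P j0 e) m l = pr0 c0 j0 (cE σ P m l) := by
  funext j
  simp only [cE, pr0, add_mul, sum_add_distrib, mul_add, mul_sum]
  ring_nf

theorem cP_pr0 (c0 : κ → ZMod 2) (j0 : κ) (σ : A → κ → ZMod 2) (P : ∀ a, κ → E a → ZMod 2)
    (m : ∀ a, E a → Lab2 (k a)) (l : LabP k) :
    cP (fun a => pr0 c0 j0 (σ a)) (fun a j e => P a j e + c0 j * P a j0 e) m l =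
      pr0 c0 j0 (cP σ P m l) := by
  funext j
  simp only [cP, cE_pr0, pr0, sum_add_distrib, mul_sum]

theorem cE_zero {k : ℕ} {E : Type} [Fintype E] (σ : κ → ZMod 2) (P : κ → E → ZMod 2)
    (m : E → Lab2 k) (j : κ) : cE σ P m 0 j = 0 := by
  simp only [cE, Q2_zero, B2_zero', mul_zero, sum_const_zero, add_zero]

/-- **The main terms are the products of maximal totally singular subspaces which contain the labels
of the borders.** -/
theorem mem_MsL_iff {c0 : κ → ZMod 2} {j0 : κ} (h0 : c0 j0 = 1) {σ : A → κ → ZMod 2}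
    (hσ : ∀ a b, a ≠ b → σ a + σ b ≠ 0 ∧ σ a + σ b ≠ c0) {P : ∀ a, κ → E a → ZMod 2}
    (hP : ∀ (a : A) (x : E a → ZMod 2) (t : ZMod 2), (∀ j, ∑ e, P a j e * x e = t * c0 j) →
      x = 0) (m : ∀ a, E a → Lab2 (k a)) (U : Finset (LabP k)) :
    U ∈ MsL (LSP ι k σ P m) 0 ∅ c0 ↔
      ∃ V : ∀ a, Finset (Lab2 (k a)), (∀ a, Mx2 (V a) ∧ ∀ e, m a e ∈ V a) ∧
        U = Fintype.piFinset V := by
  classical
  rw [mem_MsL, LS2.mem_Us, LSP_Unl]
  constructor
  · rintro ⟨⟨hU, hc⟩, hz, hl⟩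
    have hc' : U.card = ∏ a, 2 ^ k a := hc
    have hl' : ∀ l ∈ U, cP σ P m l = 0 ∨ cP σ P m l = c0 := by
      intro l hlU
      rcases hl l hlU with h | h
      · exact Or.inl h.1
      · exact Or.inr h.1
    have hinj : Function.Injective fun a => pr0 c0 j0 (σ a) := by
      intro a b hab
      by_contra hne
      have h1 : pr0 c0 j0 (σ a + σ b) = 0 := by
        have hab' : pr0 c0 j0 (σ a) = pr0 c0 j0 (σ b) := hab
        rw [pr0_add, hab']
        funext j
        exact z2_add_self _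
      rcases (pr0_zero_iff h0).1 h1 with h2 | h2
      · exact (hσ a b hne).1 h2
      · exact (hσ a b hne).2 h2
    obtain ⟨h1, h2⟩ := dec (c := fun a => pr0 c0 j0 (σ a))
      (P := fun a j e => P a j e + c0 j * P a j0 e) (m := m) hinj hU hc' (c0 := 0)
      (fun l hlU => by
        rw [cP_pr0]
        exact (pr0_zero_iff h0).2 (hl' l hlU))
    have hMx : ∀ a, Mx2 (pj U a) := fun a => ⟨(h2 a).1, (h2 a).2, mem_pj.2 ⟨0, hz, rfl⟩⟩
    refine ⟨pj U, fun a => ⟨hMx a, fun e => ?_⟩, h1⟩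
    rw [(hMx a).mem_iff]
    intro x hx
    have h3 : Function.update (0 : LabP k) a x ∈ U := by
      rw [h1, Fintype.mem_piFinset]
      intro b
      by_cases hb : b = a
      · subst hb
        rw [Function.update_self]
        exact hx
      · rw [Function.update_of_ne hb]
        exact (hMx b).zero
    have h4 : ∀ j, cP σ P m (Function.update (0 : LabP k) a x) j =
        ∑ e, P a j e * B2 x (m a e) := by
      intro j
      rw [cP, sum_eq_single a]
      · rw [Function.update_self, cE, (hMx a).unl.Q (hMx a).zero hx, mul_zero, zero_add]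
      · intro b _ hb
        rw [Function.update_of_ne hb]
        exact cE_zero _ _ _ _
      · exact fun h => absurd (mem_univ _) h
    have h5 : (fun e => B2 x (m a e)) = 0 := by
      rcases hl' _ h3 with h6 | h6
      · refine hP a _ 0 fun j => ?_
        rw [← h4, h6, zero_mul]
        rfl
      · refine hP a _ 1 fun j => ?_
        rw [← h4, h6, one_mul]
    rw [B2_comm]
    exact congrFun h5 e
  · rintro ⟨V, hV, rfl⟩
    refine ⟨⟨?_, ?_⟩, ?_, ?_⟩
    · intro l hl l' hl'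
      rw [Fintype.mem_piFinset] at hl hl'
      exact sum_eq_zero fun a _ => (hV a).1.unl _ (hl a) _ (hl' a)
    · show (Fintype.piFinset V).card = ∏ a, 2 ^ k a
      rw [Fintype.card_piFinset]
      exact prod_congr rfl fun a _ => (hV a).1.card
    · rw [Fintype.mem_piFinset]
      exact fun a => (hV a).1.zero
    · intro l hl
      rw [Fintype.mem_piFinset] at hl
      refine Or.inl ⟨?_, fun p hp => absurd hp (notMem_empty p)⟩
      show cP σ P m l = 0
      funext j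
      refine sum_eq_zero fun a _ => ?_
      rw [cE, (hV a).1.unl.Q (hV a).1.zero (hl a), mul_zero, zero_add]
      exact sum_eq_zero fun e _ => by
        rw [(hV a).1.unl.B (hV a).1.zero (hl a) ((hV a).2 e), mul_zero]

theorem card_MsL {c0 : κ → ZMod 2} {j0 : κ} (h0 : c0 j0 = 1) {σ : A → κ → ZMod 2}
    (hσ : ∀ a b, a ≠ b → σ a + σ b ≠ 0 ∧ σ a + σ b ≠ c0) {P : ∀ a, κ → E a → ZMod 2}
    (hP : ∀ (a : A) (x : E a → ZMod 2) (t : ZMod 2), (∀ j, ∑ e, P a j e * x e = t * c0 j) →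
      x = 0) (m : ∀ a, E a → Lab2 (k a)) :
    (MsL (LSP ι k σ P m) 0 ∅ c0).card = ∏ a, (Nat.card {V : Finset (Lab2 (k a)) //
      Mx2 V ∧ ∀ e, m a e ∈ V}) := by
  classical
  have h1 : MsL (LSP ι k σ P m) 0 ∅ c0 =
      (Fintype.piFinset fun a => (Lgs2 (k a)).filter fun V => ∀ e, m a e ∈ V).image
        fun V => Fintype.piFinset V := by
    ext U
    rw [mem_MsL_iff h0 hσ hP, mem_image]
    constructor
    · rintro ⟨V, hV, rfl⟩
      exact ⟨V, Fintype.mem_piFinset.2 fun a => mem_filter.2 ⟨mem_Lgs2.2 (hV a).1, (hV a).2⟩, rfl⟩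
    · rintro ⟨V, hV, rfl⟩
      refine ⟨V, fun a => ?_, rfl⟩
      have h2 := mem_filter.1 (Fintype.mem_piFinset.1 hV a)
      exact ⟨mem_Lgs2.1 h2.1, h2.2⟩
  have hrec : ∀ V : ∀ a, Finset (Lab2 (k a)), (∀ a, Mx2 (V a)) → ∀ a,
      (Fintype.piFinset V).image (fun f => f a) = V a := by
    intro V hV a
    ext x
    rw [mem_image]
    constructor
    · rintro ⟨f, hf, rfl⟩
      exact Fintype.mem_piFinset.1 hf a
    · intro hx
      refine ⟨Function.update (fun b => (0 : Lab2 (k b))) a x,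
        Fintype.mem_piFinset.2 fun b => ?_, Function.update_self ..⟩
      by_cases hb : b = a
      · subst hb
        rw [Function.update_self]
        exact hx
      · rw [Function.update_of_ne hb]
        exact (hV b).zero
  rw [h1, card_image_of_injOn, Fintype.card_piFinset]
  · refine prod_congr rfl fun a _ => ?_
    rw [Nat.card_eq_fintype_card, Fintype.card_subtype]
    congr 1
    ext V
    rw [mem_filter, mem_filter, mem_Lgs2]
    exact ⟨fun h => ⟨mem_univ _, h⟩, fun h => h.2⟩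
  · intro V hV V' hV' hVV
    have hM : ∀ V : ∀ a, Finset (Lab2 (k a)),
        V ∈ (Fintype.piFinset fun a => (Lgs2 (k a)).filter fun V => ∀ e, m a e ∈ V) →
        ∀ a, Mx2 (V a) := fun V hV a =>
      mem_Lgs2.1 (mem_filter.1 (Fintype.mem_piFinset.1 hV a)).1
    funext a
    rw [← hrec V (hM V (mem_coe.1 hV)) a, ← hrec V' (hM V' (mem_coe.1 hV')) a]
    exact congrArg (fun s : Finset (LabP k) => s.image fun f => f a) hVV

/-- The main term. -/
def TJ (ι : Type) [DecidableEq ι] (k : A → ℕ) (c0 : κ → ZMod 2) (σ : A → κ → ZMod 2)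
    (P : ∀ a, κ → E a → ZMod 2) (R : ∀ a, Matrix (E a) (E a) (ZMod 2)) : ℂ :=
  ∑ m : (∀ a, E a → Lab2 (k a)), (∏ a, e2 (RF (R a) (m a))) *
    ((MsL (LSP ι k σ P m) 0 ∅ c0).card : ℂ)

/-- One factor of the main term. -/
theorem T_one {k : ℕ} {E : Type} [Fintype E] [DecidableEq E] {R : Matrix E E (ZMod 2)}
    (hR : ∀ e f, R e f = R f e) :
    ∑ m : E → Lab2 k, e2 (RF R m) *
      (Nat.card {V : Finset (Lab2 k) // Mx2 V ∧ ∀ e, m e ∈ V} : ℂ) =
      Nk2 k * (2 ^ k) ^ Fintype.card E := by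
  classical
  have h1 : ∀ m : E → Lab2 k, e2 (RF R m) *
      (Nat.card {V : Finset (Lab2 k) // Mx2 V ∧ ∀ e, m e ∈ V} : ℂ) =
      ∑ V ∈ Lgs2 k, if ∀ e, m e ∈ V then (1 : ℂ) else 0 := by
    intro m
    have h2 : Nat.card {V : Finset (Lab2 k) // Mx2 V ∧ ∀ e, m e ∈ V} =
        ((Lgs2 k).filter fun V => ∀ e, m e ∈ V).card := by
      rw [Nat.card_eq_fintype_card, Fintype.card_subtype]
      congr 1
      ext V
      rw [mem_filter, mem_filter, mem_Lgs2]
      exact ⟨fun h => h.2, fun h => ⟨mem_univ _, h⟩⟩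
    rw [h2, ← sum_filter, sum_const, nsmul_eq_mul, mul_one]
    by_cases hne : ((Lgs2 k).filter fun V => ∀ e, m e ∈ V).Nonempty
    · obtain ⟨V, hV⟩ := hne
      rw [mem_filter, mem_Lgs2] at hV
      rw [RF_mem hR hV.1 hV.2, e2_zero, one_mul]
    · rw [not_nonempty_iff_eq_empty] at hne
      rw [hne, card_empty, Nat.cast_zero, mul_zero]
  rw [sum_congr rfl fun m _ => h1 m, sum_comm]
  have h3 : ∀ V ∈ Lgs2 k, ∑ m : E → Lab2 k, (if ∀ e, m e ∈ V then (1 : ℂ) else 0) =
      (2 ^ k) ^ Fintype.card E := by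
    intro V hV
    have h4 := card_fun_mem (A := E) V
    rw [Nat.card_eq_fintype_card, Fintype.card_subtype, (mem_Lgs2.1 hV).card] at h4
    rw [← sum_filter, sum_const, nsmul_eq_mul, mul_one, h4]
    push_cast
    rfl
  rw [sum_congr rfl h3, sum_const, nsmul_eq_mul, card_Lgs2]

theorem TJ_eq {c0 : κ → ZMod 2} {j0 : κ} (h0 : c0 j0 = 1) {σ : A → κ → ZMod 2}
    (hσ : ∀ a b, a ≠ b → σ a + σ b ≠ 0 ∧ σ a + σ b ≠ c0) {P : ∀ a, κ → E a → ZMod 2}
    (hP : ∀ (a : A) (x : E a → ZMod 2) (t : ZMod 2), (∀ j, ∑ e, P a j e * x e = t * c0 j) →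
      x = 0) {R : ∀ a, Matrix (E a) (E a) (ZMod 2)} (hR : ∀ a e f, R a e f = R a f e) :
    TJ ι k c0 σ P R = (∏ a, (Nk2 (k a) : ℂ)) * ∏ a, ((2 : ℂ) ^ k a) ^ Fintype.card (E a) := by
  classical
  have h1 : ∀ m : (∀ a, E a → Lab2 (k a)), (∏ a, e2 (RF (R a) (m a))) *
      ((MsL (LSP ι k σ P m) 0 ∅ c0).card : ℂ) =
      ∏ a, (e2 (RF (R a) (m a)) *
        (Nat.card {V : Finset (Lab2 (k a)) // Mx2 V ∧ ∀ e, m a e ∈ V} : ℂ)) := by
    intro m
    rw [card_MsL h0 hσ hP m, Nat.cast_prod, prod_mul_distrib]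
  rw [TJ, sum_congr rfl fun m _ => h1 m, ← prod_mul_distrib]
  rw [← prod_congr rfl fun a _ => T_one (k := k a) (hR a), Finset.prod_univ_sum,
    Fintype.piFinset_univ]

end

end Pool.Agent.Lib.MP_1a91b9_ntM.E
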