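import Pool.Agent.Lib.MP_1a91b9_ntQ.M.DenW
import Pool.Agent.Lib.MP_1a91b9_ntM.DJ.Exp

/-!
# Quadratic twists of a fixed curve, part D: the joint moments, expansion

`c0` is the class vector of the activity character; the primes at which it is not trivial have the
label `0`. The family of the matrices has the borders `P a`, the corners `R a` and the diagonals
`ρ + dg (σ a)`.
-/

set_option autoImplicit false
set_option linter.unusedSectionVars false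

namespace Pool.Agent.Lib.MP_1a91b9_ntM.E

open Finset Pool.Agent.Lib.MP_1a91b9_ntH Pool.Agent.Lib.MP_1a91b9_ntQ Pool.Agent.Lib.MP_1a91b9_ntQ.Da
  Pool.Agent.Lib.MP_1a91b9_ntQ.M Pool.Agent.Lib.MP_1a91b9_ntM

noncomputable section

section Eng

variable {ι : Type} [DecidableEq ι] {κ : Type} [Fintype κ] [DecidableEq κ]

/-- The sets of labels of the main terms. -/
def MsL {L : Type} [Fintype L] [DecidableEq L] (Λ : LS2 L ι κ) (l0 : L) (F : Finset ι)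
    (c : κ → ZMod 2) : Finset (Finset L) := by
  classical exact univ.filter fun U => U ∈ Λ.Us ∧ l0 ∈ U ∧
    ∀ l ∈ U, (Λ.c l = 0 ∧ ∀ p ∈ F, Λ.t l p = 0) ∨ (Λ.c l = c ∧ ∀ p ∈ F, Λ.t l p = 1)

theorem mem_MsL {L : Type} [Fintype L] [DecidableEq L] {Λ : LS2 L ι κ} {l0 : L} {F : Finset ι}
    {c : κ → ZMod 2} {U : Finset L} : U ∈ MsL Λ l0 F c ↔ U ∈ Λ.Us ∧ l0 ∈ U ∧
      ∀ l ∈ U, (Λ.c l = 0 ∧ ∀ p ∈ F, Λ.t l p = 0) ∨ (Λ.c l = c ∧ ∀ p ∈ F, Λ.t l p = 1) := by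
  classical
  rw [MsL, mem_filter]
  exact ⟨fun h => h.2, fun h => ⟨mem_univ _, h⟩⟩

variable [PS ι]

/-- The sum of the engine. -/
def EnL {L : Type} [Fintype L] [DecidableEq L] (D : Dat2 ι κ) (c : κ → ZMod 2) (F : Finset ι)
    (Λ : LS2 L ι κ) (l0 : L) (h : L → ι → ZMod 2) (g : ι → ℂ) (X : ℕ) : ℂ :=
  ∑ B ∈ SF F X, (∏ q ∈ B, g q) * ∑ f : B → L,
    (∏ j : B, ww D F c Λ.m l0 (f j) j) * e2 (D.eS Λ B f + ∑ j : B, h (f j) j)

/-- The statement of the weighted engine, for all the types of labels. -/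
def EngL (D : Dat2 ι κ) (c : κ → ZMod 2) (F : Finset ι) : Prop :=
  ∀ (L : Type) [Fintype L] [DecidableEq L] (Λ : LS2 L ι κ) (l0 : L), Λ.OK → Λ.B = F →
    Λ.c l0 = 0 → (∀ p ∈ F, Λ.t l0 p = 0) →
    ∀ h : L → ι → ZMod 2, (∀ U ∈ Λ.Us, l0 ∈ U → ∀ l ∈ U, ∀ q, h l q = 0) →
    ∀ g : ι → ℂ, (∀ q, ‖g q‖ = 1) → ∀ ε : ℝ, 0 < ε → ∃ X₀ : ℕ, ∀ X : ℕ, X₀ ≤ X →
      ‖EnL D c F Λ l0 h g X - ((MsL Λ l0 F c).card : ℂ) * ∑ B ∈ SF F X, ∏ q ∈ B, g q‖ ≤ ε * X

end Eng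

variable {A : Type} [Fintype A] [DecidableEq A] {k : A → ℕ} {ι : Type} [DecidableEq ι]
  {κ : Type} [Fintype κ] [DecidableEq κ] {E : A → Type} [∀ a, Fintype (E a)]
  [∀ a, DecidableEq (E a)]

/-- The extension by zero of a labelling of `V`. -/
def exz {L : Type} [Zero L] (V : Finset ι) (f : V → L) (q : ι) : L :=
  if h : q ∈ V then f ⟨q, h⟩ else 0

theorem exz_coe {L : Type} [Zero L] (V : Finset ι) (f : V → L) (v : V) : exz V f v = f v := by
  rw [exz, dif_pos v.2]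

theorem exz_of_not {L : Type} [Zero L] {V : Finset ι} (f : V → L) {q : ι} (h : q ∉ V) :
    exz V f q = 0 := by
  rw [exz, dif_neg h]

/-- The sum over the labellings of `B` with the weights is a sum over the labellings of the active
primes. -/
theorem sum_labL {L : Type} [Fintype L] [DecidableEq L] [Zero L] (D : Dat2 ι κ)
    (c : κ → ZMod 2) (F B : Finset ι) (n : ℕ) (G : (B → L) → ℂ) :
    ∑ f : B → L, (∏ j : B, ww D F c n 0 (f j) j) * G f =
      ((n : ℂ)⁻¹) ^ (Va D c F B).card *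
        ∑ f : Va D c F B → L, G fun j : B => exz (Va D c F B) f j := by
  rw [mul_sum]
  symm
  refine Fintype.sum_of_injective (fun (f : Va D c F B → L) (j : B) =>
    exz (Va D c F B) f j) ?_ _ _ ?_ ?_
  · intro f f' h
    funext v
    have h1 := congrFun h ⟨v.1, Va_subset D c F B v.2⟩
    dsimp only at h1
    rwa [exz_coe, exz_coe] at h1
  · intro f hf
    have h1 : ∃ j : B, (j : ι) ∉ Va D c F B ∧ f j ≠ 0 := by
      by_contra hcon
      push Not at hcon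
      refine hf ⟨fun v => f ⟨v.1, Va_subset D c F B v.2⟩, ?_⟩
      funext j
      dsimp only
      by_cases hj : (j : ι) ∈ Va D c F B
      · rw [exz, dif_pos hj]
      · rw [exz_of_not _ hj, hcon j hj]
    obtain ⟨j, hj, hj0⟩ := h1
    have h2 : ∏ j : B, ww D F c n 0 (f j) j = 0 := by
      refine prod_eq_zero (mem_univ j) ?_
      have h3 : ¬ D.ex1 F c j = 0 := fun h => hj (mem_Va.2 ⟨j.2, h⟩)
      rw [ww, if_neg h3, if_neg hj0]
    rw [h2, zero_mul]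
  · intro f
    have h1 : ∏ j : B, ww D F c n (0 : L) (exz (Va D c F B) f j) j =
        ((n : ℂ)⁻¹) ^ (Va D c F B).card := by
      have h2 : ∏ j : B, ww D F c n (0 : L) (exz (Va D c F B) f j) j =
          ∏ q ∈ B, if D.ex1 F c q = 0 then (n : ℂ)⁻¹ else 1 := by
        rw [← prod_coe_sort B]
        refine prod_congr rfl fun j _ => ?_
        unfold ww
        by_cases hj : D.ex1 F c j = 0
        · rw [if_pos hj, if_pos hj]
        · have h3 : (j : ι) ∉ Va D c F B := fun h => hj (mem_Va.1 h).2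
          rw [if_neg hj, if_neg hj, exz_of_not _ h3, if_pos rfl]
      rw [h2, ← prod_filter, prod_const]
      rfl
    rw [h1]

/-- The diagonal of the matrix `a`. -/
def rho (D : Dat2 ι κ) (ρ : ι → ZMod 2) (σ : κ → ZMod 2) (q : ι) : ZMod 2 := ρ q + D.dg σ q

theorem RF_empty {k : ℕ} {E : Type} [Fintype E] [DecidableEq E] (D : Dat2 ι κ)
    (c : κ → ZMod 2) (P : κ → E → ZMod 2) (R : Matrix E E (ZMod 2)) (α : (∅ : Finset ι) → Lab2 k)
    (m : E → Lab2 k) : RF (D.NB c P R ∅) (Sum.elim α m) = RF R m := by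
  unfold RF Dat2.NB
  simp only [Fintype.sum_sum_type, Matrix.fromBlocks_apply₁₂, Matrix.fromBlocks_apply₂₂,
    Sum.elim_inl, Sum.elim_inr, univ_eq_empty, sum_empty, zero_add]

/-- The exponent of one matrix. -/
theorem eS_one (D : Dat2 ι κ) (ρ : ι → ZMod 2) {k : ℕ} {E : Type} [Fintype E] [DecidableEq E]
    (σ : κ → ZMod 2) (P : κ → E → ZMod 2) (α : ι → Lab2 k) (m : E → Lab2 k) (B : Finset ι)
    (f : B → Lab2 k) : D.eS (LSW k P ∅ α m) B f + ∑ j : B, Q2 (f j) * rho D ρ σ j =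
      D.eS (LSE ι k σ P m) B f + ∑ j : B, Q2 (f j) * ρ j := by
  have h1 : ∀ j : B, D.lin (LSE ι k σ P m) (f j) j =
      D.lin (LSW k P ∅ α m) (f j) j + D.dg σ j * Q2 (f j) := by
    intro j
    rw [lin_LSE, lin_LSW, sum_empty]
    ring
  unfold Dat2.eS
  simp only [h1, sum_add_distrib, rho, mul_add]
  have h2 : ∑ j : B, Q2 (f j) * D.dg σ j = ∑ j : B, D.dg σ j * Q2 (f j) :=
    sum_congr rfl fun j _ => mul_comm _ _
  rw [h2]
  have h3 : ∀ j : B, ∀ l : B, (LSE ι k σ P m).Phi (f j) (f l) =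
    (LSW k P (∅ : Finset ι) α m).Phi (f j) (f l) := fun _ _ => rfl
  simp only [h3]
  ring

/-- The power of the size of the kernel of one matrix. -/
theorem kW_pow_mul {D : Dat2 ι κ} (hs : D.Sym) (c0 : κ → ZMod 2) (ρ : ι → ZMod 2) {k : ℕ}
    {E : Type} [Fintype E] [DecidableEq E] (σ : κ → ZMod 2) (P : κ → E → ZMod 2)
    (R : Matrix E E (ZMod 2)) (B : Finset ι) :
    (kW D c0 P R (rho D ρ σ) ∅ B : ℂ) ^ k *
        (2 ^ k) ^ ((Va D c0 ∅ B).card + Fintype.card E) =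
      ∑ m : E → Lab2 k, e2 (RF R m) * ∑ f : Va D c0 ∅ B → Lab2 k,
        e2 (D.eS (LSE ι k σ P m) B (fun j : B => exz (Va D c0 ∅ B) f j) +
          ∑ j : B, Q2 (exz (Va D c0 ∅ B) f j) * ρ j) := by
  have h1 := kcd_pow k (D.NV c0 P R (Va D c0 ∅ B) (ta D (rho D ρ σ) B) ∅)
  rw [sum_lab3] at h1
  have h5 : Fintype.card ((∅ : Finset ι) ⊕ (Va D c0 ∅ B ⊕ E)) =
      (Va D c0 ∅ B).card + Fintype.card E := by
    rw [Fintype.card_sum, Fintype.card_sum, Fintype.card_coe, Fintype.card_coe, card_empty, zero_add]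
  rw [h5] at h1
  unfold kW
  rw [h1]
  rw [Fintype.sum_unique]
  refine sum_congr rfl fun m _ => ?_
  rw [mul_sum]
  refine sum_congr rfl fun f _ => ?_
  have h3 := RF_NV hs c0 P R (rho D ρ σ) (disjoint_empty_right B) (fun _ => (0 : Lab2 k))
    (exz (Va D c0 ∅ B) f) m fun b _ hb => exz_of_not f hb
  have e2' : (fun v : Va D c0 ∅ B => exz (Va D c0 ∅ B) f v) = f := funext fun v => exz_coe _ f v
  rw [e2', RF_empty, eS_one] at h3
  rw [← e2_add, ← h3]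
  congr 3
  exact Subsingleton.elim _ _

variable (c0 : κ → ZMod 2) (σ : A → κ → ZMod 2) (P : ∀ a, κ → E a → ZMod 2)
  (R : ∀ a, Matrix (E a) (E a) (ZMod 2)) (ρ : ι → ZMod 2)

/-- The product of the powers of the sizes of the kernels. -/
def kJ (D : Dat2 ι κ) (k : A → ℕ) (B : Finset ι) : ℕ :=
  ∏ a, kW D c0 (P a) (R a) (rho D ρ (σ a)) ∅ B ^ k a

theorem QP_exz (V : Finset ι) (f : V → LabP k) (q : ι) :
    QP (exz V f q) = ∑ a, Q2 (exz V (fun v => f v a) q) := by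
  unfold QP
  refine sum_congr rfl fun a _ => ?_
  congr 1
  unfold exz
  split_ifs
  · rfl
  · rfl

theorem exz_comp (V : Finset ι) (f : V → LabP k) (q : ι) (a : A) :
    exz V f q a = exz V (fun v => f v a) q := by
  unfold exz
  split_ifs
  · rfl
  · rfl

theorem kJ_mul {D : Dat2 ι κ} (hs : D.Sym) (B : Finset ι) :
    (kJ c0 σ P R ρ D k B : ℂ) * ((∏ a, (2 : ℂ) ^ k a) ^ (Va D c0 ∅ B).card *
        ∏ a, ((2 : ℂ) ^ k a) ^ Fintype.card (E a)) =
      ∑ m : (∀ a, E a → Lab2 (k a)), (∏ a, e2 (RF (R a) (m a))) *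
        ∑ f : Va D c0 ∅ B → LabP k,
          e2 (D.eS (LSP ι k σ P m) B (fun j : B => exz (Va D c0 ∅ B) f j) +
            ∑ j : B, QP (exz (Va D c0 ∅ B) f j) * ρ j) := by
  classical
  have h1 : (kJ c0 σ P R ρ D k B : ℂ) * ((∏ a, (2 : ℂ) ^ k a) ^ (Va D c0 ∅ B).card *
      ∏ a, ((2 : ℂ) ^ k a) ^ Fintype.card (E a)) =
      ∏ a, ((kW D c0 (P a) (R a) (rho D ρ (σ a)) ∅ B : ℂ) ^ k a *
        (2 ^ k a) ^ ((Va D c0 ∅ B).card + Fintype.card (E a))) := by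
    rw [kJ, Nat.cast_prod, prod_mul_distrib]
    congr 1
    · exact prod_congr rfl fun a _ => by rw [Nat.cast_pow]
    · rw [← prod_pow, ← prod_mul_distrib]
      exact prod_congr rfl fun a _ => by rw [pow_add]
  rw [h1, prod_congr rfl fun a _ => kW_pow_mul (k := k a) hs c0 ρ (σ a) (P a) (R a) B,
    Finset.prod_univ_sum, Fintype.piFinset_univ]
  refine sum_congr rfl fun m _ => ?_
  rw [prod_mul_distrib]
  congr 1
  rw [Finset.prod_univ_sum, Fintype.piFinset_univ,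
    ← Equiv.sum_comp (Equiv.piComm fun (_ : Va D c0 ∅ B) (a : A) => Lab2 (k a))]
  refine sum_congr rfl fun f _ => ?_
  rw [eS_LSP]
  have h2 : ∑ j : B, QP (exz (Va D c0 ∅ B) f j) * ρ j =
      ∑ a, ∑ j : B, Q2 (exz (Va D c0 ∅ B) (fun v => f v a) j) * ρ j := by
    rw [sum_comm]
    refine sum_congr rfl fun j _ => ?_
    rw [QP_exz, sum_mul]
  rw [h2, ← sum_add_distrib, e2_sum]
  refine prod_congr rfl fun a _ => ?_
  congr 3
  funext j
  exact (exz_comp _ f j a).symm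

variable [PS ι]

/-- The weighted mean values. -/
def MoJ (D : Dat2 ι κ) (k : A → ℕ) (g : ι → ℂ) (X : ℕ) : ℂ :=
  ∑ B ∈ SF ∅ X, (∏ q ∈ B, g q) * (kJ c0 σ P R ρ D k B : ℂ)

theorem MoJ_eq {D : Dat2 ι κ} (hs : D.Sym) (g : ι → ℂ) (X : ℕ) :
    MoJ c0 σ P R ρ D k g X * ∏ a, ((2 : ℂ) ^ k a) ^ Fintype.card (E a) =
      ∑ m : (∀ a, E a → Lab2 (k a)), (∏ a, e2 (RF (R a) (m a))) *
        EnL D c0 ∅ (LSP ι k σ P m) 0 (fun l q => QP l * ρ q) g X := by
  rw [MoJ, sum_mul]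
  have hk : (∏ a, (2 : ℂ) ^ k a) ≠ 0 := prod_ne_zero_iff.2 fun a _ => pow_ne_zero _ (by norm_num)
  have h1 : ∀ B ∈ SF (ι := ι) ∅ X, (∏ q ∈ B, g q) * (kJ c0 σ P R ρ D k B : ℂ) *
      ∏ a, ((2 : ℂ) ^ k a) ^ Fintype.card (E a) =
      ∑ m : (∀ a, E a → Lab2 (k a)), (∏ a, e2 (RF (R a) (m a))) *
        ((∏ q ∈ B, g q) * ∑ f : B → LabP k,
          (∏ j : B, ww D ∅ c0 (LSP ι k σ P m).m 0 (f j) j) *
            e2 (D.eS (LSP ι k σ P m) B f + ∑ j : B, QP (f j) * ρ j)) := by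
    intro B _
    have h3 := kJ_mul (k := k) c0 σ P R ρ hs B
    have h2 : ∀ m : (∀ a, E a → Lab2 (k a)), (((LSP ι k σ P m).m : ℕ) : ℂ) =
        ∏ a, (2 : ℂ) ^ k a := by
      intro m
      show (((∏ a, 2 ^ k a : ℕ)) : ℂ) = _
      push_cast
      rfl
    have h4 : ∀ m : (∀ a, E a → Lab2 (k a)), (∏ a, e2 (RF (R a) (m a))) *
        ((∏ q ∈ B, g q) * ∑ f : B → LabP k,
          (∏ j : B, ww D ∅ c0 (LSP ι k σ P m).m 0 (f j) j) *
            e2 (D.eS (LSP ι k σ P m) B f + ∑ j : B, QP (f j) * ρ j)) =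
        ((∏ a, (2 : ℂ) ^ k a)⁻¹) ^ (Va D c0 ∅ B).card * (∏ q ∈ B, g q) *
          ((∏ a, e2 (RF (R a) (m a))) * ∑ f : Va D c0 ∅ B → LabP k,
            e2 (D.eS (LSP ι k σ P m) B (fun j : B => exz (Va D c0 ∅ B) f j) +
              ∑ j : B, QP (exz (Va D c0 ∅ B) f j) * ρ j)) := by
      intro m
      rw [sum_labL D c0 ∅ B _ fun f => e2 (D.eS (LSP ι k σ P m) B f + ∑ j : B, QP (f j) * ρ j),
        h2 m]
      ring
    rw [sum_congr rfl fun m _ => h4 m, ← mul_sum, ← h3]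
    have h5 : ((∏ a, (2 : ℂ) ^ k a)⁻¹) ^ (Va D c0 ∅ B).card *
        (∏ a, (2 : ℂ) ^ k a) ^ (Va D c0 ∅ B).card = 1 := by
      rw [← mul_pow, inv_mul_cancel₀ hk, one_pow]
    linear_combination (-(∏ q ∈ B, g q) * (kJ c0 σ P R ρ D k B : ℂ) *
      ∏ a, ((2 : ℂ) ^ k a) ^ Fintype.card (E a)) * h5
  rw [sum_congr rfl h1, sum_comm]
  refine sum_congr rfl fun m _ => ?_
  rw [EnL, mul_sum]

end

end Pool.Agent.Lib.MP_1a91b9_ntM.E
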