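import Pool.Agent.Lib.MP_1a91b9_ntQ.B.CritB
import Pool.Agent.Lib.MP_1a91b9_ntM.R.Sqf

/-!
# Quadratic twists of `y² = x³ - D x`, part R, file Mul: the product of `D` and a square modulo fourth
powers
-/

set_option autoImplicit false

namespace Pool.Agent.Lib.MP_1a91b9_ntM.E

open NumberField Finset Pool.Agent.Lib.MP_1a91b9_ntQ
open Den4 (ph)

noncomputable section

/-- twice an exponent -/
def dj (j : Fin 2) : Fin 4 := ![0, 2] j

/-- the primes of exponent one of the product -/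
def sE (S T Y : Finset Pg) : Finset Pg := (S \ Y) ∪ (T ∩ Y)

/-- the primes of exponent two of the product -/
def bE (S T B Y : Finset Pg) : Finset Pg := symmDiff B Y \ (S ∪ T)

theorem mem_sE {S T Y : Finset Pg} {q : Pg} : q ∈ sE S T Y ↔ (q ∈ S ∧ q ∉ Y) ∨ (q ∈ T ∧ q ∈ Y) := by
  rw [sE, mem_union, mem_sdiff, mem_inter]

theorem mem_bE {S T B Y : Finset Pg} {q : Pg} : q ∈ bE S T B Y ↔
    ((q ∈ B ∧ q ∉ Y) ∨ (q ∈ Y ∧ q ∉ B)) ∧ q ∉ S ∧ q ∉ T := by
  rw [bE, mem_sdiff, mem_symmDiff, mem_union, not_or]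

theorem sE_union (S T Y : Finset Pg) : sE S T Y ∪ sE T S Y = S ∪ T := by
  ext q
  simp only [mem_union, mem_sE]
  tauto

theorem dj_E {S T B : Finset Pg} (h : Dj S T B) (Y : Finset Pg) :
    Dj (sE S T Y) (sE T S Y) (bE S T B Y) := by
  have h1 := h.st
  rw [disjoint_left] at h1
  refine ⟨?_, ?_, ?_⟩
  · rw [disjoint_left]
    intro q hq hq'
    rw [mem_sE] at hq hq'
    have := @h1 q
    tauto
  · rw [disjoint_left]
    intro q hq hq'
    rw [mem_sE] at hq
    rw [mem_bE] at hq'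
    tauto
  · rw [disjoint_left]
    intro q hq hq'
    rw [mem_sE] at hq
    rw [mem_bE] at hq'
    tauto

theorem iO_sq_val (k k' : ZMod 4) :
    iO ^ k.val * (iO ^ k'.val) ^ 2 = iO ^ (k + 2 * k').val := by
  have e : k + 2 * k' = k + (k' + k') := by ring
  rw [e, ← pow_val_mul, ← pow_val_mul]
  ring

theorem lam_dj (j : Fin 4) (j' : Fin 2) : ∃ t : 𝓞 K4, t ≠ 0 ∧
    lam ^ j.val * (lam ^ j'.val) ^ 2 = lam ^ (j + dj j').val * t ^ 4 := by
  have h4 : ∀ j : Fin 4, j = 0 ∨ j = 1 ∨ j = 2 ∨ j = 3 := by decide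
  rcases fin2_cases j' with rfl | rfl
  · refine ⟨1, one_ne_zero, ?_⟩
    have e : ∀ j : Fin 4, j + dj 0 = j := by decide
    rw [e]
    simp
  · rcases h4 j with rfl | rfl | rfl | rfl
    · refine ⟨1, one_ne_zero, ?_⟩
      have e : ((0 : Fin 4) + dj 1).val = 2 := rfl
      rw [e]
      simp
    · refine ⟨1, one_ne_zero, ?_⟩
      have e : ((1 : Fin 4) + dj 1).val = 3 := rfl
      have e1 : (1 : Fin 4).val = 1 := rfl
      have e2 : (1 : Fin 2).val = 1 := rfl
      rw [e, e1, e2]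
      ring
    · refine ⟨lam, lam_ne_zero, ?_⟩
      have e : ((2 : Fin 4) + dj 1).val = 0 := rfl
      have e1 : (2 : Fin 4).val = 2 := rfl
      have e2 : (1 : Fin 2).val = 1 := rfl
      rw [e, e1, e2]
      ring
    · refine ⟨lam, lam_ne_zero, ?_⟩
      have e : ((3 : Fin 4) + dj 1).val = 1 := rfl
      have e1 : (3 : Fin 4).val = 3 := rfl
      have e2 : (1 : Fin 2).val = 1 := rfl
      rw [e, e1, e2]
      ring

theorem DDq_split (S Y : Finset Pg) : DDq S = DDq (S \ Y) * DDq (S ∩ Y) := by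
  rw [← DDq_union (disjoint_sdiff_inter S Y), sdiff_union_inter]

theorem cB_mul {S T B : Finset Pg} (h : Dj S T B) (Y : Finset Pg) :
    cB S T B * DDq Y ^ 2 = cB (sE S T Y) (sE T S Y) (bE S T B Y) *
      (DDq (T ∩ Y) * DDq (B ∩ Y)) ^ 4 := by
  have hY : Y = (S ∩ Y) ∪ ((T ∩ Y) ∪ ((B ∩ Y) ∪ (Y \ (S ∪ T ∪ B)))) := by
    ext q
    simp only [mem_union, mem_inter, mem_sdiff]
    tauto
  have hst := h.st
  have hsb := h.sb
  have htb := h.tb
  rw [disjoint_left] at hst hsb htb
  have e1 : DDq Y = DDq (S ∩ Y) * (DDq (T ∩ Y) * (DDq (B ∩ Y) * DDq (Y \ (S ∪ T ∪ B)))) := by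
    have d1 : Disjoint (B ∩ Y) (Y \ (S ∪ T ∪ B)) := by
      rw [disjoint_left]
      intro q
      simp only [mem_union, mem_inter, mem_sdiff]
      tauto
    have d2 : Disjoint (T ∩ Y) ((B ∩ Y) ∪ (Y \ (S ∪ T ∪ B))) := by
      rw [disjoint_left]
      intro q
      simp only [mem_union, mem_inter, mem_sdiff]
      have := @htb q
      tauto
    have d3 : Disjoint (S ∩ Y) ((T ∩ Y) ∪ ((B ∩ Y) ∪ (Y \ (S ∪ T ∪ B)))) := by
      rw [disjoint_left]
      intro q
      simp only [mem_union, mem_inter, mem_sdiff]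
      have := @hst q
      have := @hsb q
      tauto
    rw [← DDq_union d1, ← DDq_union d2, ← DDq_union d3, ← hY]
  have e2 : DDq (sE S T Y) = DDq (S \ Y) * DDq (T ∩ Y) := by
    rw [sE, DDq_union]
    rw [disjoint_left]
    intro q
    simp only [mem_inter, mem_sdiff]
    tauto
  have e3 : DDq (sE T S Y) = DDq (T \ Y) * DDq (S ∩ Y) := by
    rw [sE, DDq_union]
    rw [disjoint_left]
    intro q
    simp only [mem_inter, mem_sdiff]
    tauto
  have e4 : DDq (bE S T B Y) = DDq (B \ Y) * DDq (Y \ (S ∪ T ∪ B)) := by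
    have e5 : bE S T B Y = (B \ Y) ∪ (Y \ (S ∪ T ∪ B)) := by
      ext q
      rw [mem_bE]
      simp only [mem_union, mem_sdiff]
      have := @hsb q
      have := @htb q
      tauto
    rw [e5, DDq_union]
    rw [disjoint_left]
    intro q
    simp only [mem_union, mem_sdiff]
    tauto
  unfold cB
  rw [e1, e2, e3, e4, DDq_split S Y, DDq_split T Y, DDq_split B Y]
  ring

/-- **The product of `D` and the square of a squarefree element.** -/
theorem dB_mul_sq {k : ZMod 4} {j : Fin 4} {S T B : Finset Pg} (h : Dj S T B) (k' : ZMod 4)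
    (j' : Fin 2) (Y : Finset Pg) : ∃ t : 𝓞 K4, t ≠ 0 ∧
      dB k j S T B * ph k' j' (DDq Y) ^ 2 =
        dB (k + 2 * k') (j + dj j') (sE S T Y) (sE T S Y) (bE S T B Y) * t ^ 4 := by
  obtain ⟨t, ht, h1⟩ := lam_dj j j'
  refine ⟨t * (DDq (T ∩ Y) * DDq (B ∩ Y)), mul_ne_zero ht (mul_ne_zero (DDq_in4 _).ne_zero
    (DDq_in4 _).ne_zero), ?_⟩
  have h2 := iO_sq_val k k'
  have h3 := cB_mul h Y
  unfold dB Den4.ph
  calc iO ^ k.val * lam ^ j.val * cB S T B * (iO ^ k'.val * lam ^ j'.val * DDq Y) ^ 2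
      = (iO ^ k.val * (iO ^ k'.val) ^ 2) * (lam ^ j.val * (lam ^ j'.val) ^ 2) *
        (cB S T B * DDq Y ^ 2) := by ring
    _ = _ := by
      rw [h1, h2, h3]
      ring

/-- the set of primes outside `P` passes through the product -/
theorem sE_out {S T P S' Y : Finset Pg} (hS : S ⊆ P) (hT : T ⊆ P) (hS' : Disjoint S' P) :
    sE S T (S' ∪ Y) = sE S T Y := by
  rw [disjoint_left] at hS'
  ext q
  simp only [mem_sE, mem_union]
  have h1 := @hS' q
  have h2 := @hS q
  have h3 := @hT q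
  tauto

theorem bE_out {S T B P S' Y : Finset Pg} (hS : S ⊆ P) (hT : T ⊆ P) (hB : B ⊆ P)
    (hS' : Disjoint S' P) : bE S T B (S' ∪ Y) = bE S T B Y ∪ S' := by
  rw [disjoint_left] at hS'
  ext q
  simp only [mem_bE, mem_union]
  have h1 := @hS' q
  have h2 := @hS q
  have h3 := @hT q
  have h4 := @hB q
  tauto

theorem sE_sub {S T P Y : Finset Pg} (hS : S ⊆ P) (hT : T ⊆ P) : sE S T Y ⊆ P := by
  intro q hq
  rw [mem_sE] at hq
  rcases hq with hq | hq
  · exact hS hq.1
  · exact hT hq.1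

theorem bE_sub {S T B P Y : Finset Pg} (hB : B ⊆ P) (hY : Y ⊆ P) : bE S T B Y ⊆ P := by
  intro q hq
  rw [mem_bE] at hq
  rcases hq.1 with hq | hq
  · exact hB hq.1
  · exact hY hq.1

/-- `Y` is determined by the product -/
theorem E_inj {S T B Y Y' : Finset Pg} (h : Dj S T B) (h1 : sE S T Y = sE S T Y')
    (h2 : sE T S Y = sE T S Y') (h3 : bE S T B Y = bE S T B Y') : Y = Y' := by
  have hst := h.st
  rw [disjoint_left] at hst
  ext q
  have e1 : q ∈ sE S T Y ↔ q ∈ sE S T Y' := by rw [h1]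
  have e2 : q ∈ sE T S Y ↔ q ∈ sE T S Y' := by rw [h2]
  have e3 : q ∈ bE S T B Y ↔ q ∈ bE S T B Y' := by rw [h3]
  rw [mem_sE, mem_sE] at e1 e2
  rw [mem_bE, mem_bE] at e3
  by_cases hS : q ∈ S
  · have hT := hst hS
    simp only [hS, hT, true_and, false_and, false_or, or_false] at e2
    exact e2
  · by_cases hT : q ∈ T
    · simp only [hS, hT, true_and, false_and, false_or, or_false] at e1
      exact e1
    · by_cases hB : q ∈ B
      · simp only [hS, hT, hB, true_and, and_true, not_true, not_false_iff, and_false,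
          or_false] at e3
        exact not_iff_not.1 e3
      · simp only [hS, hT, hB, and_true, not_false_iff, false_and, false_or] at e3
        exact e3

/-- the two products are exchanged -/
theorem E_swap {S T B Y Y' : Finset Pg} (h : Dj S T B) (h1 : sE S T Y = sE T S Y')
    (h3 : bE S T B Y = bE S T B Y') : symmDiff Y Y' = S ∪ T := by
  have hst := h.st
  rw [disjoint_left] at hst
  ext q
  have e1 : q ∈ sE S T Y ↔ q ∈ sE T S Y' := by rw [h1]
  have e3 : q ∈ bE S T B Y ↔ q ∈ bE S T B Y' := by rw [h3]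
  rw [mem_sE, mem_sE] at e1
  rw [mem_bE, mem_bE] at e3
  rw [mem_symmDiff, mem_union]
  by_cases hS : q ∈ S
  · have hT := hst hS
    simp only [hS, hT, true_and, false_and, false_or, or_false] at e1 ⊢
    by_cases hY : q ∈ Y
    · by_cases hY' : q ∈ Y'
      · exact absurd hY (e1.2 hY')
      · exact iff_of_true (Or.inl ⟨hY, hY'⟩) trivial
    · exact iff_of_true (Or.inr ⟨e1.1 hY, hY⟩) trivial
  · by_cases hT : q ∈ T
    · simp only [hS, hT, true_and, false_and, false_or, or_false] at e1 ⊢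
      by_cases hY : q ∈ Y
      · exact iff_of_true (Or.inl ⟨hY, e1.1 hY⟩) trivial
      · by_cases hY' : q ∈ Y'
        · exact iff_of_true (Or.inr ⟨hY', hY⟩) trivial
        · exact absurd (e1.2 hY') hY
    · have e4 : q ∈ Y ↔ q ∈ Y' := by
        by_cases hB : q ∈ B
        · simp only [hS, hT, hB, true_and, and_true, not_true, not_false_iff, and_false,
            or_false] at e3
          exact not_iff_not.1 e3
        · simp only [hS, hT, hB, and_true, not_false_iff, false_and, false_or] at e3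
          exact e3
      simp only [hS, hT, e4, or_false]
      exact iff_of_false (fun h => h.elim (fun h => h.2 h.1) fun h => h.2 h.1) not_false

end

end Pool.Agent.Lib.MP_1a91b9_ntM.E
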