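import Pool.Agent.Lib.MP_1a91b9_ntM.E.XTr
import Pool.Agent.Lib.MP_1a91b9_ntQ.M.GdC

/-!
# Quadratic twists over the abelian extensions of exponent dividing `4`, part D: the translation of the
criteria for the elements which are not squares

`trX1`: the criterion for `x` in a class is the nonsingularity of a matrix with a border which is
independent modulo the activity character. `trX2`: the criteria for `x` and for `x.inv`: the matrices
are equal, or differ by `1` at one place of the diagonal of the corner, or one of them is the minor of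
the other one without one place of the border.
-/

set_option autoImplicit false
set_option linter.unusedSectionVars false

namespace Pool.Agent.Lib.MP_1a91b9_ntM.E

open Finset NumberField Pool.Agent.Lib.MP_1a91b9_ntH Pool.Agent.Lib.MP_1a91b9_ntQ
  Pool.Agent.Lib.MP_1a91b9_ntQ.Da Pool.Agent.Lib.MP_1a91b9_ntQ.M Pool.Agent.Lib.MP_1a91b9_ntM

noncomputable section

/-- The size of the kernel of the matrix of `x` with the border `Pm` and the corner `R`. -/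
def KX (P : Finset Pg) (x : DD8) {E : Type} [Fintype E] [DecidableEq E]
    (Pm : Fin 2 ⊕ P → E → ZMod 2) (R : Matrix E E (ZMod 2)) (X : Finset (Off P)) : ℕ :=
  kW (d4.off P) (cX P x) Pm R (rho (d4.off P) (ρX P (cX P x)) (sX P x)) ∅ X

/-- The criterion for `x` and `X`. -/
def GX (x : DD8) (X : Finset Pg) : Prop := GdB x.k x.j x.S x.T (x.B ∪ X)

/-- **The translation for the elements which are not squares**: one element. -/
def TrX1 : Prop := ∃ m0 : ℕ, ∀ m : ℕ, m0 ≤ m → ∀ (x : DD8) (P : Finset Pg), Dj x.S x.T x.B →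
  (x.S ⊆ P ∧ x.T ⊆ P ∧ x.B ⊆ P) → ¬ x.Sq → ∀ g : GB m P,
  ∃ (E : Type) (_ : Fintype E) (_ : DecidableEq E) (Pm : Fin 2 ⊕ P → E → ZMod 2)
    (R : Matrix E E (ZMod 2)),
    (∀ (y : E → ZMod 2) (t : ZMod 2), (∀ j, ∑ e, Pm j e * y e = t * cX P x j) → y = 0) ∧
    (∀ e f, R e f = R f e) ∧
    ∀ X : Finset (Off P), ∑ q ∈ X, (CclB m P).cl q = g → (KX P x Pm R X = 1 ↔ GX x (up X))

/-- **The translation for the elements which are not squares**: an element and its inverse. -/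
def TrX2 : Prop := ∃ m0 : ℕ, ∀ m : ℕ, m0 ≤ m → ∀ (x : DD8) (P : Finset Pg), Dj x.S x.T x.B →
  (x.S ⊆ P ∧ x.T ⊆ P ∧ x.B ⊆ P) → ¬ x.Sq → ∀ g : GB m P,
  ∃ (E : Type) (_ : Fintype E) (_ : DecidableEq E) (Pm : Fin 2 ⊕ P → E → ZMod 2)
    (R : Matrix E E (ZMod 2)),
    (∀ (y : E → ZMod 2) (t : ZMod 2), (∀ j, ∑ e, Pm j e * y e = t * cX P x j) → y = 0) ∧
    (∀ e f, R e f = R f e) ∧
    ((∀ X : Finset (Off P), ∑ q ∈ X, (CclB m P).cl q = g → KX P x Pm R X = 1 →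
      GX x (up X) ∧ GX x.inv (up X)) ∨
    (∃ z, ∀ X : Finset (Off P), ∑ q ∈ X, (CclB m P).cl q = g → KX P x Pm R X = 1 →
      KX P x Pm (R + Matrix.single z z 1) X = 1 → GX x (up X) ∧ GX x.inv (up X)) ∨
    ∃ z, ∀ X : Finset (Off P), ∑ q ∈ X, (CclB m P).cl q = g → KX P x Pm R X = 1 →
      KX P x (fun j (e : {e : E // e ≠ z}) => Pm j e.1) (R.submatrix Subtype.val Subtype.val) X =
        1 → GX x (up X) ∧ GX x.inv (up X))

/-! ### The symbols -/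

theorem c4_dB0 {k : ZMod 4} {j : Fin 4} {S T : Finset Pg} {b : Pg} (hb : b ∉ S ∪ T) :
    c4 b (dB k j S T ∅) = k * nn b.1 + (j.val : ZMod 4) * c4 b lam +
      (∑ p ∈ S, c4 b p.1 + 3 * ∑ p ∈ T, c4 b p.1) := by
  have hS : b ∉ S := fun h => hb (mem_union_left _ h)
  have hT : b ∉ T := fun h => hb (mem_union_right _ h)
  have n1 : ¬ b.1 ∣ iO := fun h => nd_iO_pow b 1 (by rwa [pow_one])
  have n2 : ¬ b.1 ∣ iO ^ k.val := nd_iO_pow b _
  have n3 : ¬ b.1 ∣ lam ^ j.val := fun h => nd_lamP b (b.prime.dvd_of_dvd_pow h)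
  have n4 : ¬ b.1 ∣ DDq S := fun h => hS (dvd_DDq.1 h)
  have n5 : ¬ b.1 ∣ DDq T := fun h => hT (dvd_DDq.1 h)
  have n6 : ¬ b.1 ∣ DDq T ^ 3 := fun h => n5 (b.prime.dvd_of_dvd_pow h)
  have n7 : ¬ b.1 ∣ iO ^ k.val * lam ^ j.val := fun h => (b.prime.dvd_or_dvd h).elim n2 n3
  have n8 : ¬ b.1 ∣ DDq S * DDq T ^ 3 := fun h => (b.prime.dvd_or_dvd h).elim n4 n6
  have e : dB k j S T ∅ = (iO ^ k.val * lam ^ j.val) * (DDq S * DDq T ^ 3) := by
    unfold dB cB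
    rw [DDq_empty, one_pow, mul_one]
  have hk : ((k.val : ℕ) : ZMod 4) = k := ZMod.natCast_zmod_val k
  rw [e, c4_mul b n7 n8, c4_mul b n2 n3, c4_mul b n4 n6, c4_pow b n1, c4_pow b (nd_lamP b),
    c4_pow b n5, c4_i, c4_DDq b hS, c4_DDq b hT, hk]
  norm_num

/-- The half of the symbol of the fixed part of `x.inv`. -/
theorem rh0_inv {k : ZMod 4} {j : Fin 4} {S T : Finset Pg} {b : Pg} (hb : b ∉ S ∪ T) :
    rh0 (-k) (-j) T S b = rh0 k j S T b := by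
  have hb' : b ∉ T ∪ S := by rwa [union_comm]
  have h1 : c4 b (dB (-k) (-j) T S ∅) = -c4 b (dB k j S T ∅) := by
    rw [c4_dB0 hb, c4_dB0 hb']
    have h2 : ∀ j : Fin 4, (((-j).val : ℕ) : ZMod 4) = -(j.val : ZMod 4) := by decide
    have h4 : (4 : ZMod 4) = 0 := rfl
    rw [h2]
    linear_combination (∑ p ∈ S, c4 b p.1 + ∑ p ∈ T, c4 b p.1) * h4
  have h3 : ∀ x : ZMod 4, hf4 (-x) = hf4 x := by decide
  unfold rh0
  rw [h1, h3]

theorem kvB_neg (k : ZMod 4) (j : Fin 4) : kvB (-k) (-j) = kvB k j := by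
  have h1 : ∀ k : ZMod 4, (ZMod.castHom (show 2 ∣ 4 by norm_num) (ZMod 2)) (-k) =
      (ZMod.castHom (show 2 ∣ 4 by norm_num) (ZMod 2)) k := by decide
  have h2 : ∀ j : Fin 4, (((-j).val : ℕ) : ZMod 2) = (j.val : ZMod 2) := by decide
  unfold kvB
  rw [h2]
  congr 1
  exact h1 k

section

variable {P : Finset Pg} {x : DD8}

theorem cX_eq (P : Finset Pg) (x : DD8) : cX P x = c0v P (x.S ∪ x.T) (kvB x.k x.j) := rfl

theorem cX_ne (hS : x.S ⊆ P) (hT : x.T ⊆ P) (hx : ¬ x.Sq) : cX P x ≠ 0 := by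
  intro h
  refine hx ⟨congrFun h (Sum.inl 0), congrFun h (Sum.inl 1), ?_⟩
  rw [eq_empty_iff_forall_notMem]
  intro q hq
  have h1 : (if q ∈ x.S ∪ x.T then (1 : ZMod 2) else 0) = 0 :=
    congrFun h (Sum.inr ⟨q, union_subset hS hT hq⟩)
  rw [if_pos hq] at h1
  exact one_ne_zero h1

theorem pX_eq (hS : x.S ⊆ P) (hT : x.T ⊆ P) : pX P (cX P x) = x.S ∪ x.T := by
  ext q
  unfold pX
  rw [mem_map]
  constructor
  · rintro ⟨p, hp, rfl⟩
    have h1 : (if p.1 ∈ x.S ∪ x.T then (1 : ZMod 2) else 0) = 1 := (mem_filter.1 hp).2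
    by_contra h2
    rw [if_neg (by exact h2)] at h1
    exact absurd h1 (by decide)
  · intro hq
    refine ⟨⟨q, union_subset hS hT hq⟩, mem_filter.2 ⟨mem_univ _, ?_⟩, rfl⟩
    show (if q ∈ x.S ∪ x.T then (1 : ZMod 2) else 0) = 1
    rw [if_pos hq]

/-- **The diagonals.** -/
theorem rhC_eq (hd : Dj x.S x.T x.B) (hS : x.S ⊆ P) (hT : x.T ⊆ P) (hB : x.B ⊆ P)
    (hx : ¬ x.Sq) {X : Finset (Off P)} {q : Off P}
    (hq : q ∈ Va (d4.off P) (cX P x) ∅ X) :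
    rhC x.k x.j x.S x.T x.B q = rho (d4.off P) (ρX P (cX P x)) (sX P x) q := by
  have hST := union_subset hS hT
  have hqF : q.1 ∉ x.S ∪ x.T := fun h => q.2 (hST h)
  have h1 := (mem_Va.1 hq).2
  rw [cX_eq, ex1_c0v d4 hST, ex1_kvB, ← md_dB0 hd.st hqF] at h1
  have hr : rX P (cX P x) = dB (if md x.k = 1 then 1 else 0)
      (if ((x.j.val : ℕ) : ZMod 2) = 1 then 1 else 0) (x.S ∪ x.T) ∅ ∅ := by
    unfold rX
    rw [pX_eq hS hT]
    rfl
  have k1 : ∀ k : ZMod 4, k = (if (ZMod.castHom (show 2 ∣ 4 by norm_num) (ZMod 2)) k = 1 then 1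
      else 0) + 2 * (if 2 ≤ k.val then 1 else 0) := by decide
  have j1 : ∀ j : Fin 4, (j.val : ZMod 4) = (((if ((j.val : ℕ) : ZMod 2) = 1 then (1 : Fin 4)
      else 0).val : ℕ) : ZMod 4) + 2 * (if 2 ≤ j.val then 1 else 0) := by decide
  have h2 : c4 q.1 (dB x.k x.j x.S x.T ∅) = c4 q.1 (rX P (cX P x)) +
      2 * ((if 2 ≤ x.k.val then 1 else 0) * nn q.1.1 +
        (if 2 ≤ x.j.val then 1 else 0) * c4 q.1 lam + ∑ p ∈ x.T, c4 q.1 p.1) := by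
    rw [hr, c4_dB0 hqF, c4_dB0 (by rwa [union_empty]), sum_union hd.st, sum_empty]
    have k2 := k1 x.k
    have j2 := j1 x.j
    have k3 : x.k * nn q.1.1 = ((if md x.k = 1 then 1 else 0) +
        2 * (if 2 ≤ x.k.val then 1 else 0)) * nn q.1.1 := congrArg (· * nn q.1.1) k2
    rw [k3, j2]
    ring
  have h3 : md (c4 q.1 (rX P (cX P x))) = 0 := by
    rw [h2, map_add, map_mul] at h1
    have h4 : md 2 = 0 := rfl
    rw [h4, zero_mul, add_zero] at h1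
    exact h1
  have h5 : md ((if 2 ≤ x.k.val then 1 else 0) * nn q.1.1 +
      (if 2 ≤ x.j.val then 1 else 0) * c4 q.1 lam + ∑ p ∈ x.T, c4 q.1 p.1) =
      hk x.k * aa q.1.1 + hj x.j * bb q.1.1 + ∑ p ∈ x.T, s4 q.1 p := by
    have h6 : md (c4 q.1 lam) = bb q.1.1 := c2_lam q.1
    have h7 : ∀ p : Prop, ∀ [Decidable p], md (if p then (1 : ZMod 4) else 0) =
        if p then 1 else 0 := by
      intro p _
      split_ifs
      · exact map_one md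
      · exact map_zero md
    rw [map_add, map_add, map_mul, map_mul, map_sum, h6, h7, h7]
    rfl
  have h8 : (d4.off P).dg (sX P x) q = hk x.k * aa q.1.1 + hj x.j * bb q.1.1 +
      (∑ p ∈ x.T, s4 q.1 p + ∑ p ∈ x.B, s4 q.1 p) := by
    unfold sX
    rw [dg_off d4 (union_subset hT hB), sum_union hd.tb]
    unfold Dat2.dg
    rw [Fin.sum_univ_two]
    rfl
  unfold rhC rh0 rho ρX
  rw [if_neg (cX_ne hS hT hx), h2, hf4_add _ _ h3, h5, h8]
  ring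

theorem KX_eq (hd : Dj x.S x.T x.B) (hS : x.S ⊆ P) (hT : x.T ⊆ P) (hB : x.B ⊆ P)
    (hx : ¬ x.Sq) {E : Type} [Fintype E] [DecidableEq E] (Pm : Fin 2 ⊕ P → E → ZMod 2)
    (R : Matrix E E (ZMod 2)) (X : Finset (Off P)) :
    KX P x Pm R X = kW (d4.off P) (c0v P (x.S ∪ x.T) (kvB x.k x.j)) Pm R
      (rhC x.k x.j x.S x.T x.B) ∅ X := by
  unfold KX
  rw [kW_congr (d4.off P) (cX P x) Pm R ∅ X fun q hq => (rhC_eq hd hS hT hB hx hq).symm]
  rfl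

end

theorem ns_of {x : DD8} (hx : ¬ x.Sq) : kvB x.k x.j ≠ 0 ∨ (x.S ∪ x.T).Nonempty := by
  by_contra h
  push Not at h
  exact hx ⟨congrFun h.1 0, congrFun h.1 1, h.2⟩

/-- **The translation of the criterion.** -/
theorem trX1 : TrX1 := by
  refine ⟨2, fun m hm x P hd hsub hx g => ?_⟩
  obtain ⟨hS, hT, hB⟩ := hsub
  obtain ⟨n, Pm, R, hR, hP, h⟩ := gdC hd (ns_of hx) (union_subset hS hT) hB hm g
  refine ⟨Fin n, inferInstance, inferInstance, Pm, R, hP, hR, fun X hX => ?_⟩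
  rw [KX_eq hd hS hT hB hx]
  refine (h X ?_).symm
  rw [sum_up]
  exact hX

/-! ### The four kinds of criteria, general form -/

section

variable {k : ZMod 4} {j : Fin 4} {S T B P P0 X0 : Finset Pg} {X : Finset (Off P)}
  {c : Fin 2 → ZMod 2} {τ0 : Pg → ZMod 2} {ρ : Off P → ZMod 2}

theorem crn_congr {E Q : Type} [Fintype E] [DecidableEq E] [Fintype Q] [DecidableEq Q]
    (c : Fin 2 → ZMod 2) (P1 : Fin 2 → E → ZMod 2) (R1 : Matrix E E (ZMod 2)) (V0 : Finset Pg)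
    {τ τ' : Pg → ZMod 2} (h : ∀ v ∈ V0, τ v = τ' v) {P0 : Finset Pg} (r : Q → P0) :
    crn d4 c P1 R1 V0 τ r = crn d4 c P1 R1 V0 τ' r := by
  unfold crn
  rw [NV_congr _ _ _ _ h]

theorem det0g (hd : Dj S T B) (e : S ∪ T = P0) (hP0 : P0 ⊆ P) (hB : B ⊆ P)
    (h : ∀ b ∈ B, ∑ q ∈ up X, s4 b q = ∑ q ∈ X0, s4 b q) (hc : kvB k j = c)
    (hτ : ∀ v ∈ Va d4 c P0 B, taC k j S T B X0 v = τ0 v)
    (hρ : ∀ q ∈ Va (d4.off P) (c0v P P0 c) ∅ X, rhC k j S T B q = ρ q) :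
    DetB0 k j S T (B ∪ up X) ↔ kW (d4.off P) (c0v P P0 c)
      (brd P (Va d4 c P0 B) (id : P0 → P0) (Da.P0 (Fin 2)))
      (crn d4 c (Da.P0 (Fin 2)) Da.R0 (Va d4 c P0 B) τ0 (id : P0 → P0)) ρ ∅ X = 1 := by
  subst e
  subst hc
  rw [detC0 hd hP0 hB h, kW_congr _ _ _ _ _ _ hρ, crn_congr _ _ _ _ hτ]

theorem det1g (hd : Dj S T B) (e : S ∪ T = P0) (hP0 : P0 ⊆ P) (hB : B ⊆ P)
    (h : ∀ b ∈ B, ∑ q ∈ up X, s4 b q = ∑ q ∈ X0, s4 b q) (hc : kvB k j = c)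
    (hτ : ∀ v ∈ Va d4 c P0 B, taC k j S T B X0 v = τ0 v)
    (hρ : ∀ q ∈ Va (d4.off P) (c0v P P0 c) ∅ X, rhC k j S T B q = ρ q) (p : Fin 2 → ZMod 2)
    (y : ZMod 2) :
    DetB1 k j p y S T (B ∪ up X) ↔ kW (d4.off P) (c0v P P0 c)
      (brd P (Va d4 c P0 B) (id : P0 → P0) (PpB p))
      (crn d4 c (PpB p) (Da.R1 y) (Va d4 c P0 B) τ0 (id : P0 → P0)) ρ ∅ X = 1 := by
  subst e
  subst hc
  rw [detC1 hd hP0 hB h, kW_congr _ _ _ _ _ _ hρ, crn_congr _ _ _ _ hτ]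

variable {Q : Type} [Fintype Q] [DecidableEq Q] {p0 : P0} {r : Q → P0}

theorem ker0g (hd : Dj S T B) (e : S ∪ T = P0) (hP0 : P0 ⊆ P) (hB : B ⊆ P)
    (h : ∀ b ∈ B, ∑ q ∈ up X, s4 b q = ∑ q ∈ X0, s4 b q) (hc : kvB k j = c) (hc0 : c = 0)
    (hτ : ∀ v ∈ Va d4 c P0 B, taC k j S T B X0 v = τ0 v)
    (hρ : ∀ q ∈ Va (d4.off P) (c0v P P0 c) ∅ X, rhC k j S T B q = ρ q)
    (hr1 : Function.Injective r) (hr : ∀ p, (∃ x, r x = p) ↔ p ≠ p0) :
    KerB0 k j S T (B ∪ up X) ↔ kW (d4.off P) (c0v P P0 c)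
      (brd P (Va d4 c P0 B) r (Da.P0 (Fin 2)))
      (crn d4 c (Da.P0 (Fin 2)) Da.R0 (Va d4 c P0 B) τ0 r) ρ ∅ X = 1 := by
  subst e
  subst hc
  rw [kerC0 hd hP0 hB h hc0 hr1 hr, kW_congr _ _ _ _ _ _ hρ, crn_congr _ _ _ _ hτ]

theorem ker1g (hd : Dj S T B) (e : S ∪ T = P0) (hP0 : P0 ⊆ P) (hB : B ⊆ P)
    (h : ∀ b ∈ B, ∑ q ∈ up X, s4 b q = ∑ q ∈ X0, s4 b q) (hc : kvB k j = c) (hc0 : c = 0)
    (hτ : ∀ v ∈ Va d4 c P0 B, taC k j S T B X0 v = τ0 v)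
    (hρ : ∀ q ∈ Va (d4.off P) (c0v P P0 c) ∅ X, rhC k j S T B q = ρ q) {p : Fin 2 → ZMod 2}
    (y : ZMod 2) {B' : Finset Pg}
    (h0 : p 0 * aa (cB S T B') + p 1 * bb (cB S T B') = 0)
    (hr1 : Function.Injective r) (hr : ∀ p, (∃ x, r x = p) ↔ p ≠ p0) :
    KerB1 k j p y S T (B ∪ up X) ↔ kW (d4.off P) (c0v P P0 c)
      (brd P (Va d4 c P0 B) r (PpB p))
      (crn d4 c (PpB p) (Da.R1 y) (Va d4 c P0 B) τ0 r) ρ ∅ X = 1 := by
  subst e
  subst hc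
  rw [kerC1 hd hP0 hB h hc0 y h0 hr1 hr, kW_congr _ _ _ _ _ _ hρ, crn_congr _ _ _ _ hτ]

end

/-! ### The pencil and the minor -/

section

variable {P P0 V0 : Finset Pg} {Q : Type} [Fintype Q] [DecidableEq Q] (c : Fin 2 → ZMod 2)
  (p : Fin 2 → ZMod 2) (y : ZMod 2) (τ0 : Pg → ZMod 2) (r : Q → P0)

theorem crn_add : crn d4 c (PpB p) (Da.R1 (y + 1)) V0 τ0 r =
    crn d4 c (PpB p) (Da.R1 y) V0 τ0 r +
      Matrix.single (Sum.inr (Sum.inr ())) (Sum.inr (Sum.inr ())) 1 := by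
  ext i i'
  rw [Matrix.add_apply, Matrix.single_apply]
  rcases i with i | v | e
  · rw [if_neg (by simp), add_zero]
    rcases i' with i' | v' | e' <;> rfl
  · rw [if_neg (by simp), add_zero]
    rcases i' with i' | v' | e' <;> rfl
  · rcases i' with i' | v' | e'
    · rw [if_neg (by simp), add_zero]
      rfl
    · rw [if_neg (by simp), add_zero]
      rfl
    · rw [if_pos ⟨rfl, rfl⟩]
      rfl

/-- The border without the last place. -/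
def eqvM : {e : Q ⊕ (V0 ⊕ Unit) // e ≠ Sum.inr (Sum.inr ())} ≃ Q ⊕ (V0 ⊕ Empty) where
  toFun e := match e with
    | ⟨Sum.inl x, _⟩ => Sum.inl x
    | ⟨Sum.inr (Sum.inl v), _⟩ => Sum.inr (Sum.inl v)
    | ⟨Sum.inr (Sum.inr ()), h⟩ => absurd rfl h
  invFun e := match e with
    | Sum.inl x => ⟨Sum.inl x, by simp⟩
    | Sum.inr (Sum.inl v) => ⟨Sum.inr (Sum.inl v), by simp⟩
  left_inv e := by
    rcases e with ⟨x | v | ⟨⟩, h⟩
    · rfl
    · rfl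
    · exact absurd rfl h
  right_inv e := by
    rcases e with x | v | e
    · rfl
    · rfl
    · exact e.elim

theorem kW_minor (ρ : Off P → ZMod 2) (X : Finset (Off P)) (c' : Fin 2 ⊕ P → ZMod 2) :
    kW (d4.off P) c' (fun j (e : {e : Q ⊕ (V0 ⊕ Unit) // e ≠ Sum.inr (Sum.inr ())}) =>
        brd P V0 r (PpB p) j e.1)
      ((crn d4 c (PpB p) (Da.R1 y) V0 τ0 r).submatrix Subtype.val Subtype.val) ρ ∅ X =
    kW (d4.off P) c' (brd P V0 r (Da.P0 (Fin 2)))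
      (crn d4 c (Da.P0 (Fin 2)) Da.R0 V0 τ0 r) ρ ∅ X := by
  rw [← kW_reidx (d4.off P) c' (brd P V0 r (Da.P0 (Fin 2)))
    (crn d4 c (Da.P0 (Fin 2)) Da.R0 V0 τ0 r) ρ ∅ X (eqvM (Q := Q) (V0 := V0))]
  congr 1
  · funext j e
    rcases e with ⟨x | v | ⟨⟩, h⟩
    · rcases j with j | b <;> rfl
    · rcases j with j | b <;> rfl
    · exact absurd rfl h
  · ext e e'
    rcases e with ⟨x | v | ⟨⟩, h⟩
    · rcases e' with ⟨x' | v' | ⟨⟩, h'⟩
      · rfl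
      · rfl
      · exact absurd rfl h'
    · rcases e' with ⟨x' | v' | ⟨⟩, h'⟩
      · rfl
      · rfl
      · exact absurd rfl h'
    · exact absurd rfl h

end

end

end Pool.Agent.Lib.MP_1a91b9_ntM.E
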