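import Pool.Agent.Lib.MP_1a91b9_ntM.E.Tr1

/-!
# Quadratic twists over the abelian extensions of exponent dividing `4`, part D: the translation of the
criteria for an element, which is not a square, and its inverse
-/

set_option autoImplicit false
set_option linter.unusedSectionVars false

namespace Pool.Agent.Lib.MP_1a91b9_ntM.E

open Finset NumberField Pool.Agent.Lib.MP_1a91b9_ntH Pool.Agent.Lib.MP_1a91b9_ntQ
  Pool.Agent.Lib.MP_1a91b9_ntQ.Da Pool.Agent.Lib.MP_1a91b9_ntQ.M Pool.Agent.Lib.MP_1a91b9_ntM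

noncomputable section

theorem nn_inv (S T Y : Finset Pg) : nn (cB T S Y) = -nn (cB S T Y) := by
  have h1 : cB S T Y * cB T S Y = (DDq S * DDq T * DDq Y) * (DDq S * DDq T * DDq Y) *
      ((DDq S * DDq T * DDq Y) * (DDq S * DDq T * DDq Y)) := by
    unfold cB
    ring
  have h2 : In4 (DDq S * DDq T * DDq Y) := ((DDq_in4 S).mul (DDq_in4 T)).mul (DDq_in4 Y)
  have h3 := congrArg nn h1
  rw [nn_mul (inCB S T Y) (inCB T S Y), nn_mul (h2.mul h2) (h2.mul h2), nn_mul h2 h2] at h3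
  have h4 : ∀ x : ZMod 4, x + x + (x + x) = 0 := by decide
  rw [h4] at h3
  linear_combination h3

theorem hf4_nn_inv (S T Y : Finset Pg) : hf4 (nn (cB T S Y)) = hf4 (nn (cB S T Y)) := by
  have h : ∀ x : ZMod 4, hf4 (-x) = hf4 x := by decide
  rw [nn_inv, h]

theorem aa_inv (S T Y Y' : Finset Pg) : aa (cB T S Y) = aa (cB S T Y') := by
  rw [aa_cBs, aa_cBs, add_comm]

theorem bb_inv (S T Y Y' : Finset Pg) : bb (cB T S Y) = bb (cB S T Y') := by
  rw [bb_cBs, bb_cBs, add_comm]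

/-- What is proved for an element and its inverse in a class. -/
def Tr2 (m : ℕ) (P : Finset Pg) (c : Fin 2 ⊕ P → ZMod 2) (ρ : Off P → ZMod 2) (g : GB m P)
    (Q : Finset Pg → Prop) : Prop :=
  ∃ (E : Type) (_ : Fintype E) (_ : DecidableEq E) (Pm : Fin 2 ⊕ P → E → ZMod 2)
    (R : Matrix E E (ZMod 2)),
    (∀ (y : E → ZMod 2) (t : ZMod 2), (∀ j, ∑ e, Pm j e * y e = t * c j) → y = 0) ∧
    (∀ e f, R e f = R f e) ∧
    ((∀ X : Finset (Off P), ∑ q ∈ up X, clB m P q = g → kW (d4.off P) c Pm R ρ ∅ X = 1 →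
      Q (up X)) ∨
    (∃ z, ∀ X : Finset (Off P), ∑ q ∈ up X, clB m P q = g → kW (d4.off P) c Pm R ρ ∅ X = 1 →
      kW (d4.off P) c Pm (R + Matrix.single z z 1) ρ ∅ X = 1 → Q (up X)) ∨
    ∃ z, ∀ X : Finset (Off P), ∑ q ∈ up X, clB m P q = g → kW (d4.off P) c Pm R ρ ∅ X = 1 →
      kW (d4.off P) c (fun j (e : {e : E // e ≠ z}) => Pm j e.1)
        (R.submatrix Subtype.val Subtype.val) ρ ∅ X = 1 → Q (up X))

/-- The classes without sets. -/
theorem Tr2.of_empty {m : ℕ} {P : Finset Pg} {c : Fin 2 ⊕ P → ZMod 2}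
    {ρ : Off P → ZMod 2} {g : GB m P} {Q : Finset Pg → Prop}
    (h : ¬ ∃ S : Finset Pg, Disjoint S P ∧ ∑ q ∈ S, clB m P q = g) : Tr2 m P c ρ g Q :=
  ⟨Fin 0, inferInstance, inferInstance, fun _ e => e.elim0, fun e _ => e.elim0,
    fun _ _ _ => funext fun e => e.elim0, fun e _ => e.elim0,
    Or.inl fun X hX => absurd ⟨up X, disj_up X, hX⟩ h⟩

/-- **An element and its inverse in a class.** -/
theorem tr2 {k : ZMod 4} {j : Fin 4} {S T B P : Finset Pg} (hd : Dj S T B)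
    (hns : kvB k j ≠ 0 ∨ (S ∪ T).Nonempty) (hP0 : S ∪ T ⊆ P) (hB : B ⊆ P) {m : ℕ} (hm : 2 ≤ m)
    (g : GB m P) : Tr2 m P (c0v P (S ∪ T) (kvB k j)) (rhC k j S T B) g fun X =>
      GdB k j S T (B ∪ X) ∧ GdB (-k) (-j) T S (B ∪ X) := by
  by_cases hg0 : ∃ S : Finset Pg, Disjoint S P ∧ ∑ q ∈ S, clB m P q = g
  swap
  · exact Tr2.of_empty hg0
  obtain ⟨X0, hX0, hg⟩ := hg0
  have hd' : Dj T S B := ⟨hd.st.symm, hd.tb, hd.sb⟩
  have hSm : ∀ X : Finset (Off P), ∑ q ∈ up X, clB m P q = g → Sm m P (up X) X0 :=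
    fun X hX => ⟨disj_up X, hX0, hX.trans hg.symm⟩
  have hs4 : ∀ X : Finset (Off P), ∑ q ∈ up X, clB m P q = g →
      ∀ b ∈ B, ∑ q ∈ up X, s4 b q = ∑ q ∈ X0, s4 b q := fun X hX b hb =>
    (hSm X hX).s4_eq (hB hb)
  have hdv : ∀ X : Finset (Off P), ∑ q ∈ up X, clB m P q = g →
      lam ^ 7 ∣ DDq (B ∪ up X) - DDq (B ∪ X0) := by
    intro X hX
    obtain ⟨t, ht⟩ := (pow_dvd_pow lam (by omega : 7 ≤ m + 5)).trans (hSm X hX).dvd
    have e1 : ∀ Y : Finset Pg, Disjoint Y P → DDq (B ∪ Y) = DDq B * DDq Y := by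
      intro Y hY
      unfold DDq
      exact prod_union (disjoint_of_subset_left hB hY.symm)
    rw [e1 _ (disj_up X), e1 _ hX0]
    exact ⟨DDq B * t, by linear_combination DDq B * ht⟩
  have h2 : ∀ x : ZMod 2, x = 0 ∨ x = 1 := by decide
  have hV0 : ∀ c : Fin 2 → ZMod 2, Va d4 c (S ∪ T) B ⊆ P := fun c =>
    (Va_subset _ _ _ _).trans hB
  have hdV : ∀ c : Fin 2 → ZMod 2, Disjoint (S ∪ T) (Va d4 c (S ∪ T) B) := by
    intro c
    refine disjoint_of_subset_right (Va_subset _ _ _ _) ?_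
    rw [disjoint_union_left]
    exact ⟨hd.sb, hd.tb⟩
  have hnm : ∀ b ∈ B, b ∉ S ∪ T := fun b hb h => (mem_union.1 h).elim
    (fun h => disjoint_left.1 hd.sb h hb) fun h => disjoint_left.1 hd.tb h hb
  -- the diagonals of the inverse
  have hτ : ∀ (k : ZMod 4) (j : Fin 4) (c : Fin 2 → ZMod 2), ∀ v ∈ Va d4 c (S ∪ T) B,
      taC (-k) (-j) T S B X0 v = taC k j S T B X0 v := by
    intro k j c v hv
    unfold taC
    rw [rh0_inv (hnm v (mem_Va.1 hv).1)]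
  have hρ : ∀ (k : ZMod 4) (j : Fin 4) (q : Off P),
      rhC (-k) (-j) T S B q = rhC k j S T B q := by
    intro k j q
    unfold rhC
    rw [rh0_inv fun h => q.2 (hP0 h)]
  -- the independence
  have ind0 : ∀ (k : ZMod 4) (j : Fin 4), kvB k j ≠ 0 →
      ∀ (y : (S ∪ T : Finset Pg) ⊕ (Va d4 (kvB k j) (S ∪ T) B ⊕ Empty) → ZMod 2) (t : ZMod 2),
      (∀ i, ∑ e, brd P (Va d4 (kvB k j) (S ∪ T) B) (id : (S ∪ T : Finset Pg) → _)
        (Da.P0 (Fin 2)) i e * y e = t * c0v P (S ∪ T) (kvB k j) i) → y = 0 := by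
    intro k j hc
    refine brd_ind_id hP0 (hV0 _) (hdV _) fun x t hx => ⟨funext fun e => e.elim, ?_⟩
    rcases h2 t with ht | ht
    · exact ht
    · exact absurd (funext fun i => by
        have h3 := hx i
        rw [ht, one_mul] at h3
        rw [← h3]
        rfl) hc
  have ind1 : ∀ (k : ZMod 4) (j : Fin 4) (p : Fin 2 → ZMod 2), (∃ i, p i = 1) →
      (∃ i, p i = 0 ∧ kvB k j i ≠ 0) →
      ∀ (y : (S ∪ T : Finset Pg) ⊕ (Va d4 (kvB k j) (S ∪ T) B ⊕ Unit) → ZMod 2) (t : ZMod 2),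
      (∀ i, ∑ e, brd P (Va d4 (kvB k j) (S ∪ T) B) (id : (S ∪ T : Finset Pg) → _)
        (PpB p) i e * y e = t * c0v P (S ∪ T) (kvB k j) i) → y = 0 := by
    intro k j p hp hc
    refine brd_ind_id hP0 (hV0 _) (hdV _) fun y t hy => ?_
    have ht : t = 0 := by
      obtain ⟨i, hi, hi2⟩ := hc
      have h3 := hy i
      rw [Fintype.sum_unique] at h3
      have h4 : (0 : ZMod 2) = t * kvB k j i := by
        rw [← h3]
        show 0 = p i * _
        rw [hi, zero_mul]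
      rcases mul_eq_zero.1 h4.symm with h5 | h5
      · exact h5
      · exact absurd h5 hi2
    refine ⟨PpB_inj hp y fun i => ?_, ht⟩
    rw [hy i, ht, zero_mul]
  -- the four kinds of pairs
  have dd : ∀ (k : ZMod 4) (j : Fin 4), kvB k j ≠ 0 →
      (∀ B, GdB k j S T B ↔ DetB0 k j S T B) →
      (∀ B, GdB (-k) (-j) T S B ↔ DetB0 (-k) (-j) T S B) →
      Tr2 m P (c0v P (S ∪ T) (kvB k j)) (rhC k j S T B) g fun X =>
        GdB k j S T (B ∪ X) ∧ GdB (-k) (-j) T S (B ∪ X) := by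
    intro k j hc h h'
    refine ⟨_, inferInstance, inferInstance, brd P (Va d4 (kvB k j) (S ∪ T) B)
      (id : (S ∪ T : Finset Pg) → (S ∪ T : Finset Pg)) (Da.P0 (Fin 2)),
      crn d4 (kvB k j) (Da.P0 (Fin 2)) Da.R0 (Va d4 (kvB k j) (S ∪ T) B)
      (taC k j S T B X0) (id : (S ∪ T : Finset Pg) → (S ∪ T : Finset Pg)), ind0 k j hc,
      crn_symm d4_sym _ (fun e _ => e.elim) _ _ _, Or.inl fun X hX hK => ⟨?_, ?_⟩⟩
    · rw [h, det0g hd rfl hP0 hB (hs4 X hX) rfl (fun _ _ => rfl) fun _ _ => rfl]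
      exact hK
    · rw [h', det0g hd' (union_comm T S) hP0 hB (hs4 X hX) (kvB_neg k j) (hτ k j _)
        fun q _ => hρ k j q]
      exact hK
  -- the big one is that of `x`
  have d10 : ∀ (k : ZMod 4) (j : Fin 4) (p : Fin 2 → ZMod 2) (x : ZMod 2), (∃ i, p i = 1) →
      (∃ i, p i = 0 ∧ kvB k j i ≠ 0) →
      (∀ X : Finset (Off P), ∑ q ∈ up X, clB m P q = g →
        (GdB k j S T (B ∪ up X) ↔ DetB1 k j p x S T (B ∪ up X))) →
      (∀ B, GdB (-k) (-j) T S B ↔ DetB0 (-k) (-j) T S B) →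
      Tr2 m P (c0v P (S ∪ T) (kvB k j)) (rhC k j S T B) g fun X =>
        GdB k j S T (B ∪ X) ∧ GdB (-k) (-j) T S (B ∪ X) := by
    intro k j p x hp hc h h'
    refine ⟨_, inferInstance, inferInstance, brd P (Va d4 (kvB k j) (S ∪ T) B)
      (id : (S ∪ T : Finset Pg) → (S ∪ T : Finset Pg)) (PpB p),
      crn d4 (kvB k j) (PpB p) (Da.R1 x) (Va d4 (kvB k j) (S ∪ T) B)
      (taC k j S T B X0) (id : (S ∪ T : Finset Pg) → (S ∪ T : Finset Pg)), ind1 k j p hp hc,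
      crn_symm d4_sym _ (fun _ _ => rfl) _ _ _, Or.inr (Or.inr
        ⟨Sum.inr (Sum.inr ()), fun X hX hK hK' => ⟨?_, ?_⟩⟩)⟩
    · rw [h X hX, det1g hd rfl hP0 hB (hs4 X hX) rfl (fun _ _ => rfl) fun _ _ => rfl]
      exact hK
    · rw [h', det0g hd' (union_comm T S) hP0 hB (hs4 X hX) (kvB_neg k j) (hτ k j _)
        fun q _ => hρ k j q]
      rw [kW_minor] at hK'
      exact hK'
  -- the big one is that of the inverse
  have d01 : ∀ (k : ZMod 4) (j : Fin 4) (p : Fin 2 → ZMod 2) (x : ZMod 2), (∃ i, p i = 1) →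
      (∃ i, p i = 0 ∧ kvB k j i ≠ 0) →
      (∀ B, GdB k j S T B ↔ DetB0 k j S T B) →
      (∀ X : Finset (Off P), ∑ q ∈ up X, clB m P q = g →
        (GdB (-k) (-j) T S (B ∪ up X) ↔ DetB1 (-k) (-j) p x T S (B ∪ up X))) →
      Tr2 m P (c0v P (S ∪ T) (kvB k j)) (rhC k j S T B) g fun X =>
        GdB k j S T (B ∪ X) ∧ GdB (-k) (-j) T S (B ∪ X) := by
    intro k j p x hp hc h h'
    refine ⟨_, inferInstance, inferInstance, brd P (Va d4 (kvB k j) (S ∪ T) B)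
      (id : (S ∪ T : Finset Pg) → (S ∪ T : Finset Pg)) (PpB p),
      crn d4 (kvB k j) (PpB p) (Da.R1 x) (Va d4 (kvB k j) (S ∪ T) B)
      (taC k j S T B X0) (id : (S ∪ T : Finset Pg) → (S ∪ T : Finset Pg)), ind1 k j p hp hc,
      crn_symm d4_sym _ (fun _ _ => rfl) _ _ _, Or.inr (Or.inr
        ⟨Sum.inr (Sum.inr ()), fun X hX hK hK' => ⟨?_, ?_⟩⟩)⟩
    · rw [h, det0g hd rfl hP0 hB (hs4 X hX) rfl (fun _ _ => rfl) fun _ _ => rfl]
      rw [kW_minor] at hK'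
      exact hK'
    · rw [h' X hX, det1g hd' (union_comm T S) hP0 hB (hs4 X hX) (kvB_neg k j) (hτ k j _)
        fun q _ => hρ k j q]
      exact hK
  have kk0 : ∀ (k : ZMod 4) (j : Fin 4), (S ∪ T).Nonempty → kvB k j = 0 →
      (∀ X : Finset (Off P), ∑ q ∈ up X, clB m P q = g →
        (GdB k j S T (B ∪ up X) ↔ KerB0 k j S T (B ∪ up X))) →
      (∀ X : Finset (Off P), ∑ q ∈ up X, clB m P q = g →
        (GdB (-k) (-j) T S (B ∪ up X) ↔ KerB0 (-k) (-j) T S (B ∪ up X))) →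
      Tr2 m P (c0v P (S ∪ T) (kvB k j)) (rhC k j S T B) g fun X =>
        GdB k j S T (B ∪ X) ∧ GdB (-k) (-j) T S (B ∪ X) := by
    rintro k j ⟨p0, hp0⟩ hc h h'
    have hr : ∀ p : (S ∪ T : Finset Pg), (∃ x : {x : (S ∪ T : Finset Pg) // x ≠ ⟨p0, hp0⟩},
        (x : (S ∪ T : Finset Pg)) = p) ↔ p ≠ ⟨p0, hp0⟩ := fun p =>
      ⟨fun ⟨x, hx⟩ => hx ▸ x.2, fun h => ⟨⟨p, h⟩, rfl⟩⟩
    refine ⟨_, inferInstance, inferInstance, brd P (Va d4 (kvB k j) (S ∪ T) B)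
      (Subtype.val : {x : (S ∪ T : Finset Pg) // x ≠ ⟨p0, hp0⟩} → _) (Da.P0 (Fin 2)),
      crn d4 (kvB k j) (Da.P0 (Fin 2)) Da.R0 (Va d4 (kvB k j) (S ∪ T) B)
      (taC k j S T B X0) (Subtype.val : {x : (S ∪ T : Finset Pg) // x ≠ ⟨p0, hp0⟩} → _),
      brd_ind_r hP0 (hV0 _) (hdV _) Subtype.val_injective hr
        (fun x _ => funext fun e => e.elim),
      crn_symm d4_sym _ (fun e _ => e.elim) _ _ _, Or.inl fun X hX hK => ⟨?_, ?_⟩⟩
    · rw [h X hX, ker0g hd rfl hP0 hB (hs4 X hX) rfl hc (fun _ _ => rfl) (fun _ _ => rfl)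
        Subtype.val_injective hr]
      exact hK
    · rw [h' X hX, ker0g hd' (union_comm T S) hP0 hB (hs4 X hX) (kvB_neg k j) hc (hτ k j _)
        (fun q _ => hρ k j q) Subtype.val_injective hr]
      exact hK
  have kk1 : ∀ (k : ZMod 4) (j : Fin 4) (p : Fin 2 → ZMod 2) (x x' : ZMod 2),
      (S ∪ T).Nonempty → (∃ i, p i = 1) → kvB k j = 0 →
      p 0 * aa (cB S T (B ∪ X0)) + p 1 * bb (cB S T (B ∪ X0)) = 0 →
      (∀ X : Finset (Off P), ∑ q ∈ up X, clB m P q = g →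
        (GdB k j S T (B ∪ up X) ↔ KerB1 k j p x S T (B ∪ up X))) →
      (∀ X : Finset (Off P), ∑ q ∈ up X, clB m P q = g →
        (GdB (-k) (-j) T S (B ∪ up X) ↔ KerB1 (-k) (-j) p x' T S (B ∪ up X))) →
      Tr2 m P (c0v P (S ∪ T) (kvB k j)) (rhC k j S T B) g fun X =>
        GdB k j S T (B ∪ X) ∧ GdB (-k) (-j) T S (B ∪ X) := by
    rintro k j p x x' ⟨p0, hp0⟩ hp hc h0 h h'
    have hr : ∀ p : (S ∪ T : Finset Pg), (∃ x : {x : (S ∪ T : Finset Pg) // x ≠ ⟨p0, hp0⟩},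
        (x : (S ∪ T : Finset Pg)) = p) ↔ p ≠ ⟨p0, hp0⟩ := fun p =>
      ⟨fun ⟨x, hx⟩ => hx ▸ x.2, fun h => ⟨⟨p, h⟩, rfl⟩⟩
    have h0' : p 0 * aa (cB T S (B ∪ X0)) + p 1 * bb (cB T S (B ∪ X0)) = 0 := by
      rw [aa_inv S T _ (B ∪ X0), bb_inv S T _ (B ∪ X0)]
      exact h0
    have hx' : x' = x ∨ x' = x + 1 := by
      have h3 : ∀ a b : ZMod 2, b = a ∨ b = a + 1 := by decide
      exact h3 x x'
    refine ⟨_, inferInstance, inferInstance, brd P (Va d4 (kvB k j) (S ∪ T) B)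
      (Subtype.val : {x : (S ∪ T : Finset Pg) // x ≠ ⟨p0, hp0⟩} → _) (PpB p),
      crn d4 (kvB k j) (PpB p) (Da.R1 x) (Va d4 (kvB k j) (S ∪ T) B)
      (taC k j S T B X0) (Subtype.val : {x : (S ∪ T : Finset Pg) // x ≠ ⟨p0, hp0⟩} → _),
      brd_ind_r hP0 (hV0 _) (hdV _) Subtype.val_injective hr (PpB_inj hp),
      crn_symm d4_sym _ (fun _ _ => rfl) _ _ _, ?_⟩
    rcases hx' with rfl | rfl
    · refine Or.inl fun X hX hK => ⟨?_, ?_⟩
      · rw [h X hX, ker1g hd rfl hP0 hB (hs4 X hX) rfl hc (fun _ _ => rfl) (fun _ _ => rfl) _ h0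
          Subtype.val_injective hr]
        exact hK
      · rw [h' X hX, ker1g hd' (union_comm T S) hP0 hB (hs4 X hX) (kvB_neg k j) hc (hτ k j _)
          (fun q _ => hρ k j q) _ h0' Subtype.val_injective hr]
        exact hK
    · refine Or.inr (Or.inl ⟨Sum.inr (Sum.inr ()), fun X hX hK hK' => ⟨?_, ?_⟩⟩)
      · rw [h X hX, ker1g hd rfl hP0 hB (hs4 X hX) rfl hc (fun _ _ => rfl) (fun _ _ => rfl) _ h0
          Subtype.val_injective hr]
        exact hK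
      · rw [h' X hX, ker1g hd' (union_comm T S) hP0 hB (hs4 X hX) (kvB_neg k j) hc (hτ k j _)
          (fun q _ => hρ k j q) _ h0' Subtype.val_injective hr, crn_add]
        exact hK'
  have hFn : kvB k j = 0 → (S ∪ T).Nonempty := fun h => hns.resolve_left fun h' => h' h
  have p10 : ∃ i, (![1, 0] : Fin 2 → ZMod 2) i = 1 := ⟨0, rfl⟩
  have p01 : ∃ i, (![0, 1] : Fin 2 → ZMod 2) i = 1 := ⟨1, rfl⟩
  have p11 : ∃ i, (![1, 1] : Fin 2 → ZMod 2) i = 1 := ⟨0, rfl⟩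
  have q10 : ∀ a b : ZMod 2, a = 0 →
      (![1, 0] : Fin 2 → ZMod 2) 0 * a + (![1, 0] : Fin 2 → ZMod 2) 1 * b = 0 := by decide
  have q01 : ∀ a b : ZMod 2, b = 0 →
      (![0, 1] : Fin 2 → ZMod 2) 0 * a + (![0, 1] : Fin 2 → ZMod 2) 1 * b = 0 := by decide
  have q11 : ∀ a b : ZMod 2, a + b = 0 →
      (![1, 1] : Fin 2 → ZMod 2) 0 * a + (![1, 1] : Fin 2 → ZMod 2) 1 * b = 0 := by decide
  have hj : ∀ j : Fin 4, j = 0 ∨ j = 1 ∨ j = 2 ∨ j = 3 := by decide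
  have hk4 : ∀ k : ZMod 4, k = 0 ∨ k = 1 ∨ k = 2 ∨ k = 3 := by decide
  have k00 : kvB 0 0 = 0 := by decide
  have k20 : kvB 2 0 = 0 := by decide
  have k02 : kvB 0 2 = 0 := by decide
  have k22 : kvB 2 2 = 0 := by decide
  -- the invariants of the class
  have iA : ∀ X : Finset (Off P), aa (cB T S (B ∪ up X)) = aa (cB S T (B ∪ X0)) := fun X =>
    aa_inv S T _ _
  have iB : ∀ X : Finset (Off P), bb (cB T S (B ∪ up X)) = bb (cB S T (B ∪ X0)) := fun X =>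
    bb_inv S T _ _
  have iN : ∀ X : Finset (Off P), ∑ q ∈ up X, clB m P q = g →
      hf4 (nn (cB T S (B ∪ up X))) = hf4 (nn (cB S T (B ∪ X0))) := fun X hX => by
    rw [hf4_nn_inv, nn_W (hdv X hX)]
  rcases hj j with rfl | rfl | rfl | rfl
  · rcases md_cases k with hk | rfl | rfl
    · refine dd k 0 (fun h => ?_) (fun B => gdB_c1 hk) fun B => ?_
      · have h3 : md k = 0 := congrFun h 0
        rw [hk] at h3
        exact one_ne_zero h3
      · have h4 : md (-k) = 1 := by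
          have h5 : kvB (-k) (-0) 0 = kvB k 0 0 := by rw [kvB_neg]
          exact h5.trans hk
        exact gdB_c1 h4
    · rcases h2 (aa (cB S T (B ∪ X0))) with hA | hA
      · rcases h2 (hf4 (nn (cB S T (B ∪ X0))) + bb (cB S T (B ∪ X0))) with hB' | hB'
        · refine kk1 0 0 ![1, 0] (xl4 (llB (cB S T (B ∪ X0)))) (xl4 (llB (cB T S (B ∪ X0))))
            (hFn k00) p10 k00 (q10 _ _ hA) (fun X h => ?_) fun X h => ?_
          · rw [gdB_x3 ((aa_W S T _ _).trans hA)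
              (by rw [nn_W (hdv X h), bb_W S T _ (B ∪ X0), hB']), ll_W (hdv X h)]
          · rw [neg_zero, neg_zero, gdB_x3 ((iA X).trans hA) (by rw [iN X h, iB X, hB']),
              ll_W (hdv X h)]
        · refine kk0 0 0 (hFn k00) k00 (fun X h => ?_) fun X h => ?_
          · exact gdB_x2 ((aa_W S T _ _).trans hA)
              (by rw [nn_W (hdv X h), bb_W S T _ (B ∪ X0), hB'])
          · rw [neg_zero, neg_zero]
            exact gdB_x2 ((iA X).trans hA) (by rw [iN X h, iB X, hB'])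
      · refine kk0 0 0 (hFn k00) k00 (fun X h => ?_) fun X h => ?_
        · exact gdB_c2 (by decide) ((aa_W S T _ _).trans hA)
        · rw [neg_zero, neg_zero]
          exact gdB_c2 (by decide) ((iA X).trans hA)
    · have e2 : (-2 : ZMod 4) = 2 := by decide
      rcases h2 (aa (cB S T (B ∪ X0))) with hA | hA
      · refine kk1 2 0 ![1, 0] (hf4 (nn (cB S T (B ∪ X0)))) (hf4 (nn (cB S T (B ∪ X0))))
          (hFn k20) p10 k20 (q10 _ _ hA) (fun X h => ?_) fun X h => ?_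
        · rw [gdB_x1 ((aa_W S T _ _).trans hA), nn_W (hdv X h)]
        · rw [e2, neg_zero, gdB_x1 ((iA X).trans hA), iN X h]
      · refine kk0 2 0 (hFn k20) k20 (fun X h => ?_) fun X h => ?_
        · exact gdB_c2 (by decide) ((aa_W S T _ _).trans hA)
        · rw [e2, neg_zero]
          exact gdB_c2 (by decide) ((iA X).trans hA)
  · have e3 : (-1 : Fin 4) = 3 := by decide
    refine d10 k 1 ![1, 0] (xk4 k) p10 ⟨1, rfl, by
      show (((1 : Fin 4).val : ℕ) : ZMod 2) ≠ 0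
      decide⟩ (fun X _ => gdB_e) fun B => ?_
    rw [e3]
    exact gdB_j3
  · have e2 : (-2 : Fin 4) = 2 := by decide
    rcases hk4 k with rfl | rfl | rfl | rfl
    · rcases h2 (bb (cB S T (B ∪ X0))) with hA | hA
      · refine kk1 0 2 ![0, 1] (uB0 (mmB (cB S T (B ∪ X0))) (nnB (cB S T (B ∪ X0))))
          (uB0 (mmB (cB T S (B ∪ X0))) (nnB (cB T S (B ∪ X0)))) (hFn k02)
          p01 k02 (q01 _ _ hA) (fun X h => ?_) fun X h => ?_
        · rw [gdB_d20 ((bb_W S T _ _).trans hA), (mn_W (hdv X h)).1, (mn_W (hdv X h)).2]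
        · rw [e2, neg_zero, gdB_d20 ((iB X).trans hA), (mn_W (hdv X h)).1, (mn_W (hdv X h)).2]
      · refine kk0 0 2 (hFn k02) k02 (fun X h => ?_) fun X h => ?_
        · exact gdB_c20 ((bb_W S T _ _).trans hA)
        · rw [e2, neg_zero]
          exact gdB_c20 ((iB X).trans hA)
    · have e1 : (-1 : ZMod 4) = 3 := by decide
      refine d01 1 2 ![0, 1] (uB3 (mmB (cB T S (B ∪ X0))) (nnB (cB T S (B ∪ X0)))) p01 ⟨0, rfl, by
        decide⟩ (fun B => gdB_a2) fun X h => ?_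
      rw [e1, e2, gdB_b2, (mn_W (hdv X h)).1, (mn_W (hdv X h)).2]
    · have e4 : (-2 : ZMod 4) = 2 := by decide
      rcases h2 (aa (cB S T (B ∪ X0)) + bb (cB S T (B ∪ X0))) with hA | hA
      · refine kk1 2 2 ![1, 1] (uB2 (mmB (cB S T (B ∪ X0))) (nnB (cB S T (B ∪ X0))))
          (uB2 (mmB (cB T S (B ∪ X0))) (nnB (cB T S (B ∪ X0)))) (hFn k22)
          p11 k22 (q11 _ _ hA) (fun X h => ?_) fun X h => ?_
        · rw [gdB_d22 (by rw [aa_W S T _ (B ∪ X0), bb_W S T _ (B ∪ X0), hA]),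
            (mn_W (hdv X h)).1, (mn_W (hdv X h)).2]
        · rw [e4, e2, gdB_d22 (by rw [iA X, iB X, hA]), (mn_W (hdv X h)).1, (mn_W (hdv X h)).2]
      · refine kk0 2 2 (hFn k22) k22 (fun X h => ?_) fun X h => ?_
        · exact gdB_c22 (by rw [aa_W S T _ (B ∪ X0), bb_W S T _ (B ∪ X0), hA])
        · rw [e4, e2]
          exact gdB_c22 (by rw [iA X, iB X, hA])
    · have e1 : (-3 : ZMod 4) = 1 := by decide
      refine d10 3 2 ![0, 1] (uB3 (mmB (cB S T (B ∪ X0))) (nnB (cB S T (B ∪ X0)))) p01 ⟨0, rfl, by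
        decide⟩ (fun X h => ?_) fun B => ?_
      · rw [gdB_b2, (mn_W (hdv X h)).1, (mn_W (hdv X h)).2]
      · rw [e1, e2]
        exact gdB_a2
  · have e1 : (-3 : Fin 4) = 1 := by decide
    refine d01 k 3 ![1, 0] (xk4 (-k)) p10 ⟨1, rfl, by
      show (((3 : Fin 4).val : ℕ) : ZMod 2) ≠ 0
      decide⟩ (fun B => gdB_j3) fun X _ => ?_
    rw [e1]
    exact gdB_e

/-- **The translation of the criteria of an element and of its inverse.** -/
theorem trX2 : TrX2 := by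
  refine ⟨2, fun m hm x P hd hsub hx g => ?_⟩
  obtain ⟨hS, hT, hB⟩ := hsub
  obtain ⟨E, i1, i2, Pm, R, hP, hR, h⟩ := tr2 hd (ns_of hx) (union_subset hS hT) hB hm g
  have hX : ∀ X : Finset (Off P), ∑ q ∈ X, (CclB m P).cl q = g → ∑ q ∈ up X, clB m P q = g := by
    intro X hX
    rw [sum_up]
    exact hX
  refine ⟨E, i1, i2, Pm, R, hP, hR, ?_⟩
  rcases h with h | ⟨z, h⟩ | ⟨z, h⟩
  · refine Or.inl fun X h1 h2 => ?_
    rw [KX_eq hd hS hT hB hx] at h2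
    exact h X (hX X h1) h2
  · refine Or.inr (Or.inl ⟨z, fun X h1 h2 h3 => ?_⟩)
    rw [KX_eq hd hS hT hB hx] at h2 h3
    exact h X (hX X h1) h2 h3
  · refine Or.inr (Or.inr ⟨z, fun X h1 h2 h3 => ?_⟩)
    rw [KX_eq hd hS hT hB hx] at h2 h3
    exact h X (hX X h1) h2 h3

end

end Pool.Agent.Lib.MP_1a91b9_ntM.E
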