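import Pool.Agent.Lib.MP_1a91b9_ntM.E.JExp
import Pool.Agent.Lib.MP_1a91b9_ntM.E.Den
import Pool.Agent.Lib.MP_1a91b9_ntM.DJ.Lim

/-!
# Quadratic twists over the abelian extensions of exponent dividing `4`, part D: definitions

The family `a : A` of the matrices has the activity vectors `cA a` (the prime `q` is active for `a` if
`∑ j, cA a j * D.a q j = 0`), the borders `P a`, the corners `R a` and the diagonals
`ρ (cA a) + dg (σ a)`.
-/

set_option autoImplicit false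
set_option linter.unusedSectionVars false

namespace Pool.Agent.Lib.MP_1a91b9_ntM.E

open Finset Pool.Agent.Lib.MP_1a91b9_ntH Pool.Agent.Lib.MP_1a91b9_ntQ Pool.Agent.Lib.MP_1a91b9_ntQ.Da
  Pool.Agent.Lib.MP_1a91b9_ntQ.M Pool.Agent.Lib.MP_1a91b9_ntM

noncomputable section

/-! ### The engine -/

section Eng

variable {ι : Type} [DecidableEq ι] {κ : Type} [Fintype κ] [DecidableEq κ]

/-- The sum of the engine: the weight `w l φ` depends on the vector `φ = D.a q`. -/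
def EnX {L : Type} [Fintype L] [DecidableEq L] [PS ι] (D : Dat2 ι κ) (Λ : LS2 L ι κ)
    (w : L → (κ → ZMod 2) → ℝ) (h : L → ι → ZMod 2) (g : ι → ℂ) (X : ℕ) : ℂ :=
  ∑ B ∈ Sx ι X, (∏ q ∈ B, g q) * ∑ f : B → L,
    (∏ j : B, ((w (f j) (D.a j) : ℝ) : ℂ)) * e2 (D.eS Λ B f + ∑ j : B, h (f j) j)

/-- The conditions on the weights. -/
structure WtX {L : Type} [Fintype L] [DecidableEq L] (Λ : LS2 L ι κ)
    (w : L → (κ → ZMod 2) → ℝ) : Prop where
  nonneg : ∀ l φ, 0 ≤ w l φ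
  le_one : ∀ U, Λ.Unl U → ∀ φ, ∑ l ∈ U, w l φ ≤ 1
  at_zero : ∀ l, w l 0 = (Λ.m : ℝ)⁻¹

/-- The sets of labels of the possible main terms. -/
def FullW {L : Type} [Fintype L] [DecidableEq L] (Λ : LS2 L ι κ) (w : L → (κ → ZMod 2) → ℝ) :
    Finset (Finset L) := by
  classical exact univ.filter fun U => U ∈ Λ.Us ∧ ∀ φ, ∑ l ∈ U, w l φ = 1

theorem mem_FullW {L : Type} [Fintype L] [DecidableEq L] {Λ : LS2 L ι κ}
    {w : L → (κ → ZMod 2) → ℝ} {U : Finset L} :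
    U ∈ FullW Λ w ↔ U ∈ Λ.Us ∧ ∀ φ, ∑ l ∈ U, w l φ = 1 := by
  classical
  rw [FullW, mem_filter]
  exact ⟨fun h => h.2, fun h => ⟨mem_univ _, h⟩⟩

/-- The factor of a prime in the possible main term. -/
def TotW {L : Type} [Fintype L] [DecidableEq L] (Λ : LS2 L ι κ) (w : L → (κ → ZMod 2) → ℝ)
    (U : Finset L) (φ : κ → ZMod 2) : ℂ :=
  ∑ l ∈ U, ((w l φ : ℝ) : ℂ) * e2 (∑ j, Λ.c l j * φ j)

/-- **The statement of the engine with several activity characters.** -/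
def EngX [PS ι] (D : Dat2 ι κ) : Prop :=
  ∀ (L : Type) [Fintype L] [DecidableEq L] (Λ : LS2 L ι κ) (w : L → (κ → ZMod 2) → ℝ), Λ.OK →
    Λ.B = ∅ → WtX Λ w → ∀ h : L → ι → ZMod 2,
    (∀ U ∈ FullW Λ w, ∀ l ∈ U, ∀ q, h l q = 0) →
    ∀ g : ι → ℂ, (∀ q, ‖g q‖ = 1) → ∀ ε : ℝ, 0 < ε → ∃ X₀ : ℕ, ∀ X : ℕ, X₀ ≤ X →
      ‖EnX D Λ w h g X -
        ∑ U ∈ FullW Λ w, ∑ B ∈ Sx ι X, ∏ q ∈ B, g q * TotW Λ w U (D.a q)‖ ≤ ε * X

/-- The sum of a multiplicative function which is not always `1`. -/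
def BadX [PS ι] (D : Dat2 ι κ) : Prop :=
  ∀ η : (κ → ZMod 2) → ℝ, (∀ φ, 0 ≤ η φ) → (∀ φ, η φ ≤ 1) → (∃ φ, η φ < 1) → ∀ ε : ℝ, 0 < ε →
    ∃ X₀ : ℕ, ∀ X : ℕ, X₀ ≤ X → ∑ B ∈ Sx ι X, ∏ q ∈ B, η (D.a q) ≤ ε * X

end Eng

/-! ### The family -/

variable {A : Type} [Fintype A] [DecidableEq A] {ι : Type} [DecidableEq ι]
  {κ : Type} [Fintype κ] [DecidableEq κ] {E : A → Type} [∀ a, Fintype (E a)]
  [∀ a, DecidableEq (E a)]

/-- What is assumed about the family of the matrices. -/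
structure FamX (cA σ : A → κ → ZMod 2) (P : ∀ a, κ → E a → ZMod 2)
    (R : ∀ a, Matrix (E a) (E a) (ZMod 2)) : Prop where
  sg : ∀ a b, a ≠ b → cA a = cA b → σ a + σ b ≠ 0 ∧ σ a + σ b ≠ cA a
  bd : ∀ (a : A) (x : E a → ZMod 2) (t : ZMod 2),
    (∀ j, ∑ e, P a j e * x e = t * cA a j) → x = 0
  sym : ∀ a e f, R a e f = R a f e

/-- The weights. -/
def wX (k : A → ℕ) (cA : A → κ → ZMod 2) (l : LabP k) (φ : κ → ZMod 2) : ℝ :=
  ∏ a, if ∑ j, cA a j * φ j = 0 then ((2 : ℝ) ^ k a)⁻¹ else if l a = 0 then 1 else 0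

/-- The size of the kernel of the matrix `a`. -/
def kX (D : Dat2 ι κ) (ρ : (κ → ZMod 2) → ι → ZMod 2) (cA σ : A → κ → ZMod 2)
    (P : ∀ a, κ → E a → ZMod 2) (R : ∀ a, Matrix (E a) (E a) (ZMod 2)) (a : A)
    (B : Finset ι) : ℕ := kW D (cA a) (P a) (R a) (rho D (ρ (cA a)) (σ a)) ∅ B

open Classical in
/-- The exceptional case. -/
def tX (cA σ : A → κ → ZMod 2) (P : ∀ a, κ → E a → ZMod 2)
    (R : ∀ a, Matrix (E a) (E a) (ZMod 2)) (α : κ → ZMod 2) (a : A) : ℕ :=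
  if cA a = 0 ∧ Triv (σ a) (P a) (R a) α then 2 else 1

/-- The normalised size of the kernel. -/
def nX (D : Dat2 ι κ) (ρ : (κ → ZMod 2) → ι → ZMod 2) (cA σ : A → κ → ZMod 2)
    (P : ∀ a, κ → E a → ZMod 2) (R : ∀ a, Matrix (E a) (E a) (ZMod 2)) (α : κ → ZMod 2) (a : A)
    (B : Finset ι) : ℕ :=
  if kX D ρ cA σ P R a B = 1 then 1 else kX D ρ cA σ P R a B / tX cA σ P R α a

/-- **The joint moments in the classes.** -/
def MVX [PS ι] (D : Dat2 ι κ) (ρ : (κ → ZMod 2) → ι → ZMod 2) : Prop :=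
  ∀ (A : Type) [Fintype A] [DecidableEq A] (E : A → Type) [∀ a, Fintype (E a)]
    [∀ a, DecidableEq (E a)] (cA σ : A → κ → ZMod 2) (P : ∀ a, κ → E a → ZMod 2)
    (R : ∀ a, Matrix (E a) (E a) (ZMod 2)), FamX cA σ P R →
    ∀ (G : Type) [AddCommGroup G] [Fintype G] (C : Cl2 D G) (γ : G) (k : A → ℕ),
    MV (SB ∅ C.cl γ) (fun B => ∏ a, (nX D ρ cA σ P R (fun j => C.A j γ) a B : ℝ) ^ k a)
      (∏ a, (Nk2 (k a) : ℝ))

/-! ### The joint density -/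

/-- the class of the square root of the element of a square -/
def DD8.sk (x : DD8) : ZMod 4 := if x.k = 0 then 0 else 1

/-- the exponent of `lam` in the square root of the element of a square -/
def DD8.sj (x : DD8) : Fin 2 := if x.j = 0 then 0 else 1

/-- The element is a square. -/
def DD8.Sq (x : DD8) : Prop := md x.k = 0 ∧ ((x.j.val : ℕ) : ZMod 2) = 0 ∧ x.S ∪ x.T = ∅

/-- **The good sets for the curve of `x`**; `X` is added to `x.B`. -/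
def GdX (x : DD8) (X : Finset Pg) : Prop :=
  (x.Sq → Gd5 x.sk x.sj (x.B ∪ X)) ∧ (¬ x.Sq → GdB x.k x.j x.S x.T (x.B ∪ X))

/-- **The joint density** (part D): the elements of the family are different modulo fourth powers, also
up to inversion; if `f i = true` then `x i` is not a square and the condition for the inverse is added. -/
def DSJX : Prop := ∀ (N : ℕ), 0 < N → ∀ (x : Fin N → DD8) (f : Fin N → Bool) (P : Finset Pg),
  (∀ i, Dj (x i).S (x i).T (x i).B) → (∀ i, (x i).S ⊆ P ∧ (x i).T ⊆ P ∧ (x i).B ⊆ P) →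
  (∀ i, f i = true → ¬ (x i).Sq) →
  (∀ i i', i ≠ i' → x i ≠ x i' ∧ x i ≠ (x i').inv) →
  ∀ (m : ℕ) (g : GB m P) (κ₀ : ℝ),
    κ₀ < ∏ i, (if f i = true then Da.cinf2 / 2 else Da.cinf2) →
    DSB m P g κ₀ fun X => ∀ i, GdX (x i) X ∧ (f i = true → GdX (x i).inv X)

end

end Pool.Agent.Lib.MP_1a91b9_ntM.E
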