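import Pool.Agent.Lib.MP_1a91b9_ntM.E.XDef
import Pool.Agent.Lib.MP_1a91b9_ntM.E.JCnt

/-!
# Quadratic twists over the abelian extensions of exponent dividing `4`, part D: the labels

`W = U + u` is the maximal totally singular subspace of a maximal unlinked set. If `U` is full, then `W`
is stable under the functions `a ↦ ∑ j, cA a j * φ j`, and hence it is a product over the activity classes.
-/

set_option autoImplicit false
set_option linter.unusedSectionVars false

namespace Pool.Agent.Lib.MP_1a91b9_ntM.E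

open Finset Pool.Agent.Lib.MP_1a91b9_ntH Pool.Agent.Lib.MP_1a91b9_ntQ Pool.Agent.Lib.MP_1a91b9_ntQ.Da
  Pool.Agent.Lib.MP_1a91b9_ntQ.M Pool.Agent.Lib.MP_1a91b9_ntM

noncomputable section

/-! ### Restriction to the active coordinates -/

section Res

variable {A : Type} [Fintype A] [DecidableEq A] {k : A → ℕ}

theorem zone {x : ZMod 2} (h : x ≠ 0) : x = 1 := (z2 x).resolve_left h

/-- The labels which are trivial outside of the coordinates with `f a = 0`. -/
def UA (f : A → ZMod 2) (U : Finset (LabP k)) : Finset (LabP k) := by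
  classical exact U.filter fun l => ∀ a, f a ≠ 0 → l a = 0

theorem mem_UA {f : A → ZMod 2} {U : Finset (LabP k)} {l : LabP k} :
    l ∈ UA f U ↔ l ∈ U ∧ ∀ a, f a ≠ 0 → l a = 0 := by
  classical
  rw [UA, mem_filter]

/-- The restriction. -/
def res (f : A → ZMod 2) (l : LabP k) : LabP (A := {a // f a = 0}) fun a => k a := fun a => l a

theorem res_sub (f : A → ZMod 2) (l m : LabP k) : res f (l - m) = res f l - res f m := rfl

theorem res_add (f : A → ZMod 2) (l m : LabP k) : res f (l + m) = res f l + res f m := rfl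

theorem sum_res (f : A → ZMod 2) (g : A → ZMod 2) (hg : ∀ a, f a ≠ 0 → g a = 0) :
    ∑ a : {a // f a = 0}, g a = ∑ a, g a := by
  have h1 : ∑ a ∈ univ.filter (fun a => f a = 0), g a = ∑ a : {a // f a = 0}, g a :=
    sum_subtype _ (fun a => by simp) _
  rw [← h1, sum_filter]
  refine sum_congr rfl fun a _ => ?_
  split_ifs with h
  · rfl
  · exact (hg a h).symm

theorem QP_res (f : A → ZMod 2) {l : LabP k} (hl : ∀ a, f a ≠ 0 → l a = 0) :
    QP (res f l) = QP l :=
  sum_res f (fun a => Q2 (l a)) fun a ha => by rw [hl a ha, Q2_zero]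

theorem BP_res (f : A → ZMod 2) (l : LabP k) {m : LabP k} (hm : ∀ a, f a ≠ 0 → m a = 0) :
    BP (res f l) (res f m) = BP l m :=
  sum_res f (fun a => B2 (l a) (m a)) fun a ha => by rw [hm a ha, B2_zero]

theorem res_inj (f : A → ZMod 2) {l m : LabP k} (hl : ∀ a, f a ≠ 0 → l a = 0)
    (hm : ∀ a, f a ≠ 0 → m a = 0) (h : res f l = res f m) : l = m := by
  funext a
  by_cases ha : f a = 0
  · exact congrFun h ⟨a, ha⟩
  · rw [hl a ha, hm a ha]

theorem prod_res {M : Type} [CommMonoid M] (f : A → ZMod 2) (g : A → M) :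
    ∏ a ∈ univ.filter (fun a => f a = 0), g a = ∏ a : {a // f a = 0}, g a :=
  prod_subtype _ (fun a => by simp) _

theorem card_UA_le (f : A → ZMod 2) {U : Finset (LabP k)} (hU : UnlP U) :
    (UA f U).card ≤ ∏ a ∈ univ.filter (fun a => f a = 0), 2 ^ k a := by
  classical
  rw [prod_res f fun a => 2 ^ k a]
  have h1 : ((UA f U).image (res f)).card = (UA f U).card := by
    refine card_image_of_injOn fun l hl m hm h => ?_
    exact res_inj f (mem_UA.1 (mem_coe.1 hl)).2 (mem_UA.1 (mem_coe.1 hm)).2 h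
  rw [← h1]
  refine K1P ?_
  intro x hx y hy
  rw [mem_image] at hx hy
  obtain ⟨l, hl, rfl⟩ := hx
  obtain ⟨m, hm, rfl⟩ := hy
  rw [mem_UA] at hl hm
  rw [← res_sub, QP_res f (l := l - m)]
  · exact hU l hl.1 m hm.1
  · intro a ha
    show l a - m a = 0
    rw [hl.2 a ha, hm.2 a ha, sub_zero]

/-- The translate of a set of labels. -/
def tW (U : Finset (LabP k)) (u : LabP k) : Finset (LabP k) := U.image fun l => l + u

theorem mem_tW {U : Finset (LabP k)} {u x : LabP k} : x ∈ tW U u ↔ x + u ∈ U := by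
  rw [tW, mem_image]
  constructor
  · rintro ⟨l, hl, rfl⟩
    rw [lp_add_add]
    exact hl
  · intro h
    exact ⟨x + u, h, lp_add_add x u⟩

theorem MxP_tW {U : Finset (LabP k)} (hU : UnlP U) (hc : U.card = ∏ a, 2 ^ k a) {u : LabP k}
    (hu : u ∈ U) : MxP (tW U u) := by
  refine ⟨?_, ?_, ?_⟩
  · intro x hx y hy
    rw [mem_tW] at hx hy
    have h1 := hU _ hx _ hy
    rwa [add_sub_add_right_eq_sub] at h1
  · rw [tW, card_image_of_injective _ (add_left_injective u), hc]
  · rw [mem_tW, zero_add]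
    exact hu

/-- `W` is stable under the multiplication by `g`. -/
def Stb (W : Finset (LabP k)) (g : A → ZMod 2) : Prop := ∀ x ∈ W, fm g x ∈ W

variable {W : Finset (LabP k)}

theorem Stb.add (hM : MxP W) {f g : A → ZMod 2} (hf : Stb W f) (hg : Stb W g) : Stb W (f + g) := by
  intro x hx
  rw [fm_add]
  exact hM.add_mem (hf x hx) (hg x hx)

theorem Stb.mul {f g : A → ZMod 2} (hf : Stb W f) (hg : Stb W g) : Stb W (f * g) := by
  intro x hx
  rw [fm_mul]
  exact hf _ (hg x hx)

theorem Stb.one : Stb W 1 := by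
  intro x hx
  rw [fm_one]
  exact hx

theorem Stb.zero (hM : MxP W) : Stb W 0 := by
  intro x _
  rw [fm_zero]
  exact hM.zero

theorem Stb.const (hM : MxP W) (z : ZMod 2) : Stb W fun _ => z := by
  rcases z2 z with rfl | rfl
  · exact Stb.zero hM
  · exact Stb.one

theorem Stb.prod {B : Type} (s : Finset B) (g : B → A → ZMod 2) (hg : ∀ b ∈ s, Stb W (g b)) :
    Stb W (∏ b ∈ s, g b) := by
  classical
  induction s using Finset.induction_on with
  | empty =>
    rw [prod_empty]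
    exact Stb.one
  | insert b s hb ih =>
    rw [prod_insert hb]
    exact (hg b (mem_insert_self _ _)).mul (ih fun i hi => hg i (mem_insert_of_mem hi))

theorem fm_ladd (f : A → ZMod 2) (l m : LabP k) : fm f (l + m) = fm f l + fm f m :=
  funext fun a => smul_add (f a) (l a) (m a)

theorem QP_fm (f : A → ZMod 2) (l : LabP k) :
    QP (fm f l) = ∑ a, f a * Q2 (l a) := by
  rw [QP]
  refine sum_congr rfl fun a _ => ?_
  show Q2 (f a • l a) = _
  rcases z2 (f a) with h | h
  · rw [h, zero_smul, Q2_zero, zero_mul]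
  · rw [h, one_smul, one_mul]

theorem BP_fm_right (f : A → ZMod 2) (l m : LabP k) : BP l (fm f m) = ∑ a, f a * B2 (l a) (m a) := by
  rw [BP]
  refine sum_congr rfl fun a _ => ?_
  show B2 (l a) (f a • m a) = _
  rw [B2_smul]

/-- **Stability.** -/
theorem stb_full {U : Finset (LabP k)} (hU : UnlP U) (hc : U.card = ∏ a, 2 ^ k a)
    {f : A → ZMod 2} (hf : (UA f U).card = ∏ a ∈ univ.filter (fun a => f a = 0), 2 ^ k a)
    {u : LabP k} (hu : u ∈ U) : Stb (tW U u) f ∧ fm f u ∈ tW U u := by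
  classical
  have hM := MxP_tW hU hc hu
  have hne : (UA f U).Nonempty := by
    rw [← card_pos, hf]
    exact prod_pos fun a _ => by positivity
  obtain ⟨l0, hl0⟩ := hne
  rw [mem_UA] at hl0
  set W' : Finset (LabP (A := {a // f a = 0}) fun a => k a) :=
    (UA f U).image fun l => res f (l + l0) with hW'
  have hsup : ∀ l ∈ UA f U, ∀ a, f a ≠ 0 → (l + l0) a = 0 := by
    intro l hl a ha
    show l a + l0 a = 0
    rw [(mem_UA.1 hl).2 a ha, hl0.2 a ha, add_zero]
  have hWm : ∀ l ∈ UA f U, l + l0 ∈ tW U u := by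
    intro l hl
    have h1 : l + u ∈ tW U u := mem_tW.2 (by rw [lp_add_add]; exact (mem_UA.1 hl).1)
    have h2 : l0 + u ∈ tW U u := mem_tW.2 (by rw [lp_add_add]; exact hl0.1)
    have h3 := hM.add_mem h1 h2
    have e : l + u + (l0 + u) = l + l0 := by
      have : l + u + (l0 + u) = l + l0 + (u + u) := by abel
      rw [this, lp_add_self, add_zero]
    rwa [e] at h3
  have hM' : MxP W' := by
    refine ⟨?_, ?_, ?_⟩
    · intro x hx y hy
      rw [hW', mem_image] at hx hy
      obtain ⟨l, hl, rfl⟩ := hx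
      obtain ⟨m, hm, rfl⟩ := hy
      rw [← res_sub, QP_res f]
      · exact hM.unl _ (hWm l hl) _ (hWm m hm)
      · intro a ha
        show (l + l0) a - (m + l0) a = 0
        rw [hsup l hl a ha, hsup m hm a ha, sub_zero]
    · rw [hW', card_image_of_injOn, hf, prod_res f fun a => 2 ^ k a]
      intro l hl m hm h
      exact add_right_cancel (res_inj f (hsup l (mem_coe.1 hl)) (hsup m (mem_coe.1 hm)) h)
    · rw [hW', mem_image]
      exact ⟨l0, mem_UA.2 hl0, by rw [lp_add_self]; rfl⟩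
  have h1 : ∀ x ∈ tW U u, fm (1 + f) x ∈ tW U u := by
    intro x hx
    have h2 : res f x ∈ W' := by
      rw [hM'.mem_iff]
      intro w hw
      rw [hW', mem_image] at hw
      obtain ⟨l, hl, rfl⟩ := hw
      rw [BP_res f x (hsup l hl)]
      exact hM.mem_iff.1 hx _ (hWm l hl)
    rw [hW', mem_image] at h2
    obtain ⟨l, hl, h3⟩ := h2
    have h4 : fm (1 + f) x = l + l0 := by
      funext a
      show (1 + f a) • x a = (l + l0) a
      by_cases ha : f a = 0
      · have h5 : (l + l0) a = x a := congrFun h3 ⟨a, ha⟩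
        rw [h5, ha, add_zero, one_smul]
      · rw [hsup l hl a ha, zone ha, z2_add_self, zero_smul]
    rw [h4]
    exact hWm l hl
  have h2 : Stb (tW U u) f := by
    intro x hx
    have h3 := hM.add_mem hx (h1 x hx)
    have h4 : x + fm (1 + f) x = fm f x := by
      rw [fm_add, fm_one, ← add_assoc, lp_add_self, zero_add]
    rwa [h4] at h3
  refine ⟨h2, ?_⟩
  have h3 : l0 + u ∈ tW U u := mem_tW.2 (by rw [lp_add_add]; exact hl0.1)
  have h4 := h2 _ h3
  have h5 : fm f l0 = 0 := by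
    funext a
    show f a • l0 a = 0
    by_cases ha : f a = 0
    · rw [ha, zero_smul]
    · rw [hl0.2 a ha, smul_zero]
  rwa [fm_ladd, h5, zero_add] at h4

end Res

/-! ### The weights -/

section Wt

variable {A : Type} [Fintype A] [DecidableEq A] {k : A → ℕ} {ι : Type} [DecidableEq ι]
  {κ : Type} [Fintype κ] [DecidableEq κ] {E : A → Type} [∀ a, Fintype (E a)]
  [∀ a, DecidableEq (E a)]

/-- The linear form of `φ`. -/
def fA (cA : A → κ → ZMod 2) (φ : κ → ZMod 2) (a : A) : ZMod 2 := ∑ j, cA a j * φ j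

/-- The weight of a label which is trivial outside of the active coordinates. -/
def wA (k : A → ℕ) (f : A → ZMod 2) : ℝ := ∏ a ∈ univ.filter (fun a => f a = 0), ((2 : ℝ) ^ k a)⁻¹

open Classical in
theorem wXA_eq (cA : A → κ → ZMod 2) (l : LabP k) (φ : κ → ZMod 2) :
    wX k cA l φ = if ∀ a, fA cA φ a ≠ 0 → l a = 0 then wA k (fA cA φ) else 0 := by
  split_ifs with h
  · rw [wA, prod_filter, wX]
    refine prod_congr rfl fun a _ => ?_
    by_cases ha : fA cA φ a = 0
    · rw [if_pos ha]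
      exact if_pos ha
    · have ha' : ¬ ∑ j, cA a j * φ j = 0 := ha
      rw [if_neg ha, if_neg ha', if_pos (h a ha)]
  · push Not at h
    obtain ⟨a, ha, hl⟩ := h
    have ha' : ¬ ∑ j, cA a j * φ j = 0 := ha
    rw [wX]
    refine prod_eq_zero (mem_univ a) ?_
    rw [if_neg ha', if_neg hl]

theorem sum_wX {M : Type} [CommRing M] [Algebra ℝ M] (cA : A → κ → ZMod 2) (U : Finset (LabP k))
    (φ : κ → ZMod 2) (g : LabP k → M) :
    ∑ l ∈ U, (algebraMap ℝ M (wX k cA l φ)) * g l =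
      algebraMap ℝ M (wA k (fA cA φ)) * ∑ l ∈ UA (fA cA φ) U, g l := by
  classical
  rw [UA, sum_filter, mul_sum]
  refine sum_congr rfl fun l _ => ?_
  rw [wXA_eq]
  split_ifs
  · rfl
  · rw [map_zero, zero_mul, mul_zero]

theorem sum_wX_real (cA : A → κ → ZMod 2) (U : Finset (LabP k)) (φ : κ → ZMod 2) :
    ∑ l ∈ U, wX k cA l φ = wA k (fA cA φ) * (UA (fA cA φ) U).card := by
  have h1 := sum_wX (M := ℝ) cA U φ fun _ => 1
  simp only [mul_one, Algebra.algebraMap_self, RingHom.id_apply, sum_const, nsmul_eq_mul] at h1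
  exact h1

theorem wA_mul (k : A → ℕ) (f : A → ZMod 2) :
    wA k f * ((∏ a ∈ univ.filter (fun a => f a = 0), 2 ^ k a : ℕ) : ℝ) = 1 := by
  rw [wA, Nat.cast_prod, ← prod_mul_distrib]
  refine prod_eq_one fun a _ => ?_
  push_cast
  exact inv_mul_cancel₀ (by positivity)

theorem wA_pos (k : A → ℕ) (f : A → ZMod 2) : 0 < wA k f :=
  prod_pos fun a _ => by positivity

theorem sum_wX_le (cA : A → κ → ZMod 2) {U : Finset (LabP k)} (hU : UnlP U) (φ : κ → ZMod 2) :
    ∑ l ∈ U, wX k cA l φ ≤ 1 := by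
  rw [sum_wX_real, ← wA_mul k (fA cA φ)]
  exact mul_le_mul_of_nonneg_left (Nat.cast_le.2 (card_UA_le _ hU)) (wA_pos k _).le

theorem sum_wX_eq_one {cA : A → κ → ZMod 2} {U : Finset (LabP k)} {φ : κ → ZMod 2} :
    ∑ l ∈ U, wX k cA l φ = 1 ↔
      (UA (fA cA φ) U).card = ∏ a ∈ univ.filter (fun a => fA cA φ a = 0), 2 ^ k a := by
  rw [sum_wX_real, ← wA_mul k (fA cA φ)]
  constructor
  · intro h
    exact_mod_cast mul_left_cancel₀ (wA_pos k _).ne' h
  · intro h
    rw [h]

/-- **(1)** The conditions on the weights. -/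
theorem wtX (cA σ : A → κ → ZMod 2) (P : ∀ a, κ → E a → ZMod 2) (m : ∀ a, E a → Lab2 (k a)) :
    WtX (LSP ι k σ P m) (wX k cA) where
  nonneg := fun l φ => by
    refine prod_nonneg fun a _ => ?_
    split_ifs
    · positivity
    · exact zero_le_one
    · exact le_rfl
  le_one := fun U hU φ => sum_wX_le cA ((LSP_Unl σ P m U).1 hU) φ
  at_zero := fun l => by
    have h1 : ∀ a, ∑ j, cA a j * (0 : κ → ZMod 2) j = 0 := fun a =>
      sum_eq_zero fun j _ => by rw [Pi.zero_apply, mul_zero]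
    show wX k cA l 0 = (((∏ a, 2 ^ k a : ℕ)) : ℝ)⁻¹
    rw [wX, prod_congr rfl fun a _ => if_pos (h1 a), Nat.cast_prod, ← prod_inv_distrib]
    refine prod_congr rfl fun a _ => ?_
    push_cast
    rfl

variable {cA σ : A → κ → ZMod 2} {P : ∀ a, κ → E a → ZMod 2} {m : ∀ a, E a → Lab2 (k a)}

theorem mem_FullX {U : Finset (LabP k)} : U ∈ FullW (LSP ι k σ P m) (wX k cA) ↔
    (UnlP U ∧ U.card = ∏ a, 2 ^ k a) ∧ ∀ φ, (UA (fA cA φ) U).card =
      ∏ a ∈ univ.filter (fun a => fA cA φ a = 0), 2 ^ k a := by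
  rw [mem_FullW, LS2.mem_Us, LSP_Unl]
  simp only [sum_wX_eq_one]
  exact Iff.rfl

/-- The indicator function of the class `c`. -/
def ic (cA : A → κ → ZMod 2) (c : κ → ZMod 2) (a : A) : ZMod 2 := if cA a = c then 1 else 0

theorem ic_eq (cA : A → κ → ZMod 2) (c : κ → ZMod 2) :
    ic cA c = ∏ j, (fun a => 1 + c j + cA a j) := by
  funext a
  rw [Finset.prod_apply, ic]
  split_ifs with h
  · refine (prod_eq_one fun j _ => ?_).symm
    rw [h]
    have h1 : ∀ z : ZMod 2, 1 + z + z = 1 := by decide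
    exact h1 _
  · have h1 : ∃ j, cA a j ≠ c j := by
      by_contra hcon
      push Not at hcon
      exact h (funext hcon)
    obtain ⟨j, hj⟩ := h1
    refine (prod_eq_zero (mem_univ j) ?_).symm
    have h2 : ∀ x y : ZMod 2, x ≠ y → 1 + y + x = 0 := by decide
    exact h2 _ _ hj

theorem fA_single (cA : A → κ → ZMod 2) (j : κ) : fA cA (Pi.single j 1) = fun a => cA a j := by
  funext a
  rw [fA, sum_eq_single j]
  · rw [Pi.single_eq_same, mul_one]
  · intro i _ hi
    rw [Pi.single_eq_of_ne hi, mul_zero]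
  · exact fun h => absurd (mem_univ _) h

/-- What is used about the full sets. -/
structure FuX (cA : A → κ → ZMod 2) (U : Finset (LabP k)) (u : LabP k) : Prop where
  mx : MxP (tW U u)
  stb : ∀ φ, Stb (tW U u) (fA cA φ)
  mem : ∀ φ, fm (fA cA φ) u ∈ tW U u

theorem fuX {U : Finset (LabP k)} (h : U ∈ FullW (LSP ι k σ P m) (wX k cA)) {u : LabP k}
    (hu : u ∈ U) : FuX cA U u := by
  obtain ⟨⟨h1, h2⟩, h3⟩ := mem_FullX.1 h
  exact ⟨MxP_tW h1 h2 hu, fun φ => (stb_full h1 h2 (h3 φ) hu).1, fun φ =>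
    (stb_full h1 h2 (h3 φ) hu).2⟩

variable {U : Finset (LabP k)} {u : LabP k}

theorem FuX.stj (h : FuX cA U u) (j : κ) : Stb (tW U u) fun a => cA a j := by
  rw [← fA_single]
  exact h.stb _

theorem FuX.memj (h : FuX cA U u) (j : κ) : fm (fun a => cA a j) u ∈ tW U u := by
  rw [← fA_single]
  exact h.mem _

theorem FuX.ic_mem (h : FuX cA U u) {c : κ → ZMod 2} (hc : c ≠ 0) : fm (ic cA c) u ∈ tW U u := by
  have h1 : ∃ j, c j ≠ 0 := by
    by_contra hcon
    push Not at hcon
    exact hc (funext hcon)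
  obtain ⟨j0, hj0⟩ := h1
  rw [ic_eq, ← mul_prod_erase univ _ (mem_univ j0), mul_comm, fm_mul]
  refine Stb.prod _ _ (fun j _ => ?_) _ ?_
  · exact Stb.add h.mx (Stb.const h.mx _) (h.stj j)
  · have h2 : (fun a => 1 + c j0 + cA a j0) = fun a => cA a j0 := by
      funext a
      rw [zone hj0, z2_add_self, zero_add]
    rw [h2]
    exact h.memj j0

/-- The label of `U` which is trivial outside of the class `0`. -/
def ls (cA : A → κ → ZMod 2) (u : LabP k) : LabP k := fm (ic cA 0) u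

theorem ls_eq_zero (cA : A → κ → ZMod 2) (u : LabP k) {a : A} (ha : cA a ≠ 0) : ls cA u a = 0 := by
  show ic cA 0 a • u a = 0
  rw [ic, if_neg ha, zero_smul]

theorem FuX.ls_mem (h : FuX cA U u) : ls cA u ∈ U := by
  have h1 : ∀ s : Finset κ, fm (1 + ∏ j ∈ s, (fun a => 1 + cA a j)) u ∈ tW U u := by
    intro s
    induction s using Finset.induction_on with
    | empty =>
      rw [prod_empty]
      have h2 : (1 + 1 : A → ZMod 2) = 0 := funext fun _ => z2_add_self 1
      rw [h2, fm_zero]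
      exact h.mx.zero
    | insert j s hj ih =>
      rw [prod_insert hj]
      have h2 : (1 + (fun a => 1 + cA a j) * ∏ j ∈ s, (fun a => 1 + cA a j) : A → ZMod 2) =
          (1 + ∏ j ∈ s, (fun a => 1 + cA a j)) +
            (∏ j ∈ s, (fun a => 1 + cA a j)) * fun a => cA a j := by
        funext a
        simp only [Pi.add_apply, Pi.mul_apply, Pi.one_apply]
        ring
      rw [h2, fm_add, fm_mul]
      refine h.mx.add_mem ih (Stb.prod _ _ (fun i _ => ?_) _ (h.memj j))
      exact Stb.add h.mx Stb.one (h.stj i)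
  have h2 := h1 univ
  have h3 : (∏ j, (fun a => 1 + cA a j) : A → ZMod 2) = ic cA 0 := by
    rw [ic_eq]
    refine prod_congr rfl fun j _ => ?_
    funext a
    rw [Pi.zero_apply, add_zero]
  rw [h3, fm_add, fm_one, mem_tW] at h2
  have h4 : u + fm (ic cA 0) u + u = ls cA u := by
    have : u + fm (ic cA 0) u + u = fm (ic cA 0) u + (u + u) := by abel
    rw [this, lp_add_self, add_zero]
    rfl
  rwa [h4] at h2

theorem ls_mem_UA (h : FuX cA U u) (φ : κ → ZMod 2) : ls cA u ∈ UA (fA cA φ) U := by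
  refine mem_UA.2 ⟨h.ls_mem, fun a ha => ls_eq_zero cA u fun h0 => ha ?_⟩
  rw [fA, h0]
  exact sum_eq_zero fun j _ => by rw [Pi.zero_apply, zero_mul]

/-- **(2)** The quadratic form vanishes on every class which is not `0`. -/
theorem fullX_Q {U : Finset (LabP k)} (h : U ∈ FullW (LSP ι k σ P m) (wX k cA)) {l : LabP k}
    (hl : l ∈ U) {c : κ → ZMod 2} (hc : c ≠ 0) :
    ∑ a ∈ univ.filter (fun a => cA a = c), Q2 (l a) = 0 := by
  have h1 := fuX h hl
  have h2 := h1.mx.Q (h1.ic_mem hc)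
  rw [QP_fm] at h2
  rw [← h2, sum_filter]
  refine sum_congr rfl fun a _ => ?_
  rw [ic]
  split_ifs
  · rw [one_mul]
  · rw [zero_mul]

theorem fullX_rho {U : Finset (LabP k)} (h : U ∈ FullW (LSP ι k σ P m) (wX k cA)) {l : LabP k}
    (hl : l ∈ U) {ρ : (κ → ZMod 2) → ι → ZMod 2} (h0 : ρ 0 = 0) (q : ι) :
    ∑ a, Q2 (l a) * ρ (cA a) q = 0 := by
  rw [← sum_fiberwise univ cA fun a => Q2 (l a) * ρ (cA a) q]
  refine sum_eq_zero fun c _ => ?_
  have h1 : ∑ a ∈ univ.filter (fun a => cA a = c), Q2 (l a) * ρ (cA a) q =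
      (∑ a ∈ univ.filter (fun a => cA a = c), Q2 (l a)) * ρ c q := by
    rw [sum_mul]
    exact sum_congr rfl fun a ha => by rw [(mem_filter.1 ha).2]
  rw [h1]
  by_cases hc : c = 0
  · rw [hc, h0, Pi.zero_apply, mul_zero]
  · rw [fullX_Q h hl hc, zero_mul]

/-! ### The total factors -/

theorem TotX_eq (U : Finset (LabP k)) (φ : κ → ZMod 2) :
    TotW (LSP ι k σ P m) (wX k cA) U φ = ((wA k (fA cA φ) : ℝ) : ℂ) *
      ∑ l ∈ UA (fA cA φ) U, e2 (∑ j, cP σ P m l j * φ j) :=
  sum_wX (M := ℂ) cA U φ fun l => e2 (∑ j, cP σ P m l j * φ j)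

theorem norm_sum_e2_lt {L : Type} (S : Finset L) (f : L → ZMod 2) {l l' : L} (hl : l ∈ S)
    (hl' : l' ∈ S) (hne : f l ≠ f l') : ‖∑ x ∈ S, e2 (f x)‖ < S.card := by
  classical
  have h1 : l ≠ l' := fun h => hne (h ▸ rfl)
  have h2 : l' ∈ S.erase l := mem_erase.2 ⟨h1.symm, hl'⟩
  rw [← add_sum_erase S _ hl, ← add_sum_erase (S.erase l) _ h2, ← add_assoc]
  have h3 : e2 (f l) + e2 (f l') = 0 := by
    have h4 : f l' = f l + 1 := by
      have h5 : ∀ x y : ZMod 2, x ≠ y → y = x + 1 := by decide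
      exact h5 _ _ hne
    rw [h4, e2_add, e2_one]
    ring
  rw [h3, zero_add]
  have h6 : ((S.erase l).erase l').card + 1 = (S.erase l).card := card_erase_add_one h2
  have h7 : (S.erase l).card + 1 = S.card := card_erase_add_one hl
  calc ‖∑ x ∈ (S.erase l).erase l', e2 (f x)‖
      ≤ ∑ x ∈ (S.erase l).erase l', ‖e2 (f x)‖ := norm_sum_le _ _
    _ = ((S.erase l).erase l').card := by
        rw [sum_congr rfl fun x _ => norm_e2 _, sum_const, nsmul_eq_mul, mul_one]
    _ < S.card := by exact_mod_cast (by omega : ((S.erase l).erase l').card < S.card)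

/-- **(3)** -/
theorem totX {U : Finset (LabP k)} (h : U ∈ FullW (LSP ι k σ P m) (wX k cA)) :
    (∃ c : κ → ZMod 2, ∀ φ, TotW (LSP ι k σ P m) (wX k cA) U φ = e2 (∑ j, c j * φ j)) ∨
      ∃ φ, ‖TotW (LSP ι k σ P m) (wX k cA) U φ‖ < 1 := by
  obtain ⟨⟨h1, h2⟩, h3⟩ := mem_FullX.1 h
  have hne : U.Nonempty := by
    rw [← card_pos, h2]
    exact prod_pos fun a _ => by positivity
  obtain ⟨u, hu⟩ := hne
  have hF := fuX h hu
  by_cases hall : ∀ φ, ∀ l ∈ UA (fA cA φ) U, ∑ j, cP σ P m l j * φ j =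
      ∑ j, cP σ P m (ls cA u) j * φ j
  · refine Or.inl ⟨cP σ P m (ls cA u), fun φ => ?_⟩
    rw [TotX_eq, sum_congr rfl fun l hl => by rw [hall φ l hl], sum_const, nsmul_eq_mul,
      ← mul_assoc, h3 φ]
    have h4 : ((wA k (fA cA φ) : ℝ) : ℂ) *
        ((∏ a ∈ univ.filter (fun a => fA cA φ a = 0), 2 ^ k a : ℕ) : ℂ) = 1 := by
      exact_mod_cast congrArg (fun x : ℝ => (x : ℂ)) (wA_mul k (fA cA φ))
    rw [h4, one_mul]
  · push Not at hall
    obtain ⟨φ, l, hl, hne⟩ := hall
    refine Or.inr ⟨φ, ?_⟩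
    have h4 := norm_sum_e2_lt (UA (fA cA φ) U) (fun l => ∑ j, cP σ P m l j * φ j) hl
      (ls_mem_UA hF φ) hne
    rw [TotX_eq, norm_mul, Complex.norm_real, Real.norm_eq_abs, abs_of_pos (wA_pos k _),
      ← wA_mul k (fA cA φ), ← h3 φ]
    exact mul_lt_mul_of_pos_left h4 (wA_pos k _)

end Wt

end

end Pool.Agent.Lib.MP_1a91b9_ntM.E
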