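import Pool.Agent.Lib.MP_1a91b9_ntM.E.XExp

/-!
# Quadratic twists over the abelian extensions of exponent dividing `4`, part D: the joint moments in the
classes
-/

set_option autoImplicit false
set_option linter.unusedSectionVars false

namespace Pool.Agent.Lib.MP_1a91b9_ntM.E

open Finset Pool.Agent.Lib.MP_1a91b9_ntH Pool.Agent.Lib.MP_1a91b9_ntQ Pool.Agent.Lib.MP_1a91b9_ntQ.Da
  Pool.Agent.Lib.MP_1a91b9_ntQ.M Pool.Agent.Lib.MP_1a91b9_ntM

noncomputable section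

/-! ### From the characters to the classes -/

section Cls

variable {ι : Type} [DecidableEq ι] [PS ι] {G : Type} [AddCommGroup G] [Fintype G]

theorem cls_of (cl : ι → G) (γ : G) (Φ Ψ : Finset ι → ℂ)
    (h : ∀ (ψ : AddChar G ℂ) (ε : ℝ), 0 < ε → ∃ X₀ : ℕ, ∀ X : ℕ, X₀ ≤ X →
      ‖∑ B ∈ SF ∅ X, (∏ q ∈ B, ψ (cl q)) * Φ B - ∑ B ∈ SF ∅ X, (∏ q ∈ B, ψ (cl q)) * Ψ B‖ ≤
        ε * X) (ε : ℝ) (hε : 0 < ε) : ∃ X₀ : ℕ, ∀ X : ℕ, X₀ ≤ X →
      ‖∑ B ∈ SB ∅ cl γ X, Φ B - ∑ B ∈ SB ∅ cl γ X, Ψ B‖ ≤ ε * X := by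
  have hG : (0 : ℝ) < Fintype.card G := Nat.cast_pos.2 Fintype.card_pos
  choose X1 h1 using fun ψ : AddChar G ℂ => h ψ ε hε
  refine ⟨∑ ψ, X1 ψ, fun X hX => ?_⟩
  have hX1 : ∀ ψ, X1 ψ ≤ X := fun ψ =>
    (single_le_sum (fun _ _ => Nat.zero_le _) (mem_univ ψ)).trans hX
  rw [sum_SB, sum_SB, ← sub_div, ← sum_sub_distrib, norm_div, Complex.norm_natCast,
    div_le_iff₀ hG]
  refine (norm_sum_le _ _).trans ?_
  have hcard : (Fintype.card (AddChar G ℂ) : ℝ) = Fintype.card G := by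
    rw [AddChar.card_eq]
  calc _ ≤ ∑ _ψ : AddChar G ℂ, ε * X := by
        refine sum_le_sum fun ψ _ => ?_
        rw [← mul_sub, norm_mul, AddChar.norm_apply, one_mul]
        exact h1 ψ X (hX1 ψ)
    _ = ε * X * Fintype.card G := by
        rw [sum_const, card_univ, nsmul_eq_mul, hcard]
        ring

theorem SF_empty (X : ℕ) : SF (∅ : Finset ι) X = Sx ι X := by
  classical
  unfold SF
  exact filter_true_of_mem fun S _ => disjoint_empty_right S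

theorem SB_subset (cl : ι → G) (γ : G) (X : ℕ) : SB ∅ cl γ X ⊆ Sx ι X := fun _ hB =>
  (mem_SB.1 hB).1

end Cls

variable {A : Type} [Fintype A] [DecidableEq A] {k : A → ℕ} {ι : Type} [DecidableEq ι]
  {κ : Type} [Fintype κ] [DecidableEq κ] {E : A → Type} [∀ a, Fintype (E a)]
  [∀ a, DecidableEq (E a)]

/-- The class vectors which describe the factor `T`. -/
def GcX (T : (κ → ZMod 2) → ℂ) : Finset (κ → ZMod 2) := by
  classical exact univ.filter fun c => ∀ φ, T φ = e2 (∑ j, c j * φ j)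

theorem mem_GcX {T : (κ → ZMod 2) → ℂ} {c : κ → ZMod 2} :
    c ∈ GcX T ↔ ∀ φ, T φ = e2 (∑ j, c j * φ j) := by
  classical
  rw [GcX, mem_filter]
  exact ⟨fun h => h.2, fun h => ⟨mem_univ _, h⟩⟩

/-- **The label algebra** (to be proved for every family which satisfies `FamX`). -/
structure CntX (ι : Type) [DecidableEq ι] (k : A → ℕ) (cA σ : A → κ → ZMod 2)
    (P : ∀ a, κ → E a → ZMod 2) (R : ∀ a, Matrix (E a) (E a) (ZMod 2)) : Prop where
  wt : ∀ m : (∀ a, E a → Lab2 (k a)), WtX (LSP ι k σ P m) (wX k cA)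
  q0 : ∀ m : (∀ a, E a → Lab2 (k a)), ∀ U ∈ FullW (LSP ι k σ P m) (wX k cA), ∀ l ∈ U,
    ∀ c : κ → ZMod 2, c ≠ 0 → ∑ a ∈ univ.filter (fun a => cA a = c), Q2 (l a) = 0
  dich : ∀ m : (∀ a, E a → Lab2 (k a)), ∀ U ∈ FullW (LSP ι k σ P m) (wX k cA),
    (∃ c : κ → ZMod 2, ∀ φ, TotW (LSP ι k σ P m) (wX k cA) U φ = e2 (∑ j, c j * φ j)) ∨
    ∃ φ, ‖TotW (LSP ι k σ P m) (wX k cA) U φ‖ < 1
  cnt : ∀ α : κ → ZMod 2, (∑ m : (∀ a, E a → Lab2 (k a)), (∏ a, e2 (RF (R a) (m a))) *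
      ∑ U ∈ FullW (LSP ι k σ P m) (wX k cA), ∑ c ∈ GcX (TotW (LSP ι k σ P m) (wX k cA) U),
        e2 (∑ j, c j * α j)) =
    ∏ a, ((Nk2 (k a) : ℂ) * (tX cA σ P R α a : ℂ) ^ k a * ((2 : ℂ) ^ k a) ^ Fintype.card (E a))

theorem qX_zero {cA σ : A → κ → ZMod 2} {P : ∀ a, κ → E a → ZMod 2}
    {R : ∀ a, Matrix (E a) (E a) (ZMod 2)} (hC : CntX ι k cA σ P R)
    {ρ : (κ → ZMod 2) → ι → ZMod 2} (h0 : ρ 0 = 0) (m : ∀ a, E a → Lab2 (k a))
    (U : Finset (LabP k)) (hU : U ∈ FullW (LSP ι k σ P m) (wX k cA)) (l : LabP k) (hl : l ∈ U)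
    (q : ι) : qX ρ cA l q = 0 := by
  classical
  unfold qX
  have h1 : ∑ a, Q2 (l a) * ρ (cA a) q =
      ∑ c : κ → ZMod 2, (∑ a ∈ univ.filter (fun a => cA a = c), Q2 (l a)) * ρ c q := by
    rw [← sum_fiberwise univ cA fun a => Q2 (l a) * ρ (cA a) q]
    refine sum_congr rfl fun c _ => ?_
    rw [sum_mul]
    exact sum_congr rfl fun a ha => by rw [(mem_filter.1 ha).2]
  rw [h1]
  refine sum_eq_zero fun c _ => ?_
  by_cases hc : c = 0
  · rw [hc, h0, Pi.zero_apply, mul_zero]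
  · rw [hC.q0 m U hU l hl c hc, zero_mul]

theorem norm_TotW_le {L : Type} [Fintype L] [DecidableEq L] {Λ : LS2 L ι κ}
    {w : L → (κ → ZMod 2) → ℝ} (hw : WtX Λ w) {U : Finset L} (hU : U ∈ FullW Λ w)
    (φ : κ → ZMod 2) : ‖TotW Λ w U φ‖ ≤ 1 := by
  unfold TotW
  refine (norm_sum_le _ _).trans (le_of_eq ?_)
  rw [← (mem_FullW.1 hU).2 φ]
  refine sum_congr rfl fun l _ => ?_
  rw [norm_mul, norm_e2, mul_one, Complex.norm_real, Real.norm_eq_abs, abs_of_nonneg (hw.nonneg _ _)]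

variable [PS ι]

/-- The weighted mean values of the products of the sizes of the kernels. -/
theorem MoX_lim {D : Dat2 ι κ} (hs : D.Sym) (hE : EngX D) {ρ : (κ → ZMod 2) → ι → ZMod 2}
    (h0 : ρ 0 = 0) {cA σ : A → κ → ZMod 2} {P : ∀ a, κ → E a → ZMod 2}
    {R : ∀ a, Matrix (E a) (E a) (ZMod 2)} (hC : CntX ι k cA σ P R) (hk : ∃ a, 1 ≤ k a)
    {g : ι → ℂ} (hg : ∀ q, ‖g q‖ = 1) (ε : ℝ) (hε : 0 < ε) :
    ∃ X₀ : ℕ, ∀ X : ℕ, X₀ ≤ X →
      ‖∑ B ∈ SF ∅ X, (∏ q ∈ B, g q) * ((∏ a, (kX D ρ cA σ P R a B : ℂ) ^ k a) *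
          ∏ a, ((2 : ℂ) ^ k a) ^ Fintype.card (E a)) -
        ∑ B ∈ SF ∅ X, (∏ q ∈ B, g q) * ∑ m : (∀ a, E a → Lab2 (k a)),
          (∏ a, e2 (RF (R a) (m a))) * ∑ U ∈ FullW (LSP ι k σ P m) (wX k cA),
            ∏ q ∈ B, TotW (LSP ι k σ P m) (wX k cA) U (D.a q)‖ ≤ ε * X := by
  have hN : (0 : ℝ) < Fintype.card (∀ a, E a → Lab2 (k a)) := by
    exact_mod_cast Fintype.card_pos
  choose X0 h1 using fun m : (∀ a, E a → Lab2 (k a)) =>
    hE (LabP k) (LSP ι k σ P m) (wX k cA) (LSP_OK σ P m hk) rfl (hC.wt m) (qX ρ cA)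
      (fun U hU l hl q => qX_zero hC h0 m U hU l hl q) g hg
      (ε / Fintype.card (∀ a, E a → Lab2 (k a))) (by positivity)
  refine ⟨∑ m, X0 m, fun X hX => ?_⟩
  have hXt : ∀ m, X0 m ≤ X := fun m =>
    (single_le_sum (fun _ _ => Nat.zero_le _) (mem_univ m)).trans hX
  have e1 : ∑ B ∈ SF ∅ X, (∏ q ∈ B, g q) * ((∏ a, (kX D ρ cA σ P R a B : ℂ) ^ k a) *
      ∏ a, ((2 : ℂ) ^ k a) ^ Fintype.card (E a)) =
      ∑ m : (∀ a, E a → Lab2 (k a)), (∏ a, e2 (RF (R a) (m a))) *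
        EnX D (LSP ι k σ P m) (wX k cA) (qX ρ cA) g X := by
    simp only [EnX, mul_sum]
    rw [SF_empty, sum_comm (s := univ) (t := Sx ι X)]
    refine sum_congr rfl fun B _ => ?_
    rw [kX_prod hs, mul_sum]
    refine sum_congr rfl fun m _ => ?_
    rw [mul_sum, mul_sum]
    refine sum_congr rfl fun f _ => ?_
    ring
  have e2' : ∑ B ∈ SF ∅ X, (∏ q ∈ B, g q) * ∑ m : (∀ a, E a → Lab2 (k a)),
      (∏ a, e2 (RF (R a) (m a))) * ∑ U ∈ FullW (LSP ι k σ P m) (wX k cA),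
        ∏ q ∈ B, TotW (LSP ι k σ P m) (wX k cA) U (D.a q) =
      ∑ m : (∀ a, E a → Lab2 (k a)), (∏ a, e2 (RF (R a) (m a))) *
        ∑ U ∈ FullW (LSP ι k σ P m) (wX k cA), ∑ B ∈ Sx ι X,
          ∏ q ∈ B, g q * TotW (LSP ι k σ P m) (wX k cA) U (D.a q) := by
    simp only [mul_sum]
    rw [SF_empty, sum_comm]
    refine sum_congr rfl fun m _ => ?_
    rw [sum_comm]
    refine sum_congr rfl fun U _ => sum_congr rfl fun B _ => ?_
    rw [prod_mul_distrib]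
    ring
  rw [e1, e2', ← sum_sub_distrib]
  calc _ ≤ ∑ m : (∀ a, E a → Lab2 (k a)), ε / Fintype.card (∀ a, E a → Lab2 (k a)) * X := by
        refine (norm_sum_le _ _).trans (sum_le_sum fun m _ => ?_)
        rw [← mul_sub, norm_mul, norm_prod, prod_congr rfl fun a _ => norm_e2 _, prod_const_one,
          one_mul]
        exact h1 m X (hXt m)
    _ = ε * X := by
        rw [sum_const, card_univ, nsmul_eq_mul]
        field_simp

variable {G : Type} [AddCommGroup G] [Fintype G]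

theorem prod_good {D : Dat2 ι κ} (C : Cl2 D G) {γ : G} {X : ℕ} {B : Finset ι}
    (hB : B ∈ SB ∅ C.cl γ X) {T : (κ → ZMod 2) → ℂ} {c : κ → ZMod 2}
    (h : ∀ φ, T φ = e2 (∑ j, c j * φ j)) :
    ∏ q ∈ B, T (D.a q) = e2 (∑ j, c j * C.A j γ) := by
  rw [prod_congr rfl fun q _ => h (D.a q), ← e2_sum, sum_comm]
  congr 1
  refine sum_congr rfl fun j _ => ?_
  rw [← mul_sum, ← (mem_SB.1 hB).2.2, map_sum]
  congr 1
  exact sum_congr rfl fun q _ => C.ha q j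

theorem e2_ext {c c' : κ → ZMod 2} (h : ∀ φ : κ → ZMod 2, e2 (∑ j, c j * φ j) =
    e2 (∑ j, c' j * φ j)) : c = c' := by
  funext j
  have h1 := h (Pi.single j 1)
  simp only [Pi.single_apply, mul_ite, mul_one, mul_zero, sum_ite_eq', mem_univ, if_true] at h1
  rcases z2 (c j) with h2 | h2 <;> rcases z2 (c' j) with h3 | h3 <;> rw [h2, h3] at h1 ⊢
  · exact absurd h1 (by rw [e2_zero, e2_one]; norm_num)
  · exact absurd h1 (by rw [e2_zero, e2_one]; norm_num)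

/-- The joint moments of the sizes in a class. -/
theorem sum_kX {D : Dat2 ι κ} (hs : D.Sym) (hE : EngX D) (hB : BadX D)
    {ρ : (κ → ZMod 2) → ι → ZMod 2} (h0 : ρ 0 = 0) {cA σ : A → κ → ZMod 2}
    {P : ∀ a, κ → E a → ZMod 2} {R : ∀ a, Matrix (E a) (E a) (ZMod 2)}
    (hC : CntX ι k cA σ P R) (hk : ∃ a, 1 ≤ k a) (C : Cl2 D G) (γ : G) (ε : ℝ) (hε : 0 < ε) :
    ∃ X₀ : ℕ, ∀ X : ℕ, X₀ ≤ X →
      |∑ B ∈ SB ∅ C.cl γ X, ∏ a, (kX D ρ cA σ P R a B : ℝ) ^ k a -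
        (∏ a, (tX cA σ P R (fun j => C.A j γ) a : ℝ) ^ k a) * (∏ a, (Nk2 (k a) : ℝ)) *
          (SB ∅ C.cl γ X).card| ≤ ε * X := by
  classical
  set α : κ → ZMod 2 := fun j => C.A j γ with hα
  set W : ℝ := ∏ a, ((2 : ℝ) ^ k a) ^ Fintype.card (E a) with hW
  have hW1 : 1 ≤ W := by
    rw [hW]
    calc (1 : ℝ) = ∏ _a : A, (1 : ℝ) := prod_const_one.symm
      _ ≤ _ := prod_le_prod (fun _ _ => zero_le_one) fun a _ =>
        one_le_pow₀ (one_le_pow₀ (by norm_num))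
  have hWc : ((W : ℝ) : ℂ) = ∏ a, ((2 : ℂ) ^ k a) ^ Fintype.card (E a) := by
    rw [hW]
    push_cast
    rfl
  -- the sets
  set FU : (∀ a, E a → Lab2 (k a)) → Finset (Finset (LabP k)) := fun m =>
    FullW (LSP ι k σ P m) (wX k cA) with hFU
  set T : (∀ a, E a → Lab2 (k a)) → Finset (LabP k) → (κ → ZMod 2) → ℂ := fun m U φ =>
    TotW (LSP ι k σ P m) (wX k cA) U φ with hT
  set gd : (∀ a, E a → Lab2 (k a)) → Finset (LabP k) → Prop := fun m U =>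
    ∃ c : κ → ZMod 2, ∀ φ, T m U φ = e2 (∑ j, c j * φ j) with hgd
  have hcard : 0 < Fintype.card (∀ a, E a → Lab2 (k a)) := Fintype.card_pos
  set N : ℝ := Fintype.card (∀ a, E a → Lab2 (k a)) * Fintype.card (Finset (LabP k)) with hN
  have hN0 : 0 < N := by
    have h1 : (0 : ℝ) < Fintype.card (∀ a, E a → Lab2 (k a)) := by exact_mod_cast hcard
    have h2 : (0 : ℝ) < Fintype.card (Finset (LabP k)) := by exact_mod_cast Fintype.card_pos
    positivity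
  -- the bad sets
  have hbad : ∀ (m : ∀ a, E a → Lab2 (k a)) (U : Finset (LabP k)), ∃ X₀ : ℕ, ∀ X : ℕ, X₀ ≤ X →
      U ∈ FU m → ¬ gd m U → ‖∑ B ∈ SB ∅ C.cl γ X, ∏ q ∈ B, T m U (D.a q)‖ ≤ ε / 2 / N * X := by
    intro m U
    by_cases hU : U ∈ FU m ∧ ¬ gd m U
    · obtain ⟨X₀, h1⟩ := hB (fun φ => ‖T m U φ‖) (fun φ => norm_nonneg _)
        (fun φ => norm_TotW_le (hC.wt m) hU.1 φ) ((hC.dich m U hU.1).resolve_left hU.2)
        (ε / 2 / N) (by positivity)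
      refine ⟨X₀, fun X hX _ _ => ?_⟩
      refine (norm_sum_le _ _).trans (le_trans ?_ (h1 X hX))
      refine (sum_le_sum_of_subset_of_nonneg (SB_subset C.cl γ X) fun _ _ _ =>
        norm_nonneg _).trans (sum_le_sum fun B _ => ?_)
      rw [norm_prod]
    · exact ⟨0, fun X _ h1 h2 => absurd ⟨h1, h2⟩ hU⟩
  choose X1 hX1 using hbad
  obtain ⟨X2, hX2⟩ := cls_of C.cl γ
    (fun B => (∏ a, (kX D ρ cA σ P R a B : ℂ) ^ k a) *
          ∏ a, ((2 : ℂ) ^ k a) ^ Fintype.card (E a))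
    (fun B => ∑ m : (∀ a, E a → Lab2 (k a)), (∏ a, e2 (RF (R a) (m a))) *
      ∑ U ∈ FU m, ∏ q ∈ B, T m U (D.a q))
    (fun ψ ε' hε' => MoX_lim hs hE h0 hC hk (g := fun q => ψ (C.cl q))
      (fun q => AddChar.norm_apply ψ _) ε' hε') (ε / 2) (by positivity)
  refine ⟨X2 + ∑ m, ∑ U, X1 m U, fun X hX => ?_⟩
  have hXa : X2 ≤ X := (Nat.le_add_right _ _).trans hX
  have hXb : ∀ m U, X1 m U ≤ X := fun m U =>
    (single_le_sum (f := fun U => X1 m U) (fun _ _ => Nat.zero_le _) (mem_univ U)).trans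
      ((single_le_sum (f := fun m => ∑ U, X1 m U) (fun _ _ => Nat.zero_le _)
        (mem_univ m)).trans ((Nat.le_add_left _ _).trans hX))
  have h1 := hX2 X hXa
  -- the good sets
  have h2 : ∀ (m : ∀ a, E a → Lab2 (k a)), ∑ U ∈ FU m, ∑ B ∈ SB ∅ C.cl γ X,
      ∏ q ∈ B, T m U (D.a q) =
      (∑ U ∈ FU m, ∑ c ∈ GcX (T m U), e2 (∑ j, c j * α j)) * (SB ∅ C.cl γ X).card +
      ∑ U ∈ FU m, if gd m U then 0 else ∑ B ∈ SB ∅ C.cl γ X, ∏ q ∈ B, T m U (D.a q) := by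
    intro m
    rw [sum_mul, ← sum_add_distrib]
    refine sum_congr rfl fun U hU => ?_
    by_cases hg : gd m U
    · obtain ⟨c, hc⟩ := hg
      have h3 : GcX (T m U) = {c} := by
        ext c'
        rw [mem_GcX, mem_singleton]
        constructor
        · intro h4
          exact e2_ext fun φ => by rw [← h4 φ, hc φ]
        · rintro rfl
          exact hc
      rw [if_pos ⟨c, hc⟩, add_zero, h3, sum_singleton,
        sum_congr rfl fun B hB' => prod_good C hB' hc, sum_const, nsmul_eq_mul, mul_comm]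
    · have h3 : GcX (T m U) = ∅ := by
        rw [eq_empty_iff_forall_notMem]
        exact fun c hc => hg ⟨c, mem_GcX.1 hc⟩
      rw [if_neg hg, h3, sum_empty, zero_mul, zero_add]
  have h3 : ∑ B ∈ SB ∅ C.cl γ X, ∑ m : (∀ a, E a → Lab2 (k a)), (∏ a, e2 (RF (R a) (m a))) *
      ∑ U ∈ FU m, ∏ q ∈ B, T m U (D.a q) =
      (∏ a, ((Nk2 (k a) : ℂ) * (tX cA σ P R α a : ℂ) ^ k a *
        ((2 : ℂ) ^ k a) ^ Fintype.card (E a))) * (SB ∅ C.cl γ X).card +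
      ∑ m : (∀ a, E a → Lab2 (k a)), (∏ a, e2 (RF (R a) (m a))) *
        ∑ U ∈ FU m, if gd m U then 0 else ∑ B ∈ SB ∅ C.cl γ X, ∏ q ∈ B, T m U (D.a q) := by
    rw [← hC.cnt α, sum_mul, ← sum_add_distrib, sum_comm]
    refine sum_congr rfl fun m _ => ?_
    rw [← mul_sum, sum_comm, h2 m]
    ring
  have h4 : ‖∑ m : (∀ a, E a → Lab2 (k a)), (∏ a, e2 (RF (R a) (m a))) *
      ∑ U ∈ FU m, if gd m U then 0 else
        ∑ B ∈ SB ∅ C.cl γ X, ∏ q ∈ B, T m U (D.a q)‖ ≤ ε / 2 * X := by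
    calc _ ≤ ∑ m : (∀ a, E a → Lab2 (k a)), ∑ U : Finset (LabP k), ε / 2 / N * X := by
          refine (norm_sum_le _ _).trans (sum_le_sum fun m _ => ?_)
          rw [norm_mul, norm_prod, prod_congr rfl fun a _ => norm_e2 _, prod_const_one, one_mul]
          refine (norm_sum_le _ _).trans ?_
          refine le_trans (sum_le_sum (g := fun _ => ε / 2 / N * X) fun U hU => ?_)
            (sum_le_sum_of_subset_of_nonneg (subset_univ _) fun _ _ _ => by positivity)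
          by_cases hg : gd m U
          · rw [if_pos hg, norm_zero]
            positivity
          · rw [if_neg hg]
            exact hX1 m U X (hXb m U) hU hg
      _ = ε / 2 * X := by
          rw [sum_const, sum_const, card_univ, card_univ, nsmul_eq_mul, nsmul_eq_mul, ← mul_assoc,
            ← hN]
          field_simp
  have h5 : ((∑ B ∈ SB ∅ C.cl γ X, ∏ a, (kX D ρ cA σ P R a B : ℝ) ^ k a -
      (∏ a, (tX cA σ P R α a : ℝ) ^ k a) * (∏ a, (Nk2 (k a) : ℝ)) *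
        (SB ∅ C.cl γ X).card : ℝ) : ℂ) * W =
      (∑ B ∈ SB ∅ C.cl γ X, (∏ a, (kX D ρ cA σ P R a B : ℂ) ^ k a) *
          ∏ a, ((2 : ℂ) ^ k a) ^ Fintype.card (E a)) -
      (∏ a, ((Nk2 (k a) : ℂ) * (tX cA σ P R α a : ℂ) ^ k a *
        ((2 : ℂ) ^ k a) ^ Fintype.card (E a))) * (SB ∅ C.cl γ X).card := by
    rw [← sum_mul, ← hWc, prod_mul_distrib, prod_mul_distrib, ← hWc]
    push_cast
    ring
  have h6 : ‖((∑ B ∈ SB ∅ C.cl γ X, ∏ a, (kX D ρ cA σ P R a B : ℝ) ^ k a -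
      (∏ a, (tX cA σ P R α a : ℝ) ^ k a) * (∏ a, (Nk2 (k a) : ℝ)) *
        (SB ∅ C.cl γ X).card : ℝ) : ℂ) * W‖ ≤ ε * X := by
    rw [h5]
    have h7 : (∑ B ∈ SB ∅ C.cl γ X, (∏ a, (kX D ρ cA σ P R a B : ℂ) ^ k a) *
          ∏ a, ((2 : ℂ) ^ k a) ^ Fintype.card (E a)) -
      (∏ a, ((Nk2 (k a) : ℂ) * (tX cA σ P R α a : ℂ) ^ k a *
        ((2 : ℂ) ^ k a) ^ Fintype.card (E a))) * (SB ∅ C.cl γ X).card =
      ((∑ B ∈ SB ∅ C.cl γ X, (∏ a, (kX D ρ cA σ P R a B : ℂ) ^ k a) *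
          ∏ a, ((2 : ℂ) ^ k a) ^ Fintype.card (E a)) -
        ∑ B ∈ SB ∅ C.cl γ X, ∑ m : (∀ a, E a → Lab2 (k a)), (∏ a, e2 (RF (R a) (m a))) *
          ∑ U ∈ FU m, ∏ q ∈ B, T m U (D.a q)) +
      ∑ m : (∀ a, E a → Lab2 (k a)), (∏ a, e2 (RF (R a) (m a))) *
        ∑ U ∈ FU m, if gd m U then 0 else
          ∑ B ∈ SB ∅ C.cl γ X, ∏ q ∈ B, T m U (D.a q) := by
      rw [h3]
      ring
    rw [h7]
    refine (norm_add_le _ _).trans ((add_le_add h1 h4).trans (le_of_eq ?_))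
    ring
  rw [norm_mul, Complex.norm_real, Complex.norm_real, Real.norm_eq_abs, Real.norm_eq_abs,
    abs_of_pos (by linarith : 0 < W)] at h6
  exact (le_mul_of_one_le_right (abs_nonneg _) hW1).trans h6

/-- **The joint moments of the normalised sizes.** -/
theorem mvX {D : Dat2 ι κ} (hs : D.Sym) (hE : EngX D) (hB : BadX D)
    {ρ : (κ → ZMod 2) → ι → ZMod 2} (h0 : ρ 0 = 0)
    (hC : ∀ (A : Type) [Fintype A] [DecidableEq A] (E : A → Type) [∀ a, Fintype (E a)]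
      [∀ a, DecidableEq (E a)] (k : A → ℕ) (cA σ : A → κ → ZMod 2) (P : ∀ a, κ → E a → ZMod 2)
      (R : ∀ a, Matrix (E a) (E a) (ZMod 2)), FamX cA σ P R → (∃ a, 1 ≤ k a) →
      CntX ι k cA σ P R) : MVX D ρ := by
  classical
  intro A _ _ E _ _ cA σ P R hF G _ _ C γ k
  by_cases hk : ∃ a, 1 ≤ k a
  · set α : κ → ZMod 2 := fun j => C.A j γ with hα
    intro ε hε
    set F : Finset ι → ℝ := fun B => ∏ a, (nX D ρ cA σ P R α a B : ℝ) ^ k a with hF'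
    set T : ℝ := ∏ a, (tX cA σ P R α a : ℝ) ^ k a with hT
    have ht1 : ∀ a, (1 : ℝ) ≤ tX cA σ P R α a := by
      intro a
      rcases tX_cases cA σ P R α a with h | h <;> rw [h] <;> norm_num
    have hT1 : 1 ≤ T := by
      calc (1 : ℝ) = ∏ _a : A, (1 : ℝ) := prod_const_one.symm
        _ ≤ _ := prod_le_prod (fun _ _ => zero_le_one) fun a _ => one_le_pow₀ (ht1 a)
    obtain ⟨X0, h1⟩ := sum_kX hs hE hB h0 (hC A E k cA σ P R hF hk) hk C γ (ε / 2)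
      (by positivity)
    have hmul : ∀ X : ℕ, ∀ B ∈ SB ∅ C.cl γ X, B ≠ ∅ →
        ∏ a, (kX D ρ cA σ P R a B : ℝ) ^ k a = T * F B := by
      intro X B hB' hne
      rw [hT, hF', ← prod_mul_distrib]
      refine prod_congr rfl fun a _ => ?_
      have h2 : ∀ j, ∑ q ∈ B, D.a q j = α j := by
        intro j
        show _ = C.A j γ
        rw [← (mem_SB.1 hB').2.2, map_sum]
        exact sum_congr rfl fun q _ => C.ha q j
      rw [kX_mul h0 cA σ P R (α := α) a hne h2]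
      push_cast
      rw [mul_pow]
    set M : ℝ := |T * F ∅ - ∏ a, (kX D ρ cA σ P R a ∅ : ℝ) ^ k a| with hM
    obtain ⟨X1, hX1⟩ := exists_nat_gt (2 * M / ε)
    refine ⟨max X0 X1, fun X hX => ?_⟩
    have h2 := h1 X (le_trans (le_max_left _ _) hX)
    have h3' : M ≤ ε / 2 * X := by
      have h4 : (X1 : ℝ) ≤ X := by exact_mod_cast le_trans (le_max_right _ _) hX
      have h5 := hX1.le.trans h4
      rw [div_le_iff₀ hε] at h5
      linarith
    have h6 : |T * ∑ B ∈ SB ∅ C.cl γ X, F B -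
        ∑ B ∈ SB ∅ C.cl γ X, ∏ a, (kX D ρ cA σ P R a B : ℝ) ^ k a| ≤ M := by
      rw [mul_sum, ← sum_sub_distrib]
      have h7 : ∀ B ∈ SB ∅ C.cl γ X, B ≠ ∅ →
          T * F B - ∏ a, (kX D ρ cA σ P R a B : ℝ) ^ k a = 0 := by
        intro B hB' hne
        rw [hmul X B hB' hne, sub_self]
      have h8 : ∑ B ∈ SB ∅ C.cl γ X, (T * F B - ∏ a, (kX D ρ cA σ P R a B : ℝ) ^ k a) =
          if (∅ : Finset ι) ∈ SB ∅ C.cl γ X then
            T * F ∅ - ∏ a, (kX D ρ cA σ P R a ∅ : ℝ) ^ k a else 0 := by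
        split_ifs with hm
        · exact sum_eq_single_of_mem ∅ hm fun B hB' hne => h7 B hB' hne
        · exact sum_eq_zero fun B hB' => h7 B hB' fun h => hm (h ▸ hB')
      rw [h8]
      split_ifs with hm
      · exact le_of_eq hM.symm
      · rw [abs_zero]
        exact abs_nonneg _
    have h9 : |T * (∑ B ∈ SB ∅ C.cl γ X, F B -
        (∏ a, (Nk2 (k a) : ℝ)) * (SB ∅ C.cl γ X).card)| ≤ ε * X := by
      have e : T * (∑ B ∈ SB ∅ C.cl γ X, F B -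
          (∏ a, (Nk2 (k a) : ℝ)) * (SB ∅ C.cl γ X).card) =
          (T * ∑ B ∈ SB ∅ C.cl γ X, F B -
            ∑ B ∈ SB ∅ C.cl γ X, ∏ a, (kX D ρ cA σ P R a B : ℝ) ^ k a) +
          (∑ B ∈ SB ∅ C.cl γ X, ∏ a, (kX D ρ cA σ P R a B : ℝ) ^ k a -
            T * (∏ a, (Nk2 (k a) : ℝ)) * (SB ∅ C.cl γ X).card) := by
        ring
      rw [e]
      refine (abs_add_le _ _).trans ?_
      linarith
    rw [abs_mul, abs_of_pos (by linarith : 0 < T)] at h9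
    exact (le_mul_of_one_le_left (abs_nonneg _) hT1).trans h9
  · push Not at hk
    have hk0 : ∀ a, k a = 0 := fun a => by
      have := hk a
      omega
    intro ε hε
    refine ⟨0, fun X _ => ?_⟩
    simp only [hk0, pow_zero, prod_const_one, sum_const, nsmul_eq_mul, mul_one]
    have h2 : (Nk2 0 : ℝ) = 1 := by simp [Nk2]
    rw [h2]
    simp
    positivity

end

end Pool.Agent.Lib.MP_1a91b9_ntM.E
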