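import Pool.Agent.Lib.MP_1a91b9_ntM.E.XDef

/-!
# Quadratic twists over the abelian extensions of exponent dividing `4`, part D: the matrices of the
elements `dB`, definitions
-/

set_option autoImplicit false
set_option linter.unusedSectionVars false

namespace Pool.Agent.Lib.MP_1a91b9_ntM.E

open Finset NumberField Pool.Agent.Lib.MP_1a91b9_ntH Pool.Agent.Lib.MP_1a91b9_ntQ
  Pool.Agent.Lib.MP_1a91b9_ntQ.Da Pool.Agent.Lib.MP_1a91b9_ntQ.M Pool.Agent.Lib.MP_1a91b9_ntM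

noncomputable section

/-- the second binary digit of `k` -/
def hk (k : ZMod 4) : ZMod 2 := if 2 ≤ k.val then 1 else 0

/-- the second binary digit of `j` -/
def hj (j : Fin 4) : ZMod 2 := if 2 ≤ j.val then 1 else 0

/-- The class vector of the element modulo squares (the activity character). -/
def cX (P : Finset Pg) (x : DD8) : Fin 2 ⊕ P → ZMod 2 := coB P (x.S ∪ x.T) (kvB x.k x.j)

/-- The class vector of the square root of the quotient of the element by the element `rX` of the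
same class. -/
def sX (P : Finset Pg) (x : DD8) : Fin 2 ⊕ P → ZMod 2 :=
  coB P (x.T ∪ x.B) ![hk x.k, hj x.j]

/-- The primes of a class vector. -/
def pX (P : Finset Pg) (c : Fin 2 ⊕ P → ZMod 2) : Finset Pg :=
  (univ.filter fun p : P => c (Sum.inr p) = 1).map (Function.Embedding.subtype _)

/-- The element of the class with the simplest data. -/
def rX (P : Finset Pg) (c : Fin 2 ⊕ P → ZMod 2) : 𝓞 K4 :=
  dB (if c (Sum.inl 0) = 1 then 1 else 0) (if c (Sum.inl 1) = 1 then 1 else 0) (pX P c) ∅ ∅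

/-- The half of the biquadratic symbol. -/
def ρX (P : Finset Pg) (c : Fin 2 ⊕ P → ZMod 2) (q : Off P) : ZMod 2 :=
  if c = 0 then 0 else hf4 (c4 q.1 (rX P c))

/-- **The translation for the elements which are not squares**: the criteria for `x` and for `x.inv` in a
class. -/
def TrX : Prop := ∃ m0 : ℕ, ∀ m : ℕ, m0 ≤ m → ∀ (x : DD8) (P : Finset Pg), Dj x.S x.T x.B →
  (x.S ⊆ P ∧ x.T ⊆ P ∧ x.B ⊆ P) → ¬ x.Sq → ∀ g : GB m P,
  ∃ (E : Type) (_ : Fintype E) (_ : DecidableEq E) (Pm : Fin 2 ⊕ P → E → ZMod 2)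
    (R R' : Matrix E E (ZMod 2)),
    (∀ (y : E → ZMod 2) (t : ZMod 2), (∀ j, ∑ e, Pm j e * y e = t * cX P x j) → y = 0) ∧
    (∀ e f, R e f = R f e) ∧ (R' = R ∨ ∃ z, R' = R + Matrix.single z z 1) ∧
    ∀ X : Finset (Off P), ∑ q ∈ X, (CclB m P).cl q = g →
      (kW (d4.off P) (cX P x) Pm R (rho (d4.off P) (ρX P (cX P x)) (sX P x)) ∅ X = 1 →
        GdB x.k x.j x.S x.T (x.B ∪ up X)) ∧
      (kW (d4.off P) (cX P x) Pm R' (rho (d4.off P) (ρX P (cX P x)) (sX P x)) ∅ X = 1 →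
        GdB x.inv.k x.inv.j x.inv.S x.inv.T (x.inv.B ∪ up X))

open Classical in
/-- **The translation for the squares.** -/
def TrSq : Prop := ∃ m0 : ℕ, ∀ m : ℕ, m0 ≤ m → ∀ (x : DD8) (P : Finset Pg), Dj x.S x.T x.B →
  (x.S ⊆ P ∧ x.T ⊆ P ∧ x.B ⊆ P) → x.Sq → ∀ g : GB m P,
  ∃ (E : Type) (_ : Fintype E) (_ : DecidableEq E) (Pm : Fin 2 ⊕ P → E → ZMod 2)
    (R : Matrix E E (ZMod 2)),
    (∀ y : E → ZMod 2, (∀ j, ∑ e, Pm j e * y e = 0) → y = 0) ∧ (∀ e f, R e f = R f e) ∧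
    ∀ X : Finset (Off P), X ≠ ∅ → ∑ q ∈ X, (CclB m P).cl q = g →
      kW (d4.off P) 0 Pm R (rho (d4.off P) 0 (sX P x)) ∅ X =
        (if Triv (sX P x) Pm R (fun j => (CclB m P).A j g) then 2 else 1) →
      Gd5 x.sk x.sj (x.B ∪ up X)

end

end Pool.Agent.Lib.MP_1a91b9_ntM.E
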